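import Mathlib

/-!
A Landis type (Morse-Sard for exponent two) lemma.
-/

open Set Filter Topology MeasureTheory Metric
open scoped ENNReal NNReal

namespace Pool.Agent.Lib.Mane

section Chain

variable {E : Type*} [NormedAddCommGroup E] [NormedSpace ℝ E]

/-- A point chain inside `Z` from `x` to `z` with small steps. -/
lemma chain_estimate {Z : Set E} {σ : E → ℝ} {C : ℝ} (hC : 0 ≤ C)
    (hσ : ∀ z ∈ Z, ∀ z' ∈ Z, |σ z - σ z'| ≤ C * ‖z - z'‖ ^ 2)
    {x z : E} (hx : x ∈ Z) (hz : z ∈ Z) {r : ℝ} (hr : 0 < r) {m : ℕ} (hm : 0 < m)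
    (hxz : ‖z - x‖ ≤ r)
    (hdense : ∀ y : E, ‖y - x‖ ≤ r → ∃ w ∈ Z, ‖w - y‖ ≤ r / m) :
    |σ z - σ x| ≤ 9 * C * r ^ 2 / m := by
  have hm' : (0:ℝ) < m := by exact_mod_cast hm
  have hρ : 0 < r / m := by positivity
  -- intermediate points
  let y : ℕ → E := fun k => x + ((k:ℝ) / m) • (z - x)
  have hy : ∀ k ≤ m, ‖y k - x‖ ≤ r := by
    intro k hk
    have : y k - x = ((k:ℝ) / m) • (z - x) := by simp [y]
    rw [this, norm_smul]
    have h1 : ‖(k:ℝ) / m‖ ≤ 1 := by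
      rw [Real.norm_of_nonneg (by positivity)]
      rw [div_le_one hm']
      exact_mod_cast hk
    calc ‖(k:ℝ) / m‖ * ‖z - x‖ ≤ 1 * r := by
          apply mul_le_mul h1 hxz (norm_nonneg _) zero_le_one
      _ = r := one_mul r
  have hex : ∀ k : ℕ, ∃ w, (k ≤ m → (w ∈ Z ∧ ‖w - y k‖ ≤ r / m)) ∧ (k = 0 → w = x) ∧ (k = m → w = z) := by
    intro k
    by_cases h0 : k = 0
    · refine ⟨x, fun _ => ⟨hx, ?_⟩, fun _ => rfl, fun h => ?_⟩
      · simp [y, h0]; positivity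
      · omega
    · by_cases hkm : k = m
      · refine ⟨z, fun _ => ⟨hz, ?_⟩, fun h => absurd h h0, fun _ => rfl⟩
        subst hkm
        have : y k = z := by
          simp only [y]
          rw [div_self hm'.ne', one_smul]
          abel
        rw [this]; simp; positivity
      · by_cases hk : k ≤ m
        · obtain ⟨w, hw, hw'⟩ := hdense (y k) (hy k hk)
          exact ⟨w, fun _ => ⟨hw, hw'⟩, fun h => absurd h h0, fun h => absurd h hkm⟩
        · exact ⟨x, fun h => absurd h hk, fun _ => rfl, fun h => absurd h hkm⟩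
  choose a ha1 ha2 ha3 using hex
  have hstep : ∀ k < m, |σ (a (k+1)) - σ (a k)| ≤ 9 * C * (r / m) ^ 2 := by
    intro k hk
    have h1 := ha1 k hk.le
    have h2 := ha1 (k+1) hk
    have hyy : ‖y (k+1) - y k‖ ≤ r / m := by
      have : y (k+1) - y k = (1 / (m:ℝ)) • (z - x) := by
        simp only [y]
        rw [add_sub_add_left_eq_sub, ← sub_smul]
        congr 1
        push_cast
        field_simp
        ring
      rw [this, norm_smul, Real.norm_of_nonneg (by positivity)]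
      calc 1 / (m:ℝ) * ‖z - x‖ ≤ 1 / (m:ℝ) * r := by gcongr
        _ = r / m := by ring
    have hd : ‖a (k+1) - a k‖ ≤ 3 * (r / m) := by
      have : a (k+1) - a k = (a (k+1) - y (k+1)) + (y (k+1) - y k) - (a k - y k) := by abel
      rw [this]
      calc _ ≤ ‖(a (k+1) - y (k+1)) + (y (k+1) - y k)‖ + ‖a k - y k‖ := norm_sub_le _ _
        _ ≤ ‖a (k+1) - y (k+1)‖ + ‖y (k+1) - y k‖ + ‖a k - y k‖ := by
            gcongr; exact norm_add_le _ _
        _ ≤ r/m + r/m + r/m := by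
            gcongr
            · exact h2.2
            · exact h1.2
        _ = 3 * (r/m) := by ring
    calc _ ≤ C * ‖a (k+1) - a k‖ ^ 2 := hσ _ h2.1 _ h1.1
      _ ≤ C * (3 * (r/m)) ^ 2 := by gcongr
      _ = 9 * C * (r / m) ^ 2 := by ring
  have hsum : ∀ k ≤ m, |σ (a k) - σ (a 0)| ≤ k * (9 * C * (r / m) ^ 2) := by
    intro k
    induction k with
    | zero => intro _; simp
    | succ k ih =>
      intro hk
      have h1 := ih (by omega)
      have h2 := hstep k (by omega)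
      have : σ (a (k+1)) - σ (a 0) = (σ (a (k+1)) - σ (a k)) + (σ (a k) - σ (a 0)) := by ring
      rw [this]
      calc _ ≤ |σ (a (k+1)) - σ (a k)| + |σ (a k) - σ (a 0)| := abs_add_le _ _
        _ ≤ 9 * C * (r / m) ^ 2 + k * (9 * C * (r / m) ^ 2) := add_le_add h2 h1
        _ = ((k+1 : ℕ):ℝ) * (9 * C * (r / m) ^ 2) := by push_cast; ring
  have := hsum m le_rfl
  rw [ha3 m rfl, ha2 0 rfl] at this
  calc _ ≤ (m:ℝ) * (9 * C * (r / m) ^ 2) := this
    _ = 9 * C * r ^ 2 / m := by field_simp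

end Chain

section Density

variable {E : Type*} [NormedAddCommGroup E] [NormedSpace ℝ E] [FiniteDimensional ℝ E]
  [MeasurableSpace E] [BorelSpace E] (μ : Measure E) [μ.IsAddHaarMeasure]

/-- Near a density point every small ball meets `Z`. -/
lemma eventually_dense_of_density {Z : Set E} {x : E}
    (hx : Tendsto (fun r => μ (Z ∩ closedBall x r) / μ (closedBall x r)) (𝓝[>] 0) (𝓝 1))
    {m : ℕ} (hm : 0 < m) :
    ∀ᶠ r in 𝓝[>] (0:ℝ), ∀ y : E, ‖y - x‖ ≤ r → ∃ w ∈ Z, ‖w - y‖ ≤ r / m := by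
  set d := Module.finrank ℝ E with hd
  have hm' : (0:ℝ) < m := by exact_mod_cast hm
  -- constant κ = (1/(2m))^d
  set κ : ℝ := (1 / (2 * m)) ^ d with hκ
  have hκ0 : 0 < κ := by positivity
  have hκ1 : κ ≤ 1 := by
    apply pow_le_one₀ (by positivity)
    rw [div_le_one (by positivity)]
    have : (1:ℝ) ≤ m := by exact_mod_cast hm
    linarith
  have hlt : ENNReal.ofReal (1 - κ) < 1 := by
    rw [ENNReal.ofReal_lt_one]; linarith
  have h1 : ∀ᶠ r in 𝓝[>] (0:ℝ), ENNReal.ofReal (1 - κ) < μ (Z ∩ closedBall x r) / μ (closedBall x r) :=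
    hx.eventually (lt_mem_nhds hlt)
  have h2 : ∀ᶠ r in 𝓝[>] (0:ℝ), ENNReal.ofReal (1 - κ) < μ (Z ∩ closedBall x (2*r)) / μ (closedBall x (2*r)) := by
    have ht : Tendsto (fun r : ℝ => 2 * r) (𝓝[>] 0) (𝓝[>] 0) := by
      apply tendsto_nhdsWithin_of_tendsto_nhds_of_eventually_within
      · have : Tendsto (fun r : ℝ => 2 * r) (𝓝 0) (𝓝 (2 * 0)) := (continuous_const.mul continuous_id).tendsto 0
        rw [mul_zero] at this
        exact this.mono_left nhdsWithin_le_nhds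
      · filter_upwards [self_mem_nhdsWithin] with r hr
        have : (0:ℝ) < r := hr
        exact mul_pos two_pos this
    exact ht.eventually h1
  filter_upwards [h2, self_mem_nhdsWithin] with r hr hr0 y hy
  have hr0 : (0:ℝ) < r := hr0
  by_contra hcon
  push Not at hcon
  have hsub : closedBall y (r/m) ⊆ closedBall x (2*r) := by
    apply closedBall_subset_closedBall'
    rw [dist_eq_norm]
    have : r / m ≤ r := by
      rw [div_le_iff₀ hm']
      have : (1:ℝ) ≤ m := by exact_mod_cast hm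
      nlinarith
    linarith
  have hdisj : Z ∩ closedBall x (2*r) ⊆ closedBall x (2*r) \ closedBall y (r/m) := by
    intro w hw
    refine ⟨hw.2, fun hwy => ?_⟩
    have := hcon w hw.1
    rw [mem_closedBall, dist_eq_norm] at hwy
    linarith
  have hmeas : μ (closedBall x (2*r) \ closedBall y (r/m)) = μ (closedBall x (2*r)) - μ (closedBall y (r/m)) :=
    measure_sdiff hsub measurableSet_closedBall.nullMeasurableSet measure_closedBall_lt_top.ne
  have hb1 : μ (closedBall x (2*r)) = ENNReal.ofReal ((2*r)^d) * μ (ball 0 1) :=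
    Measure.addHaar_closedBall μ x (by positivity)
  have hb2 : μ (closedBall y (r/m)) = ENNReal.ofReal ((r/m)^d) * μ (ball 0 1) :=
    Measure.addHaar_closedBall μ y (by positivity)
  have hpos : μ (ball (0:E) 1) ≠ 0 := (measure_ball_pos μ _ one_pos).ne'
  have hfin : μ (ball (0:E) 1) ≠ ∞ := measure_ball_lt_top.ne
  have hle : μ (Z ∩ closedBall x (2*r)) / μ (closedBall x (2*r)) ≤ ENNReal.ofReal (1 - κ) := by
    calc μ (Z ∩ closedBall x (2*r)) / μ (closedBall x (2*r)) 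
        ≤ (μ (closedBall x (2*r)) - μ (closedBall y (r/m))) / μ (closedBall x (2*r)) := by
          gcongr
          exact (measure_mono hdisj).trans hmeas.le
      _ = ENNReal.ofReal (1 - κ) := by
          rw [hb1, hb2, ← ENNReal.sub_mul (fun _ _ => hfin), ENNReal.mul_div_mul_right _ _ hpos hfin,
            ← ENNReal.ofReal_sub _ (by positivity), ← ENNReal.ofReal_div_of_pos (by positivity)]
          congr 1
          have : (2*r)^d ≠ 0 := by positivity
          field_simp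
          rw [hκ]
          have e : (2 * r) ^ d * (1 / (2 * (m:ℝ))) ^ d = (r / m) ^ d := by
            rw [← mul_pow]; congr 1; field_simp
          rw [mul_sub, mul_one, e]
  exact absurd hr (not_lt.mpr hle)

/-- At a density point the variation of `σ` is `o(r^2)`. -/
lemma eventually_small_of_density {Z : Set E} {σ : E → ℝ} {C : ℝ} (hC : 0 ≤ C)
    (hσ : ∀ z ∈ Z, ∀ z' ∈ Z, |σ z - σ z'| ≤ C * ‖z - z'‖ ^ 2)
    {x : E} (hxZ : x ∈ Z)
    (hx : Tendsto (fun r => μ (Z ∩ closedBall x r) / μ (closedBall x r)) (𝓝[>] 0) (𝓝 1))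
    {ε : ℝ} (hε : 0 < ε) :
    ∀ᶠ r in 𝓝[>] (0:ℝ), ∀ z ∈ Z, ‖z - x‖ ≤ r → |σ z - σ x| ≤ ε * r ^ 2 := by
  obtain ⟨m, hm⟩ := exists_nat_gt (9 * C / ε)
  have hm0 : (0:ℝ) < m := lt_of_le_of_lt (by positivity) hm
  have hm1 : 0 < m := by exact_mod_cast hm0
  filter_upwards [eventually_dense_of_density μ hx hm1, self_mem_nhdsWithin] with r hr hr0 z hz hzx
  have hr0 : (0:ℝ) < r := hr0
  have := chain_estimate hC hσ hxZ hz hr0 hm1 hzx hr
  refine this.trans ?_
  rw [div_le_iff₀ hm0]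
  rw [div_lt_iff₀ hε] at hm
  nlinarith [sq_nonneg r]

end Density


section Cover

universe u
variable {E : Type u} [NormedAddCommGroup E] [NormedSpace ℝ E] [FiniteDimensional ℝ E]
  [MeasurableSpace E] [BorelSpace E] (μ : Measure E) [μ.IsAddHaarMeasure]

/-- Cover of an arbitrary piece by balls with controlled total size. -/
lemma cover_piece {Z Y : Set E} {σ : E → ℝ} {κ : ℝ} (hκ : 0 ≤ κ)
    (h : ∀ x ∈ Y, ∀ᶠ r in 𝓝[>] (0:ℝ), ∀ z ∈ Z, ‖z - x‖ ≤ r → |σ z - σ x| ≤ κ * r ^ 2)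
    {ρ : ℝ} (hρ : 0 < ρ) {m : ℕ} (hm : Module.finrank ℝ E = m + 2) {η : ℝ≥0∞} (hη : η ≠ 0) :
    ∃ (t : Set E) (r : E → ℝ), t.Countable ∧ t ⊆ Y ∧ (∀ x ∈ t, 0 < r x ∧ r x < ρ ∧
        ∀ z ∈ Z, ‖z - x‖ ≤ r x → |σ z - σ x| ≤ κ * (r x) ^ 2) ∧
      Y ⊆ ⋃ x ∈ t, closedBall x (r x) ∧
      ∑' x : t, ENNReal.ofReal ((r x) ^ m * (2 * (κ * (r x) ^ 2))) * μ (ball (0:E) 1)
        ≤ ENNReal.ofReal (2 * κ) * (μ Y + η) := by
  let f : E → Set ℝ := fun x => {r | 0 < r ∧ r < ρ ∧ ∀ z ∈ Z, ‖z - x‖ ≤ r → |σ z - σ x| ≤ κ * r ^ 2}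
  have hf : ∀ x ∈ Y, ∀ δ > 0, (f x ∩ Ioo 0 δ).Nonempty := by
    intro x hx δ hδ
    have h1 := h x hx
    have h2 : ∀ᶠ r in 𝓝[>] (0:ℝ), r ∈ Ioo 0 (min ρ δ) := Ioo_mem_nhdsGT (lt_min hρ hδ)
    obtain ⟨r, hr1, hr2⟩ := (h1.and h2).exists
    exact ⟨r, ⟨hr2.1, hr2.2.trans_le (min_le_left _ _), hr1⟩, hr2.1, hr2.2.trans_le (min_le_right _ _)⟩
  obtain ⟨t, r, htc, htY, htr, hcov, hsum⟩ :=
    Besicovitch.exists_closedBall_covering_tsum_measure_le μ hη f Y hf
  refine ⟨t, r, htc, htY, fun x hx => htr x hx, hcov, ?_⟩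
  calc ∑' x : t, ENNReal.ofReal ((r x) ^ m * (2 * (κ * (r x) ^ 2))) * μ (ball (0:E) 1)
      = ∑' x : t, ENNReal.ofReal (2 * κ) * μ (closedBall (x:E) (r x)) := by
        congr 1
        ext x
        have hr0 : 0 < r x := (htr x x.2).1
        rw [Measure.addHaar_closedBall μ _ hr0.le, hm, ← mul_assoc (ENNReal.ofReal (2 * κ)), ← ENNReal.ofReal_mul (by positivity)]
        congr 2
        ring
    _ = ENNReal.ofReal (2 * κ) * ∑' x : t, μ (closedBall (x:E) (r x)) := ENNReal.tsum_mul_left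
    _ ≤ _ := by gcongr

/-- The main covering lemma. -/
lemma cover_exists {Z : Set E} (hZ : Bornology.IsBounded Z) {σ : E → ℝ} {C : ℝ} (hC : 0 ≤ C)
    (hσ : ∀ z ∈ Z, ∀ z' ∈ Z, |σ z - σ z'| ≤ C * ‖z - z'‖ ^ 2)
    {m : ℕ} (hm : Module.finrank ℝ E = m + 2) {ε : ℝ} (hε : 0 < ε) :
    ∃ (t : Set E) (r δ : E → ℝ), t.Countable ∧ (∀ x ∈ t, 0 < r x ∧ r x < ε ∧ 0 ≤ δ x ∧
        ∀ z ∈ Z, ‖z - x‖ ≤ r x → |σ z - σ x| ≤ δ x) ∧
      Z ⊆ ⋃ x ∈ t, closedBall x (r x) ∧
      ∑' x : t, ENNReal.ofReal ((r x) ^ m * (2 * δ x)) ≤ ENNReal.ofReal ε := by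
  classical
  let μ : Measure E := Measure.addHaar
  set b := μ (ball (0:E) 1) with hb
  have hb0 : b ≠ 0 := (measure_ball_pos μ _ one_pos).ne'
  have hbt : b ≠ ∞ := measure_ball_lt_top.ne
  have hbpos : 0 < b.toReal := ENNReal.toReal_pos hb0 hbt
  have hZfin : μ Z ≠ ∞ := hZ.measure_lt_top.ne
  -- density points
  let G : Set E := {x | Tendsto (fun r => μ (Z ∩ closedBall x r) / μ (closedBall x r)) (𝓝[>] 0) (𝓝 1)}
  have hae : ∀ᵐ x ∂(μ.restrict Z), x ∈ G := by
    filter_upwards [IsUnifLocDoublingMeasure.ae_tendsto_measure_inter_div μ Z 1] with x hx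
    apply hx (fun _ => x) id tendsto_id
    filter_upwards [self_mem_nhdsWithin] with r hr
    have hr : (0:ℝ) < r := hr
    simp [hr.le]
  have hnull : μ (Z \ G) = 0 := by
    have h1 : μ.restrict Z Gᶜ = 0 := hae
    have h2 := Measure.le_restrict_apply (μ := μ) Z Gᶜ
    rw [h1] at h2
    have : Gᶜ ∩ Z = Z \ G := by ext y; simp [and_comm]
    rw [this] at h2
    exact le_antisymm h2 zero_le
  -- good part
  set V := (μ Z + 1).toReal with hV
  have hVt : μ Z + 1 ≠ ∞ := by simp [hZfin]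
  have hV0 : 0 < V := ENNReal.toReal_pos (by simp) hVt
  set κ := ε * b.toReal / (4 * V) with hκ
  have hκ0 : 0 < κ := by positivity
  obtain ⟨t1, r1, ht1c, ht1Y, ht1, hcov1, hsum1⟩ := cover_piece μ (Z := Z) (Y := Z ∩ G) (σ := σ) hκ0.le
    (fun x hx => eventually_small_of_density μ hC hσ hx.1 hx.2 hκ0) hε hm one_ne_zero
  -- bad part
  set η := ε * b.toReal / (4 * (C + 1)) with hη
  have hη0 : 0 < η := by positivity
  obtain ⟨t2, r2, ht2c, ht2Y, ht2, hcov2, hsum2⟩ := cover_piece μ (Z := Z) (Y := Z \ G) (σ := σ) hC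
    (fun x hx => by
      filter_upwards [self_mem_nhdsWithin] with r hr z hz hzx
      calc |σ z - σ x| ≤ C * ‖z - x‖ ^ 2 := hσ z hz x hx.1
        _ ≤ C * r ^ 2 := by gcongr) hε hm (ENNReal.ofReal_pos.mpr hη0).ne'
  refine ⟨t1 ∪ t2, fun x => if x ∈ t1 then r1 x else r2 x,
    fun x => if x ∈ t1 then κ * (r1 x)^2 else C * (r2 x)^2, ht1c.union ht2c, ?_, ?_, ?_⟩
  · intro x hx
    by_cases h1 : x ∈ t1
    · simp only [h1, if_true]
      obtain ⟨a1, a2, a3⟩ := ht1 x h1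
      exact ⟨a1, a2, by positivity, a3⟩
    · simp only [h1, if_false]
      have h2 : x ∈ t2 := hx.resolve_left h1
      obtain ⟨a1, a2, a3⟩ := ht2 x h2
      exact ⟨a1, a2, by positivity, a3⟩
  · intro z hz
    have hdisj : Disjoint t1 t2 := by
      rw [Set.disjoint_left]
      intro x h1 h2
      exact (ht2Y h2).2 (ht1Y h1).2
    by_cases hzG : z ∈ G
    · obtain ⟨x, hx, hxz⟩ := mem_iUnion₂.mp (hcov1 ⟨hz, hzG⟩)
      refine mem_iUnion₂.mpr ⟨x, Or.inl hx, ?_⟩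
      simpa [hx] using hxz
    · obtain ⟨x, hx, hxz⟩ := mem_iUnion₂.mp (hcov2 ⟨hz, hzG⟩)
      refine mem_iUnion₂.mpr ⟨x, Or.inr hx, ?_⟩
      have : x ∉ t1 := fun h => Set.disjoint_left.mp hdisj h hx
      simpa [this] using hxz
  · have hle : ∑' x : ↥(t1 ∪ t2), ENNReal.ofReal ((if (x:E) ∈ t1 then r1 x else r2 x) ^ m *
        (2 * (if (x:E) ∈ t1 then κ * (r1 x)^2 else C * (r2 x)^2))) ≤
        (∑' x : t1, ENNReal.ofReal ((r1 x)^m * (2 * (κ * (r1 x)^2)))) +
        (∑' x : t2, ENNReal.ofReal ((r2 x)^m * (2 * (C * (r2 x)^2)))) := by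
      refine (ENNReal.tsum_union_le (fun x : E => ENNReal.ofReal ((if x ∈ t1 then r1 x else r2 x) ^ m *
        (2 * (if x ∈ t1 then κ * (r1 x)^2 else C * (r2 x)^2)))) t1 t2).trans ?_
      apply add_le_add
      · apply le_of_eq
        congr 1
        ext x
        simp [x.2]
      · apply le_of_eq
        congr 1
        ext x
        have : (x:E) ∉ t1 := fun h => (ht2Y x.2).2 (ht1Y h).2
        simp [this]
    refine hle.trans ?_
    have hb' : ∀ S : ℝ≥0∞, S = (S * b) * b⁻¹ := by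
      intro S
      rw [mul_assoc, ENNReal.mul_inv_cancel hb0 hbt, mul_one]
    have hs1 : (∑' x : t1, ENNReal.ofReal ((r1 x)^m * (2 * (κ * (r1 x)^2)))) ≤ ENNReal.ofReal (ε/2) := by
      rw [hb' (∑' x : t1, _), ← ENNReal.tsum_mul_right]
      calc _ ≤ (ENNReal.ofReal (2 * κ) * (μ (Z ∩ G) + 1)) * b⁻¹ := by gcongr
        _ ≤ (ENNReal.ofReal (2 * κ) * (μ Z + 1)) * b⁻¹ := by gcongr; exact inter_subset_left
        _ = ENNReal.ofReal (ε/2) := by
          rw [← ENNReal.ofReal_toReal hVt, ← hV, ← ENNReal.ofReal_mul (by positivity),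
            ← ENNReal.ofReal_toReal hbt, ← ENNReal.ofReal_inv_of_pos hbpos, ← ENNReal.ofReal_mul (by positivity)]
          congr 1
          rw [hκ]
          field_simp
          ring
    have hs2 : (∑' x : t2, ENNReal.ofReal ((r2 x)^m * (2 * (C * (r2 x)^2)))) ≤ ENNReal.ofReal (ε/2) := by
      rw [hb' (∑' x : t2, _), ← ENNReal.tsum_mul_right]
      calc _ ≤ (ENNReal.ofReal (2 * C) * (μ (Z \ G) + ENNReal.ofReal η)) * b⁻¹ := by gcongr
        _ = ENNReal.ofReal (2 * C * η * b.toReal⁻¹) := by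
          rw [hnull, zero_add, ← ENNReal.ofReal_mul (by positivity)]
          conv_lhs => rw [← ENNReal.ofReal_toReal hbt, ← ENNReal.ofReal_inv_of_pos hbpos, ← ENNReal.ofReal_mul (by positivity)]
        _ ≤ ENNReal.ofReal (ε/2) := by
          apply ENNReal.ofReal_le_ofReal
          rw [hη]
          have : 2 * C * (ε * b.toReal / (4 * (C + 1))) * b.toReal⁻¹ = (ε/2) * (C / (C+1)) := by
            field_simp
            ring
          rw [this]
          have : C / (C+1) ≤ 1 := by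
            rw [div_le_one (by positivity)]; linarith
          nlinarith
    calc _ ≤ ENNReal.ofReal (ε/2) + ENNReal.ofReal (ε/2) := add_le_add hs1 hs2
      _ = ENNReal.ofReal ε := by
        rw [← ENNReal.ofReal_add (by positivity) (by positivity)]; congr 1; ring

end Cover


section Final

variable {E : Type} [NormedAddCommGroup E] [NormedSpace ℝ E] [FiniteDimensional ℝ E]

/-- If `|s - s'| ≤ C ‖z - z'‖²` on `A ⊆ ℝ × E` with `dim E = m + 2`, then for almost every `s` the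
slice of `A` over `s` has arbitrarily small countable covers in the sense of `m`-dimensional content. -/
theorem sard_ae {m : ℕ} (hm : Module.finrank ℝ E = m + 2) {A : Set (ℝ × E)}
    (hbd : Bornology.IsBounded (Prod.snd '' A)) {C : ℝ} (hC : 0 ≤ C)
    (hA : ∀ p ∈ A, ∀ p' ∈ A, |p.1 - p'.1| ≤ C * ‖p.2 - p'.2‖ ^ 2) :
    ∀ᵐ s ∂(volume : Measure ℝ), ∀ η > (0:ℝ), ∃ (t : Set E) (r : E → ℝ), t.Countable ∧
      (∀ x ∈ t, 0 < r x ∧ r x < η) ∧ {z | (s, z) ∈ A} ⊆ ⋃ x ∈ t, closedBall x (r x) ∧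
      ∑' x : t, ENNReal.ofReal ((r x) ^ m) < ENNReal.ofReal η := by
  classical
  borelize E
  set Z : Set E := Prod.snd '' A with hZ
  have hex : ∀ z : E, ∃ s : ℝ, z ∈ Z → (s, z) ∈ A := by
    intro z
    by_cases hz : z ∈ Z
    · obtain ⟨p, hp, rfl⟩ := hz
      exact ⟨p.1, fun _ => hp⟩
    · exact ⟨0, fun h => absurd h hz⟩
  choose σ hσ using hex
  have hσ' : ∀ z ∈ Z, ∀ z' ∈ Z, |σ z - σ z'| ≤ C * ‖z - z'‖ ^ 2 := fun z hz z' hz' =>
    hA _ (hσ z hz) _ (hσ z' hz')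
  have hσuniq : ∀ s z, (s, z) ∈ A → σ z = s := by
    intro s z h
    have hz : z ∈ Z := ⟨_, h, rfl⟩
    have := hA _ (hσ z hz) _ h
    simp only [sub_self, norm_zero] at this
    have h2 : |σ z - s| ≤ 0 := by simpa using this
    exact sub_eq_zero.mp (abs_nonpos_iff.mp h2)
  have hcov : ∀ k : ℕ, ∃ (t : Set E) (r δ : E → ℝ), t.Countable ∧ (∀ x ∈ t, 0 < r x ∧ r x < (1/2:ℝ)^k ∧ 0 ≤ δ x ∧
        ∀ z ∈ Z, ‖z - x‖ ≤ r x → |σ z - σ x| ≤ δ x) ∧
      Z ⊆ ⋃ x ∈ t, closedBall x (r x) ∧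
      ∑' x : t, ENNReal.ofReal ((r x) ^ m * (2 * δ x)) ≤ ENNReal.ofReal ((1/2:ℝ)^k) :=
    fun k => cover_exists hbd hC hσ' hm (by positivity)
  choose t r δ htc ht htcov htsum using hcov
  have : ∀ k, Countable (t k) := fun k => (htc k).to_subtype
  let g : ℕ → ℝ → ℝ≥0∞ := fun k s => ∑' x : t k,
    (Icc (σ x - δ k x) (σ x + δ k x)).indicator (fun _ => ENNReal.ofReal ((r k x) ^ m)) s
  have hgm : ∀ k, Measurable (g k) := by
    intro k
    apply Measurable.tsum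
    intro x
    exact measurable_const.indicator measurableSet_Icc
  have hgint : ∀ k, ∫⁻ s, g k s ≤ ENNReal.ofReal ((1/2:ℝ)^k) := by
    intro k
    simp only [g]
    rw [lintegral_tsum (fun x => (measurable_const.indicator measurableSet_Icc).aemeasurable)]
    refine le_trans (le_of_eq ?_) (htsum k)
    congr 1
    ext x
    have hx := ht k x x.2
    rw [lintegral_indicator measurableSet_Icc, setLIntegral_const, Real.volume_Icc,
      ← ENNReal.ofReal_mul (pow_nonneg hx.1.le m)]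
    congr 1
    ring
  have hsumint : ∫⁻ s, ∑' k, g k s ≠ ∞ := by
    rw [lintegral_tsum (fun k => (hgm k).aemeasurable)]
    have h1 : ∑' k, ∫⁻ s, g k s ≤ ∑' k : ℕ, ENNReal.ofReal ((1/2:ℝ)^k) := ENNReal.tsum_le_tsum hgint
    have h2 : ∑' k : ℕ, ENNReal.ofReal ((1/2:ℝ)^k) ≠ ∞ := by
      rw [← ENNReal.ofReal_tsum_of_nonneg (fun k => by positivity) summable_geometric_two]
      exact ENNReal.ofReal_ne_top
    exact (lt_of_le_of_lt h1 h2.lt_top).ne
  have hae := ae_lt_top (Measurable.tsum hgm) hsumint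
  filter_upwards [hae] with s hs η hη
  have hg0 : Tendsto (fun k => g k s) atTop (𝓝 0) := ENNReal.tendsto_atTop_zero_of_tsum_ne_top hs.ne
  have h1 : ∀ᶠ k in atTop, g k s < ENNReal.ofReal η :=
    hg0.eventually (gt_mem_nhds (ENNReal.ofReal_pos.mpr hη))
  have h2 : ∀ᶠ k : ℕ in atTop, (1/2:ℝ)^k < η :=
    (tendsto_pow_atTop_nhds_zero_of_lt_one (by norm_num) (by norm_num)).eventually (gt_mem_nhds hη)
  obtain ⟨k, hk1, hk2⟩ := (h1.and h2).exists
  refine ⟨{x ∈ t k | s ∈ Icc (σ x - δ k x) (σ x + δ k x)}, r k, (htc k).mono (sep_subset _ _), ?_, ?_, ?_⟩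
  · intro x hx
    exact ⟨(ht k x hx.1).1, (ht k x hx.1).2.1.trans hk2⟩
  · intro z hz
    have hz : (s, z) ∈ A := hz
    have hzZ : z ∈ Z := ⟨_, hz, rfl⟩
    obtain ⟨x, hx, hxz⟩ := mem_iUnion₂.mp (htcov k hzZ)
    have h3 := (ht k x hx).2.2.2 z hzZ (by rwa [mem_closedBall, dist_eq_norm] at hxz)
    rw [hσuniq s z hz] at h3
    rw [abs_le] at h3
    refine mem_iUnion₂.mpr ⟨x, ⟨hx, ?_, ?_⟩, hxz⟩ <;> linarith
  · refine lt_of_le_of_lt (le_of_eq ?_) hk1
    simp only [g]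
    have e1 : ∑' x : ↥{x ∈ t k | s ∈ Icc (σ x - δ k x) (σ x + δ k x)}, ENNReal.ofReal ((r k x) ^ m)
        = ∑' x : E, indicator {x ∈ t k | s ∈ Icc (σ x - δ k x) (σ x + δ k x)} (fun x => ENNReal.ofReal ((r k x) ^ m)) x :=
      tsum_subtype {x ∈ t k | s ∈ Icc (σ x - δ k x) (σ x + δ k x)} (fun x => ENNReal.ofReal ((r k x) ^ m))
    have e2 : ∑' x : t k, (Icc (σ x - δ k x) (σ x + δ k x)).indicator (fun _ => ENNReal.ofReal ((r k x) ^ m)) s
        = ∑' x : E, indicator (t k) (fun x => (Icc (σ x - δ k x) (σ x + δ k x)).indicator (fun _ => ENNReal.ofReal ((r k x) ^ m)) s) x :=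
      tsum_subtype (t k) (fun x => (Icc (σ x - δ k x) (σ x + δ k x)).indicator (fun _ => ENNReal.ofReal ((r k x) ^ m)) s)
    rw [e1, e2]
    congr 1
    ext x
    by_cases hx : x ∈ t k
    · by_cases hs : s ∈ Icc (σ x - δ k x) (σ x + δ k x)
      · rw [indicator_of_mem (show x ∈ {x ∈ t k | s ∈ Icc (σ x - δ k x) (σ x + δ k x)} from ⟨hx, hs⟩),
          indicator_of_mem hx, indicator_of_mem hs]
      · rw [indicator_of_notMem (fun h => hs h.2), indicator_of_mem hx, indicator_of_notMem hs]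
    · rw [indicator_of_notMem (fun h => hx h.1), indicator_of_notMem hx]

end Final


section SmallCover

variable {E : Type*} [NormedAddCommGroup E]

/-- `Z` has a finite cover by open balls of radius `< η` with `∑ r^m < η`. -/
def SmallCover (m : ℕ) (η : ℝ) (Z : Set E) : Prop :=
  ∃ F : Finset (E × ℝ), (∀ p ∈ F, 0 < p.2 ∧ p.2 < η) ∧ Z ⊆ ⋃ p ∈ F, ball p.1 p.2 ∧
    ∑ p ∈ F, p.2 ^ m < η

lemma SmallCover.mono {m : ℕ} {η : ℝ} {Z Z' : Set E} (h : SmallCover m η Z) (hZ : Z' ⊆ Z) :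
    SmallCover m η Z' := by
  obtain ⟨F, h1, h2, h3⟩ := h
  exact ⟨F, h1, hZ.trans h2, h3⟩

lemma smallCover_of_countable {m : ℕ} {η : ℝ} (hη : 0 < η) {Z : Set E} (hZ : IsCompact Z)
    (h : ∀ η > (0:ℝ), ∃ (t : Set E) (r : E → ℝ), t.Countable ∧
      (∀ x ∈ t, 0 < r x ∧ r x < η) ∧ Z ⊆ ⋃ x ∈ t, closedBall x (r x) ∧
      ∑' x : t, ENNReal.ofReal ((r x) ^ m) < ENNReal.ofReal η) : SmallCover m η Z := by
  classical
  obtain ⟨t, r, htc, htr, hcov, hsum⟩ := h (η / 2 ^ (m+1)) (by positivity)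
  have h2m : (1:ℝ) ≤ 2 ^ m := one_le_pow₀ (by norm_num)
  have hcov' : Z ⊆ ⋃ x ∈ t, ball x (2 * r x) := by
    refine hcov.trans (iUnion₂_mono fun x hx => closedBall_subset_ball ?_)
    linarith [(htr x hx).1]
  obtain ⟨b, hbt, hbfin, hbcov⟩ := hZ.elim_finite_subcover_image (fun x _ => isOpen_ball) hcov'
  refine ⟨hbfin.toFinset.image (fun x => (x, 2 * r x)), ?_, ?_, ?_⟩
  · intro p hp
    simp only [Finset.mem_image, Set.Finite.mem_toFinset] at hp
    obtain ⟨x, hx, rfl⟩ := hp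
    obtain ⟨h1, h2⟩ := htr x (hbt hx)
    refine ⟨by linarith, ?_⟩
    have : 2 * (η / 2 ^ (m+1)) ≤ η := by
      rw [pow_succ]
      have : 2 * (η / (2 ^ m * 2)) = η / 2 ^ m := by field_simp
      rw [this]
      exact div_le_self hη.le h2m
    show 2 * r x < η
    linarith
  · intro z hz
    obtain ⟨x, hx, hzx⟩ := mem_iUnion₂.mp (hbcov hz)
    refine mem_iUnion₂.mpr ⟨(x, 2 * r x), ?_, hzx⟩
    simp only [Finset.mem_image, Set.Finite.mem_toFinset]
    exact ⟨x, hx, rfl⟩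
  · have hinj : ∀ x ∈ hbfin.toFinset, ∀ y ∈ hbfin.toFinset, (x, 2 * r x) = (y, 2 * r y) → x = y :=
      fun x _ y _ h => (Prod.mk.inj h).1
    rw [Finset.sum_image hinj]
    have h1 : ∑ x ∈ hbfin.toFinset, ENNReal.ofReal ((r x)^m) ≤ ∑' x : t, ENNReal.ofReal ((r x) ^ m) := by
      rw [tsum_subtype t (fun x => ENNReal.ofReal ((r x) ^ m))]
      refine le_trans (le_of_eq ?_) (ENNReal.sum_le_tsum hbfin.toFinset)
      apply Finset.sum_congr rfl
      intro x hx
      rw [indicator_of_mem (hbt ((Set.Finite.mem_toFinset _).mp hx))]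
    have h2 : ENNReal.ofReal (∑ x ∈ hbfin.toFinset, (r x)^m) < ENNReal.ofReal (η / 2 ^ (m+1)) := by
      rw [ENNReal.ofReal_sum_of_nonneg]
      · exact lt_of_le_of_lt h1 hsum
      · intro x hx
        exact pow_nonneg (htr x (hbt ((Set.Finite.mem_toFinset _).mp hx))).1.le m
    have h3 : ∑ x ∈ hbfin.toFinset, (r x)^m < η / 2 ^ (m+1) := (ENNReal.ofReal_lt_ofReal_iff (by positivity)).mp h2
    calc ∑ x ∈ hbfin.toFinset, (2 * r x) ^ m = 2 ^ m * ∑ x ∈ hbfin.toFinset, (r x)^m := by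
          rw [Finset.mul_sum]; apply Finset.sum_congr rfl; intro x _; rw [mul_pow]
      _ < 2 ^ m * (η / 2 ^ (m+1)) := by gcongr
      _ = η / 2 := by rw [pow_succ]; field_simp
      _ < η := by linarith

lemma eq_empty_of_smallCover {Z : Set E} {η : ℝ} (hη : η ≤ 1) (h : SmallCover 0 η Z) : Z = ∅ := by
  obtain ⟨F, h1, h2, h3⟩ := h
  have : F = ∅ := by
    by_contra hne
    have : 1 ≤ F.card := Finset.card_pos.mpr (Finset.nonempty_iff_ne_empty.mpr hne)
    simp only [pow_zero, Finset.sum_const, nsmul_eq_mul, mul_one] at h3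
    have : (1:ℝ) ≤ F.card := by exact_mod_cast this
    linarith
  subst this
  simpa using h2

lemma hausdorff_null_of_smallCover [MeasurableSpace E] [BorelSpace E] {m : ℕ} {Z : Set E}
    (h : ∀ η > 0, SmallCover m η Z) : μH[(m:ℝ)] Z = 0 := by
  have hk : ∀ k : ℕ, SmallCover m ((1/2:ℝ)^k) Z := fun k => h _ (by positivity)
  choose F h1 h2 h3 using hk
  have key : μH[(m:ℝ)] Z ≤ liminf (fun k => ∑ i : F k, ediam (ball (i:E × ℝ).1 (i:E×ℝ).2) ^ (m:ℝ)) atTop := by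
    apply Measure.hausdorffMeasure_le_liminf_sum (m:ℝ) Z (l := atTop) (fun k => 2 * ENNReal.ofReal ((1/2:ℝ)^k))
    · have : Tendsto (fun k : ℕ => 2 * ENNReal.ofReal ((1/2:ℝ)^k)) atTop (𝓝 (2 * ENNReal.ofReal 0)) := by
        apply ENNReal.Tendsto.const_mul
        · apply ENNReal.tendsto_ofReal
          exact tendsto_pow_atTop_nhds_zero_of_lt_one (by norm_num) (by norm_num)
        · right; norm_num
      simpa using this
    · filter_upwards with k i
      have hi := h1 k i i.2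
      calc ediam (ball (i:E × ℝ).1 (i:E×ℝ).2) ≤ 2 * ENNReal.ofReal (i:E×ℝ).2 := by
            rw [← Metric.eball_ofReal]
            exact ediam_eball_le
        _ ≤ 2 * ENNReal.ofReal ((1/2:ℝ)^k) := by gcongr; exact hi.2.le
    · filter_upwards with k z hz
      obtain ⟨p, hp, hzp⟩ := mem_iUnion₂.mp (h2 k hz)
      exact mem_iUnion.mpr ⟨⟨p, hp⟩, hzp⟩
  have hbound : ∀ k, ∑ i : F k, ediam (ball (i:E × ℝ).1 (i:E×ℝ).2) ^ (m:ℝ) ≤ 2 ^ m * ENNReal.ofReal ((1/2:ℝ)^k) := by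
    intro k
    calc ∑ i : F k, ediam (ball (i:E × ℝ).1 (i:E×ℝ).2) ^ (m:ℝ) 
        ≤ ∑ i : F k, 2 ^ m * ENNReal.ofReal ((i:E×ℝ).2 ^ m) := by
          apply Finset.sum_le_sum
          intro i _
          have hi := h1 k i i.2
          have hd : ediam (ball (i:E × ℝ).1 (i:E×ℝ).2) ≤ 2 * ENNReal.ofReal (i:E×ℝ).2 := by
            rw [← Metric.eball_ofReal]
            exact ediam_eball_le
          rw [ENNReal.rpow_natCast, ENNReal.ofReal_pow hi.1.le, ← mul_pow]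
          gcongr
      _ = 2 ^ m * ENNReal.ofReal (∑ i ∈ F k, i.2 ^ m) := by
          rw [← Finset.mul_sum, ENNReal.ofReal_sum_of_nonneg]
          · congr 1
            exact Finset.sum_coe_sort (F k) (fun i => ENNReal.ofReal (i.2 ^ m))
          · intro i hi
            exact pow_nonneg (h1 k i hi).1.le m
      _ ≤ 2 ^ m * ENNReal.ofReal ((1/2:ℝ)^k) := by gcongr; exact (h3 k).le
  have hlim : Tendsto (fun k : ℕ => (2:ℝ≥0∞) ^ m * ENNReal.ofReal ((1/2:ℝ)^k)) atTop (𝓝 0) := by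
    have : Tendsto (fun k : ℕ => (2:ℝ≥0∞) ^ m * ENNReal.ofReal ((1/2:ℝ)^k)) atTop (𝓝 (2 ^ m * ENNReal.ofReal 0)) := by
      apply ENNReal.Tendsto.const_mul
      · apply ENNReal.tendsto_ofReal
        exact tendsto_pow_atTop_nhds_zero_of_lt_one (by norm_num) (by norm_num)
      · right; finiteness
    simpa using this
  have h0 : Tendsto (fun k => ∑ i : F k, ediam (ball (i:E × ℝ).1 (i:E×ℝ).2) ^ (m:ℝ)) atTop (𝓝 0) :=
    tendsto_of_tendsto_of_tendsto_of_le_of_le tendsto_const_nhds hlim (fun k => zero_le) hbound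
  rw [h0.liminf_eq] at key
  exact le_antisymm key zero_le

lemma hausdorff_null_of_relation [MeasurableSpace E] [BorelSpace E] {m : ℕ} {Z H : Set E}
    (h : ∀ η > 0, SmallCover m η Z) (z : E → E) (hz : ∀ x ∈ H, z x ∈ Z)
    (hL : ∀ x ∈ H, ∀ y ∈ H, ‖x - y‖ ≤ ‖z x - z y‖) : μH[(m:ℝ)] H = 0 := by
  classical
  rcases H.eq_empty_or_nonempty with rfl | ⟨x0, hx0⟩
  · simp
  have hinj : InjOn z H := by
    intro x hx y hy hxy
    have := hL x hx y hy
    rw [hxy, sub_self, norm_zero] at this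
    exact sub_eq_zero.mp (norm_le_zero_iff.mp this)
  have : Nonempty E := ⟨x0⟩
  let f := Function.invFunOn z H
  have hf : ∀ x ∈ H, f (z x) = x := fun x hx => hinj.leftInvOn_invFunOn hx
  have hlip : LipschitzOnWith 1 f (z '' H) := by
    rw [lipschitzOnWith_iff_dist_le_mul]
    rintro _ ⟨x, hx, rfl⟩ _ ⟨y, hy, rfl⟩
    rw [hf x hx, hf y hy, dist_eq_norm, dist_eq_norm]
    simpa using hL x hx y hy
  have hH : H = f '' (z '' H) := by
    ext x
    constructor
    · intro hx; exact ⟨z x, ⟨x, hx, rfl⟩, hf x hx⟩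
    · rintro ⟨_, ⟨y, hy, rfl⟩, rfl⟩; rw [hf y hy]; exact hy
  have h1 := hlip.hausdorffMeasure_image_le (d := (m:ℝ)) (by positivity)
  rw [← hH] at h1
  have h2 : μH[(m:ℝ)] (z '' H) = 0 := by
    apply le_antisymm _ zero_le
    calc μH[(m:ℝ)] (z '' H) ≤ μH[(m:ℝ)] Z := measure_mono (by rintro _ ⟨x, hx, rfl⟩; exact hz x hx)
      _ = 0 := hausdorff_null_of_smallCover h
  rw [h2, mul_zero] at h1
  exact le_antisymm h1 zero_le

end SmallCover


end Pool.Agent.Lib.Mane
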