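import Pool.Agent.Lib.Mane.Hom
import Pool.Agent.Lib.Mane.Sard

open Set Filter Topology MeasureTheory Metric BoundedContinuousFunction
open scoped ENNReal NNReal Interval RealInnerProductSpace

namespace Pool.Agent.Lib.Mane

variable {n d : ℕ}

/-- the adjoint of a linear isometry -/
noncomputable def adj (J : E d →ₗᵢ[ℝ] E n) : E n →L[ℝ] E d := ContinuousLinearMap.adjoint J.toContinuousLinearMap

lemma inner_adj (J : E d →ₗᵢ[ℝ] E n) (a : E n) (b : E d) : ⟪adj J a, b⟫ = ⟪a, J b⟫ :=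
  ContinuousLinearMap.adjoint_inner_left J.toContinuousLinearMap b a

/-- integral of a function of `(x, t)` -/
noncomputable def pint (ψ : Tor n × UnitAddCircle → ℝ) (μ : ProbabilityMeasure (Phase n)) : ℝ :=
  ∫ z, ψ (prj z) ∂(μ : Measure (Phase n))

/-- bad points of the affine plane `h0 + J u`: `z = J* c + u` such that there are two `c`-minimizing measures with
rotation vector `h0 + J u` which are distinguished by `ψ` -/
def Bad (L : Phase n → ℝ) (h0 : E n) (J : E d →ₗᵢ[ℝ] E n) (ψ : Tor n × UnitAddCircle → ℝ) (R δ e0 : ℝ) : Set (E d) :=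
  {z | ∃ (c : E n) (μ1 μ2 : ProbabilityMeasure (Phase n)) (u : E d), ‖c‖ ≤ R ∧ IsMin (shift L c) μ1 ∧ IsMin (shift L c) μ2 ∧
    rot μ1 = h0 + J u ∧ rot μ2 = h0 + J u ∧ z = adj J c + u ∧ |pint ψ μ1 - e0| ≤ δ / 4 ∧ δ ≤ pint ψ μ2 - pint ψ μ1}

lemma four_inner_le (a b : E n) : 4 * ⟪a, b⟫ ≤ ‖a + b‖ ^ 2 := by
  have h1 := norm_add_sq_real a b
  have h2 := norm_sub_sq_real a b
  nlinarith [sq_nonneg ‖a - b‖]

/-- the fundamental comparison -/
lemma key_ineq {La Lb : Phase n → ℝ} {g : Tor n × UnitAddCircle → ℝ} (hg : Continuous g) (hab : Lb = addPot La g)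
    (hLa : IsTonelli La) (hLb : IsTonelli Lb) {c c' : E n} {μ μ' : ProbabilityMeasure (Phase n)}
    (h1 : IsMin (shift La c) μ) (h2 : IsMin (shift Lb c') μ') :
    pint g μ' - pint g μ ≤ ⟪c' - c, rot μ' - rot μ⟫ := by
  have hLac := continuous_of_tonelli hLa
  have hLbc := continuous_of_tonelli hLb
  obtain ⟨K, hK⟩ := h1.1.exists_conc
  obtain ⟨K', hK'⟩ := h2.1.exists_conc
  have hact : ∀ (ν : ProbabilityMeasure (Phase n)) (K : ℝ), Conc K ν → action Lb ν = action La ν + pint g ν := by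
    intro ν K hν
    have i1 : Integrable La (ν : Measure (Phase n)) := hν.integrable hLac
    have i2 : Integrable (fun z => g (prj z)) (ν : Measure (Phase n)) := hν.integrable (hg.comp continuous_prj)
    simp only [action, pint, hab]
    rw [← integral_add i1 i2]
    rfl
  have a1 := h1.cross (hLa.shift c) (hLb.shift c') h2.1
  have a2 := h2.cross (hLb.shift c') (hLa.shift c) h1.1
  rw [hK.action_shift hLac, hK'.action_shift hLac] at a1
  rw [hK.action_shift hLbc, hK'.action_shift hLbc, hact μ K hK, hact μ' K' hK'] at a2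
  simp only [inner_sub_left, inner_sub_right]
  linarith

/-- monotonicity -/
lemma mono_ineq {L : Phase n → ℝ} (hL : IsTonelli L) {h0 : E n} {J : E d →ₗᵢ[ℝ] E n} {c c' : E n} {u u' : E d}
    {μ μ' : ProbabilityMeasure (Phase n)} (h1 : IsMin (shift L c) μ) (h2 : IsMin (shift L c') μ')
    (hu : rot μ = h0 + J u) (hu' : rot μ' = h0 + J u') : ‖u' - u‖ ≤ ‖(adj J c' + u') - (adj J c + u)‖ := by
  have h0' : L = addPot L (fun _ => 0) := by ext z; simp [addPot]
  have := key_ineq (g := fun _ => 0) continuous_const h0' hL hL h1 h2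
  simp only [pint, integral_zero, sub_zero] at this
  rw [hu, hu', add_sub_add_left_eq_sub, ← map_sub, ← inner_adj, map_sub] at this
  have e : (adj J c' + u') - (adj J c + u) = (adj J c' - adj J c) + (u' - u) := by abel
  rw [e]
  have h3 := norm_add_sq_real (adj J c' - adj J c) (u' - u)
  have h4 : ‖u' - u‖ ^ 2 ≤ ‖(adj J c' - adj J c) + (u' - u)‖ ^ 2 := by
    rw [h3]; nlinarith [sq_nonneg ‖adj J c' - adj J c‖]
  exact (sq_le_sq₀ (norm_nonneg _) (norm_nonneg _)).mp h4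

lemma pint_abs_le {ψ : Tor n × UnitAddCircle → ℝ} {M : ℝ} (h : ∀ p, |ψ p| ≤ M) (μ : ProbabilityMeasure (Phase n)) : |pint ψ μ| ≤ M := by
  have := norm_integral_le_of_norm_le_const (μ := (μ : Measure (Phase n))) (f := fun z => ψ (prj z)) (C := M)
    (Eventually.of_forall fun z => h _)
  simpa [pint] using this

/-- the Sard inequality for bad points of two nearby Lagrangians -/
lemma bad_ineq {La Lb : Phase n → ℝ} {h0 : E n} {J : E d →ₗᵢ[ℝ] E n} {g ψ : Tor n × UnitAddCircle → ℝ}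
    (hg : Continuous g) (hψ : Continuous ψ)
    (hab : Lb = addPot La g) (hLa : IsTonelli La) (hLb : IsTonelli Lb) {R δ e0 τ ε : ℝ}
    (hgτ : ∀ p, |g p - τ * ψ p| ≤ ε) {z z' : E d} (hz : z ∈ Bad La h0 J ψ R δ e0) (hz' : z' ∈ Bad Lb h0 J ψ R δ e0) :
    |τ| * (δ / 2) ≤ 1 / 4 * ‖z - z'‖ ^ 2 + 2 * ε := by
  obtain ⟨c, μ1, μ2, u, -, m1, m2, r1, r2, rfl, he, hd⟩ := hz
  obtain ⟨c', ν1, ν2, u', -, n1, n2, s1', s2', rfl, he', hd'⟩ := hz'
  -- split pint g
  have hsplit : ∀ μ : ProbabilityMeasure (Phase n), (∃ K, Conc K μ) → |pint g μ - τ * pint ψ μ| ≤ ε := by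
    rintro μ ⟨K, hK⟩
    have i1 : Integrable (fun z => g (prj z)) (μ : Measure (Phase n)) := hK.integrable (hg.comp continuous_prj)
    have i2 : Integrable (fun z => ψ (prj z)) (μ : Measure (Phase n)) := hK.integrable (hψ.comp continuous_prj)
    have : pint g μ - τ * pint ψ μ = pint (fun p => g p - τ * ψ p) μ := by
      simp only [pint]
      rw [← integral_const_mul, ← integral_sub i1 (i2.const_mul τ)]
    rw [this]
    exact pint_abs_le hgτ μ
  have s1 := abs_le.mp (hsplit μ1 m1.1.exists_conc)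
  have s2 := abs_le.mp (hsplit μ2 m2.1.exists_conc)
  have t1 := abs_le.mp (hsplit ν1 n1.1.exists_conc)
  have t2 := abs_le.mp (hsplit ν2 n2.1.exists_conc)
  have he1 := abs_le.mp he
  have he1' := abs_le.mp he'
  have hin : 4 * ⟪adj J c' - adj J c, u' - u⟫ ≤ ‖(adj J c + u) - (adj J c' + u')‖ ^ 2 := by
    have := four_inner_le (adj J c' - adj J c) (u' - u)
    have e : (adj J c + u) - (adj J c' + u') = -((adj J c' - adj J c) + (u' - u)) := by abel
    rw [e, norm_neg]; exact this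
  have hconv : ∀ ν μ : ProbabilityMeasure (Phase n), rot ν = h0 + J u' → rot μ = h0 + J u →
      ⟪c' - c, rot ν - rot μ⟫ = ⟪adj J c' - adj J c, u' - u⟫ := by
    intro ν μ h1 h2
    rw [h1, h2, add_sub_add_left_eq_sub, ← map_sub, ← inner_adj, map_sub]
  rcases le_total 0 τ with hτ | hτ
  · have k := key_ineq hg hab hLa hLb m1 n2
    rw [hconv _ _ s2' r1] at k
    rw [abs_of_nonneg hτ]
    have : δ / 2 ≤ pint ψ ν2 - pint ψ μ1 := by linarith
    have h5 : τ * (δ / 2) ≤ τ * (pint ψ ν2 - pint ψ μ1) := mul_le_mul_of_nonneg_left this hτ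
    linarith
  · have k := key_ineq hg hab hLa hLb m2 n1
    rw [hconv _ _ s1' r2] at k
    rw [abs_of_nonpos hτ]
    have : δ / 2 ≤ pint ψ μ2 - pint ψ ν1 := by linarith
    have h5 : -τ * (δ / 2) ≤ -τ * (pint ψ μ2 - pint ψ ν1) := mul_le_mul_of_nonneg_left this (by linarith)
    linarith

/-- bad points are bounded, locally uniformly -/
lemma bad_bounded {L : Phase n → ℝ} (hL : IsTonelli L) (h0 : E n) (J : E d →ₗᵢ[ℝ] E n) (R : ℝ) :
    ∃ M, ∃ ρ > 0, ∀ L' : Phase n → ℝ, IsTonelli L' → Close L L' ρ → (∀ z, |L' z - L z| ≤ ρ) →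
      ∀ ψ δ e0, ∀ z ∈ Bad L' h0 J ψ R δ e0, ‖z‖ ≤ M := by
  obtain ⟨C0, C2, K, ρ, hρ, hS⟩ := exists_unif_speedData hL R
  refine ⟨‖adj J‖ * R + (K + ‖h0‖), ρ, hρ, fun L' hL' h1 h2 ψ δ e0 z hz => ?_⟩
  obtain ⟨c, μ1, μ2, u, hc, m1, -, r1, -, rfl, -, -⟩ := hz
  have hK := norm_rot_le (m1.conc (hL'.shift c) (hS L' hL' h1 h2 c hc))
  have hu : ‖u‖ ≤ K + ‖h0‖ := by
    have e : J u = rot μ1 - h0 := by rw [r1]; abel
    calc ‖u‖ = ‖J u‖ := (J.norm_map u).symm
      _ = ‖rot μ1 - h0‖ := by rw [e]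
      _ ≤ ‖rot μ1‖ + ‖h0‖ := norm_sub_le _ _
      _ ≤ K + ‖h0‖ := by gcongr
  have hc' : ‖adj J c‖ ≤ ‖adj J‖ * R := ((adj J).le_opNorm c).trans (by gcongr)
  exact (norm_add_le _ _).trans (add_le_add hc' hu)

end Pool.Agent.Lib.Mane
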