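import Pool.Agent.Lib.Mane.Defs

open Set Filter Topology MeasureTheory Metric
open scoped ENNReal NNReal

namespace Pool.Agent.Lib.Mane

variable {n : ℕ}

/-! ### The covering map -/

lemma q_add (x y : E n) : q (x + y) = q x + q y := by
  ext i; simp [q]

lemma q_sub (x y : E n) : q (x - y) = q x - q y := by
  ext i; simp [q]

@[simp] lemma q_zero : q (0 : E n) = 0 := by
  ext i; simp [q]

/-- integer vectors -/
noncomputable def iv (k : Fin n → ℤ) : E n := WithLp.toLp 2 (fun i => (k i : ℝ))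

@[simp] lemma iv_apply (k : Fin n → ℤ) (i : Fin n) : iv k i = (k i : ℝ) := rfl

@[simp] lemma iv_zero : (iv 0 : E n) = 0 := by ext i; simp

lemma iv_add (k l : Fin n → ℤ) : iv (k + l) = iv k + iv l := by ext i; simp

lemma iv_neg (k : Fin n → ℤ) : iv (-k) = - iv k := by ext i; simp

@[simp] lemma q_iv (k : Fin n → ℤ) : q (iv k) = 0 := by
  ext i
  simp only [q, iv_apply, Pi.zero_apply]
  rw [AddCircle.coe_eq_zero_iff]
  exact ⟨k i, by simp⟩

lemma q_add_iv (x : E n) (k : Fin n → ℤ) : q (x + iv k) = q x := by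
  rw [q_add, q_iv, add_zero]

lemma q_eq_iff (x y : E n) : q x = q y ↔ ∃ k : Fin n → ℤ, y = x + iv k := by
  constructor
  · intro h
    have h1 : ∀ i, ∃ k : ℤ, y i = x i + k := by
      intro i
      have := congrFun h i
      simp only [q] at this
      rw [eq_comm, ← sub_eq_zero, ← AddCircle.coe_sub, AddCircle.coe_eq_zero_iff] at this
      obtain ⟨k, hk⟩ := this
      refine ⟨k, ?_⟩
      simp at hk
      linarith
    choose k hk using h1
    refine ⟨k, ?_⟩
    ext i
    simp [hk i]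
  · rintro ⟨k, rfl⟩
    rw [q_add_iv]

lemma coe_add_int (t : ℝ) (m : ℤ) : ((t + m : ℝ) : UnitAddCircle) = (t : UnitAddCircle) := by
  rw [AddCircle.coe_add]
  have : ((m : ℝ) : UnitAddCircle) = 0 := by
    rw [AddCircle.coe_eq_zero_iff]; exact ⟨m, by simp⟩
  rw [this, add_zero]

lemma coe_eq_iff (s t : ℝ) : (s : UnitAddCircle) = (t : UnitAddCircle) ↔ ∃ m : ℤ, t = s + m := by
  constructor
  · intro h
    rw [eq_comm, ← sub_eq_zero, ← AddCircle.coe_sub, AddCircle.coe_eq_zero_iff] at h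
    obtain ⟨k, hk⟩ := h
    refine ⟨k, ?_⟩
    simp at hk
    linarith
  · rintro ⟨m, rfl⟩
    rw [coe_add_int]

lemma continuous_q : Continuous (q : E n → Tor n) := by
  apply continuous_pi
  intro i
  exact (AddCircle.continuous_mk' 1).comp (by fun_prop)

/-- the unit cube -/
def cube (n : ℕ) : Set (E n) := {x | ∀ i, 0 ≤ x i ∧ x i ≤ 1}

lemma isCompact_cube : IsCompact (cube n) := by
  have : cube n = (WithLp.toLp 2) '' (Set.pi univ (fun _ : Fin n => Icc (0:ℝ) 1)) := by
    ext x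
    constructor
    · intro hx
      exact ⟨fun i => x i, fun i _ => hx i, rfl⟩
    · rintro ⟨y, hy, rfl⟩ i
      exact hy i (mem_univ i)
  rw [this]
  exact (isCompact_univ_pi fun _ => isCompact_Icc).image (PiLp.continuous_toLp 2 _)

lemma exists_cube (x : E n) : ∃ k : Fin n → ℤ, x + iv k ∈ cube n := by
  refine ⟨fun i => -⌊x i⌋, fun i => ?_⟩
  simp only [PiLp.add_apply, iv_apply, Int.cast_neg]
  constructor
  · linarith [Int.floor_le (x i)]
  · linarith [Int.lt_floor_add_one (x i)]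

lemma exists_Icc (t : ℝ) : ∃ m : ℤ, t + m ∈ Icc (0:ℝ) 1 := by
  refine ⟨-⌊t⌋, ?_⟩
  constructor
  · push_cast; linarith [Int.floor_le t]
  · push_cast; linarith [Int.lt_floor_add_one t]

lemma q_surjective : Function.Surjective (q : E n → Tor n) := by
  intro θ
  have : ∀ i, ∃ x : ℝ, (x : UnitAddCircle) = θ i := fun i => QuotientAddGroup.mk_surjective (θ i)
  choose x hx using this
  exact ⟨WithLp.toLp 2 x, by ext i; exact hx i⟩

lemma coe_surjective : Function.Surjective ((↑) : ℝ → UnitAddCircle) :=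
  QuotientAddGroup.mk_surjective

/-- every point of the torus has a lift in the cube -/
lemma exists_lift_cube (θ : Tor n) : ∃ x ∈ cube n, q x = θ := by
  obtain ⟨x, rfl⟩ := q_surjective θ
  obtain ⟨k, hk⟩ := exists_cube x
  exact ⟨_, hk, q_add_iv x k⟩

lemma exists_lift_Icc (τ : UnitAddCircle) : ∃ t ∈ Icc (0:ℝ) 1, (t : UnitAddCircle) = τ := by
  obtain ⟨t, rfl⟩ := coe_surjective τ
  obtain ⟨m, hm⟩ := exists_Icc t
  exact ⟨_, hm, coe_add_int t m⟩

/-! ### Lifts -/

/-- the projection of `R^n × R^n × R` to phase space -/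
def pr (p : E n × E n × ℝ) : Phase n := (q p.1, p.2.1, (p.2.2 : UnitAddCircle))

lemma lift_eq (L : Phase n → ℝ) : lift L = L ∘ pr := rfl

lemma continuous_pr : Continuous (pr : E n × E n × ℝ → Phase n) := by
  have h1 := continuous_q (n := n)
  have h2 : Continuous ((↑) : ℝ → UnitAddCircle) := AddCircle.continuous_mk' 1
  unfold pr
  fun_prop

lemma pr_surjective : Function.Surjective (pr : E n × E n × ℝ → Phase n) := by
  rintro ⟨θ, v, τ⟩
  obtain ⟨x, rfl⟩ := q_surjective θ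
  obtain ⟨t, rfl⟩ := coe_surjective τ
  exact ⟨(x, v, t), rfl⟩

lemma isOpenMap_q : IsOpenMap (q : E n → Tor n) := by
  have h1 : IsOpenMap (fun (x : Fin n → ℝ) (i : Fin n) => ((x i : ℝ) : UnitAddCircle)) := by
    apply IsOpenMap.piMap (fun i => QuotientAddGroup.isOpenMap_coe)
    exact Filter.Eventually.of_forall fun i => coe_surjective
  have h2 : (q : E n → Tor n) = (fun (x : Fin n → ℝ) (i : Fin n) => ((x i : ℝ) : UnitAddCircle)) ∘
      (EuclideanSpace.equiv (Fin n) ℝ) := rfl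
  rw [h2]
  exact h1.comp (EuclideanSpace.equiv (Fin n) ℝ).toHomeomorph.isOpenMap

lemma isOpenMap_pr : IsOpenMap (pr : E n × E n × ℝ → Phase n) := by
  have h : (pr : E n × E n × ℝ → Phase n) = Prod.map q (Prod.map id ((↑) : ℝ → UnitAddCircle)) := rfl
  rw [h]
  exact isOpenMap_q.prodMap (IsOpenMap.id.prodMap QuotientAddGroup.isOpenMap_coe)

lemma isQuotientMap_pr : IsQuotientMap (pr : E n × E n × ℝ → Phase n) :=
  isOpenMap_pr.isQuotientMap continuous_pr pr_surjective

lemma continuous_of_lift {L : Phase n → ℝ} (h : Continuous (lift L)) : Continuous L :=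
  isQuotientMap_pr.continuous_iff.mpr h

/-- translation vector in `R^n × R^n × R` -/
noncomputable def tv (k : Fin n → ℤ) (m : ℤ) : E n × E n × ℝ := (iv k, 0, (m : ℝ))

lemma pr_add_tv (p : E n × E n × ℝ) (k : Fin n → ℤ) (m : ℤ) : pr (p + tv k m) = pr p := by
  obtain ⟨x, v, t⟩ := p
  simp only [pr, tv, Prod.mk_add_mk, add_zero, q_add_iv, coe_add_int]

/-- integer periodicity -/
def Per {F : Type*} (f : E n × E n × ℝ → F) : Prop := ∀ p k m, f (p + tv k m) = f p

lemma per_lift (L : Phase n → ℝ) : Per (lift L) := by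
  intro p k m
  rw [lift_eq, Function.comp_apply, pr_add_tv, Function.comp_apply]

lemma Per.fderiv {F : Type*} [NormedAddCommGroup F] [NormedSpace ℝ F] {f : E n × E n × ℝ → F}
    (hf : Per f) : Per (fderiv ℝ f) := by
  intro p k m
  rw [← fderiv_comp_add_right]
  congr 1
  ext y
  exact hf y k m

lemma Per.comp {F G : Type*} {f : E n × E n × ℝ → F} (hf : Per f) (g : F → G) : Per (g ∘ f) := by
  intro p k m
  simp [hf p k m]

/-- reduction of a point to the fundamental domain -/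
lemma exists_reduce (p : E n × E n × ℝ) : ∃ k m, (p + tv k m).1 ∈ cube n ∧ (p + tv k m).2.1 = p.2.1 ∧
    (p + tv k m).2.2 ∈ Icc (0:ℝ) 1 := by
  obtain ⟨k, hk⟩ := exists_cube p.1
  obtain ⟨m, hm⟩ := exists_Icc p.2.2
  exact ⟨k, m, hk, by simp [tv], hm⟩

/-- the region `‖v‖ ≤ K` of `R^n × R^n × R` -/
def reg (n : ℕ) (K : ℝ) : Set (E n × E n × ℝ) := {p | ‖p.2.1‖ ≤ K}

lemma convex_reg (K : ℝ) : Convex ℝ (reg n K) := by
  have : reg n K = (ContinuousLinearMap.fst ℝ (E n) ℝ ∘L ContinuousLinearMap.snd ℝ (E n) (E n × ℝ)) ⁻¹'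
      (closedBall (0 : E n) K) := by
    ext p; simp [reg]
  rw [this]
  exact (convex_closedBall _ _).linear_preimage _

/-- a compact fundamental domain of the region -/
def fund (n : ℕ) (K : ℝ) : Set (E n × E n × ℝ) := cube n ×ˢ closedBall (0 : E n) K ×ˢ Icc (0:ℝ) 1

lemma isCompact_fund (K : ℝ) : IsCompact (fund n K) :=
  isCompact_cube.prod ((isCompact_closedBall _ _).prod isCompact_Icc)

lemma exists_fund {K : ℝ} {p : E n × E n × ℝ} (hp : p ∈ reg n K) : ∃ k m, p + tv k m ∈ fund n K := by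
  obtain ⟨k, m, h1, h2, h3⟩ := exists_reduce p
  refine ⟨k, m, h1, ?_, h3⟩
  rw [h2]
  simpa [reg] using hp

lemma Per.bounded {F : Type*} [NormedAddCommGroup F] {f : E n × E n × ℝ → F} (hf : Per f)
    (hc : Continuous f) (K : ℝ) : ∃ C, 0 ≤ C ∧ ∀ p ∈ reg n K, ‖f p‖ ≤ C := by
  obtain ⟨C, hC⟩ := (isCompact_fund (n := n) K).exists_bound_of_continuousOn hc.continuousOn
  refine ⟨max C 0, le_max_right _ _, fun p hp => ?_⟩
  obtain ⟨k, m, h⟩ := exists_fund hp
  rw [← hf p k m]
  exact (hC _ h).trans (le_max_left _ _)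

lemma Per.lipschitz {F : Type*} [NormedAddCommGroup F] [NormedSpace ℝ F] {f : E n × E n × ℝ → F}
    (hf : Per f) (hc : ContDiff ℝ 1 f) (K : ℝ) :
    ∃ C, 0 ≤ C ∧ ∀ p ∈ reg n K, ∀ p' ∈ reg n K, ‖f p - f p'‖ ≤ C * ‖p - p'‖ := by
  obtain ⟨C, hC0, hC⟩ := hf.fderiv.bounded (hc.continuous_fderiv one_ne_zero) K
  refine ⟨C, hC0, fun p hp p' hp' => ?_⟩
  exact (convex_reg K).norm_image_sub_le_of_norm_fderiv_le
    (fun y _ => (hc.differentiable one_ne_zero).differentiableAt) (fun y hy => hC y hy) hp' hp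

/-! ### Partial derivatives -/

/-- injection of the `x` directions -/
noncomputable def ix (n : ℕ) : E n →L[ℝ] E n × E n × ℝ := ContinuousLinearMap.inl ℝ (E n) (E n × ℝ)

/-- injection of the `v` directions -/
noncomputable def ivv (n : ℕ) : E n →L[ℝ] E n × E n × ℝ :=
  (ContinuousLinearMap.inr ℝ (E n) (E n × ℝ)).comp (ContinuousLinearMap.inl ℝ (E n) ℝ)

lemma hasFDerivAt_slice_x {F : Type*} [NormedAddCommGroup F] [NormedSpace ℝ F]
    {f : E n × E n × ℝ → F} (hf : Differentiable ℝ f) (x v : E n) (t : ℝ) :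
    HasFDerivAt (fun y => f (y, v, t)) ((fderiv ℝ f (x, v, t)).comp (ix n)) x := by
  have h1 : HasFDerivAt (fun y : E n => ((y, v, t) : E n × E n × ℝ)) (ix n) x := by
    have := (hasFDerivAt_id (𝕜 := ℝ) x).prodMk (hasFDerivAt_const ((v, t) : E n × ℝ) x)
    exact this
  exact (hf (x, v, t)).hasFDerivAt.comp x h1

lemma hasFDerivAt_slice_v {F : Type*} [NormedAddCommGroup F] [NormedSpace ℝ F]
    {f : E n × E n × ℝ → F} (hf : Differentiable ℝ f) (x v : E n) (t : ℝ) :
    HasFDerivAt (fun w => f (x, w, t)) ((fderiv ℝ f (x, v, t)).comp (ivv n)) v := by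
  have h1 : HasFDerivAt (fun w : E n => ((x, w, t) : E n × E n × ℝ)) (ivv n) v := by
    have := (hasFDerivAt_const x v).prodMk ((hasFDerivAt_id (𝕜 := ℝ) v).prodMk (hasFDerivAt_const t v))
    exact this
  exact (hf (x, v, t)).hasFDerivAt.comp v h1

/-- The fibre Hessian `∂²L/∂v²`. -/
noncomputable def Lvv (L : Phase n → ℝ) (x v : E n) (t : ℝ) : E n →L[ℝ] E n →L[ℝ] ℝ :=
  fderiv ℝ (fun w => Lv L x w t) v

section C2

variable {L : Phase n → ℝ}

lemma Lx_eq (h : ContDiff ℝ 2 (lift L)) (x v : E n) (t : ℝ) :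
    Lx L x v t = (fderiv ℝ (lift L) (x, v, t)).comp (ix n) :=
  (hasFDerivAt_slice_x (h.differentiable two_ne_zero) x v t).fderiv

lemma Lv_eq (h : ContDiff ℝ 2 (lift L)) (x v : E n) (t : ℝ) :
    Lv L x v t = (fderiv ℝ (lift L) (x, v, t)).comp (ivv n) :=
  (hasFDerivAt_slice_v (h.differentiable two_ne_zero) x v t).fderiv

/-- `∂L/∂v` as a function on `R^n × R^n × R` -/
noncomputable def LvF (L : Phase n → ℝ) : E n × E n × ℝ → (E n →L[ℝ] ℝ) := fun p => Lv L p.1 p.2.1 p.2.2

/-- `∂L/∂x` as a function on `R^n × R^n × R` -/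
noncomputable def LxF (L : Phase n → ℝ) : E n × E n × ℝ → (E n →L[ℝ] ℝ) := fun p => Lx L p.1 p.2.1 p.2.2

lemma contDiff_LvF (h : ContDiff ℝ 2 (lift L)) : ContDiff ℝ 1 (LvF L) := by
  have h1 : ContDiff ℝ 1 (fderiv ℝ (lift L)) := h.fderiv_right (by norm_num)
  have : LvF L = fun p => (fderiv ℝ (lift L) p).comp (ivv n) := by
    ext1 p; exact Lv_eq h _ _ _
  rw [this]
  exact h1.clm_comp contDiff_const

lemma contDiff_LxF (h : ContDiff ℝ 2 (lift L)) : ContDiff ℝ 1 (LxF L) := by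
  have h1 : ContDiff ℝ 1 (fderiv ℝ (lift L)) := h.fderiv_right (by norm_num)
  have : LxF L = fun p => (fderiv ℝ (lift L) p).comp (ix n) := by
    ext1 p; exact Lx_eq h _ _ _
  rw [this]
  exact h1.clm_comp contDiff_const

lemma per_LvF (L : Phase n → ℝ) : Per (LvF L) := by
  rintro ⟨x, v, t⟩ k m
  simp only [LvF, Lv, tv, Prod.mk_add_mk, add_zero]
  have : (fun w => lift L (x + iv k, w, t + (m:ℝ))) = fun w => lift L (x, w, t) := by
    ext w
    have := per_lift L (x, w, t) k m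
    simpa only [tv, Prod.mk_add_mk, add_zero] using this
  rw [this]

lemma per_LxF (L : Phase n → ℝ) : Per (LxF L) := by
  rintro ⟨x, v, t⟩ k m
  simp only [LxF, Lx, tv, Prod.mk_add_mk, add_zero]
  have : (fun y => lift L (y, v, t + (m:ℝ))) = fun y => lift L (y, v, t) := by
    ext y
    have := per_lift L (y, v, t) 0 m
    simpa only [tv, Prod.mk_add_mk, add_zero, iv_zero] using this
  rw [this, ← fderiv_comp_add_right]
  congr 1
  ext y
  have := per_lift L (y, v, t) k 0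
  simpa only [tv, Prod.mk_add_mk, add_zero, Int.cast_zero] using this

lemma Lvv_eq (h : ContDiff ℝ 2 (lift L)) (x v : E n) (t : ℝ) :
    Lvv L x v t = (fderiv ℝ (LvF L) (x, v, t)).comp (ivv n) :=
  (hasFDerivAt_slice_v ((contDiff_LvF h).differentiable one_ne_zero) x v t).fderiv

lemma hasDerivAt_Lv_line' (h : ContDiff ℝ 2 (lift L)) (x v d : E n) (t r : ℝ) :
    HasDerivAt (fun r : ℝ => Lv L x (v + r • d) t d) (Lvv L x (v + r • d) t d d) r := by
  have h1 : HasFDerivAt (fun w => Lv L x w t) (Lvv L x (v + r • d) t) (v + r • d) := by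
    have := (hasFDerivAt_slice_v ((contDiff_LvF h).differentiable one_ne_zero) x (v + r • d) t)
    rw [← Lvv_eq h] at this
    exact this
  have h2 : HasDerivAt (fun r : ℝ => v + r • d) d r := by
    have := ((hasDerivAt_id r).smul_const d).const_add v
    simpa using this
  have h3 := h1.comp_hasDerivAt r h2
  exact ((ContinuousLinearMap.apply ℝ ℝ d).hasFDerivAt.comp_hasDerivAt r h3)

lemma hasDerivAt_lift_line' (h : ContDiff ℝ 2 (lift L)) (x v d : E n) (t r : ℝ) :
    HasDerivAt (fun r : ℝ => lift L (x, v + r • d, t)) (Lv L x (v + r • d) t d) r := by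
  have h1 : HasFDerivAt (fun w => lift L (x, w, t)) (Lv L x (v + r • d) t) (v + r • d) := by
    have := (hasFDerivAt_slice_v (h.differentiable two_ne_zero) x (v + r • d) t)
    rw [← Lv_eq h] at this
    exact this
  have h2 : HasDerivAt (fun r : ℝ => v + r • d) d r := by
    have := ((hasDerivAt_id r).smul_const d).const_add v
    simpa using this
  exact h1.comp_hasDerivAt r h2

lemma hess_eq (h : ContDiff ℝ 2 (lift L)) (x v : E n) (t : ℝ) (w : E n) : hess L x v t w = Lvv L x v t w w := by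
  have h1 : deriv (fun r : ℝ => lift L (x, v + r • w, t)) = fun r => Lv L x (v + r • w) t w := by
    ext1 r; exact (hasDerivAt_lift_line' h x v w t r).deriv
  rw [hess, iteratedDeriv_succ, iteratedDeriv_one, h1, (hasDerivAt_Lv_line' h x v w t 0).deriv]
  simp

end C2

lemma IsTonelli.smooth {L : Phase n → ℝ} (h : IsTonelli L) : ContDiff ℝ 2 (lift L) := by
  have := h.ck
  simpa [IsCk] using this

lemma IsTonelli.convex {L : Phase n → ℝ} (h : IsTonelli L) : ∀ x v t w, w ≠ 0 → 0 < Lvv L x v t w w := by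
  intro x v t w hw
  rw [← hess_eq h.smooth]
  exact h.pos x v t w hw

lemma IsTonelli.mk' {L : Phase n → ℝ} (h1 : ContDiff ℝ 2 (lift L)) (h2 : ∀ x v t w, w ≠ 0 → 0 < Lvv L x v t w w)
    (h3 : ∀ A : ℝ, ∃ R : ℝ, ∀ z : Phase n, R ≤ ‖z.2.1‖ → A * ‖z.2.1‖ ≤ L z)
    (h4 : ∀ (x v : E n) (t : ℝ), ∃ γ, IsEL L γ ∧ γ t = x ∧ deriv γ t = v) : IsTonelli L := by
  refine ⟨?_, fun x v t w hw => ?_, h3, h4⟩
  · simpa [IsCk] using h1
  · rw [hess_eq h1]; exact h2 x v t w hw

end Pool.Agent.Lib.Mane
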