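import Pool.Agent.Lib.Mane.Basic

open Set Filter Topology MeasureTheory Metric
open scoped ENNReal NNReal

namespace Pool.Agent.Lib.Mane

variable {n : ℕ}

/-- `C^2` Lagrangians with fibrewise positive Hessian. -/
structure IsC2 (L : Phase n → ℝ) : Prop where
  smooth : ContDiff ℝ 2 (lift L)
  convex : ∀ x v t w, w ≠ 0 → 0 < Lvv L x v t w w

lemma IsTonelli.isC2 {L : Phase n → ℝ} (h : IsTonelli L) : IsC2 L := ⟨h.smooth, h.convex⟩

/-- uniform constants on the region `‖v‖ ≤ K` -/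
structure Bd (L : Phase n → ℝ) (K a C : ℝ) : Prop where
  a_pos : 0 < a
  C_nonneg : 0 ≤ C
  mono : ∀ x t v w, ‖v‖ ≤ K → ‖w‖ ≤ K → a * ‖v - w‖ ^ 2 ≤ (Lv L x v t - Lv L x w t) (v - w)
  lipv : ∀ x y v w s t, ‖v‖ ≤ K → ‖w‖ ≤ K →
    ‖Lv L x v t - Lv L y w s‖ ≤ C * (‖x - y‖ + ‖v - w‖ + |t - s|)
  lipx : ∀ x y v w s t, ‖v‖ ≤ K → ‖w‖ ≤ K →
    ‖Lx L x v t - Lx L y w s‖ ≤ C * (‖x - y‖ + ‖v - w‖ + |t - s|)
  lip0 : ∀ x y v w s t, ‖v‖ ≤ K → ‖w‖ ≤ K →
    |lift L (x, v, t) - lift L (y, w, s)| ≤ C * (‖x - y‖ + ‖v - w‖ + |t - s|)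
  bdx : ∀ x v t, ‖v‖ ≤ K → ‖Lx L x v t‖ ≤ C
  bdv : ∀ x v t, ‖v‖ ≤ K → ‖Lv L x v t‖ ≤ C
  bd0 : ∀ x v t, ‖v‖ ≤ K → |lift L (x, v, t)| ≤ C

lemma norm_prod_sub_le (x y v w : E n) (s t : ℝ) :
    ‖((x, v, t) : E n × E n × ℝ) - (y, w, s)‖ ≤ ‖x - y‖ + ‖v - w‖ + |t - s| := by
  simp only [Prod.mk_sub_mk, Prod.norm_def, Real.norm_eq_abs]
  refine max_le ?_ (max_le ?_ ?_)
  · linarith [norm_nonneg (v - w), abs_nonneg (t - s)]
  · linarith [norm_nonneg (x - y), abs_nonneg (t - s)]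
  · linarith [norm_nonneg (x - y), norm_nonneg (v - w)]

lemma exists_hess_bound {L : Phase n → ℝ} (h : IsC2 L) (K : ℝ) :
    ∃ a > 0, ∀ x v t w, ‖v‖ ≤ K → a * ‖w‖ ^ 2 ≤ Lvv L x v t w w := by
  have hcont : Continuous (fun p : (E n × E n × ℝ) × E n => Lvv L p.1.1 p.1.2.1 p.1.2.2 p.2 p.2) := by
    have h1 : Continuous (fun p : E n × E n × ℝ => Lvv L p.1 p.2.1 p.2.2) := by
      have : (fun p : E n × E n × ℝ => Lvv L p.1 p.2.1 p.2.2) = fun p => (fderiv ℝ (LvF L) p).comp (ivv n) := by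
        ext1 p; exact Lvv_eq h.smooth _ _ _
      rw [this]
      exact ((contDiff_LvF h.smooth).continuous_fderiv one_ne_zero).clm_comp continuous_const
    exact ((h1.comp continuous_fst).clm_apply continuous_snd).clm_apply continuous_snd
  have key : ∃ a > 0, ∀ p ∈ fund n K, ∀ w : E n, ‖w‖ = 1 → a ≤ Lvv L p.1 p.2.1 p.2.2 w w := by
    rcases (fund n K ×ˢ sphere (0 : E n) 1).eq_empty_or_nonempty with he | hne
    · refine ⟨1, one_pos, fun p hp w hw => ?_⟩
      exfalso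
      have : (p, w) ∈ fund n K ×ˢ sphere (0 : E n) 1 := ⟨hp, by simpa using hw⟩
      rw [he] at this
      exact this
    · obtain ⟨pw, hpw, hmin⟩ := ((isCompact_fund (n := n) K).prod (isCompact_sphere (0 : E n) 1)).exists_isMinOn
        hne hcont.continuousOn
      refine ⟨Lvv L pw.1.1 pw.1.2.1 pw.1.2.2 pw.2 pw.2, h.convex _ _ _ _ ?_, fun p hp w hw => ?_⟩
      · have : ‖pw.2‖ = 1 := by simpa using hpw.2
        intro h0
        rw [h0, norm_zero] at this
        exact zero_ne_one this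
      · exact hmin (show (p, w) ∈ fund n K ×ˢ sphere (0 : E n) 1 from ⟨hp, by simpa using hw⟩)
  obtain ⟨a, ha, hmin⟩ := key
  refine ⟨a, ha, fun x v t w hv => ?_⟩
  by_cases hw : w = 0
  · subst hw; simp
  have hw0 : 0 < ‖w‖ := norm_pos_iff.mpr hw
  have hPer : Per (fun p : E n × E n × ℝ => Lvv L p.1 p.2.1 p.2.2) := by
    have : (fun p : E n × E n × ℝ => Lvv L p.1 p.2.1 p.2.2) =
        (fun T : (E n × E n × ℝ) →L[ℝ] (E n →L[ℝ] ℝ) => T.comp (ivv n)) ∘ (fderiv ℝ (LvF L)) := by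
      ext1 p; exact Lvv_eq h.smooth _ _ _
    rw [this]
    exact ((per_LvF L).fderiv).comp _
  obtain ⟨k, m, hkm⟩ := exists_fund (n := n) (K := K) (p := (x, v, t)) hv
  have h1 := hmin _ hkm (‖w‖⁻¹ • w) (by rw [norm_smul, norm_inv, norm_norm, inv_mul_cancel₀ hw0.ne'])
  have h2 := hPer (x, v, t) k m
  simp only at h2
  rw [h2] at h1
  simp only [map_smul, smul_apply, smul_eq_mul] at h1
  have : ‖w‖⁻¹ * (‖w‖⁻¹ * (Lvv L x v t w w)) = (Lvv L x v t w w) / ‖w‖ ^ 2 := by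
    field_simp
  rw [this, le_div_iff₀ (by positivity)] at h1
  exact h1

lemma hasDerivAt_Lv_line {L : Phase n → ℝ} (h : IsC2 L) (x v d : E n) (t r : ℝ) :
    HasDerivAt (fun r : ℝ => Lv L x (v + r • d) t d) (Lvv L x (v + r • d) t d d) r := by
  have h1 : HasFDerivAt (fun w => Lv L x w t) (Lvv L x (v + r • d) t) (v + r • d) := by
    have := (hasFDerivAt_slice_v ((contDiff_LvF h.smooth).differentiable one_ne_zero) x (v + r • d) t)
    rw [← Lvv_eq h.smooth] at this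
    exact this
  have h2 : HasDerivAt (fun r : ℝ => v + r • d) d r := by
    have := ((hasDerivAt_id r).smul_const d).const_add v
    simpa using this
  have h3 := h1.comp_hasDerivAt r h2
  exact ((ContinuousLinearMap.apply ℝ ℝ d).hasFDerivAt.comp_hasDerivAt r h3)

lemma hasDerivAt_lift_line {L : Phase n → ℝ} (h : IsC2 L) (x v d : E n) (t r : ℝ) :
    HasDerivAt (fun r : ℝ => lift L (x, v + r • d, t)) (Lv L x (v + r • d) t d) r := by
  have h1 : HasFDerivAt (fun w => lift L (x, w, t)) (Lv L x (v + r • d) t) (v + r • d) := by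
    have := (hasFDerivAt_slice_v (h.smooth.differentiable two_ne_zero) x (v + r • d) t)
    rw [← Lv_eq h.smooth] at this
    exact this
  have h2 : HasDerivAt (fun r : ℝ => v + r • d) d r := by
    have := ((hasDerivAt_id r).smul_const d).const_add v
    simpa using this
  exact h1.comp_hasDerivAt r h2

lemma segment_norm_le {v w : E n} {K : ℝ} (hv : ‖v‖ ≤ K) (hw : ‖w‖ ≤ K) {r : ℝ} (hr : r ∈ Icc (0:ℝ) 1) :
    ‖w + r • (v - w)‖ ≤ K := by
  have : w + r • (v - w) = (1 - r) • w + r • v := by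
    rw [smul_sub, sub_smul, one_smul]; abel
  rw [this]
  calc _ ≤ ‖(1 - r) • w‖ + ‖r • v‖ := norm_add_le _ _
    _ = (1 - r) * ‖w‖ + r * ‖v‖ := by
      rw [norm_smul, norm_smul, Real.norm_of_nonneg hr.1, Real.norm_of_nonneg (by linarith [hr.2])]
    _ ≤ (1 - r) * K + r * K := by
      have := hr.1; have := hr.2
      gcongr
    _ = K := by ring

lemma mono_of_hess {L : Phase n → ℝ} (h : IsC2 L) {K a : ℝ}
    (ha : ∀ x v t w, ‖v‖ ≤ K → a * ‖w‖ ^ 2 ≤ Lvv L x v t w w) (x : E n) (t : ℝ) (v w : E n)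
    (hv : ‖v‖ ≤ K) (hw : ‖w‖ ≤ K) : a * ‖v - w‖ ^ 2 ≤ (Lv L x v t - Lv L x w t) (v - w) := by
  have hd := fun r => hasDerivAt_Lv_line h x w (v - w) t r
  have key := (convex_Icc (0:ℝ) 1).mul_sub_le_image_sub_of_le_deriv (f := fun r : ℝ => Lv L x (w + r • (v - w)) t (v - w))
    (C := a * ‖v - w‖ ^ 2)
    (fun r _ => (hd r).continuousAt.continuousWithinAt)
    (fun r _ => (hd r).differentiableAt.differentiableWithinAt)
    (fun r hr => by
      rw [(hd r).deriv]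
      rw [interior_Icc] at hr
      exact ha _ _ _ _ (segment_norm_le hv hw ⟨hr.1.le, hr.2.le⟩))
    0 (left_mem_Icc.mpr zero_le_one) 1 (right_mem_Icc.mpr zero_le_one) zero_le_one
  simpa using key

lemma exists_Bd {L : Phase n → ℝ} (h : IsC2 L) (K : ℝ) : ∃ a C, Bd L K a C := by
  obtain ⟨a, ha, hhess⟩ := exists_hess_bound h K
  obtain ⟨C1, hC1, h1⟩ := (per_LvF L).lipschitz (contDiff_LvF h.smooth) K
  obtain ⟨C2, hC2, h2⟩ := (per_LxF L).lipschitz (contDiff_LxF h.smooth) K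
  obtain ⟨C3, hC3, h3⟩ := (per_lift L).lipschitz (h.smooth.of_le one_le_two) K
  obtain ⟨C4, hC4, h4⟩ := (per_LvF L).bounded (contDiff_LvF h.smooth).continuous K
  obtain ⟨C5, hC5, h5⟩ := (per_LxF L).bounded (contDiff_LxF h.smooth).continuous K
  obtain ⟨C6, hC6, h6⟩ := (per_lift L).bounded h.smooth.continuous K
  set C := C1 + C2 + C3 + C4 + C5 + C6 with hC
  refine ⟨a, C, ha, by positivity, mono_of_hess h hhess |> fun H x t v w => H x t v w, ?_, ?_, ?_, ?_, ?_, ?_⟩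
  · intro x y v w s t hv hw
    refine (h1 (x, v, t) hv (y, w, s) hw).trans ?_
    have := norm_prod_sub_le x y v w s t
    have hle : C1 ≤ C := by linarith
    calc C1 * ‖((x, v, t) : E n × E n × ℝ) - (y, w, s)‖ ≤ C * ‖((x, v, t) : E n × E n × ℝ) - (y, w, s)‖ := by gcongr
      _ ≤ _ := by gcongr
  · intro x y v w s t hv hw
    refine (h2 (x, v, t) hv (y, w, s) hw).trans ?_
    have := norm_prod_sub_le x y v w s t
    have hle : C2 ≤ C := by linarith
    calc C2 * ‖((x, v, t) : E n × E n × ℝ) - (y, w, s)‖ ≤ C * ‖((x, v, t) : E n × E n × ℝ) - (y, w, s)‖ := by gcongr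
      _ ≤ _ := by gcongr
  · intro x y v w s t hv hw
    refine (h3 (x, v, t) hv (y, w, s) hw).trans ?_
    have := norm_prod_sub_le x y v w s t
    have hle : C3 ≤ C := by linarith
    calc C3 * ‖((x, v, t) : E n × E n × ℝ) - (y, w, s)‖ ≤ C * ‖((x, v, t) : E n × E n × ℝ) - (y, w, s)‖ := by gcongr
      _ ≤ _ := by gcongr
  · intro x v t hv
    exact (h5 (x, v, t) hv).trans (by linarith)
  · intro x v t hv
    exact (h4 (x, v, t) hv).trans (by linarith)
  · intro x v t hv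
    exact (h6 (x, v, t) hv).trans (by linarith)

/-- quantitative convexity -/
lemma Bd.conv {L : Phase n → ℝ} {K a C : ℝ} (hB : Bd L K a C) (h : IsC2 L) (x : E n) (t : ℝ) (v w : E n)
    (hv : ‖v‖ ≤ K) (hw : ‖w‖ ≤ K) :
    lift L (x, w, t) + Lv L x w t (v - w) + a / 2 * ‖v - w‖ ^ 2 ≤ lift L (x, v, t) := by
  let f : ℝ → ℝ := fun r => lift L (x, w + r • (v - w), t) - r * Lv L x w t (v - w) - a / 2 * r ^ 2 * ‖v - w‖ ^ 2
  have hd : ∀ r, HasDerivAt f (Lv L x (w + r • (v - w)) t (v - w) - Lv L x w t (v - w) - a * r * ‖v - w‖ ^ 2) r := by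
    intro r
    have h1 := hasDerivAt_lift_line h x w (v - w) t r
    have h2 : HasDerivAt (fun r : ℝ => r * Lv L x w t (v - w)) (Lv L x w t (v - w)) r := by
      simpa using (hasDerivAt_id r).mul_const (Lv L x w t (v - w))
    have h3 : HasDerivAt (fun r : ℝ => a / 2 * r ^ 2 * ‖v - w‖ ^ 2) (a * r * ‖v - w‖ ^ 2) r := by
      have := ((hasDerivAt_pow 2 r).const_mul (a/2)).mul_const (‖v - w‖ ^ 2)
      refine this.congr_deriv ?_
      show a / 2 * (((2:ℕ):ℝ) * r ^ 1) * ‖v - w‖ ^ 2 = a * r * ‖v - w‖ ^ 2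
      push_cast
      ring
    exact (h1.sub h2).sub h3
  have key : f 0 ≤ f 1 := by
    have := (convex_Icc (0:ℝ) 1).mul_sub_le_image_sub_of_le_deriv (f := f) (C := 0)
      (fun r _ => (hd r).continuousAt.continuousWithinAt)
      (fun r _ => (hd r).differentiableAt.differentiableWithinAt)
      (fun r hr => by
        rw [(hd r).deriv]
        rw [interior_Icc] at hr
        have h1 := hB.mono x t (w + r • (v - w)) w (segment_norm_le hv hw ⟨hr.1.le, hr.2.le⟩) hw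
        simp only [add_sub_cancel_left, norm_smul, map_smul, smul_eq_mul, sub_apply] at h1
        have h2 : a * (|r| * ‖v - w‖) ^ 2 = r * (a * r * ‖v - w‖ ^ 2) := by
          rw [mul_pow, sq_abs]; ring
        rw [Real.norm_eq_abs, h2] at h1
        have h3 := le_of_mul_le_mul_left h1 hr.1
        linarith)
      0 (left_mem_Icc.mpr zero_le_one) 1 (right_mem_Icc.mpr zero_le_one) zero_le_one
    simpa using this
  simp only [f, zero_smul, add_zero, zero_mul, sub_zero, one_smul, one_mul, add_sub_cancel] at key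
  norm_num at key
  rw [map_sub]
  linarith

end Pool.Agent.Lib.Mane
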