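import Pool.Agent.Lib.Mane.Min

open Set Filter Topology MeasureTheory Metric BoundedContinuousFunction
open scoped ENNReal NNReal Interval

namespace Pool.Agent.Lib.Mane

variable {n : ℕ}

/-- projection of phase space to `T^n × T` -/
def prj (z : Phase n) : Tor n × UnitAddCircle := (z.1, z.2.2)

lemma continuous_prj : Continuous (prj : Phase n → Tor n × UnitAddCircle) := by
  unfold prj; fun_prop

/-- lower bound constant -/
def LowBd (L : Phase n → ℝ) (m B : ℝ) : Prop :=
  ∀ R a b A : ℝ, ∀ x y : E n, a ≤ b → Reach L R a b x y A → m * (b - a) - B ≤ A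

/-- the set of normalized actions of curves of integer length ending at a point -/
def calSet (L : Phase n → ℝ) (m : ℝ) (p : Tor n × UnitAddCircle) : Set ℝ :=
  {r | ∃ (k : ℕ) (R b : ℝ) (x y : E n) (A : ℝ), Reach L R (b - k) b x y A ∧ q y = p.1 ∧
    (b : UnitAddCircle) = p.2 ∧ r = A - m * k}

/-- the calibrating function -/
noncomputable def calU (L : Phase n → ℝ) (m : ℝ) (p : Tor n × UnitAddCircle) : ℝ := sInf (calSet L m p)

lemma calSet_bdd {L : Phase n → ℝ} {m B : ℝ} (h : LowBd L m B) (p : Tor n × UnitAddCircle) :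
    ∀ r ∈ calSet L m p, -B ≤ r := by
  rintro r ⟨k, R, b, x, y, A, hr, -, -, rfl⟩
  have := h R (b - k) b A x y (by linarith [(Nat.cast_nonneg k : (0:ℝ) ≤ k)]) hr
  rw [sub_sub_cancel] at this
  linarith

lemma calSet_zero (L : Phase n → ℝ) (m : ℝ) (p : Tor n × UnitAddCircle) : (0:ℝ) ∈ calSet L m p := by
  obtain ⟨y, hy⟩ := q_surjective p.1
  obtain ⟨b, hb⟩ := coe_surjective p.2
  refine ⟨0, 0, b, y, y, 0, ?_, hy, hb, by simp⟩
  have := reach_refl (L := L) (R := 0) le_rfl b y
  simpa using this

lemma calU_le {L : Phase n → ℝ} {m B : ℝ} (h : LowBd L m B) {p : Tor n × UnitAddCircle} {r : ℝ} (hr : r ∈ calSet L m p) :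
    calU L m p ≤ r := csInf_le ⟨-B, calSet_bdd h p⟩ hr

lemma calU_nonpos {L : Phase n → ℝ} {m B : ℝ} (h : LowBd L m B) (p : Tor n × UnitAddCircle) : calU L m p ≤ 0 :=
  calU_le h (calSet_zero L m p)

lemma calU_lower {L : Phase n → ℝ} {m B : ℝ} (h : LowBd L m B) (p : Tor n × UnitAddCircle) : -B ≤ calU L m p :=
  le_csInf ⟨0, calSet_zero L m p⟩ (calSet_bdd h p)

lemma calU_sub {L : Phase n → ℝ} (hL : IsC2 L) {m B : ℝ} (h : LowBd L m B) {R a A : ℝ} {x y : E n} (j : ℕ)
    (hr : Reach L R a (a + j) x y A) :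
    calU L m (q y, ((a + j : ℝ) : UnitAddCircle)) ≤ calU L m (q x, (a : UnitAddCircle)) + (A - m * j) := by
  rw [← sub_le_iff_le_add]
  apply le_csInf ⟨0, calSet_zero L m _⟩
  rintro r ⟨k, R', b', x', y', A', hr', hy', hb', rfl⟩
  rw [sub_le_iff_le_add]
  obtain ⟨l, hl⟩ := (q_eq_iff _ _).mp hy'
  obtain ⟨i, hi⟩ := (coe_eq_iff _ _).mp hb'
  have r1 := hr'.translate l i
  rw [← hl, ← hi] at r1
  have e1 : b' - (k:ℝ) + i = a - k := by rw [hi]; ring
  rw [e1] at r1
  have r2 := (r1.mono_R (le_max_left R' R)).trans hL (by linarith [(Nat.cast_nonneg k : (0:ℝ) ≤ k)])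
    (by linarith [(Nat.cast_nonneg j : (0:ℝ) ≤ j)]) (hr.mono_R (le_max_right R' R))
  apply calU_le h
  refine ⟨k + j, max R' R, a + j, x' + iv l, y, A' + A, ?_, rfl, rfl, by push_cast; ring⟩
  have e2 : a + (j:ℝ) - ((k + j : ℕ) : ℝ) = a - k := by push_cast; ring
  rw [e2]; exact r2

/-! ### Measurability -/

lemma Reach.shift {L : Phase n → ℝ} (hL : IsC2 L) {R α C a b A : ℝ} {x y : E n} (hB : Bd L R α C) (hab : a ≤ b)
    (h : Reach L R a b x y A) (η : E n) (δ : ℝ) :
    Reach L R (a + δ) (b + δ) (x + η) (y + η) (A + C * (‖η‖ + |δ|) * (b - a)) := by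
  obtain ⟨w, hw, he, hA⟩ := h
  have hcrv : ∀ t, crv (a + δ) (x + η) (fun t => w (t - δ)) (t + δ) = crv a x w t + η := by
    intro t
    simp only [crv]
    rw [intervalIntegral.integral_comp_sub_right (fun r => w r)]
    simp only [add_sub_cancel_right]
    abel
  refine ⟨fun t => w (t - δ), ⟨hw.meas.comp (measurable_id.sub_const _), fun t => hw.bd _⟩, by rw [hcrv, he], ?_⟩
  have e : cact L (a + δ) (b + δ) (x + η) (fun t => w (t - δ)) = ∫ s in a..b, lift L (crv a x w s + η, w s, s + δ) := by
    simp only [cact]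
    have h1 := intervalIntegral.integral_comp_add_right (a := a) (b := b)
      (fun s => lift L (crv (a + δ) (x + η) (fun t => w (t - δ)) s, w (s - δ), s)) δ
    rw [← h1]
    apply intervalIntegral.integral_congr
    intro s _
    simp only
    rw [hcrv, add_sub_cancel_right]
  rw [e]
  have hI1 : IntervalIntegrable (fun s => lift L (crv a x w s + η, w s, s + δ)) volume a b := by
    obtain ⟨α', C', hB'⟩ := exists_Bd hL R
    apply intervalIntegrable_of_bounded (C := C')
    · apply hL.smooth.continuous.measurable.comp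
      exact ((hw.continuous_crv a x).measurable.add_const η).prodMk (hw.meas.prodMk (measurable_id.add_const δ))
    · intro t; exact hB'.bd0 _ _ _ (hw.bd t)
  have hI2 := hw.integrable_cact hL a x a b
  have h2 : ∫ s in a..b, lift L (crv a x w s + η, w s, s + δ) ≤ ∫ s in a..b, (lift L (crv a x w s, w s, s) + C * (‖η‖ + |δ|)) := by
    apply intervalIntegral.integral_mono_on hab hI1 (hI2.add intervalIntegrable_const)
    intro s _
    have := hB.lip0 (crv a x w s + η) (crv a x w s) (w s) (w s) s (s + δ) (hw.bd s) (hw.bd s)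
    simp only [add_sub_cancel_left, sub_self, norm_zero, add_zero] at this
    linarith [le_abs_self (lift L (crv a x w s + η, w s, s + δ) - lift L (crv a x w s, w s, s))]
  refine h2.trans ?_
  rw [intervalIntegral.integral_add hI2 intervalIntegrable_const, intervalIntegral.integral_const, smul_eq_mul]
  have : cact L a b x w ≤ A := hA
  simp only [cact] at this
  linarith

lemma measurable_calU {L : Phase n → ℝ} (hL : IsC2 L) {m B : ℝ} (h : LowBd L m B) : Measurable (calU L m) := by
  apply measurable_of_Iio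
  intro r
  apply IsOpen.measurableSet
  rw [Metric.isOpen_iff]
  intro p hp
  have hp' : calU L m p < r := hp
  obtain ⟨r', hr', hlt⟩ := exists_lt_of_csInf_lt ⟨0, calSet_zero L m p⟩ hp'
  obtain ⟨k, R, b, x, y, A, hreach, hy, hb, rfl⟩ := hr'
  obtain ⟨α, C, hB⟩ := exists_Bd hL R
  have hC := hB.C_nonneg
  set gap := r - (A - m * k) with hgap
  have hgap0 : 0 < gap := by linarith
  set ε := gap / (2 * (C * (n + 2) * k + 1)) with hε
  have hε0 : 0 < ε := by positivity
  have hε1 : C * ((n + 2) * ε) * k < gap := by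
    have e1 : C * ((n + 2) * ε) * k = (C * (n + 2) * k) * ε := by ring
    rw [e1, hε, mul_div_assoc', div_lt_iff₀ (by positivity)]
    have : 0 ≤ C * (n + 2) * k := by positivity
    nlinarith
  refine ⟨ε, hε0, fun p' hp' => ?_⟩
  rw [mem_ball, dist_comm, Prod.dist_eq, max_lt_iff] at hp'
  obtain ⟨h1, h2⟩ := hp'
  rw [← hy] at h1
  rw [← hb] at h2
  obtain ⟨y', hy', hyy⟩ := exists_close_lift y p'.1
  obtain ⟨b', hb', hbb⟩ := exists_close_lift_coe b p'.2
  have hk : (0:ℝ) ≤ k := Nat.cast_nonneg k
  have hsh := hreach.shift hL hB (by linarith) (y' - y) (b' - b)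
  have e1 : b - k + (b' - b) = b' - k := by ring
  have e2 : b + (b' - b) = b' := by ring
  have e3 : y + (y' - y) = y' := by abel
  have e4 : b - (b - (k:ℝ)) = k := by ring
  rw [e1, e2, e3, e4] at hsh
  have hle := calU_le h (p := p') ⟨k, R, b', _, y', _, hsh, hy', hb', rfl⟩
  show calU L m p' < r
  refine hle.trans_lt ?_
  have h3 : ‖y' - y‖ ≤ (n + 1) * ε := by
    rw [norm_sub_rev]; exact hyy.trans (by gcongr)
  have h4 : |b' - b| ≤ ε := by
    rw [abs_sub_comm]; exact hbb.trans h2.le
  have h5 : C * (‖y' - y‖ + |b' - b|) * k ≤ C * ((n + 2) * ε) * k := by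
    gcongr
    linarith
  linarith

/-! ### The defect -/

/-- the calibration defect on a unit interval -/
noncomputable def defect (L : Phase n → ℝ) (m : ℝ) (z : Phase n) : ℝ :=
  (∫ s in (0:ℝ)..1, L (flow L s z)) - m - (calU L m (prj (flow L 1 z)) - calU L m (prj z))

lemma measurable_defect {L : Phase n → ℝ} (hL : IsTonelli L) {m B : ℝ} (h : LowBd L m B) : Measurable (defect L m) := by
  have hLc : Continuous L := continuous_of_lift hL.smooth.continuous
  have h1 := (continuous_time_integral hL hLc 1).measurable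
  have h2 := measurable_calU hL.isC2 h
  have h3 : Measurable (fun z => calU L m (prj (flow L 1 z))) :=
    h2.comp (continuous_prj.comp (continuous_flow_map hL 1)).measurable
  have h4 : Measurable (fun z => calU L m (prj z)) := h2.comp continuous_prj.measurable
  exact (h1.sub_const m).sub (h3.sub h4)

lemma defect_nonneg {L : Phase n → ℝ} (hL : IsTonelli L) {m B : ℝ} (h : LowBd L m B) (z : Phase n) : 0 ≤ defect L m z := by
  obtain ⟨s0, x, y, R, hx, hs, hy, hr⟩ := reach_flow (L' := L) hL z zero_le_one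
  have h1 := calU_sub hL.isC2 h 1 (R := R) (a := s0) (x := x) (y := y) (by simpa using hr)
  have e1 : prj z = (q x, (s0 : UnitAddCircle)) := by rw [prj, hx, hs]
  have e2 : prj (flow L 1 z) = (q y, ((s0 + (1:ℕ) : ℝ) : UnitAddCircle)) := by
    rw [prj, hy]
    congr 1
    obtain ⟨γ, s, hγ, rfl⟩ := exists_state hL z
    rw [flow_state hL.isC2 hγ]
    simp only [state] at hs ⊢
    rw [AddCircle.coe_add, AddCircle.coe_add, hs]
    simp
  rw [defect, e1, e2]
  push_cast at h1 ⊢
  linarith

lemma integral_defect {L : Phase n → ℝ} (hL : IsTonelli L) {m B : ℝ} (h : LowBd L m B) {μ : ProbabilityMeasure (Phase n)}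
    (hμ : IsInv L μ) : ∫ z, defect L m z ∂(μ : Measure (Phase n)) = action L μ - m := by
  have hLc : Continuous L := continuous_of_lift hL.smooth.continuous
  obtain ⟨K, hK⟩ := hμ.exists_conc
  have hUm := measurable_calU hL.isC2 h
  have i1 : Integrable (fun z => ∫ s in (0:ℝ)..1, L (flow L s z)) (μ : Measure (Phase n)) :=
    hK.integrable (continuous_time_integral hL hLc 1)
  have hbd : ∀ p, ‖calU L m p‖ ≤ |B| := by
    intro p
    rw [Real.norm_eq_abs, abs_le]
    exact ⟨by linarith [calU_lower h p, neg_abs_le B, le_abs_self B], by linarith [calU_nonpos h p, abs_nonneg B]⟩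
  have i2 : Integrable (fun z => calU L m (prj z)) (μ : Measure (Phase n)) :=
    Integrable.of_bound (hUm.comp continuous_prj.measurable).aestronglyMeasurable |B| (Eventually.of_forall fun z => hbd _)
  have i3 : Integrable (fun z => calU L m (prj (flow L 1 z))) (μ : Measure (Phase n)) :=
    Integrable.of_bound (hUm.comp (continuous_prj.comp (continuous_flow_map hL 1)).measurable).aestronglyMeasurable |B|
      (Eventually.of_forall fun z => hbd _)
  simp only [defect]
  have i4 : Integrable (fun z => (∫ s in (0:ℝ)..1, L (flow L s z)) - m) (μ : Measure (Phase n)) := i1.sub (integrable_const m)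
  have i5 : Integrable (fun z => calU L m (prj (flow L 1 z)) - calU L m (prj z)) (μ : Measure (Phase n)) := i3.sub i2
  rw [integral_sub i4 i5, integral_sub i1 (integrable_const m), integral_sub i3 i2,
    avg_flow hL hμ hLc zero_le_one]
  have := hμ.integral_flow hL 1 (g := fun z => calU L m (prj z)) (hUm.comp continuous_prj.measurable).stronglyMeasurable
  rw [this]
  simp [action]

lemma defect_ae {L : Phase n → ℝ} (hL : IsTonelli L) {m B : ℝ} (h : LowBd L m B) {μ : ProbabilityMeasure (Phase n)}
    (hμ : IsInv L μ) (hm : action L μ = m) : ∀ᵐ z ∂(μ : Measure (Phase n)), defect L m z = 0 := by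
  have h1 := integral_defect hL h hμ
  rw [hm, sub_self] at h1
  have hint : Integrable (defect L m) (μ : Measure (Phase n)) := by
    have hLc : Continuous L := continuous_of_lift hL.smooth.continuous
    obtain ⟨K, hK⟩ := hμ.exists_conc
    have hUm := measurable_calU hL.isC2 h
    have i1 : Integrable (fun z => ∫ s in (0:ℝ)..1, L (flow L s z)) (μ : Measure (Phase n)) :=
      hK.integrable (continuous_time_integral hL hLc 1)
    have hbd : ∀ p, ‖calU L m p‖ ≤ |B| := by
      intro p
      rw [Real.norm_eq_abs, abs_le]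
      exact ⟨by linarith [calU_lower h p, neg_abs_le B, le_abs_self B], by linarith [calU_nonpos h p, abs_nonneg B]⟩
    have i2 : Integrable (fun z => calU L m (prj z)) (μ : Measure (Phase n)) :=
      Integrable.of_bound (hUm.comp continuous_prj.measurable).aestronglyMeasurable |B| (Eventually.of_forall fun z => hbd _)
    have i3 : Integrable (fun z => calU L m (prj (flow L 1 z))) (μ : Measure (Phase n)) :=
      Integrable.of_bound (hUm.comp (continuous_prj.comp (continuous_flow_map hL 1)).measurable).aestronglyMeasurable |B|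
        (Eventually.of_forall fun z => hbd _)
    exact (i1.sub (integrable_const m)).sub (i3.sub i2)
  have h2 := (integral_eq_zero_iff_of_nonneg (fun z => defect_nonneg hL h z) hint).mp h1
  exact h2

/-- the calibrated set -/
def calG (L : Phase n → ℝ) (m : ℝ) : Set (Phase n) := {z | defect L m z = 0 ∧ defect L m (flow L (-1) z) = 0}

lemma measurableSet_calG {L : Phase n → ℝ} (hL : IsTonelli L) {m B : ℝ} (h : LowBd L m B) : MeasurableSet (calG L m) := by
  have h1 := measurable_defect hL h
  have h2 : Measurable (fun z => defect L m (flow L (-1) z)) := h1.comp (continuous_flow_map hL (-1)).measurable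
  exact (measurableSet_eq_fun h1 measurable_const).inter (measurableSet_eq_fun h2 measurable_const)

lemma calG_ae {L : Phase n → ℝ} (hL : IsTonelli L) {m B : ℝ} (h : LowBd L m B) {μ : ProbabilityMeasure (Phase n)}
    (hμ : IsInv L μ) (hm : action L μ = m) : ∀ᵐ z ∂(μ : Measure (Phase n)), z ∈ calG L m := by
  have h1 := defect_ae hL h hμ hm
  have h2 : ∀ᵐ z ∂(μ : Measure (Phase n)), defect L m (flow L (-1) z) = 0 := by
    have hc := continuous_flow_map hL (-1)
    have : ∀ᵐ z ∂((μ : Measure (Phase n)).map (flow L (-1))), defect L m z = 0 := by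
      rw [hμ.invariant (-1)]; exact h1
    exact ae_of_ae_map hc.aemeasurable this
  filter_upwards [h1, h2] with z a b using ⟨a, b⟩

/-! ### Consequences of calibration -/

/-- a calibrated orbit segment is minimizing for fixed end points -/
lemma calibrated_min {L : Phase n → ℝ} (hL : IsTonelli L) {m B : ℝ} (h : LowBd L m B) {γ : ℝ → E n} (hγ : IsEL L γ) {s0 : ℝ}
    (hd : defect L m (state γ s0) = 0) {R A : ℝ} {y : E n} (hr : Reach L R s0 (s0 + 1) (γ s0) y A) (hy : q y = q (γ (s0 + 1))) :
    ∫ s in (0:ℝ)..1, L (flow L s (state γ s0)) ≤ A := by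
  have h1 := calU_sub hL.isC2 h 1 (R := R) (a := s0) (x := γ s0) (y := y) (by simpa using hr)
  rw [defect, flow_state hL.isC2 hγ] at hd
  have e1 : prj (state γ (s0 + 1)) = (q y, ((s0 + (1:ℕ) : ℝ) : UnitAddCircle)) := by
    simp only [prj, state]
    rw [hy]
    simp
  have e2 : prj (state γ s0) = (q (γ s0), (s0 : UnitAddCircle)) := rfl
  rw [e1, e2] at hd
  push_cast at h1 hd
  linarith

/-- speed bound for calibrated points -/
lemma calibrated_speed {L : Phase n → ℝ} (hL : IsTonelli L) {m B : ℝ} (h : LowBd L m B) {C0 C2 K0 : ℝ} (hS : SpeedData L C0 C2 K0)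
    {γ : ℝ → E n} (hγ : IsEL L γ) {s0 : ℝ} (hd : defect L m (state γ s0) = 0) :
    ∀ t ∈ Icc s0 (s0 + 1), ‖deriv γ t‖ ≤ K0 := by
  obtain ⟨k, hk⟩ := exists_close_translate (γ s0) (γ (s0 + 1))
  have r : Reach L (n + 1) s0 (s0 + 1) (γ s0) (γ (s0 + 1) + iv k) (C0 * ((s0 + 1) - s0)) :=
    reach_straight (by linarith) (by linarith) hS.bd hL.isC2
  have h1 := calibrated_min hL h hγ hd r (q_add_iv _ _)
  have hLc : Continuous L := continuous_of_lift hL.smooth.continuous
  have hc : Continuous (fun s => L (flow L s (state γ s0))) := by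
    have : (fun s => L (flow L s (state γ s0))) = fun s => L (state γ (s0 + s)) := by
      ext1 s; rw [flow_state hL.isC2 hγ]
    rw [this]
    exact hLc.comp ((continuous_state hγ).comp (by fun_prop))
  obtain ⟨s, hs, hs'⟩ := exists_le_of_integral_le hc zero_lt_one (C := C0) (by linarith)
  rw [flow_state hL.isC2 hγ] at hs'
  have h2 := hS.sup _ hs'
  exact hS.sp γ (deriv γ) s0 (s0 + 1) (hγ.elOn _ _) (by linarith) (s0 + s) ⟨by linarith [hs.1], by linarith [hs.2]⟩ h2

lemma calG_speed {L : Phase n → ℝ} (hL : IsTonelli L) {m B : ℝ} (h : LowBd L m B) {C0 C2 K0 : ℝ} (hS : SpeedData L C0 C2 K0) :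
    calG L m ⊆ slab n K0 := by
  rintro z ⟨hz, -⟩
  obtain ⟨γ, s0, hγ, rfl⟩ := exists_state hL z
  exact calibrated_speed hL h hS hγ hz s0 ⟨le_rfl, by linarith⟩

/-- straight paths with a precise bound of the action -/
lemma reach_chord {L : Phase n → ℝ} (hL : IsC2 L) {K α C : ℝ} (hB : Bd L K α C) {a b : ℝ} (hab : a < b) {x y : E n}
    {x0 v0 : E n} {s0 e : ℝ} (hv0 : ‖v0‖ ≤ K) (hK : ‖(b - a)⁻¹ • (y - x)‖ ≤ K) (h1 : ‖(b - a)⁻¹ • (y - x) - v0‖ ≤ e)
    (h2 : ∀ t ∈ Icc a b, ‖x + (t - a) • ((b - a)⁻¹ • (y - x)) - x0‖ ≤ e) (h3 : ∀ t ∈ Icc a b, |t - s0| ≤ e) :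
    Reach L K a b x y ((lift L (x0, v0, s0) + C * (3 * e)) * (b - a)) := by
  set d : E n := (b - a)⁻¹ • (y - x) with hd
  have hba : 0 < b - a := by linarith
  have hγ : ∀ t ∈ Icc a b, HasDerivWithinAt (fun t : ℝ => x + (t - a) • d) d (Icc a b) t := by
    intro t _
    have := (((hasDerivAt_id t).sub_const a).smul_const d).const_add x
    simp only [id, one_smul] at this
    exact this.hasDerivWithinAt
  have r := reach_of_C1 (L := L) (w := fun _ => d) hab.le continuousOn_const hγ (fun _ _ => hK)
  have e1 : x + (a - a) • d = x := by simp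
  have e2 : x + (b - a) • d = y := by
    rw [hd, smul_smul, mul_inv_cancel₀ hba.ne', one_smul]; abel
  rw [e1, e2] at r
  refine r.mono ?_
  have hC := hB.C_nonneg
  have hcont : Continuous (fun t : ℝ => lift L (x + (t - a) • d, d, t)) :=
    hL.smooth.continuous.comp (by fun_prop)
  have : ∫ t in a..b, lift L (x + (t - a) • d, d, t) ≤ ∫ _t in a..b, (lift L (x0, v0, s0) + C * (3 * e)) := by
    apply intervalIntegral.integral_mono_on hab.le (hcont.intervalIntegrable _ _) intervalIntegrable_const
    intro t ht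
    have := hB.lip0 (x + (t - a) • d) x0 d v0 s0 t hK hv0
    have h4 : C * (‖x + (t - a) • d - x0‖ + ‖d - v0‖ + |t - s0|) ≤ C * (3 * e) := by
      have := h2 t ht
      have := h3 t ht
      apply mul_le_mul_of_nonneg_left _ hC
      linarith
    linarith [le_abs_self (lift L (x + (t - a) • d, d, t) - lift L (x0, v0, s0))]
  refine this.trans (le_of_eq ?_)
  rw [intervalIntegral.integral_const, smul_eq_mul]; ring

end Pool.Agent.Lib.Mane
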