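import Pool.Agent.Lib.Mane.Calib

open Set Filter Topology MeasureTheory Metric BoundedContinuousFunction
open scoped ENNReal NNReal Interval

namespace Pool.Agent.Lib.Mane

variable {n : ℕ}

lemma el_taylor {L : Phase n → ℝ} {K α C : ℝ} (hB : Bd L K α C) {γ w : ℝ → E n} {a b : ℝ} (h : ELOn L γ w a b)
    (hK : ∀ t ∈ Icc a b, ‖w t‖ ≤ K) {s t : ℝ} (hs : s ∈ Icc a b) (ht : t ∈ Icc a b) :
    ‖γ t - γ s - (t - s) • w s‖ ≤ (1 / α) * (2 * C + C * K) * |t - s| * |t - s| := by
  have hsub : uIcc s t ⊆ Icc a b := by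
    intro r hr
    rw [mem_uIcc] at hr
    rcases hr with hr | hr
    · exact ⟨hs.1.trans hr.1, hr.2.trans ht.2⟩
    · exact ⟨ht.1.trans hr.1, hr.2.trans hs.2⟩
  have hα := hB.a_pos
  have hC := hB.C_nonneg
  have hK0 : 0 ≤ K := (norm_nonneg _).trans (hK s hs)
  have hd : ∀ r ∈ uIcc s t, HasDerivWithinAt (fun r => γ r - (r - s) • w s) (w r - w s) (uIcc s t) r := by
    intro r hr
    have h1 := (h.dx r (hsub hr)).mono hsub
    have h2 : HasDerivWithinAt (fun r : ℝ => (r - s) • w s) (w s) (uIcc s t) r := by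
      have := ((hasDerivAt_id r).sub_const s).smul_const (w s)
      simp only [id, one_smul] at this
      exact this.hasDerivWithinAt
    exact h1.sub h2
  have hbd : ∀ r ∈ uIcc s t, ‖w r - w s‖ ≤ (1 / α) * (2 * C + C * K) * |t - s| := by
    intro r hr
    refine (h.vel_lip hB hK hs (hsub hr)).trans ?_
    have : |r - s| ≤ |t - s| := by
      rw [mem_uIcc] at hr
      rcases hr with hr | hr
      · rw [abs_of_nonneg (by linarith [hr.1]), abs_of_nonneg (by linarith [hr.1, hr.2])]; linarith [hr.2]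
      · rw [abs_of_nonpos (by linarith [hr.2]), abs_of_nonpos (by linarith [hr.1, hr.2])]; linarith [hr.1]
    gcongr
  have := (convex_uIcc s t).norm_image_sub_le_of_norm_hasDerivWithin_le hd hbd left_mem_uIcc right_mem_uIcc
  simp only [sub_self, zero_smul, sub_zero, Real.norm_eq_abs] at this
  have e : γ t - (t - s) • w s - γ s = γ t - γ s - (t - s) • w s := by abel
  rw [e] at this
  exact this

lemma el_action_lower {L : Phase n → ℝ} (hL : IsC2 L) {K α C : ℝ} (hB : Bd L K α C) {γ : ℝ → E n} {a b : ℝ} (h : IsEL L γ)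
    (hK : ∀ t ∈ Icc a b, ‖deriv γ t‖ ≤ K) {s c d ε : ℝ} (hs : s ∈ Icc a b) (hcd : c ≤ d) (hc : a ≤ c) (hd : d ≤ b)
    (hε : ∀ r ∈ Icc c d, |r - s| ≤ ε) :
    (lift L (γ s, deriv γ s, s) - C * ((K + (1 / α) * (2 * C + C * K) + 1) * ε)) * (d - c) ≤
      ∫ r in c..d, lift L (γ r, deriv γ r, r) := by
  have hα := hB.a_pos
  have hC := hB.C_nonneg
  have hK0 : 0 ≤ K := (norm_nonneg _).trans (hK s hs)
  have hcont : Continuous (fun r : ℝ => lift L (γ r, deriv γ r, r)) :=
    hL.smooth.continuous.comp (h.c1.continuous.prodMk ((h.c1.continuous_deriv le_rfl).prodMk continuous_id))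
  have h1 : ∫ _r in c..d, (lift L (γ s, deriv γ s, s) - C * ((K + (1 / α) * (2 * C + C * K) + 1) * ε)) ≤
      ∫ r in c..d, lift L (γ r, deriv γ r, r) := by
    apply intervalIntegral.integral_mono_on hcd intervalIntegrable_const (hcont.intervalIntegrable _ _)
    intro r hr
    have hrI : r ∈ Icc a b := ⟨hc.trans hr.1, hr.2.trans hd⟩
    have h2 := hB.lip0 (γ s) (γ r) (deriv γ s) (deriv γ r) r s (hK s hs) (hK r hrI)
    have h3 := (h.elOn a b).pos_lip hK hrI hs
    have h4 := (h.elOn a b).vel_lip hB hK hrI hs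
    have h5 := hε r hr
    rw [abs_sub_comm] at h5
    have h6 : C * (‖γ s - γ r‖ + ‖deriv γ s - deriv γ r‖ + |s - r|) ≤ C * ((K + (1 / α) * (2 * C + C * K) + 1) * ε) := by
      apply mul_le_mul_of_nonneg_left _ hC
      have a1 : K * |s - r| ≤ K * ε := by gcongr
      have a2 : (1 / α) * (2 * C + C * K) * |s - r| ≤ (1 / α) * (2 * C + C * K) * ε := by gcongr
      linarith
    linarith [le_abs_self (lift L (γ s, deriv γ s, s) - lift L (γ r, deriv γ r, r))]
  rw [intervalIntegral.integral_const, smul_eq_mul] at h1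
  linarith

lemma calU_sub' {L : Phase n → ℝ} (hL : IsC2 L) {m B : ℝ} (h : LowBd L m B) {R a b A : ℝ} {x y : E n} (j : ℕ)
    (hb : b = a + j) (hr : Reach L R a b x y A) :
    calU L m (q y, (b : UnitAddCircle)) ≤ calU L m (q x, (a : UnitAddCircle)) + (A - m * j) := by
  subst hb; exact calU_sub hL h j hr

/-- no corners -/
lemma no_corner {L : Phase n → ℝ} (hL : IsTonelli L) {m B : ℝ} (h : LowBd L m B) {γ1 γ2 : ℝ → E n} (h1 : IsEL L γ1)
    (h2 : IsEL L γ2) {s0 : ℝ} (hx : γ1 s0 = γ2 s0) (hd1 : defect L m (state γ1 (s0 - 1)) = 0)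
    (hd2 : defect L m (state γ2 s0) = 0) : deriv γ1 s0 = deriv γ2 s0 := by
  have hL2 := hL.isC2
  obtain ⟨K1, hK1⟩ := (isCompact_Icc (a := s0 - 1) (b := s0)).exists_bound_of_continuousOn
    (h1.c1.continuous_deriv le_rfl).continuousOn
  obtain ⟨K2, hK2⟩ := (isCompact_Icc (a := s0) (b := s0 + 1)).exists_bound_of_continuousOn
    (h2.c1.continuous_deriv le_rfl).continuousOn
  set K := max K1 K2 with hKdef
  have hK1' : ∀ t ∈ Icc (s0 - 1) s0, ‖deriv γ1 t‖ ≤ K := fun t ht => (hK1 t ht).trans (le_max_left _ _)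
  have hK2' : ∀ t ∈ Icc s0 (s0 + 1), ‖deriv γ2 t‖ ≤ K := fun t ht => (hK2 t ht).trans (le_max_right _ _)
  have hs1 : s0 ∈ Icc (s0 - 1) s0 := ⟨by linarith, le_rfl⟩
  have hs2 : s0 ∈ Icc s0 (s0 + 1) := ⟨le_rfl, by linarith⟩
  have hK0 : 0 ≤ K := (norm_nonneg _).trans (hK1' s0 hs1)
  obtain ⟨α, C, hB⟩ := exists_Bd hL2 K
  have hα := hB.a_pos
  have hC := hB.C_nonneg
  set Λ := (1 / α) * (2 * C + C * K) with hΛ
  have hΛ0 : 0 ≤ Λ := by positivity
  set x0 := γ1 s0 with hx0
  set v1 := deriv γ1 s0 with hv1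
  set v2 := deriv γ2 s0 with hv2
  set v0 : E n := (1/2 : ℝ) • (v1 + v2) with hv0
  have hv1K : ‖v1‖ ≤ K := hK1' s0 hs1
  have hv2K : ‖v2‖ ≤ K := hK2' s0 hs2
  have hv0K : ‖v0‖ ≤ K := by
    rw [hv0, norm_smul, Real.norm_of_nonneg (by norm_num)]
    have := norm_add_le v1 v2
    linarith
  have hc1 : Continuous (fun r : ℝ => lift L (γ1 r, deriv γ1 r, r)) :=
    hL2.smooth.continuous.comp (h1.c1.continuous.prodMk ((h1.c1.continuous_deriv le_rfl).prodMk continuous_id))
  have hc2 : Continuous (fun r : ℝ => lift L (γ2 r, deriv γ2 r, r)) :=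
    hL2.smooth.continuous.comp (h2.c1.continuous.prodMk ((h2.c1.continuous_deriv le_rfl).prodMk continuous_id))
  -- convexity gap
  have hgap : α / 4 * ‖v1 - v2‖ ^ 2 ≤ lift L (x0, v1, s0) + lift L (x0, v2, s0) - 2 * lift L (x0, v0, s0) := by
    have g1 := hB.conv hL2 x0 s0 v1 v0 hv1K hv0K
    have g2 := hB.conv hL2 x0 s0 v2 v0 hv2K hv0K
    have e1 : v1 - v0 = (1/2 : ℝ) • (v1 - v2) := by
      rw [hv0, smul_add, smul_sub]
      have : v1 = (1/2:ℝ) • v1 + (1/2:ℝ) • v1 := by rw [← add_smul]; norm_num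
      nth_rewrite 1 [this]; abel
    have e2 : v2 - v0 = -((1/2 : ℝ) • (v1 - v2)) := by
      rw [hv0, smul_add, smul_sub]
      have : v2 = (1/2:ℝ) • v2 + (1/2:ℝ) • v2 := by rw [← add_smul]; norm_num
      nth_rewrite 1 [this]; abel
    rw [e1, norm_smul, Real.norm_of_nonneg (by norm_num : (0:ℝ) ≤ 1/2)] at g1
    rw [e2, map_neg, norm_neg, norm_smul, Real.norm_of_nonneg (by norm_num : (0:ℝ) ≤ 1/2)] at g2
    linarith
  -- main estimate
  have key : ∀ ε, 0 < ε → ε < 1 → α / 4 * ‖v1 - v2‖ ^ 2 ≤ 0 + (8 * C * (Λ + 3 * K + 1)) * ε := by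
    intro ε hε hε1
    have hsm : s0 - ε ∈ Icc (s0 - 1) s0 := ⟨by linarith, by linarith⟩
    have hsp : s0 + ε ∈ Icc s0 (s0 + 1) := ⟨by linarith, by linarith⟩
    have t1 := el_taylor hB (h1.elOn _ _) hK1' hs1 hsm
    have t2 := el_taylor hB (h2.elOn _ _) hK2' hs2 hsp
    have p1 := (h1.elOn _ _).pos_lip hK1' hs1 hsm
    have p2 := (h2.elOn _ _).pos_lip hK2' hs2 hsp
    rw [← hΛ, ← hx0, ← hv1] at t1
    rw [← hΛ, ← hx, ← hv2] at t2
    rw [← hx0] at p1
    rw [← hx] at p2
    have a1 : |s0 - ε - s0| = ε := by rw [sub_sub_cancel_left, abs_neg, abs_of_pos hε]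
    have a2 : |s0 + ε - s0| = ε := by rw [add_sub_cancel_left, abs_of_pos hε]
    rw [a1] at t1 p1
    rw [a2] at t2 p2
    have b1 : s0 - ε - s0 = -ε := by ring
    have b2 : s0 + ε - s0 = ε := by ring
    rw [b1] at t1
    rw [b2] at t2
    set x := γ1 (s0 - ε) with hxdef
    set y := γ2 (s0 + ε) with hydef
    set e := (Λ + 3 * K + 1) * ε with he
    have hlen : (s0 + ε) - (s0 - ε) = 2 * ε := by ring
    set d : E n := ((s0 + ε) - (s0 - ε))⁻¹ • (y - x) with hd
    have hdK : ‖d‖ ≤ K := by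
      rw [hd, hlen, norm_smul, norm_inv, Real.norm_of_nonneg (by positivity), inv_mul_le_iff₀ (by positivity)]
      have : y - x = (y - x0) - (x - x0) := by abel
      rw [this]
      calc _ ≤ ‖y - x0‖ + ‖x - x0‖ := norm_sub_le _ _
        _ ≤ K * ε + K * ε := add_le_add p2 p1
        _ = 2 * ε * K := by ring
    have hdv : ‖d - v0‖ ≤ e := by
      have e1 : d - v0 = (2 * ε)⁻¹ • ((y - x0 - ε • v2) - (x - x0 - (-ε) • v1)) := by
        have hz : v0 = (2 * ε)⁻¹ • (ε • v1 + ε • v2) := by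
          rw [hv0, ← smul_add, smul_smul]
          congr 1
          field_simp
        rw [hd, hlen, hz, ← smul_sub, neg_smul]
        congr 1
        abel
      rw [e1, norm_smul, norm_inv, Real.norm_of_nonneg (by positivity), inv_mul_le_iff₀ (by positivity)]
      calc _ ≤ ‖y - x0 - ε • v2‖ + ‖x - x0 - (-ε) • v1‖ := norm_sub_le _ _
        _ ≤ Λ * ε * ε + Λ * ε * ε := add_le_add t2 t1
        _ ≤ 2 * ε * e := by
          rw [he]
          have : 0 ≤ (3 * K + 1) * ε * ε := by positivity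
          linarith
    have hpos : ∀ t ∈ Icc (s0 - ε) (s0 + ε), ‖x + (t - (s0 - ε)) • d - x0‖ ≤ e := by
      intro t ht
      have e1 : x + (t - (s0 - ε)) • d - x0 = (x - x0) + (t - (s0 - ε)) • d := by abel
      rw [e1]
      have h5 : ‖(t - (s0 - ε)) • d‖ ≤ (2 * ε) * K := by
        rw [norm_smul, Real.norm_of_nonneg (by linarith [ht.1])]
        have : t - (s0 - ε) ≤ 2 * ε := by linarith [ht.2]
        gcongr
      calc _ ≤ ‖x - x0‖ + ‖(t - (s0 - ε)) • d‖ := norm_add_le _ _
        _ ≤ K * ε + (2 * ε) * K := add_le_add p1 h5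
        _ ≤ e := by
          rw [he]
          have : 0 ≤ (Λ + 1) * ε := by positivity
          linarith
    have htim : ∀ t ∈ Icc (s0 - ε) (s0 + ε), |t - s0| ≤ e := by
      intro t ht
      have : |t - s0| ≤ ε := by rw [abs_le]; constructor <;> linarith [ht.1, ht.2]
      refine this.trans ?_
      rw [he]
      have : 0 ≤ (Λ + 3 * K) * ε := by positivity
      linarith
    have r2 := reach_chord hL2 hB (a := s0 - ε) (b := s0 + ε) (by linarith) (x := x) (y := y) (x0 := x0) (v0 := v0) (s0 := s0)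
      (e := e) hv0K hdK hdv hpos htim
    have r1 := reach_of_C1 (L := L) (a := s0 - 1) (b := s0 - ε) (by linarith) ((h1.elOn (s0-1) (s0-ε)).cont)
      ((h1.elOn (s0-1) (s0-ε)).dx) (fun t ht => hK1' t ⟨ht.1, by linarith [ht.2]⟩)
    have r3 := reach_of_C1 (L := L) (a := s0 + ε) (b := s0 + 1) (by linarith) ((h2.elOn (s0+ε) (s0+1)).cont)
      ((h2.elOn (s0+ε) (s0+1)).dx) (fun t ht => hK2' t ⟨by linarith [ht.1], ht.2⟩)
    have r := (r1.trans hL2 (by linarith) (by linarith) r2).trans hL2 (by linarith) (by linarith) r3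
    -- calibration
    have f1 : s0 - 1 + ((2:ℕ):ℝ) = s0 + 1 := by push_cast; ring
    have u := calU_sub' hL2 h 2 f1.symm r
    have u1 : calU L m (q x0, (s0 : UnitAddCircle)) - calU L m (q (γ1 (s0 - 1)), ((s0 - 1 : ℝ) : UnitAddCircle)) =
        (∫ r in (s0 - 1)..s0, lift L (γ1 r, deriv γ1 r, r)) - m := by
      have := hd1
      rw [defect, flow_state hL2 h1, sub_add_cancel] at this
      have e1 : ∫ s in (0:ℝ)..1, L (flow L s (state γ1 (s0 - 1))) = ∫ r in (s0 - 1)..s0, lift L (γ1 r, deriv γ1 r, r) := by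
        have e2 := intervalIntegral.integral_comp_add_left (a := 0) (b := 1) (fun r => lift L (γ1 r, deriv γ1 r, r)) (s0 - 1)
        rw [add_zero, sub_add_cancel] at e2
        rw [← e2]
        apply intervalIntegral.integral_congr
        intro s _
        simp only
        rw [flow_state hL2 h1]
        rfl
      rw [e1] at this
      simp only [prj, state] at this
      rw [hx0]
      linarith
    have u2 : calU L m (q (γ2 (s0 + 1)), ((s0 + 1 : ℝ) : UnitAddCircle)) - calU L m (q x0, (s0 : UnitAddCircle)) =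
        (∫ r in s0..(s0 + 1), lift L (γ2 r, deriv γ2 r, r)) - m := by
      have := hd2
      rw [defect, flow_state hL2 h2] at this
      have e1 : ∫ s in (0:ℝ)..1, L (flow L s (state γ2 s0)) = ∫ r in s0..(s0 + 1), lift L (γ2 r, deriv γ2 r, r) := by
        have e2 := intervalIntegral.integral_comp_add_left (a := 0) (b := 1) (fun r => lift L (γ2 r, deriv γ2 r, r)) s0
        rw [add_zero] at e2
        rw [← e2]
        apply intervalIntegral.integral_congr
        intro s _
        simp only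
        rw [flow_state hL2 h2]
        rfl
      rw [e1] at this
      simp only [prj, state] at this
      rw [hx]
      linarith
    have i1 := intervalIntegral.integral_add_adjacent_intervals (hc1.intervalIntegrable (μ := volume) (s0 - 1) (s0 - ε))
      (hc1.intervalIntegrable (s0 - ε) s0)
    have i2 := intervalIntegral.integral_add_adjacent_intervals (hc2.intervalIntegrable (μ := volume) s0 (s0 + ε))
      (hc2.intervalIntegrable (s0 + ε) (s0 + 1))
    have l1 := el_action_lower hL2 hB h1 hK1' hs1 (c := s0 - ε) (d := s0) (ε := ε) (by linarith) (by linarith) le_rfl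
      (fun r hr => by rw [abs_le]; constructor <;> linarith [hr.1, hr.2])
    have l2 := el_action_lower hL2 hB h2 hK2' hs2 (c := s0) (d := s0 + ε) (ε := ε) (by linarith) le_rfl (by linarith)
      (fun r hr => by rw [abs_le]; constructor <;> linarith [hr.1, hr.2])
    rw [← hΛ, ← hv1, ← hx0] at l1
    rw [← hΛ, ← hv2, ← hx] at l2
    have c1 : s0 - (s0 - ε) = ε := by ring
    have c2 : s0 + ε - s0 = ε := by ring
    rw [c1] at l1
    rw [c2] at l2
    rw [hlen] at u
    -- combine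
    push_cast at u
    have hmain : (lift L (x0, v1, s0) - C * ((K + Λ + 1) * ε)) * ε + (lift L (x0, v2, s0) - C * ((K + Λ + 1) * ε)) * ε ≤
        (lift L (x0, v0, s0) + C * (3 * e)) * (2 * ε) := by
      linarith
    have hmain2 : lift L (x0, v1, s0) + lift L (x0, v2, s0) - 2 * lift L (x0, v0, s0) ≤ 6 * C * e + 2 * (C * ((K + Λ + 1) * ε)) := by
      have : (lift L (x0, v1, s0) + lift L (x0, v2, s0) - 2 * lift L (x0, v0, s0)) * ε ≤
          (6 * C * e + 2 * (C * ((K + Λ + 1) * ε))) * ε := by linarith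
      exact le_of_mul_le_mul_right this hε
    have h9 : C * ((K + Λ + 1) * ε) ≤ C * e := by
      rw [he]
      apply mul_le_mul_of_nonneg_left _ hC
      have : 0 ≤ (2 * K) * ε := by positivity
      linarith
    have h10 : 8 * C * (Λ + 3 * K + 1) * ε = 8 * C * e := by rw [he]; ring
    rw [zero_add, h10]
    linarith
  have hfin := le_of_forall_eps (K := 8 * C * (Λ + 3 * K + 1)) (by positivity) one_pos key
  have hsq : ‖v1 - v2‖ ^ 2 ≤ 0 := by
    by_contra hcon
    push Not at hcon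
    have : 0 < α / 4 * ‖v1 - v2‖ ^ 2 := by positivity
    linarith
  have hz : ‖v1 - v2‖ = 0 := by
    have := sq_nonneg ‖v1 - v2‖
    exact pow_eq_zero_iff (two_ne_zero) |>.mp (le_antisymm hsq this)
  exact sub_eq_zero.mp (norm_eq_zero.mp hz)

/-- the projection is injective on the calibrated set -/
lemma injOn_prj_calG {L : Phase n → ℝ} (hL : IsTonelli L) {m B : ℝ} (h : LowBd L m B) : InjOn prj (calG L m) := by
  rintro ⟨θ1, v1, τ1⟩ hz1 ⟨θ2, v2, τ2⟩ hz2 heq
  simp only [prj, Prod.mk.injEq] at heq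
  obtain ⟨rfl, rfl⟩ := heq
  obtain ⟨x, rfl⟩ := q_surjective θ1
  obtain ⟨s0, rfl⟩ := coe_surjective τ1
  obtain ⟨γ1, h1, hx1, hv1⟩ := hL.complete x v1 s0
  obtain ⟨γ2, h2, hx2, hv2⟩ := hL.complete x v2 s0
  have e1 : ((q x, v1, (s0 : UnitAddCircle)) : Phase n) = state γ1 s0 := by simp [state, hx1, hv1]
  have e2 : ((q x, v2, (s0 : UnitAddCircle)) : Phase n) = state γ2 s0 := by simp [state, hx2, hv2]
  rw [e1] at hz1
  rw [e2] at hz2
  have hd1 := hz1.2
  rw [flow_state hL.isC2 h1, ← sub_eq_add_neg] at hd1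
  have := no_corner hL h h1 h2 (by rw [hx1, hx2]) hd1 hz2.1
  rw [hv1, hv2] at this
  rw [this]

instance (n : ℕ) : StandardBorelSpace (Phase n) := standardBorel_of_polish

/-- minimizing measures are determined by their projections -/
lemma eq_of_map_prj_eq {L : Phase n → ℝ} (hL : IsTonelli L) {m B : ℝ} (h : LowBd L m B) {μ1 μ2 : ProbabilityMeasure (Phase n)}
    (h1 : IsInv L μ1) (h2 : IsInv L μ2) (hm1 : action L μ1 = m) (hm2 : action L μ2 = m)
    (hp : (μ1 : Measure (Phase n)).map prj = (μ2 : Measure (Phase n)).map prj) : μ1 = μ2 := by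
  have hG := measurableSet_calG hL h
  have hinj := injOn_prj_calG hL h
  have key : ∀ μ : ProbabilityMeasure (Phase n), IsInv L μ → action L μ = m → ∀ S : Set (Phase n), MeasurableSet S →
      (μ : Measure (Phase n)) S = (μ : Measure (Phase n)).map prj (prj '' (S ∩ calG L m)) := by
    intro μ hμ hm S hS
    have hae := calG_ae hL h hμ hm
    have himg : MeasurableSet (prj '' (S ∩ calG L m)) :=
      (hS.inter hG).image_of_measurable_injOn continuous_prj.measurable (hinj.mono inter_subset_right)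
    rw [Measure.map_apply continuous_prj.measurable himg]
    apply measure_congr
    filter_upwards [hae] with z hz
    apply propext
    constructor
    · intro hzS
      exact ⟨z, ⟨hzS, hz⟩, rfl⟩
    · rintro ⟨z', ⟨hz'S, hz'G⟩, he⟩
      have := hinj hz'G hz he
      rw [← this]; exact hz'S
  apply Subtype.ext
  apply Measure.ext
  intro S hS
  have a1 := key μ1 h1 hm1 S hS
  have a2 := key μ2 h2 hm2 S hS
  rw [hp] at a1
  exact a1.trans a2.symm

end Pool.Agent.Lib.Mane
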