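import Pool.Agent.Lib.Mane.Disc

open Set Filter Topology MeasureTheory Metric
open scoped ENNReal NNReal Interval

namespace Pool.Agent.Lib.Mane

variable {n : ℕ}

/-! ### Admissible velocities, positions and action -/

/-- admissible velocities: measurable and bounded by `R` -/
structure Adm (w : ℝ → E n) (R : ℝ) : Prop where
  meas : Measurable w
  bd : ∀ t, ‖w t‖ ≤ R

/-- position of the curve with initial point `x0` and velocity `w` -/
noncomputable def pos (x0 : E n) (w : ℝ → E n) (t : ℝ) : E n := x0 + ∫ s in (0:ℝ)..t, w s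

/-- action on `[a, b]` -/
noncomputable def act (L : Phase n → ℝ) (x0 : E n) (w : ℝ → E n) (a b : ℝ) : ℝ :=
  ∫ s in a..b, lift L (pos x0 w s, w s, s)

lemma Adm.nonneg {w : ℝ → E n} {R : ℝ} (h : Adm w R) : 0 ≤ R := (norm_nonneg _).trans (h.bd 0)

lemma Adm.mono {w : ℝ → E n} {R R' : ℝ} (h : Adm w R) (hR : R ≤ R') : Adm w R' :=
  ⟨h.meas, fun t => (h.bd t).trans hR⟩

lemma intervalIntegrable_of_bounded {F : Type*} [NormedAddCommGroup F] [SecondCountableTopology F]
    [MeasurableSpace F] [BorelSpace F] {f : ℝ → F} (hf : Measurable f) {C : ℝ}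
    (hC : ∀ t, ‖f t‖ ≤ C) (a b : ℝ) : IntervalIntegrable f volume a b := by
  rw [intervalIntegrable_iff]
  exact Measure.integrableOn_of_bounded (M := C) measure_Ioc_lt_top.ne hf.aestronglyMeasurable
    (Eventually.of_forall hC)

lemma Adm.intervalIntegrable {w : ℝ → E n} {R : ℝ} (h : Adm w R) (a b : ℝ) : IntervalIntegrable w volume a b :=
  intervalIntegrable_of_bounded h.meas h.bd a b

@[simp] lemma pos_zero (x0 : E n) (w : ℝ → E n) : pos x0 w 0 = x0 := by simp [pos]

lemma Adm.pos_sub {w : ℝ → E n} {R : ℝ} (h : Adm w R) (x0 : E n) (s t : ℝ) :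
    pos x0 w t - pos x0 w s = ∫ r in s..t, w r := by
  simp only [pos, add_sub_add_left_eq_sub]
  exact intervalIntegral.integral_interval_sub_left (h.intervalIntegrable _ _) (h.intervalIntegrable _ _)

lemma Adm.pos_lip {w : ℝ → E n} {R : ℝ} (h : Adm w R) (x0 : E n) (s t : ℝ) :
    ‖pos x0 w t - pos x0 w s‖ ≤ R * |t - s| := by
  rw [h.pos_sub]
  exact intervalIntegral.norm_integral_le_of_norm_le_const (fun x _ => h.bd x)

lemma Adm.continuous_pos {w : ℝ → E n} {R : ℝ} (h : Adm w R) (x0 : E n) : Continuous (pos x0 w) := by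
  have : LipschitzWith (Real.toNNReal R) (pos x0 w) := by
    apply LipschitzWith.of_dist_le_mul
    intro s t
    rw [dist_eq_norm, Real.coe_toNNReal _ h.nonneg, Real.dist_eq]
    exact h.pos_lip x0 t s
  exact this.continuous

lemma Adm.measurable_path {w : ℝ → E n} {R : ℝ} (h : Adm w R) (x0 : E n) :
    Measurable (fun s => ((pos x0 w s, w s, s) : E n × E n × ℝ)) :=
  (h.continuous_pos x0).measurable.prodMk (h.meas.prodMk measurable_id)

lemma Adm.integrable_act {L : Phase n → ℝ} (hL : IsC2 L) {w : ℝ → E n} {R : ℝ} (h : Adm w R) (x0 : E n) (a b : ℝ) :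
    IntervalIntegrable (fun s => lift L (pos x0 w s, w s, s)) volume a b := by
  obtain ⟨α, C, hB⟩ := exists_Bd hL R
  apply intervalIntegrable_of_bounded (hL.smooth.continuous.measurable.comp (h.measurable_path x0)) (C := C)
  intro t
  exact hB.bd0 _ _ _ (h.bd t)

lemma Adm.integrable_Lx {L : Phase n → ℝ} (hL : IsC2 L) {w : ℝ → E n} {R : ℝ} (h : Adm w R) (x0 : E n) (a b : ℝ) :
    IntervalIntegrable (fun s => Lx L (pos x0 w s) (w s) s) volume a b := by
  obtain ⟨α, C, hB⟩ := exists_Bd hL R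
  borelize (E n →L[ℝ] ℝ)
  apply intervalIntegrable_of_bounded ((contDiff_LxF hL.smooth).continuous.measurable.comp (h.measurable_path x0)) (C := C)
  intro t
  exact hB.bdx _ _ _ (h.bd t)

/-! ### Riemann sums -/

lemma step_sum {G : Type*} [NormedAddCommGroup G] [NormedSpace ℝ G] [CompleteSpace G] {F : ℝ → G} {g : ℕ → G} {N : ℕ} (hN : 0 < N) {err : ℝ}
    {i0 i1 : ℕ} (hi : i0 ≤ i1) (hF : ∀ a b, IntervalIntegrable F volume a b)
    (h : ∀ i ∈ Finset.Ico i0 i1, ∀ s ∈ Ico ((i:ℝ) / N) (((i+1:ℕ):ℝ) / N), ‖g i - F s‖ ≤ err) :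
    ‖(1 / (N:ℝ)) • ∑ i ∈ Finset.Ico i0 i1, g i - ∫ s in ((i0:ℝ) / N)..((i1:ℝ) / N), F s‖ ≤ err * ((i1 - i0 : ℝ) / N) := by
  have hN' : (0:ℝ) < N := by exact_mod_cast hN
  have h1 : ∫ s in ((i0:ℝ) / N)..((i1:ℝ) / N), F s =
      ∑ i ∈ Finset.Ico i0 i1, ∫ s in ((i:ℝ) / N)..(((i+1:ℕ):ℝ) / N), F s :=
    (intervalIntegral.sum_integral_adjacent_intervals_Ico (a := fun i : ℕ => (i:ℝ) / N) hi
      (fun k _ => hF _ _)).symm
  rw [h1, Finset.smul_sum, ← Finset.sum_sub_distrib]
  have h2 : ∀ i ∈ Finset.Ico i0 i1, ‖(1 / (N:ℝ)) • g i - ∫ s in ((i:ℝ) / N)..(((i+1:ℕ):ℝ) / N), F s‖ ≤ err * (1 / N) := by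
    intro i hi'
    have hlen : ((i+1:ℕ):ℝ) / N - (i:ℝ) / N = 1 / N := by
      rw [← sub_div]; push_cast; ring
    have hle : (i:ℝ) / N ≤ ((i+1:ℕ):ℝ) / N := by
      have : (0:ℝ) < 1 / N := by positivity
      linarith
    have e : (1 / (N:ℝ)) • g i = ∫ s in ((i:ℝ) / N)..(((i+1:ℕ):ℝ) / N), g i := by
      rw [intervalIntegral.integral_const, hlen]
    rw [e, ← intervalIntegral.integral_sub intervalIntegrable_const (hF _ _)]
    have := intervalIntegral.norm_integral_le_of_norm_le_const_ae (a := (i:ℝ)/N) (b := ((i+1:ℕ):ℝ)/N)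
      (f := fun s => g i - F s) (C := err) ?_
    · rw [hlen, abs_of_pos (by positivity)] at this
      exact this
    · have hne : ∀ᵐ s : ℝ, s ≠ ((i+1:ℕ):ℝ) / N := by
        have : volume ({((i+1:ℕ):ℝ) / N} : Set ℝ) = 0 := by simp
        rw [ae_iff]
        simpa using this
      filter_upwards [hne] with s hs hs'
      rw [uIoc_of_le hle] at hs'
      exact h i hi' s ⟨hs'.1.le, lt_of_le_of_ne hs'.2 hs⟩
  calc _ ≤ ∑ i ∈ Finset.Ico i0 i1, ‖(1 / (N:ℝ)) • g i - ∫ s in ((i:ℝ) / N)..(((i+1:ℕ):ℝ) / N), F s‖ := norm_sum_le _ _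
    _ ≤ ∑ _i ∈ Finset.Ico i0 i1, err * (1 / N) := Finset.sum_le_sum h2
    _ = err * ((i1 - i0 : ℝ) / N) := by
      rw [Finset.sum_const, Nat.card_Ico, nsmul_eq_mul, Nat.cast_sub hi]
      ring

/-! ### Sampling an admissible curve -/

/-- averaged velocities -/
noncomputable def avg (u : ℝ → E n) (N : ℕ) (i : ℕ) : E n := (N:ℝ) • ∫ s in ((i:ℝ) / N)..(((i+1:ℕ):ℝ) / N), u s

lemma avg_norm_le {u : ℝ → E n} {R : ℝ} (hu : Adm u R) {N : ℕ} (hN : 0 < N) (i : ℕ) : ‖avg u N i‖ ≤ R := by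
  have hN' : (0:ℝ) < N := by exact_mod_cast hN
  have hlen : ((i+1:ℕ):ℝ) / N - (i:ℝ) / N = 1 / N := by
    rw [← sub_div]; push_cast; ring
  have := intervalIntegral.norm_integral_le_of_norm_le_const (a := (i:ℝ)/N) (b := ((i+1:ℕ):ℝ)/N) (f := u) (C := R)
    (fun x _ => hu.bd x)
  rw [hlen, abs_of_pos (by positivity)] at this
  rw [avg, norm_smul, Real.norm_of_nonneg hN'.le]
  calc (N:ℝ) * ‖∫ s in ((i:ℝ) / N)..(((i+1:ℕ):ℝ) / N), u s‖ ≤ N * (R * (1 / N)) := by gcongr
    _ = R := by field_simp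

lemma dpos_avg {u : ℝ → E n} {R : ℝ} (hu : Adm u R) {N : ℕ} (hN : 0 < N) (y0 : E n) (i : ℕ) :
    dpos N y0 (avg u N) i = pos y0 u ((i:ℝ) / N) := by
  have hN' : (0:ℝ) < N := by exact_mod_cast hN
  induction i with
  | zero => simp [dpos]
  | succ i ih =>
    rw [dpos_succ, ih]
    have := hu.pos_sub y0 ((i:ℝ) / N) (((i+1:ℕ):ℝ) / N)
    rw [avg, smul_smul, one_div, inv_mul_cancel₀ hN'.ne', one_smul, ← this]
    abel

lemma dact_avg_le {L : Phase n → ℝ} (hL : IsC2 L) {R a C : ℝ} (hB : Bd L R a C) {u : ℝ → E n} (hu : Adm u R)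
    (y0 : E n) {N : ℕ} (hN : 0 < N) (T : ℕ) :
    dact L N (N * T) y0 (avg u N) ≤ act L y0 u 0 T + T * (C * (R + 1) / N) := by
  have hN' : (0:ℝ) < N := by exact_mod_cast hN
  have hR := hu.nonneg
  have hC := hB.C_nonneg
  have ha := hB.a_pos
  have hstep : ∀ i : ℕ, (1 / (N:ℝ)) * lift L (dpos N y0 (avg u N) i, avg u N i, (i:ℝ) / N) ≤
      (∫ s in ((i:ℝ) / N)..(((i+1:ℕ):ℝ) / N), lift L (pos y0 u s, u s, s)) + (1 / N) * (C * (R + 1) / N) := by
    intro i
    have hlen : ((i+1:ℕ):ℝ) / N - (i:ℝ) / N = 1 / N := by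
      rw [← sub_div]; push_cast; ring
    have hle : (i:ℝ) / N ≤ ((i+1:ℕ):ℝ) / N := by
      have : (0:ℝ) < 1 / N := by positivity
      linarith
    set A := (i:ℝ) / N with hA
    set B := ((i+1:ℕ):ℝ) / N with hBd
    set P := Lv L (dpos N y0 (avg u N) i) (avg u N i) A with hP
    have hint : ∫ s in A..B, P (u s - avg u N i) = 0 := by
      rw [ContinuousLinearMap.intervalIntegral_comp_comm P ((hu.intervalIntegrable _ _).sub intervalIntegrable_const),
        intervalIntegral.integral_sub (hu.intervalIntegrable _ _) intervalIntegrable_const,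
        intervalIntegral.integral_const, hlen]
      simp only [avg]
      rw [smul_smul, one_div, inv_mul_cancel₀ hN'.ne', one_smul, sub_self, map_zero]
    have hpt : ∀ s ∈ Icc A B, lift L (dpos N y0 (avg u N) i, avg u N i, A) + P (u s - avg u N i) ≤
        lift L (pos y0 u s, u s, s) + C * (R + 1) / N := by
      intro s hs
      have h1 := hB.conv hL (dpos N y0 (avg u N) i) A (u s) (avg u N i) (hu.bd s) (avg_norm_le hu hN i)
      have h2 := hB.lip0 (dpos N y0 (avg u N) i) (pos y0 u s) (u s) (u s) s A (hu.bd s) (hu.bd s)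
      rw [dpos_avg hu hN, sub_self, norm_zero, add_zero] at h2
      have h3 := hu.pos_lip y0 s A
      have h4 : |A - s| ≤ 1 / N := by
        rw [abs_sub_comm, abs_of_nonneg (by linarith [hs.1])]
        linarith [hs.2]
      have h5 : C * (‖pos y0 u A - pos y0 u s‖ + |A - s|) ≤ C * (R + 1) / N := by
        calc C * (‖pos y0 u A - pos y0 u s‖ + |A - s|) ≤ C * (R * (1/N) + 1/N) := by
              gcongr
              exact h3.trans (by gcongr)
          _ = C * (R + 1) / N := by ring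
      rw [dpos_avg hu hN] at h1 ⊢
      have h6 := (le_abs_self _).trans (h2.trans h5)
      have h7 : 0 ≤ a / 2 * ‖u s - avg u N i‖ ^ 2 := by positivity
      rw [hP, dpos_avg hu hN]
      linarith
    have hI1 : IntervalIntegrable (fun s => P (u s - avg u N i)) volume A B := by
      have h := (hu.intervalIntegrable A B).sub (intervalIntegrable_const (c := avg u N i))
      exact ⟨P.integrable_comp h.1, P.integrable_comp h.2⟩
    have hI2 := hu.integrable_act hL y0 A B
    have hmono := intervalIntegral.integral_mono_on hle (intervalIntegrable_const.add hI1)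
      (hI2.add intervalIntegrable_const) hpt
    rw [intervalIntegral.integral_add intervalIntegrable_const hI1, intervalIntegral.integral_add hI2 intervalIntegrable_const,
      hint, intervalIntegral.integral_const, intervalIntegral.integral_const, hlen] at hmono
    simpa using hmono
  have hsum : dact L N (N * T) y0 (avg u N) ≤ ∑ i ∈ Finset.range (N * T),
      ((∫ s in ((i:ℝ) / N)..(((i+1:ℕ):ℝ) / N), lift L (pos y0 u s, u s, s)) + (1 / N) * (C * (R + 1) / N)) :=
    Finset.sum_le_sum (fun i _ => hstep i)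
  refine hsum.trans (le_of_eq ?_)
  rw [Finset.sum_add_distrib]
  congr 1
  · have := intervalIntegral.sum_integral_adjacent_intervals (a := fun i : ℕ => (i:ℝ) / N) (n := N * T)
      (f := fun s => lift L (pos y0 u s, u s, s)) (μ := volume) (fun k _ => hu.integrable_act hL y0 _ _)
    rw [this]
    simp only [act, Nat.cast_zero, zero_div, Nat.cast_mul]
    rw [mul_div_assoc, mul_comm, div_mul_cancel₀ _ hN'.ne']
  · rw [Finset.sum_const, Finset.card_range, nsmul_eq_mul]
    push_cast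
    field_simp

end Pool.Agent.Lib.Mane
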