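import Mathlib

/-!
Definitions: time-periodic Tonelli Lagrangians on the torus `T^n`.
-/

open Set Filter Topology MeasureTheory Metric
open scoped ENNReal NNReal

namespace Pool.Agent.Lib.Mane

/-- `R^n`. -/
abbrev E (n : ℕ) := EuclideanSpace ℝ (Fin n)

/-- The torus `T^n`. -/
abbrev Tor (n : ℕ) := Fin n → UnitAddCircle

/-- The phase space `T T^n × T = T^n × R^n × T`. -/
abbrev Phase (n : ℕ) := Tor n × E n × UnitAddCircle

variable {n : ℕ}

/-- The covering map `R^n → T^n`. -/
def q (x : E n) : Tor n := fun i => ((x i : ℝ) : UnitAddCircle)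

/-- The lift of a function on phase space to `R^n × R^n × R`. -/
def lift (L : Phase n → ℝ) : E n × E n × ℝ → ℝ :=
  fun p => L (q p.1, p.2.1, (p.2.2 : UnitAddCircle))

/-- `L` is of class `C^k`. -/
def IsCk (k : ℕ) (L : Phase n → ℝ) : Prop := ContDiff ℝ k (lift L)

/-- The partial derivative `∂L/∂x`. -/
noncomputable def Lx (L : Phase n → ℝ) (x v : E n) (t : ℝ) : E n →L[ℝ] ℝ :=
  fderiv ℝ (fun y => lift L (y, v, t)) x

/-- The partial derivative `∂L/∂v`. -/
noncomputable def Lv (L : Phase n → ℝ) (x v : E n) (t : ℝ) : E n →L[ℝ] ℝ :=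
  fderiv ℝ (fun w => lift L (x, w, t)) v

/-- The quadratic form `∂²L/∂v² (w, w)` of the fibre Hessian, i.e. the second derivative of
`r ↦ L(x, v + r w, t)` at `r = 0`. -/
noncomputable def hess (L : Phase n → ℝ) (x v : E n) (t : ℝ) (w : E n) : ℝ :=
  iteratedDeriv 2 (fun r : ℝ => lift L (x, v + r • w, t)) 0

/-- The Euler-Lagrange equation `d/dt (∂L/∂v (γ, γ', t)) = ∂L/∂x (γ, γ', t)` at time `t`. -/
def ELAt (L : Phase n → ℝ) (γ : ℝ → E n) (t : ℝ) : Prop :=
  HasDerivAt (fun s => Lv L (γ s) (deriv γ s) s) (Lx L (γ t) (deriv γ t) t) t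

/-- `γ : R → R^n` is a (global, lifted) `C^1` solution of the Euler-Lagrange equation
`d/dt (∂L/∂v (γ, γ', t)) = ∂L/∂x (γ, γ', t)`. -/
structure IsEL (L : Phase n → ℝ) (γ : ℝ → E n) : Prop where
  c1 : ContDiff ℝ 1 γ
  el : ∀ t, ELAt L γ t

/-- The point of phase space of the curve `γ` at time `t`. -/
noncomputable def state (γ : ℝ → E n) (t : ℝ) : Phase n :=
  (q (γ t), deriv γ t, (t : UnitAddCircle))

/-- Time-periodic Tonelli Lagrangians on `T^n`: `C^2`, fibrewise positive definite Hessian,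
superlinear, with complete Euler-Lagrange flow. -/
structure IsTonelli (L : Phase n → ℝ) : Prop where
  ck : IsCk 2 L
  pos : ∀ x v t w, w ≠ 0 → 0 < hess L x v t w
  superlinear : ∀ A : ℝ, ∃ R : ℝ, ∀ z : Phase n, R ≤ ‖z.2.1‖ → A * ‖z.2.1‖ ≤ L z
  complete : ∀ (x v : E n) (t : ℝ), ∃ γ, IsEL L γ ∧ γ t = x ∧ deriv γ t = v

open Classical in
/-- The Euler-Lagrange flow on phase space: `flow L r z` is the state at time `s + r` of the
solution whose state at time `s` is `z`. -/
noncomputable def flow (L : Phase n → ℝ) (r : ℝ) (z : Phase n) : Phase n :=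
  if h : ∃ γ s, IsEL L γ ∧ state γ s = z then state h.choose (h.choose_spec.choose + r) else z

/-- Compactly supported probability measures on phase space invariant under the
Euler-Lagrange flow. -/
structure IsInv (L : Phase n → ℝ) (μ : ProbabilityMeasure (Phase n)) : Prop where
  compact_support : ∃ K, IsCompact K ∧ (μ : Measure (Phase n)) Kᶜ = 0
  invariant : ∀ r : ℝ, (μ : Measure (Phase n)).map (flow L r) = μ

/-- The homology class (rotation vector) in `H_1(T^n, R) = R^n`. -/
noncomputable def rot (μ : ProbabilityMeasure (Phase n)) : E n := ∫ z, z.2.1 ∂(μ : Measure (Phase n))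

/-- The action `∫ L dμ`. -/
noncomputable def action (L : Phase n → ℝ) (μ : ProbabilityMeasure (Phase n)) : ℝ :=
  ∫ z, L z ∂(μ : Measure (Phase n))

/-- `μ` is `(L, h)`-minimizing. -/
def IsHomMin (L : Phase n → ℝ) (h : E n) (μ : ProbabilityMeasure (Phase n)) : Prop :=
  IsInv L μ ∧ rot μ = h ∧ ∀ ν, IsInv L ν → rot ν = h → action L μ ≤ action L ν

/-- There is exactly one `(L, h)`-minimizing measure. -/
def UniqueMin (L : Phase n → ℝ) (h : E n) : Prop := ∃! μ : ProbabilityMeasure (Phase n), IsHomMin L h μ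

/-- The points of the affine subspace `A` of `H_1(T^n, R) = R^n` without a unique minimizing measure. -/
def BadSet (L : Phase n → ℝ) (A : AffineSubspace ℝ (E n)) : Set (E n) := {h | h ∈ A ∧ ¬ UniqueMin L h}

/-- The lift of a function on `T^n × T`. -/
def liftP (f : Tor n × UnitAddCircle → ℝ) : E n × ℝ → ℝ :=
  fun p => f (q p.1, (p.2 : UnitAddCircle))

/-- The space `C^k(T^n × T)`. -/
def Pot (n k : ℕ) := {f : Tor n × UnitAddCircle → ℝ // ContDiff ℝ k (liftP f)}

/-- The norm of the `j`-th derivative of `f - g` at a point. -/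
noncomputable def cder (j : ℕ) (f g : Tor n × UnitAddCircle → ℝ) (p : E n × ℝ) : ℝ :=
  ‖iteratedFDeriv ℝ j (liftP f - liftP g) p‖

/-- The open balls of `C^k(T^n × T)`: all derivatives of `f - g` of order `≤ k` are `< ε`. -/
def cball {k : ℕ} (f : Pot n k) (ε : ℝ) : Set (Pot n k) := {g | ∀ j ≤ k, ∀ p, cder j f.1 g.1 p < ε}

/-- The `C^k` topology on `C^k(T^n × T)`, generated by the open balls. -/
instance (n k : ℕ) : TopologicalSpace (Pot n k) :=
  TopologicalSpace.generateFrom {U | ∃ (f : Pot n k) (ε : ℝ), 0 < ε ∧ U = cball f ε}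

/-- The Lagrangian `L + f`. -/
def addPot (L : Phase n → ℝ) (f : Tor n × UnitAddCircle → ℝ) : Phase n → ℝ :=
  fun z => L z + f (z.1, z.2.2)

end Pool.Agent.Lib.Mane
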