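import Pool.Agent.Lib.Mane.FlowC

open Set Filter Topology MeasureTheory Metric
open scoped ENNReal NNReal

namespace Pool.Agent.Lib.Mane

variable {n : ℕ}

/-! ### Discrete action -/

/-- discrete position -/
noncomputable def dpos (N : ℕ) (x0 : E n) (v : ℕ → E n) (i : ℕ) : E n :=
  x0 + (1 / (N:ℝ)) • ∑ j ∈ Finset.range i, v j

/-- discrete action -/
noncomputable def dact (L : Phase n → ℝ) (N m : ℕ) (x0 : E n) (v : ℕ → E n) : ℝ :=
  ∑ i ∈ Finset.range m, (1 / (N:ℝ)) * lift L (dpos N x0 v i, v i, (i:ℝ) / N)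

lemma dpos_zero (N : ℕ) (x0 : E n) (v : ℕ → E n) : dpos N x0 v 0 = x0 := by simp [dpos]

lemma dpos_succ (N : ℕ) (x0 : E n) (v : ℕ → E n) (i : ℕ) :
    dpos N x0 v (i + 1) = dpos N x0 v i + (1 / (N:ℝ)) • v i := by
  simp only [dpos, Finset.sum_range_succ, smul_add]
  abel

lemma dact_translate (L : Phase n → ℝ) (N m : ℕ) (x0 : E n) (v : ℕ → E n) (k : Fin n → ℤ) :
    dact L N m (x0 + iv k) v = dact L N m x0 v := by
  simp only [dact]
  apply Finset.sum_congr rfl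
  intro i _
  congr 1
  have h := per_lift L (dpos N x0 v i, v i, (i:ℝ) / N) k 0
  simp only [tv, Prod.mk_add_mk, add_zero, Int.cast_zero] at h
  rw [← h]
  congr 2
  simp only [dpos]
  abel

lemma exists_dmin {L : Phase n → ℝ} (hL : IsC2 L) (N m : ℕ) {R : ℝ} (hR : 0 ≤ R) :
    ∃ (x0 : E n) (v : ℕ → E n), x0 ∈ cube n ∧ (∀ i, ‖v i‖ ≤ R) ∧
      ∀ (y0 : E n) (u : ℕ → E n), (∀ i, ‖u i‖ ≤ R) → dact L N m x0 v ≤ dact L N m y0 u := by
  let S : Set (E n × (ℕ → E n)) := cube n ×ˢ (Set.pi univ (fun _ : ℕ => closedBall (0 : E n) R))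
  have hS : IsCompact S := isCompact_cube.prod (isCompact_univ_pi fun _ => isCompact_closedBall _ _)
  have hne : S.Nonempty := by
    refine ⟨(0, fun _ => 0), ?_, ?_⟩
    · intro i; simp
    · intro i _; simpa using hR
  have hcont : Continuous (fun p : E n × (ℕ → E n) => dact L N m p.1 p.2) := by
    unfold dact
    apply continuous_finsetSum
    intro i _
    apply continuous_const.mul
    apply hL.smooth.continuous.comp
    have h1 : Continuous (fun p : E n × (ℕ → E n) => dpos N p.1 p.2 i) := by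
      unfold dpos
      have hg : Continuous (fun p : E n × (ℕ → E n) => ∑ j ∈ Finset.range i, p.2 j) := by
        apply continuous_finsetSum
        intro j _
        exact (continuous_apply j).comp continuous_snd
      exact continuous_fst.add (hg.const_smul (1 / (N:ℝ)))
    exact h1.prodMk (((continuous_apply i).comp continuous_snd).prodMk continuous_const)
  obtain ⟨⟨x0, v⟩, hmem, hmin⟩ := hS.exists_isMinOn hne hcont.continuousOn
  refine ⟨x0, v, hmem.1, fun i => by simpa using hmem.2 i (mem_univ i), fun y0 u hu => ?_⟩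
  obtain ⟨k, hk⟩ := exists_cube y0
  have h1 : (y0 + iv k, u) ∈ S := ⟨hk, fun i _ => by simpa using hu i⟩
  have h2 := hmin h1
  have h3 : dact L N m x0 v ≤ dact L N m (y0 + iv k) u := h2
  rwa [dact_translate] at h3

/-- the perturbation of a chain at the node `k + 1` -/
noncomputable def pert (v : ℕ → E n) (k : ℕ) (η : E n) : ℕ → E n :=
  fun j => v j + (if j = k then η else 0) - (if j = k + 1 then η else 0)

lemma sum_pert (v : ℕ → E n) (k : ℕ) (η : E n) (i : ℕ) :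
    ∑ j ∈ Finset.range i, pert v k η j = ∑ j ∈ Finset.range i, v j + (if i = k + 1 then η else 0) := by
  simp only [pert, Finset.sum_sub_distrib, Finset.sum_add_distrib, Finset.sum_ite_eq', Finset.mem_range]
  rcases lt_trichotomy i (k+1) with h | h | h
  · have h1 : ¬ k < i := by omega
    have h2 : ¬ k + 1 < i := by omega
    have h3 : i ≠ k + 1 := by omega
    simp [h1, h2, h3]
  · subst h
    simp
  · have h1 : k < i := by omega
    have h3 : i ≠ k + 1 := by omega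
    simp [h1, h, h3]

lemma dpos_pert (N : ℕ) (x0 : E n) (v : ℕ → E n) (k : ℕ) (η : E n) (i : ℕ) :
    dpos N x0 (pert v k η) i = dpos N x0 v i + (if i = k + 1 then (1 / (N:ℝ)) • η else 0) := by
  simp only [dpos, sum_pert, smul_add]
  split_ifs with h
  · abel
  · simp

lemma node_le {L : Phase n → ℝ} {N m : ℕ} (hN : 0 < N) {R : ℝ} {x0 : E n} {v : ℕ → E n}
    (hv : ∀ i, ‖v i‖ ≤ R)
    (hmin : ∀ (y0 : E n) (u : ℕ → E n), (∀ i, ‖u i‖ ≤ R) → dact L N m x0 v ≤ dact L N m y0 u)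
    {k : ℕ} (hk : k + 1 < m) (η : E n) (h1 : ‖v k + η‖ ≤ R) (h2 : ‖v (k+1) - η‖ ≤ R) :
    lift L (dpos N x0 v k, v k, (k:ℝ) / N) + lift L (dpos N x0 v (k+1), v (k+1), ((k+1:ℕ):ℝ) / N) ≤
      lift L (dpos N x0 v k, v k + η, (k:ℝ) / N) +
        lift L (dpos N x0 v (k+1) + (1 / (N:ℝ)) • η, v (k+1) - η, ((k+1:ℕ):ℝ) / N) := by
  have hpk : pert v k η k = v k + η := by simp [pert]
  have hpk1 : pert v k η (k+1) = v (k+1) - η := by simp [pert]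
  have hpo : ∀ j, j ≠ k → j ≠ k + 1 → pert v k η j = v j := by
    intro j hj1 hj2; simp [pert, hj1, hj2]
  have hbd : ∀ i, ‖pert v k η i‖ ≤ R := by
    intro i
    by_cases h : i = k
    · subst h; rwa [hpk]
    by_cases h' : i = k + 1
    · subst h'; rwa [hpk1]
    rw [hpo i h h']; exact hv i
  have hle := hmin x0 (pert v k η) hbd
  simp only [dact] at hle
  rw [← sub_nonneg, ← Finset.sum_sub_distrib] at hle
  have hsub : ({k, k+1} : Finset ℕ) ⊆ Finset.range m := by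
    intro j hj
    simp only [Finset.mem_insert, Finset.mem_singleton] at hj
    rw [Finset.mem_range]; omega
  rw [← Finset.sum_subset hsub] at hle
  · rw [Finset.sum_pair (by omega), hpk, hpk1, dpos_pert, dpos_pert] at hle
    have e1 : (if k = k + 1 then (1 / (N:ℝ)) • η else 0) = 0 := by simp
    rw [e1, add_zero, if_pos rfl] at hle
    have hN' : (0:ℝ) < 1 / N := by positivity
    have e2 : ∀ a b c d : ℝ, (1 / (N:ℝ)) * a - (1 / (N:ℝ)) * b + ((1 / (N:ℝ)) * c - (1 / (N:ℝ)) * d) =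
      (1 / (N:ℝ)) * ((a + c) - (b + d)) := by intro a b c d; ring
    rw [e2] at hle
    have := nonneg_of_mul_nonneg_right hle hN'
    linarith
  · intro j _ hj
    simp only [Finset.mem_insert, Finset.mem_singleton, not_or] at hj
    rw [hpo j hj.1 hj.2, dpos_pert, if_neg hj.2, add_zero, sub_self]

lemma deriv_nonneg_of_min {φ : ℝ → ℝ} {d τ0 : ℝ} (hτ : 0 < τ0) (hφ : HasDerivAt φ d 0)
    (hmin : ∀ τ ∈ Icc 0 τ0, φ 0 ≤ φ τ) : 0 ≤ d := by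
  have h1 : HasDerivWithinAt φ d (Ioi 0) 0 := hφ.hasDerivWithinAt
  rw [hasDerivWithinAt_iff_tendsto_slope' (by simp)] at h1
  apply ge_of_tendsto h1
  have : Ioc (0:ℝ) τ0 ∈ 𝓝[>] (0:ℝ) := Ioc_mem_nhdsGT hτ
  filter_upwards [this] with τ hτ'
  rw [slope_def_field]
  apply div_nonneg
  · have := hmin τ ⟨hτ'.1.le, hτ'.2⟩
    linarith
  · linarith [hτ'.1]

lemma hasDerivAt_pair {L : Phase n → ℝ} (hL : IsC2 L) (x v ξ ζ : E n) (t : ℝ) :
    HasDerivAt (fun τ : ℝ => lift L (x + τ • ξ, v + τ • ζ, t)) (Lx L x v t ξ + Lv L x v t ζ) 0 := by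
  have h1 : HasFDerivAt (lift L) (fderiv ℝ (lift L) (x, v, t)) (x, v, t) :=
    (hL.smooth.differentiable two_ne_zero _).hasFDerivAt
  have h2 : HasDerivAt (fun τ : ℝ => ((x + τ • ξ, v + τ • ζ, t) : E n × E n × ℝ)) (ξ, ζ, 0) 0 := by
    have a1 : HasDerivAt (fun τ : ℝ => x + τ • ξ) ξ 0 := by
      simpa using ((hasDerivAt_id (0:ℝ)).smul_const ξ).const_add x
    have a2 : HasDerivAt (fun τ : ℝ => v + τ • ζ) ζ 0 := by
      simpa using ((hasDerivAt_id (0:ℝ)).smul_const ζ).const_add v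
    exact a1.prodMk (a2.prodMk (hasDerivAt_const (0:ℝ) t))
  have h0 : ((x + (0:ℝ) • ξ, v + (0:ℝ) • ζ, t) : E n × E n × ℝ) = (x, v, t) := by simp
  rw [← h0] at h1
  have h3 := h1.comp_hasDerivAt (0:ℝ) h2
  rw [h0] at h3
  have e : fderiv ℝ (lift L) (x, v, t) (ξ, ζ, 0) = Lx L x v t ξ + Lv L x v t ζ := by
    rw [Lx_eq hL.smooth, Lv_eq hL.smooth]
    simp only [ContinuousLinearMap.comp_apply, ix, ivv, ContinuousLinearMap.inl_apply, ContinuousLinearMap.inr_apply]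
    rw [← map_add]
    simp
  rw [e] at h3
  exact h3

/-- first order condition at a node -/
lemma node_deriv {L : Phase n → ℝ} (hL : IsC2 L) {N m : ℕ} (hN : 0 < N) {R : ℝ} {x0 : E n} {v : ℕ → E n}
    (hv : ∀ i, ‖v i‖ ≤ R)
    (hmin : ∀ (y0 : E n) (u : ℕ → E n), (∀ i, ‖u i‖ ≤ R) → dact L N m x0 v ≤ dact L N m y0 u)
    {k : ℕ} (hk : k + 1 < m) (ξ : E n) {τ0 : ℝ} (hτ0 : 0 < τ0)
    (h1 : ∀ τ ∈ Icc 0 τ0, ‖v k + τ • ξ‖ ≤ R) (h2 : ∀ τ ∈ Icc 0 τ0, ‖v (k+1) - τ • ξ‖ ≤ R) :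
    Lv L (dpos N x0 v (k+1)) (v (k+1)) (((k+1:ℕ):ℝ) / N) ξ - Lv L (dpos N x0 v k) (v k) ((k:ℝ) / N) ξ ≤
      (1 / (N:ℝ)) * Lx L (dpos N x0 v (k+1)) (v (k+1)) (((k+1:ℕ):ℝ) / N) ξ := by
  let φ : ℝ → ℝ := fun τ => lift L (dpos N x0 v k, v k + τ • ξ, (k:ℝ) / N) +
        lift L (dpos N x0 v (k+1) + τ • ((1 / (N:ℝ)) • ξ), v (k+1) + τ • (-ξ), ((k+1:ℕ):ℝ) / N)
  have hφ : HasDerivAt φ (Lv L (dpos N x0 v k) (v k) ((k:ℝ) / N) ξ +
      (Lx L (dpos N x0 v (k+1)) (v (k+1)) (((k+1:ℕ):ℝ) / N) ((1 / (N:ℝ)) • ξ) +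
        Lv L (dpos N x0 v (k+1)) (v (k+1)) (((k+1:ℕ):ℝ) / N) (-ξ))) 0 := by
    have a1 := hasDerivAt_pair hL (dpos N x0 v k) (v k) 0 ξ ((k:ℝ) / N)
    have a2 := hasDerivAt_pair hL (dpos N x0 v (k+1)) (v (k+1)) ((1 / (N:ℝ)) • ξ) (-ξ) (((k+1:ℕ):ℝ) / N)
    simp only [smul_zero, add_zero, map_zero, zero_add] at a1
    exact a1.add a2
  have hge : ∀ τ ∈ Icc 0 τ0, φ 0 ≤ φ τ := by
    intro τ hτ
    have := node_le hN hv hmin hk (τ • ξ) (h1 τ hτ) (h2 τ hτ)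
    simp only [φ, zero_smul, add_zero, smul_neg, ← sub_eq_add_neg, sub_zero]
    rw [smul_comm τ (1 / (N:ℝ)) ξ]
    exact this
  have := deriv_nonneg_of_min hτ0 hφ hge
  simp only [map_smul, map_neg, smul_eq_mul] at this
  linarith

/-- constrained minimizers have Lipschitz velocities -/
lemma node_vel {L : Phase n → ℝ} (hL : IsC2 L) {N m : ℕ} (hN : 0 < N) {R a C : ℝ} (hB : Bd L R a C) {x0 : E n} {v : ℕ → E n}
    (hv : ∀ i, ‖v i‖ ≤ R)
    (hmin : ∀ (y0 : E n) (u : ℕ → E n), (∀ i, ‖u i‖ ≤ R) → dact L N m x0 v ≤ dact L N m y0 u)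
    {k : ℕ} (hk : k + 1 < m) : ‖v (k+1) - v k‖ ≤ (C * (R + 2) / a) / N := by
  have ha := hB.a_pos
  have hC := hB.C_nonneg
  have hR : 0 ≤ R := (norm_nonneg _).trans (hv 0)
  have hN' : (0:ℝ) < N := by exact_mod_cast hN
  set ξ := v (k+1) - v k with hξ
  by_cases h0 : ‖ξ‖ = 0
  · rw [h0]; positivity
  have hpos : 0 < ‖ξ‖ := lt_of_le_of_ne (norm_nonneg _) (Ne.symm h0)
  have h1 : ∀ τ ∈ Icc (0:ℝ) 1, ‖v k + τ • ξ‖ ≤ R := fun τ hτ => segment_norm_le (hv _) (hv _) hτ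
  have h2 : ∀ τ ∈ Icc (0:ℝ) 1, ‖v (k+1) - τ • ξ‖ ≤ R := by
    intro τ hτ
    have : v (k+1) - τ • ξ = v (k+1) + τ • (v k - v (k+1)) := by
      rw [hξ, sub_eq_add_neg, ← smul_neg, neg_sub]
    rw [this]
    exact segment_norm_le (hv _) (hv _) hτ
  have key := node_deriv hL hN hv hmin hk ξ one_pos h1 h2
  have hmono := hB.mono (dpos N x0 v (k+1)) (((k+1:ℕ):ℝ) / N) (v (k+1)) (v k) (hv _) (hv _)
  rw [← hξ] at hmono
  simp only [sub_apply] at hmono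
  -- compare Lv at node k
  have hl := hB.lipv (dpos N x0 v k) (dpos N x0 v (k+1)) (v k) (v k) (((k+1:ℕ):ℝ) / N) ((k:ℝ) / N) (hv _) (hv _)
  have e1 : ‖dpos N x0 v k - dpos N x0 v (k+1)‖ ≤ R / N := by
    rw [dpos_succ, sub_add_cancel_left, norm_neg, norm_smul, Real.norm_of_nonneg (by positivity)]
    rw [one_div, ← div_eq_inv_mul]
    gcongr
    exact hv k
  have e2 : |(k:ℝ) / N - ((k+1:ℕ):ℝ) / N| = 1 / N := by
    rw [← sub_div]
    push_cast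
    rw [sub_add_cancel_left, abs_div, abs_neg, abs_one, abs_of_pos hN']
  rw [sub_self, norm_zero, add_zero, e2] at hl
  have hl2 : ‖Lv L (dpos N x0 v k) (v k) ((k:ℝ) / N) - Lv L (dpos N x0 v (k+1)) (v k) (((k+1:ℕ):ℝ) / N)‖ ≤ C * (R / N + 1 / N) :=
    hl.trans (by gcongr)
  have hl3 : (Lv L (dpos N x0 v k) (v k) ((k:ℝ) / N) - Lv L (dpos N x0 v (k+1)) (v k) (((k+1:ℕ):ℝ) / N)) ξ ≤
      C * (R / N + 1 / N) * ‖ξ‖ := by
    have := (Lv L (dpos N x0 v k) (v k) ((k:ℝ) / N) - Lv L (dpos N x0 v (k+1)) (v k) (((k+1:ℕ):ℝ) / N)).le_opNorm ξ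
    rw [Real.norm_eq_abs] at this
    exact ((le_abs_self _).trans this).trans (by gcongr)
  simp only [sub_apply] at hl3
  have hl4 : Lx L (dpos N x0 v (k+1)) (v (k+1)) (((k+1:ℕ):ℝ) / N) ξ ≤ C * ‖ξ‖ := by
    have := (Lx L (dpos N x0 v (k+1)) (v (k+1)) (((k+1:ℕ):ℝ) / N)).le_opNorm ξ
    rw [Real.norm_eq_abs] at this
    exact ((le_abs_self _).trans this).trans (by gcongr; exact hB.bdx _ _ _ (hv _))
  have hl5 : (1 / (N:ℝ)) * Lx L (dpos N x0 v (k+1)) (v (k+1)) (((k+1:ℕ):ℝ) / N) ξ ≤ (1 / (N:ℝ)) * (C * ‖ξ‖) := by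
    gcongr
  have hfin : a * ‖ξ‖ * ‖ξ‖ ≤ C * (R + 2) / N * ‖ξ‖ := by
    have e3 : C * (R + 2) / N * ‖ξ‖ = C * (R / N + 1 / N) * ‖ξ‖ + (1 / (N:ℝ)) * (C * ‖ξ‖) := by
      field_simp; ring
    rw [e3]
    have e4 : a * ‖ξ‖ * ‖ξ‖ = a * ‖ξ‖ ^ 2 := by ring
    rw [e4]
    linarith
  have hfin2 := le_of_mul_le_mul_right hfin hpos
  rw [div_right_comm, le_div_iff₀ ha]
  linarith

/-- the discrete Euler-Lagrange equation where the constraint is inactive -/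
lemma node_el {L : Phase n → ℝ} (hL : IsC2 L) {N m : ℕ} (hN : 0 < N) {R : ℝ} {x0 : E n} {v : ℕ → E n}
    (hv : ∀ i, ‖v i‖ ≤ R)
    (hmin : ∀ (y0 : E n) (u : ℕ → E n), (∀ i, ‖u i‖ ≤ R) → dact L N m x0 v ≤ dact L N m y0 u)
    {k : ℕ} (hk : k + 1 < m) (hk1 : ‖v k‖ < R) (hk2 : ‖v (k+1)‖ < R) :
    Lv L (dpos N x0 v (k+1)) (v (k+1)) (((k+1:ℕ):ℝ) / N) - Lv L (dpos N x0 v k) (v k) ((k:ℝ) / N) =
      (1 / (N:ℝ)) • Lx L (dpos N x0 v (k+1)) (v (k+1)) (((k+1:ℕ):ℝ) / N) := by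
  have key : ∀ ξ : E n, Lv L (dpos N x0 v (k+1)) (v (k+1)) (((k+1:ℕ):ℝ) / N) ξ - Lv L (dpos N x0 v k) (v k) ((k:ℝ) / N) ξ ≤
      (1 / (N:ℝ)) * Lx L (dpos N x0 v (k+1)) (v (k+1)) (((k+1:ℕ):ℝ) / N) ξ := by
    intro ξ
    obtain ⟨τ0, hτ0, hτ⟩ : ∃ τ0 > 0, τ0 * ‖ξ‖ ≤ min (R - ‖v k‖) (R - ‖v (k+1)‖) := by
      have hpos : 0 < min (R - ‖v k‖) (R - ‖v (k+1)‖) := lt_min (by linarith) (by linarith)
      refine ⟨min (R - ‖v k‖) (R - ‖v (k+1)‖) / (‖ξ‖ + 1), by positivity, ?_⟩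
      rw [div_mul_eq_mul_div, div_le_iff₀ (by positivity)]
      nlinarith [norm_nonneg ξ]
    apply node_deriv hL hN hv hmin hk ξ hτ0
    · intro τ hτ'
      calc ‖v k + τ • ξ‖ ≤ ‖v k‖ + ‖τ • ξ‖ := norm_add_le _ _
        _ = ‖v k‖ + τ * ‖ξ‖ := by rw [norm_smul, Real.norm_of_nonneg hτ'.1]
        _ ≤ ‖v k‖ + τ0 * ‖ξ‖ := by gcongr; exact hτ'.2
        _ ≤ R := by linarith [min_le_left (R - ‖v k‖) (R - ‖v (k+1)‖)]
    · intro τ hτ'
      calc ‖v (k+1) - τ • ξ‖ ≤ ‖v (k+1)‖ + ‖τ • ξ‖ := norm_sub_le _ _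
        _ = ‖v (k+1)‖ + τ * ‖ξ‖ := by rw [norm_smul, Real.norm_of_nonneg hτ'.1]
        _ ≤ ‖v (k+1)‖ + τ0 * ‖ξ‖ := by gcongr; exact hτ'.2
        _ ≤ R := by linarith [min_le_right (R - ‖v k‖) (R - ‖v (k+1)‖)]
  ext ξ
  simp only [sub_apply, smul_apply, smul_eq_mul]
  apply le_antisymm (key ξ)
  have := key (-ξ)
  simp only [map_neg, mul_neg] at this
  linarith

end Pool.Agent.Lib.Mane
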