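import Pool.Agent.Lib.Mane.Rev

open Set Filter Topology MeasureTheory Metric
open scoped ENNReal NNReal

namespace Pool.Agent.Lib.Mane

variable {n : ℕ}

/-! ### Uniqueness -/

lemma uniq_fwd {L : Phase n → ℝ} (hL : IsC2 L) {γ1 w1 γ2 w2 : ℝ → E n} {s b : ℝ}
    (h1 : ELOn L γ1 w1 s b) (h2 : ELOn L γ2 w2 s b) (hx : γ1 s = γ2 s) (hv : w1 s = w2 s) :
    ∀ t ∈ Icc s b, γ1 t = γ2 t ∧ w1 t = w2 t := by
  obtain ⟨K1, hK1⟩ := isCompact_Icc.exists_bound_of_continuousOn h1.cont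
  obtain ⟨K2, hK2⟩ := isCompact_Icc.exists_bound_of_continuousOn h2.cont
  obtain ⟨a, C, hB⟩ := exists_Bd hL (max K1 K2)
  intro t ht
  have := gron hB le_rfl (Close.refl L le_rfl) le_rfl h1 h2 (fun t ht => (hK1 t ht).trans (le_max_left _ _))
    (fun t ht => (hK2 t ht).trans (le_max_right _ _)) (by rw [hx]; simp) (by rw [hv]; simp) t ht
  simp only [mul_zero, gronwallBound_ε0_δ0] at this
  exact ⟨sub_eq_zero.mp (norm_le_zero_iff.mp this.1), sub_eq_zero.mp (norm_le_zero_iff.mp this.2)⟩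

lemma uniq_two {L : Phase n → ℝ} (hL : IsC2 L) {γ1 w1 γ2 w2 : ℝ → E n} {a b s : ℝ} (hs : s ∈ Icc a b)
    (h1 : ELOn L γ1 w1 a b) (h2 : ELOn L γ2 w2 a b) (hx : γ1 s = γ2 s) (hv : w1 s = w2 s) :
    ∀ t ∈ Icc a b, γ1 t = γ2 t ∧ w1 t = w2 t := by
  intro t ht
  rcases le_total s t with h | h
  · exact uniq_fwd hL (h1.mono hs.1 le_rfl) (h2.mono hs.1 le_rfl) hx hv t ⟨h, ht.2⟩
  · have h1' := (h1.mono (b' := s) le_rfl hs.2).rev
    have h2' := (h2.mono (b' := s) le_rfl hs.2).rev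
    have := uniq_fwd hL.rev h1' h2' (by simp [hx]) (by simp [hv]) (-t) ⟨by linarith, by linarith [ht.1]⟩
    simpa using this

lemma IsEL.unique {L : Phase n → ℝ} (hL : IsC2 L) {γ1 γ2 : ℝ → E n} (h1 : IsEL L γ1) (h2 : IsEL L γ2)
    {s : ℝ} (hx : γ1 s = γ2 s) (hv : deriv γ1 s = deriv γ2 s) : γ1 = γ2 := by
  ext1 t
  have hs : s ∈ Icc (min s t) (max s t) := ⟨min_le_left _ _, le_max_left _ _⟩
  have ht : t ∈ Icc (min s t) (max s t) := ⟨min_le_right _ _, le_max_right _ _⟩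
  exact (uniq_two hL hs (h1.elOn _ _) (h2.elOn _ _) hx hv t ht).1

/-! ### Two sided bootstrap -/

lemma bootstrap {L : Phase n → ℝ} (hL : IsC2 L) (K T ε : ℝ) (hε : 0 < ε) :
    ∃ ρ > 0, ∀ L', Close L L' ρ → ∀ γ1 w1 γ2 w2 : ℝ → E n, ∀ a b s, s ∈ Icc a b → b - a ≤ T →
      ELOn L γ1 w1 a b → ELOn L' γ2 w2 a b → (∀ t ∈ Icc a b, ‖w1 t‖ ≤ K) →
      ‖γ1 s - γ2 s‖ ≤ ρ → ‖w1 s - w2 s‖ ≤ ρ →
      ∀ t ∈ Icc a b, ‖γ1 t - γ2 t‖ ≤ ε ∧ ‖w1 t - w2 t‖ ≤ ε := by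
  obtain ⟨ρ1, hρ1, H1⟩ := bootstrap_fwd hL K T ε hε
  obtain ⟨ρ2, hρ2, H2⟩ := bootstrap_fwd hL.rev K T ε hε
  refine ⟨min ρ1 ρ2, lt_min hρ1 hρ2, fun L' hcl γ1 w1 γ2 w2 a b s hs hT h1 h2 hK hx hv t ht => ?_⟩
  rcases le_total s t with h | h
  · exact H1 L' (hcl.mono (min_le_left _ _)) γ1 w1 γ2 w2 s b (by linarith [hs.1]) (h1.mono hs.1 le_rfl)
      (h2.mono hs.1 le_rfl) (fun t ht => hK t ⟨hs.1.trans ht.1, ht.2⟩) (hx.trans (min_le_left _ _))
      (hv.trans (min_le_left _ _)) t ⟨h, ht.2⟩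
  · have h1' := (h1.mono (b' := s) le_rfl hs.2).rev
    have h2' := (h2.mono (b' := s) le_rfl hs.2).rev
    have key := H2 _ (hcl.mono (min_le_right _ _)).rev _ _ _ _ (-s) (-a) (by linarith [hs.2]) h1' h2'
      (fun t ht => by
        rw [norm_neg]
        exact hK (-t) ⟨by linarith [ht.2], by linarith [ht.1, hs.2]⟩)
      (by simpa using hx.trans (min_le_right _ _))
      (by
        simp only [neg_neg]
        rw [← neg_sub', norm_neg]
        exact hv.trans (min_le_right _ _)) (-t) ⟨by linarith, by linarith [ht.1]⟩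
    simp only [neg_neg] at key
    rw [← neg_sub' (w1 t), norm_neg] at key
    exact key

/-! ### Speed bounds from completeness -/

lemma finset_pos_lb {ι : Type*} (t : Finset ι) (f : ι → ℝ) (h : ∀ i ∈ t, 0 < f i) :
    ∃ ρ > 0, ∀ i ∈ t, ρ ≤ f i := by
  classical
  induction t using Finset.induction_on with
  | empty => exact ⟨1, one_pos, by simp⟩
  | insert a s _ ih =>
    obtain ⟨ρ, hρ, H⟩ := ih (fun i hi => h i (Finset.mem_insert_of_mem hi))
    refine ⟨min ρ (f a), lt_min hρ (h a (Finset.mem_insert_self _ _)), fun i hi => ?_⟩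
    rcases Finset.mem_insert.mp hi with rfl | hi
    · exact min_le_right _ _
    · exact (min_le_left _ _).trans (H i hi)

lemma finset_ub {ι : Type*} (t : Finset ι) (f : ι → ℝ) : ∃ M, ∀ i ∈ t, f i ≤ M := by
  classical
  induction t using Finset.induction_on with
  | empty => exact ⟨1, by simp⟩
  | insert a s _ ih =>
    obtain ⟨M, H⟩ := ih
    refine ⟨max M (f a), fun i hi => ?_⟩
    rcases Finset.mem_insert.mp hi with rfl | hi
    · exact le_max_right _ _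
    · exact (H i hi).trans (le_max_left _ _)

/-- Solutions with bounded speed at one time have uniformly bounded speed on a bounded time interval,
uniformly in a neighbourhood of the Lagrangian. -/
lemma speed_bound {L : Phase n → ℝ} (hL : IsTonelli L) (C2 T : ℝ) :
    ∃ K0, ∃ ρ > 0, ∀ L', Close L L' ρ → ∀ γ w : ℝ → E n, ∀ a b, ELOn L' γ w a b → b - a ≤ T →
      ∀ s ∈ Icc a b, ‖w s‖ ≤ C2 → ∀ t ∈ Icc a b, ‖w t‖ ≤ K0 := by
  -- for every point of the fundamental domain pick a solution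
  have hex : ∀ p : E n × E n × ℝ, ∃ γ, IsEL L γ ∧ γ p.2.2 = p.1 ∧ deriv γ p.2.2 = p.2.1 := fun p =>
    hL.complete p.1 p.2.1 p.2.2
  choose Γ hΓ hΓx hΓv using hex
  have hKex : ∀ p : E n × E n × ℝ, ∃ K, ∀ t ∈ Icc (p.2.2 - (T + 1)) (p.2.2 + (T + 1)), ‖deriv (Γ p) t‖ ≤ K := by
    intro p
    exact isCompact_Icc.exists_bound_of_continuousOn ((hΓ p).c1.continuous_deriv le_rfl).continuousOn
  choose Kp hKp using hKex
  have hρex := fun p : E n × E n × ℝ => bootstrap hL.isC2 (Kp p) T 1 one_pos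
  choose ρp hρp hboot using hρex
  let U : E n × E n × ℝ → Set (E n × E n × ℝ) := fun p =>
    {p' | ‖Γ p p'.2.2 - p'.1‖ < ρp p ∧ ‖deriv (Γ p) p'.2.2 - p'.2.1‖ < ρp p ∧ |p'.2.2 - p.2.2| < 1}
  have hU : ∀ p ∈ fund n C2, U p ∈ 𝓝 p := by
    intro p _
    have hc1 : Continuous (Γ p) := (hΓ p).c1.continuous
    have hc2 : Continuous (deriv (Γ p)) := (hΓ p).c1.continuous_deriv le_rfl
    have ho : IsOpen (U p) := by
      have o1 : IsOpen {p' : E n × E n × ℝ | ‖Γ p p'.2.2 - p'.1‖ < ρp p} := isOpen_lt (by fun_prop) continuous_const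
      have o2 : IsOpen {p' : E n × E n × ℝ | ‖deriv (Γ p) p'.2.2 - p'.2.1‖ < ρp p} :=
        isOpen_lt (by fun_prop) continuous_const
      have o3 : IsOpen {p' : E n × E n × ℝ | |p'.2.2 - p.2.2| < 1} := isOpen_lt (by fun_prop) continuous_const
      exact o1.inter (o2.inter o3)
    apply ho.mem_nhds
    refine ⟨?_, ?_, ?_⟩
    · rw [hΓx]; simpa using hρp p
    · rw [hΓv]; simpa using hρp p
    · simp
  obtain ⟨t, _, htcov⟩ := (isCompact_fund (n := n) C2).elim_nhds_subcover U hU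
  obtain ⟨ρ, hρ, hρle⟩ := finset_pos_lb t ρp (fun p _ => hρp p)
  obtain ⟨M, hM⟩ := finset_ub t Kp
  refine ⟨M + 1, ρ, hρ, fun L' hcl γ w a b hel hT s hs hsw t' ht' => ?_⟩
  obtain ⟨k, m, hkm⟩ := exists_fund (n := n) (K := C2) (p := (γ s, w s, s)) hsw
  obtain ⟨p, hpt, hpU⟩ := mem_iUnion₂.mp (htcov hkm)
  obtain ⟨hU1, hU2, hU3⟩ := hpU
  have htr := hel.translate k m
  simp only [tv, Prod.mk_add_mk, add_zero] at hU1 hU2 hU3
  have hsm : s + m ∈ Icc (a + (m:ℝ)) (b + m) := ⟨by linarith [hs.1], by linarith [hs.2]⟩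
  have hsub : ∀ r ∈ Icc (a + (m:ℝ)) (b + m), r ∈ Icc (p.2.2 - (T + 1)) (p.2.2 + (T + 1)) := by
    intro r hr
    rw [abs_lt] at hU3
    constructor <;> linarith [hr.1, hr.2, hs.1, hs.2]
  have key := hboot p L' (hcl.mono (hρle p hpt)) (Γ p) (deriv (Γ p)) _ _ (a + m) (b + m) (s + m) hsm (by linarith)
    ((hΓ p).elOn _ _) htr (fun r hr => hKp p r (hsub r hr)) (by simpa using hU1.le) (by simpa using hU2.le)
    (t' + m) ⟨by linarith [ht'.1], by linarith [ht'.2]⟩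
  have h1 := key.2
  simp only [add_sub_cancel_right] at h1
  have h2 := hKp p (t' + m) (hsub _ ⟨by linarith [ht'.1], by linarith [ht'.2]⟩)
  have e : w t' = deriv (Γ p) (t' + m) - (deriv (Γ p) (t' + m) - w t') := by abel
  rw [e]
  calc _ ≤ ‖deriv (Γ p) (t' + m)‖ + ‖deriv (Γ p) (t' + m) - w t'‖ := norm_sub_le _ _
    _ ≤ Kp p + 1 := add_le_add h2 h1
    _ ≤ M + 1 := by linarith [hM p hpt]

/-! ### The flow -/

lemma state_eq_iff_lift {γ1 γ2 : ℝ → E n} {s1 s2 : ℝ} (h : state γ1 s1 = state γ2 s2) :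
    ∃ (k : Fin n → ℤ) (m : ℤ), γ2 s2 = γ1 s1 + iv k ∧ deriv γ1 s1 = deriv γ2 s2 ∧ s2 = s1 + m := by
  simp only [state, Prod.mk.injEq] at h
  obtain ⟨h1, h2, h3⟩ := h
  obtain ⟨k, hk⟩ := (q_eq_iff _ _).mp h1
  obtain ⟨m, hm⟩ := (coe_eq_iff _ _).mp h3
  exact ⟨k, m, hk, h2, hm⟩

lemma state_unique {L : Phase n → ℝ} (hL : IsC2 L) {γ1 γ2 : ℝ → E n} (h1 : IsEL L γ1) (h2 : IsEL L γ2)
    {s1 s2 : ℝ} (h : state γ1 s1 = state γ2 s2) (r : ℝ) : state γ1 (s1 + r) = state γ2 (s2 + r) := by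
  obtain ⟨k, m, hx, hv, hs⟩ := state_eq_iff_lift h
  have h3 := h1.translate k m
  have heq : (fun t => γ1 (t - m) + iv k) = γ2 := by
    apply IsEL.unique hL h3 h2 (s := s2)
    · show γ1 (s2 - m) + iv k = γ2 s2
      rw [hx, hs]; simp
    · rw [deriv_translate, ← hv, hs]; simp
  rw [← heq]
  simp only [state, deriv_translate]
  rw [hs]
  have e : s1 + m + r - m = s1 + r := by ring
  rw [e, q_add_iv]
  have e2 : s1 + (m:ℝ) + r = (s1 + r) + m := by ring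
  rw [e2, coe_add_int]

lemma flow_state {L : Phase n → ℝ} (hL : IsC2 L) {γ : ℝ → E n} (h : IsEL L γ) (s r : ℝ) :
    flow L r (state γ s) = state γ (s + r) := by
  have hex : ∃ γ' s', IsEL L γ' ∧ state γ' s' = state γ s := ⟨γ, s, h, rfl⟩
  rw [flow, dif_pos hex]
  exact state_unique hL hex.choose_spec.choose_spec.1 h hex.choose_spec.choose_spec.2 r

lemma exists_state {L : Phase n → ℝ} (hL : IsTonelli L) (z : Phase n) : ∃ γ s, IsEL L γ ∧ state γ s = z := by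
  obtain ⟨⟨x, v, t⟩, rfl⟩ := pr_surjective z
  obtain ⟨γ, h1, h2, h3⟩ := hL.complete x v t
  exact ⟨γ, t, h1, by simp [state, pr, h2, h3]⟩

lemma flow_zero {L : Phase n → ℝ} (hL : IsTonelli L) (z : Phase n) : flow L 0 z = z := by
  obtain ⟨γ, s, h, rfl⟩ := exists_state hL z
  rw [flow_state hL.isC2 h, add_zero]

lemma flow_add {L : Phase n → ℝ} (hL : IsTonelli L) (r r' : ℝ) (z : Phase n) :
    flow L (r + r') z = flow L r (flow L r' z) := by
  obtain ⟨γ, s, h, rfl⟩ := exists_state hL z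
  rw [flow_state hL.isC2 h, flow_state hL.isC2 h, flow_state hL.isC2 h]
  congr 1
  ring

end Pool.Agent.Lib.Mane
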