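import Pool.Agent.Lib.Mane.Flow

open Set Filter Topology MeasureTheory Metric
open scoped ENNReal NNReal

namespace Pool.Agent.Lib.Mane

variable {n : ℕ}

/-! ### Metric comparison between phase space and its cover -/

lemma norm_coe_le (x : ℝ) : ‖(x : UnitAddCircle)‖ ≤ |x| := by
  rw [UnitAddCircle.norm_eq]
  simpa using round_le x 0

lemma dist_coe_le (s t : ℝ) : dist (s : UnitAddCircle) (t : UnitAddCircle) ≤ |s - t| := by
  rw [dist_eq_norm, ← AddCircle.coe_sub]; exact norm_coe_le _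

lemma dist_q_le (x y : E n) : dist (q x) (q y) ≤ ‖x - y‖ := by
  rw [dist_pi_le_iff (norm_nonneg _)]
  intro i
  refine (dist_coe_le (x i) (y i)).trans ?_
  have := PiLp.norm_apply_le (x - y) i
  simpa using this

lemma dist_pr_le (x y v w : E n) (s t : ℝ) {δ : ℝ} (h1 : ‖x - y‖ ≤ δ) (h2 : ‖v - w‖ ≤ δ) (h3 : |s - t| ≤ δ) :
    dist (pr (x, v, s)) (pr (y, w, t)) ≤ δ := by
  simp only [pr]
  rw [Prod.dist_eq, Prod.dist_eq]
  refine max_le ((dist_q_le x y).trans h1) (max_le ?_ ((dist_coe_le s t).trans h3))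
  rw [dist_eq_norm]; exact h2

lemma norm_le_of_coord (y : E n) {ρ : ℝ} (hρ : 0 ≤ ρ) (h : ∀ i, |y i| ≤ ρ) : ‖y‖ ≤ (n + 1) * ρ := by
  rw [EuclideanSpace.norm_eq]
  apply Real.sqrt_le_iff.mpr
  refine ⟨by positivity, ?_⟩
  calc ∑ i, ‖y i‖ ^ 2 ≤ ∑ _i : Fin n, ρ ^ 2 := by
        apply Finset.sum_le_sum
        intro i _
        have := h i
        rw [Real.norm_eq_abs]
        gcongr
    _ = n * ρ ^ 2 := by simp
    _ ≤ ((n + 1) * ρ) ^ 2 := by
        rw [mul_pow]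
        have : (n:ℝ) ≤ (n+1)^2 := by nlinarith [(Nat.cast_nonneg n : (0:ℝ) ≤ n)]
        gcongr

lemma exists_close_lift_coe (s : ℝ) (τ : UnitAddCircle) : ∃ s' : ℝ, (s' : UnitAddCircle) = τ ∧ |s - s'| ≤ dist (s : UnitAddCircle) τ := by
  obtain ⟨y, rfl⟩ := coe_surjective τ
  refine ⟨y + (round (s - y) : ℤ), coe_add_int _ _, ?_⟩
  rw [dist_eq_norm, ← AddCircle.coe_sub, UnitAddCircle.norm_eq]
  apply le_of_eq
  congr 1
  ring

lemma exists_close_lift (x : E n) (θ : Tor n) : ∃ x' : E n, q x' = θ ∧ ‖x - x'‖ ≤ (n + 1) * dist (q x) θ := by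
  have : ∀ i, ∃ s' : ℝ, (s' : UnitAddCircle) = θ i ∧ |x i - s'| ≤ dist ((x i : ℝ) : UnitAddCircle) (θ i) :=
    fun i => exists_close_lift_coe (x i) (θ i)
  choose y hy1 hy2 using this
  refine ⟨WithLp.toLp 2 y, by ext i; exact hy1 i, ?_⟩
  apply norm_le_of_coord _ dist_nonneg
  intro i
  exact (hy2 i).trans (dist_le_pi_dist (q x) θ i)

/-! ### Lipschitz velocities -/

lemma ELOn.pos_lip {L : Phase n → ℝ} {γ w : ℝ → E n} {a b K : ℝ} (h : ELOn L γ w a b)
    (hK : ∀ t ∈ Icc a b, ‖w t‖ ≤ K) {s t : ℝ} (hs : s ∈ Icc a b) (ht : t ∈ Icc a b) :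
    ‖γ t - γ s‖ ≤ K * |t - s| := by
  have := (convex_Icc a b).norm_image_sub_le_of_norm_hasDerivWithin_le (fun r hr => h.dx r hr) hK hs ht
  rwa [Real.norm_eq_abs] at this

lemma ELOn.vel_lip {L : Phase n → ℝ} {K α C : ℝ} (hB : Bd L K α C) {γ w : ℝ → E n} {a b : ℝ} (h : ELOn L γ w a b)
    (hK : ∀ t ∈ Icc a b, ‖w t‖ ≤ K) {s t : ℝ} (hs : s ∈ Icc a b) (ht : t ∈ Icc a b) :
    ‖w t - w s‖ ≤ (1 / α) * (2 * C + C * K) * |t - s| := by
  have hα := hB.a_pos
  have hC := hB.C_nonneg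
  have h1 : ‖Lv L (γ t) (w t) t - Lv L (γ s) (w s) s‖ ≤ C * |t - s| := by
    have := (convex_Icc a b).norm_image_sub_le_of_norm_hasDerivWithin_le (fun r hr => h.dp r hr)
      (C := C) (fun r hr => hB.bdx _ _ _ (hK r hr)) hs ht
    rwa [Real.norm_eq_abs] at this
  have h2 : ‖Lv L (γ s) (w s) s - Lv L (γ s) (w s) t‖ ≤ C * |t - s| := by
    have := hB.lipv (γ s) (γ s) (w s) (w s) t s (hK s hs) (hK s hs)
    simp only [sub_self, norm_zero, zero_add] at this
    rwa [abs_sub_comm] at this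
  have h3 : ‖Lv L (γ t) (w t) t - Lv L (γ s) (w s) t‖ ≤ 2 * (C * |t - s|) := by
    have e : Lv L (γ t) (w t) t - Lv L (γ s) (w s) t = (Lv L (γ t) (w t) t - Lv L (γ s) (w s) s) +
      (Lv L (γ s) (w s) s - Lv L (γ s) (w s) t) := by abel
    rw [e]
    refine (norm_add_le _ _).trans ?_
    linarith
  have h4 := vel_le hB (Close.refl L le_rfl) (x := γ t) (y := γ s) (t := t) (hK t ht) (hK s hs)
  have h5 := h.pos_lip hK hs ht
  calc ‖w t - w s‖ ≤ (1 / α) * (‖Lv L (γ t) (w t) t - Lv L (γ s) (w s) t‖ + C * ‖γ t - γ s‖) := h4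
    _ ≤ (1 / α) * (2 * (C * |t - s|) + C * (K * |t - s|)) := by gcongr
    _ = _ := by ring

/-! ### Uniform closeness of flows -/

lemma flow_close {L : Phase n → ℝ} (hL : IsTonelli L) (K T ε : ℝ) (hε : 0 < ε) :
    ∃ ρ > 0, ∀ L', IsTonelli L' → Close L L' ρ → ∀ z z' : Phase n, ‖z.2.1‖ ≤ K → dist z z' ≤ ρ →
      ∀ r, |r| ≤ T → dist (flow L r z) (flow L' r z') ≤ ε := by
  obtain ⟨K0, ρ0, hρ0, hsp⟩ := speed_bound hL K (2 * (T + 1))
  obtain ⟨α, C, hB⟩ := exists_Bd hL.isC2 (max K0 0)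
  have hα := hB.a_pos
  have hC := hB.C_nonneg
  set K1 := max K0 0 with hK1
  have hK10 : 0 ≤ K1 := le_max_right _ _
  set Λ := (1 / α) * (2 * C + C * K1) with hΛ
  have hΛ0 : 0 ≤ Λ := by positivity
  obtain ⟨ρ1, hρ1, hboot⟩ := bootstrap hL.isC2 K1 (2 * (T + 1)) (ε / 2) (by positivity)
  set M : ℝ := 1 + K1 + Λ + (n + 1) with hM
  have hM0 : 0 < M := by positivity
  set ρ := min (min (ρ1 / M) (ε / 2 / M)) (min ρ1 1) with hρ
  have hρpos : 0 < ρ := by positivity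
  have hρa : M * ρ ≤ ρ1 := by
    calc M * ρ ≤ M * (ρ1 / M) := by gcongr; exact (min_le_left _ _).trans (min_le_left _ _)
      _ = ρ1 := by field_simp
  have hρb : M * ρ ≤ ε / 2 := by
    calc M * ρ ≤ M * (ε / 2 / M) := by gcongr; exact (min_le_left _ _).trans (min_le_right _ _)
      _ = ε / 2 := by field_simp
  have hρc : ρ ≤ 1 := (min_le_right _ _).trans (min_le_right _ _)
  have hρd : ρ ≤ ρ1 := (min_le_right _ _).trans (min_le_left _ _)
  refine ⟨ρ, hρpos, fun L' hL' hcl z z' hz hzz' r hr => ?_⟩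
  have hT0 : 0 ≤ T := (abs_nonneg r).trans hr
  -- lifts
  obtain ⟨γ, s, hγ, rfl⟩ := exists_state hL z
  obtain ⟨θ', v', τ'⟩ := z'
  rw [Prod.dist_eq, Prod.dist_eq] at hzz'
  simp only [state] at hzz' hz
  have hd1 : dist (q (γ s)) θ' ≤ ρ := (le_max_left _ _).trans hzz'
  have hd2 : dist (deriv γ s) v' ≤ ρ := ((le_max_left _ _).trans (le_max_right _ _)).trans hzz'
  have hd3 : dist (s : UnitAddCircle) τ' ≤ ρ := ((le_max_right _ _).trans (le_max_right _ _)).trans hzz'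
  obtain ⟨x', rfl, hx'⟩ := exists_close_lift (γ s) θ'
  obtain ⟨s', rfl, hs'⟩ := exists_close_lift_coe s τ'
  have hss : |s - s'| ≤ ρ := hs'.trans hd3
  have hss1 : |s - s'| ≤ 1 := hss.trans hρc
  rw [abs_le] at hss1
  obtain ⟨γ', hγ', hγx', hγv'⟩ := hL'.complete x' v' s'
  have hz' : (q x', v', (s' : UnitAddCircle)) = state γ' s' := by simp [state, hγx', hγv']
  rw [hz', flow_state hL.isC2 hγ, flow_state hL'.isC2 hγ']
  -- interval
  set A := s' - (T + 1) with hA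
  set B := s' + (T + 1) with hBB
  have hsI : s ∈ Icc A B := ⟨by linarith, by linarith⟩
  have hs'I : s' ∈ Icc A B := ⟨by linarith, by linarith⟩
  have hspd : ∀ t ∈ Icc A B, ‖deriv γ t‖ ≤ K1 := fun t ht =>
    (hsp L (Close.refl L hρ0.le) γ (deriv γ) A B (hγ.elOn _ _) (by rw [hA, hBB]; linarith) s hsI hz t ht).trans
      (le_max_left _ _)
  have hel := hγ.elOn A B
  have hp1 : ‖γ s' - γ s‖ ≤ K1 * ρ := by
    refine (hel.pos_lip hspd hsI hs'I).trans ?_
    rw [abs_sub_comm]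
    gcongr
  have hv1 : ‖deriv γ s' - deriv γ s‖ ≤ Λ * ρ := by
    refine (hel.vel_lip hB hspd hsI hs'I).trans ?_
    rw [abs_sub_comm]
    gcongr
  have hx2 : ‖γ s' - γ' s'‖ ≤ ρ1 := by
    have e : γ s' - γ' s' = (γ s' - γ s) + (γ s - x') := by rw [hγx']; abel
    rw [e]
    have : ‖γ s - x'‖ ≤ (n + 1) * ρ := hx'.trans (by gcongr)
    calc _ ≤ ‖γ s' - γ s‖ + ‖γ s - x'‖ := norm_add_le _ _
      _ ≤ K1 * ρ + (n + 1) * ρ := add_le_add hp1 this
      _ = (K1 + (n + 1)) * ρ := by ring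
      _ ≤ M * ρ := mul_le_mul_of_nonneg_right (by rw [hM]; linarith) hρpos.le
      _ ≤ ρ1 := hρa
  have hv2 : ‖deriv γ s' - deriv γ' s'‖ ≤ ρ1 := by
    have e : deriv γ s' - deriv γ' s' = (deriv γ s' - deriv γ s) + (deriv γ s - v') := by rw [hγv']; abel
    rw [e]
    rw [dist_eq_norm] at hd2
    calc _ ≤ ‖deriv γ s' - deriv γ s‖ + ‖deriv γ s - v'‖ := norm_add_le _ _
      _ ≤ Λ * ρ + ρ := add_le_add hv1 hd2
      _ = (Λ + 1) * ρ := by ring
      _ ≤ M * ρ := mul_le_mul_of_nonneg_right (by rw [hM]; linarith [(Nat.cast_nonneg n : (0:ℝ) ≤ n)]) hρpos.le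
      _ ≤ ρ1 := hρa
  rw [abs_le] at hr
  have hs'r : s' + r ∈ Icc A B := ⟨by linarith, by linarith⟩
  have key := hboot L' (hcl.mono hρd) γ (deriv γ) γ' (deriv γ') A B s' hs'I (by rw [hA, hBB]; linarith) hel
    (hγ'.elOn _ _) hspd hx2 hv2 (s' + r) hs'r
  -- compare state γ (s + r) with state γ (s' + r)
  have hsr : s + r ∈ Icc (A - 1) (B + 1) := ⟨by linarith, by linarith⟩
  have hIsub : s + r ∈ Icc A B := ⟨by linarith, by linarith⟩
  have hp3 : ‖γ (s + r) - γ (s' + r)‖ ≤ M * ρ := by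
    refine (hel.pos_lip hspd hs'r hIsub).trans ?_
    have : s + r - (s' + r) = s - s' := by ring
    rw [this]
    have h7 : K1 ≤ M := by rw [hM]; linarith [(Nat.cast_nonneg n : (0:ℝ) ≤ n)]
    exact mul_le_mul h7 hss (abs_nonneg _) hM0.le
  have hv3 : ‖deriv γ (s + r) - deriv γ (s' + r)‖ ≤ M * ρ := by
    refine (hel.vel_lip hB hspd hs'r hIsub).trans ?_
    have : s + r - (s' + r) = s - s' := by ring
    rw [this]
    have h7 : Λ ≤ M := by rw [hM]; linarith [(Nat.cast_nonneg n : (0:ℝ) ≤ n)]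
    exact mul_le_mul h7 hss (abs_nonneg _) hM0.le
  have ht3 : |s + r - (s' + r)| ≤ M * ρ := by
    have : s + r - (s' + r) = s - s' := by ring
    rw [this]
    have h7 : 1 ≤ M := by rw [hM]; linarith [(Nat.cast_nonneg n : (0:ℝ) ≤ n)]
    exact hss.trans (le_mul_of_one_le_left hρpos.le h7)
  have d1 : dist (state γ (s + r)) (state γ (s' + r)) ≤ ε / 2 := (dist_pr_le _ _ _ _ _ _ hp3 hv3 ht3).trans hρb
  have d2 : dist (state γ (s' + r)) (state γ' (s' + r)) ≤ ε / 2 :=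
    dist_pr_le _ _ _ _ _ _ key.1 key.2 (by simp; positivity)
  calc _ ≤ dist (state γ (s + r)) (state γ (s' + r)) + dist (state γ (s' + r)) (state γ' (s' + r)) := dist_triangle _ _ _
    _ ≤ ε / 2 + ε / 2 := add_le_add d1 d2
    _ = ε := by ring

lemma continuous_state {L : Phase n → ℝ} {γ : ℝ → E n} (h : IsEL L γ) : Continuous (state γ) := by
  have : state γ = pr ∘ (fun t => (γ t, deriv γ t, t)) := rfl
  rw [this]
  have h1 := h.c1.continuous
  have h2 := h.c1.continuous_deriv le_rfl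
  exact continuous_pr.comp (by fun_prop)

lemma continuous_flow {L : Phase n → ℝ} (hL : IsTonelli L) : Continuous (fun p : ℝ × Phase n => flow L p.1 p.2) := by
  rw [continuous_iff_continuousAt]
  rintro ⟨r0, z0⟩
  rw [Metric.continuousAt_iff]
  intro ε hε
  obtain ⟨ρ, hρ, H⟩ := flow_close hL ‖z0.2.1‖ (|r0| + 1) (ε / 3) (by positivity)
  obtain ⟨γ, s, hγ, hz0⟩ := exists_state hL z0
  have hc : Continuous (fun r => flow L r z0) := by
    have : (fun r => flow L r z0) = fun r => state γ (s + r) := by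
      ext1 r; rw [← hz0, flow_state hL.isC2 hγ]
    rw [this]
    exact (continuous_state hγ).comp (by fun_prop)
  obtain ⟨δ, hδ, Hδ⟩ := Metric.continuousAt_iff.mp (hc.continuousAt (x := r0)) (ε / 3) (by positivity)
  refine ⟨min (min ρ δ) 1, by positivity, ?_⟩
  rintro ⟨r, z⟩ hrz
  rw [Prod.dist_eq, max_lt_iff] at hrz
  obtain ⟨h1, h2⟩ := hrz
  have h1' : dist r r0 < δ := h1.trans_le ((min_le_left _ _).trans (min_le_right _ _))
  have h1'' : dist r r0 < 1 := h1.trans_le (min_le_right _ _)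
  have h2' : dist z0 z ≤ ρ := by rw [dist_comm]; exact (h2.trans_le ((min_le_left _ _).trans (min_le_left _ _))).le
  have hr : |r| ≤ |r0| + 1 := by
    rw [Real.dist_eq] at h1''
    have := abs_add_le (r - r0) r0
    simp only [sub_add_cancel] at this
    linarith
  have a1 := H L hL (Close.refl L hρ.le) z0 z le_rfl h2' r hr
  have a2 := Hδ h1'
  calc dist (flow L r z) (flow L r0 z0) ≤ dist (flow L r z) (flow L r z0) + dist (flow L r z0) (flow L r0 z0) := dist_triangle _ _ _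
    _ < ε / 3 + ε / 3 + ε / 3 := by
      rw [dist_comm (flow L r z)]
      linarith
    _ = ε := by ring

end Pool.Agent.Lib.Mane
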