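import Pool.Agent.Lib.Mane.PotTop

open Set Filter Topology MeasureTheory Metric BoundedContinuousFunction
open scoped ENNReal NNReal Interval RealInnerProductSpace

namespace Pool.Agent.Lib.Mane

variable {n d k : ℕ}

/-- limits of bad points over Tonelli potentials -/
def BadS (L : Phase n → ℝ) (h0 : E n) (J : E d →ₗᵢ[ℝ] E n) (ψ : Pot n k) (R δ e0 : ℝ) (f : Pot n k) : Set (E d) :=
  {z | ∀ ε > 0, ∃ f' : Pot n k, IsTonelli (addPot L f'.1) ∧ PClose f.1 f'.1 ε ∧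
    ∃ z' ∈ Bad (addPot L f'.1) h0 J ψ.1 R δ e0, ‖z - z'‖ ≤ ε}

lemma isClosed_badS (L : Phase n → ℝ) (h0 : E n) (J : E d →ₗᵢ[ℝ] E n) (ψ : Pot n k) (R δ e0 : ℝ) (f : Pot n k) :
    IsClosed (BadS L h0 J ψ R δ e0 f) := by
  apply isClosed_of_closure_subset
  intro z hz ε hε
  obtain ⟨z1, hz1, hd⟩ := Metric.mem_closure_iff.mp hz (ε / 2) (half_pos hε)
  obtain ⟨f', h1, h2, z', h3, h4⟩ := hz1 (ε / 2) (half_pos hε)
  refine ⟨f', h1, h2.mono (by linarith), z', h3, ?_⟩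
  rw [dist_eq_norm] at hd
  have e : z - z' = (z - z1) + (z1 - z') := by abel
  rw [e]
  exact (norm_add_le _ _).trans (by linarith)

lemma PClose.trans {f g h : Tor n × UnitAddCircle → ℝ} {ρ ρ' : ℝ} (h1 : PClose f g ρ) (h2 : PClose g h ρ') : PClose f h (ρ + ρ') := by
  constructor
  · intro p
    have e : liftP f p - liftP h p = (liftP f p - liftP g p) + (liftP g p - liftP h p) := by ring
    rw [e]
    exact (abs_add_le _ _).trans (add_le_add (h1.1 p) (h2.1 p))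
  · intro p
    have e : fderiv ℝ (liftP f) p - fderiv ℝ (liftP h) p = (fderiv ℝ (liftP f) p - fderiv ℝ (liftP g) p) +
      (fderiv ℝ (liftP g) p - fderiv ℝ (liftP h) p) := by abel
    rw [e]
    exact (norm_add_le _ _).trans (add_le_add (h1.2 p) (h2.2 p))

lemma PClose.addPot_abs {L : Phase n → ℝ} {f g : Tor n × UnitAddCircle → ℝ} {ρ : ℝ} (h : PClose f g ρ) (z : Phase n) :
    |addPot L g z - addPot L f z| ≤ ρ := by
  simp only [addPot, add_sub_add_left_eq_sub]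
  exact h.symm.abs_le _

lemma pot_c1 (hk : 1 ≤ k) (f : Pot n k) : ContDiff ℝ 1 (liftP f.1) := f.2.of_le (by exact_mod_cast hk)

/-- local boundedness near a Tonelli potential -/
lemma bad_bounded_near {L : Phase n → ℝ} (hL : IsC2 L) (hk : 1 ≤ k) {f0 : Pot n k} (hf0 : IsTonelli (addPot L f0.1))
    (h0 : E n) (J : E d →ₗᵢ[ℝ] E n) (R : ℝ) :
    ∃ M, ∃ ρ > 0, ∀ f : Pot n k, IsTonelli (addPot L f.1) → PClose f0.1 f.1 ρ → ∀ ψ δ e0, ∀ z ∈ Bad (addPot L f.1) h0 J ψ R δ e0, ‖z‖ ≤ M := by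
  obtain ⟨M, ρ, hρ, H⟩ := bad_bounded hf0 h0 J R
  exact ⟨M, ρ, hρ, fun f hf hcl ψ δ e0 z hz => H _ hf (hcl.close hL (pot_c1 hk f0) (pot_c1 hk f)) (fun z => hcl.addPot_abs z) ψ δ e0 z hz⟩

/-- the Sard inequality -/
lemma badS_ineq {L : Phase n → ℝ} {h0 : E n} {J : E d →ₗᵢ[ℝ] E n} {ψ : Pot n k} {R δ e0 : ℝ} {f0 : Pot n k} {s s' : ℝ}
    {z z' : E d} (hz : z ∈ BadS L h0 J ψ R δ e0 (addS f0 ψ s)) (hz' : z' ∈ BadS L h0 J ψ R δ e0 (addS f0 ψ s')) :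
    |s' - s| * (δ / 2) ≤ 1 / 4 * ‖z - z'‖ ^ 2 := by
  apply le_of_forall_eps (K := ‖z - z'‖ + 1 + 4) (by positivity) one_pos
  intro ε hε hε1
  obtain ⟨f1, hf1, hc1, z1, hz1, hd1⟩ := hz ε hε
  obtain ⟨f2, hf2, hc2, z2, hz2, hd2⟩ := hz' ε hε
  have hab : addPot L f2.1 = addPot (addPot L f1.1) (fun p => f2.1 p - f1.1 p) := by
    ext z; simp only [addPot]; ring
  have hg : ∀ p, |(f2.1 p - f1.1 p) - (s' - s) * ψ.1 p| ≤ 2 * ε := by
    intro p
    have a1 := abs_le.mp (hc1.abs_le p)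
    have a2 := abs_le.mp (hc2.abs_le p)
    simp only [addS] at a1 a2
    rw [abs_le]
    constructor <;> linarith
  have key := bad_ineq (g := fun p => f2.1 p - f1.1 p) ((pot_continuous f2).sub (pot_continuous f1)) (pot_continuous ψ)
    hab hf1 hf2 hg hz1 hz2
  have hn : ‖z1 - z2‖ ≤ ‖z - z'‖ + 2 * ε := by
    have e : z1 - z2 = -(z - z1) + (z - z') + (z' - z2) := by abel
    rw [e]
    calc _ ≤ ‖-(z - z1)‖ + ‖z - z'‖ + ‖z' - z2‖ := norm_add₃_le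
      _ ≤ ε + ‖z - z'‖ + ε := by rw [norm_neg]; gcongr
      _ = _ := by ring
  have hsq : ‖z1 - z2‖ ^ 2 ≤ (‖z - z'‖ + 2 * ε) ^ 2 := by gcongr
  have h0 := norm_nonneg (z - z')
  nlinarith

/-- upper semicontinuity -/
lemma badS_usc {L : Phase n → ℝ} {h0 : E n} {J : E d →ₗᵢ[ℝ] E n} {ψ : Pot n k} {R δ e0 M ρ : ℝ} {f0 f : Pot n k}
    (hM : ∀ f : Pot n k, IsTonelli (addPot L f.1) → PClose f0.1 f.1 ρ → ∀ ψ δ e0, ∀ z ∈ Bad (addPot L f.1) h0 J ψ R δ e0, ‖z‖ ≤ M)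
    (hρ : 0 < ρ) (hf : PClose f0.1 f.1 (ρ / 2)) {V : Set (E d)} (hV : IsOpen V) (hVf : BadS L h0 J ψ R δ e0 f ⊆ V) :
    ∃ ε > 0, ∀ f' : Pot n k, IsTonelli (addPot L f'.1) → PClose f.1 f'.1 ε → Bad (addPot L f'.1) h0 J ψ.1 R δ e0 ⊆ V := by
  by_contra hcon
  push Not at hcon
  have hex : ∀ i : ℕ, ∃ f' : Pot n k, IsTonelli (addPot L f'.1) ∧ PClose f.1 f'.1 (1 / ((i:ℝ) + 1)) ∧
      ∃ z ∈ Bad (addPot L f'.1) h0 J ψ.1 R δ e0, z ∉ V := by
    intro i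
    obtain ⟨f', h1, h2, h3⟩ := hcon (1 / ((i:ℝ) + 1)) (by positivity)
    rw [not_subset] at h3
    exact ⟨f', h1, h2, h3⟩
  choose fs hT hcl zs hzs hzV using hex
  have hsmall : Tendsto (fun i : ℕ => 1 / ((i:ℝ) + 1)) atTop (𝓝 0) := tendsto_one_div_add_atTop_nhds_zero_nat
  obtain ⟨N, hN⟩ := eventually_atTop.mp (hsmall.eventually (gt_mem_nhds (half_pos hρ)))
  have hbd : ∀ i, zs (i + N) ∈ closedBall (0 : E d) M := by
    intro i
    rw [mem_closedBall, dist_zero_right]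
    refine hM (fs (i + N)) (hT _) ?_ _ _ _ _ (hzs _)
    have := hf.trans ((hcl (i + N)).mono (hN (i + N) (by omega)).le)
    rwa [add_halves] at this
  obtain ⟨z, -, φ, hφ, hlim⟩ := (isCompact_closedBall (0 : E d) M).tendsto_subseq hbd
  have hzV' : z ∉ V := by
    have : z ∈ Vᶜ := hV.isClosed_compl.mem_of_tendsto hlim (Eventually.of_forall fun i => hzV _)
    exact this
  apply hzV'
  apply hVf
  intro ε hε
  have hφ' : Tendsto (fun i => φ i + N) atTop atTop := (tendsto_add_atTop_nat N).comp hφ.tendsto_atTop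
  have e1 := (hsmall.comp hφ').eventually (gt_mem_nhds hε)
  have e2 : ∀ᶠ i in atTop, ‖z - zs (φ i + N)‖ < ε := by
    have := (tendsto_iff_norm_sub_tendsto_zero.mp hlim).eventually (gt_mem_nhds hε)
    filter_upwards [this] with i hi
    rw [norm_sub_rev]; exact hi
  obtain ⟨i, hi1, hi2⟩ := (e1.and e2).exists
  exact ⟨fs (φ i + N), hT _, (hcl _).mono hi1.le, zs (φ i + N), hzs _, hi2.le⟩

/-- density -/
lemma badS_dense {m : ℕ} {L : Phase n → ℝ} {h0 : E n} {J : E (m + 2) →ₗᵢ[ℝ] E n} {ψ : Pot n k} {R δ e0 M ρ : ℝ} {f0 : Pot n k}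
    (hk : 1 ≤ k) (hδ : 0 < δ)
    (hM : ∀ f : Pot n k, IsTonelli (addPot L f.1) → PClose f0.1 f.1 ρ → ∀ ψ δ e0, ∀ z ∈ Bad (addPot L f.1) h0 J ψ R δ e0, ‖z‖ ≤ M)
    (hρ : 0 < ρ) {U : Set (Pot n k)} (hU : U ∈ 𝓝 f0) :
    ∃ f ∈ U, PClose f0.1 f.1 (ρ / 2) ∧ ∀ η > 0, SmallCover m η (BadS L h0 J ψ R δ e0 f) := by
  have hU' := inter_mem hU (pot_pclose_mem_nhds hk f0 (half_pos hρ))
  obtain ⟨ε, hε, hpert⟩ := pot_perturb f0 ψ hU'
  set A : Set (ℝ × E (m + 2)) := {p | |p.1| < ε ∧ p.2 ∈ BadS L h0 J ψ R δ e0 (addS f0 ψ p.1)} with hA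
  have hbdd : ∀ s, |s| < ε → ∀ z ∈ BadS L h0 J ψ R δ e0 (addS f0 ψ s), ‖z‖ ≤ M + 1 := by
    intro s hs z hz
    obtain ⟨f', h1, h2, z', h3, h4⟩ := hz (min 1 (ρ / 2)) (by positivity)
    have h5 := (hpert s hs).2.trans (h2.mono (min_le_right _ _))
    rw [add_halves] at h5
    have h6 := hM f' h1 h5 _ _ _ _ h3
    have e : z = (z - z') + z' := by abel
    rw [e]
    refine (norm_add_le _ _).trans ?_
    linarith [h4.trans (min_le_left _ _)]
  have hAbd : Bornology.IsBounded (Prod.snd '' A) := by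
    rw [isBounded_iff_forall_norm_le]
    refine ⟨M + 1, ?_⟩
    rintro _ ⟨p, hp, rfl⟩
    exact hbdd p.1 hp.1 _ hp.2
  have hAineq : ∀ p ∈ A, ∀ p' ∈ A, |p.1 - p'.1| ≤ (1 / (2 * δ)) * ‖p.2 - p'.2‖ ^ 2 := by
    intro p hp p' hp'
    have := badS_ineq hp.2 hp'.2
    rw [abs_sub_comm] at this
    rw [one_div_mul_eq_div, le_div_iff₀ (by positivity)]
    linarith
  have hsard := sard_ae (E := E (m + 2)) (m := m) (by simp) hAbd (by positivity) hAineq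
  have hpos : volume (Ioo 0 ε) ≠ 0 := by
    rw [Real.volume_Ioo]; simpa using hε
  obtain ⟨s, hs1, hs2⟩ : ∃ s ∈ Ioo 0 ε, ∀ η > (0:ℝ), ∃ (t : Set (E (m+2))) (r : E (m+2) → ℝ), t.Countable ∧
      (∀ x ∈ t, 0 < r x ∧ r x < η) ∧ {z | (s, z) ∈ A} ⊆ ⋃ x ∈ t, closedBall x (r x) ∧
      ∑' x : t, ENNReal.ofReal ((r x) ^ m) < ENNReal.ofReal η := by
    by_contra hcon
    push Not at hcon
    apply hpos
    rw [ae_iff] at hsard
    refine measure_mono_null ?_ hsard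
    intro s hs
    have := hcon s hs
    simp only [mem_ofPred_eq]
    push Not
    exact this
  have hsabs : |s| < ε := by rw [abs_of_pos hs1.1]; exact hs1.2
  have hslice : {z | (s, z) ∈ A} = BadS L h0 J ψ R δ e0 (addS f0 ψ s) := by
    ext z
    simp only [hA, mem_ofPred_eq, hsabs, true_and]
  rw [hslice] at hs2
  have hcomp : IsCompact (BadS L h0 J ψ R δ e0 (addS f0 ψ s)) := by
    apply (isCompact_closedBall (0 : E (m + 2)) (M + 1)).of_isClosed_subset (isClosed_badS _ _ _ _ _ _ _ _)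
    intro z hz
    rw [mem_closedBall, dist_zero_right]
    exact hbdd s hsabs z hz
  exact ⟨addS f0 ψ s, (hpert s hsabs).1, (hpert s hsabs).2, fun η hη => smallCover_of_countable hη hcomp hs2⟩

/-- potentials near which the bad points of Tonelli potentials have a common small cover -/
def Good {m : ℕ} (L : Phase n → ℝ) (h0 : E n) (J : E (m + 2) →ₗᵢ[ℝ] E n) (ψ : Pot n k) (R δ e0 η : ℝ) : Set (Pot n k) :=
  {f | ∃ W ∈ 𝓝 f, ∃ F : Finset (E (m + 2) × ℝ), (∀ p ∈ F, 0 < p.2 ∧ p.2 < η) ∧ ∑ p ∈ F, p.2 ^ m < η ∧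
    ∀ f' ∈ W, IsTonelli (addPot L f'.1) → Bad (addPot L f'.1) h0 J ψ.1 R δ e0 ⊆ ⋃ p ∈ F, ball p.1 p.2}

lemma isOpen_good {m : ℕ} (L : Phase n → ℝ) (h0 : E n) (J : E (m + 2) →ₗᵢ[ℝ] E n) (ψ : Pot n k) (R δ e0 η : ℝ) :
    IsOpen (Good L h0 J ψ R δ e0 η) := by
  rw [isOpen_iff_mem_nhds]
  rintro f ⟨W, hW, F, h1, h2, h3⟩
  obtain ⟨W', hW'W, hW'o, hfW'⟩ := mem_nhds_iff.mp hW
  filter_upwards [hW'o.mem_nhds hfW'] with f1 hf1
  exact ⟨W', hW'o.mem_nhds hf1, F, h1, h2, fun f' hf' => h3 f' (hW'W hf')⟩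

lemma dense_good {m : ℕ} {L : Phase n → ℝ} (hL : IsC2 L) (hk : 1 ≤ k) (h0 : E n) (J : E (m + 2) →ₗᵢ[ℝ] E n) (ψ : Pot n k)
    (R e0 : ℝ) {δ η : ℝ} (hδ : 0 < δ) (hη : 0 < η) : Dense (Good L h0 J ψ R δ e0 η) := by
  rw [dense_iff_inter_open]
  rintro U hUo ⟨f1, hf1⟩
  by_cases hex : ∃ f0 ∈ U, IsTonelli (addPot L f0.1)
  · obtain ⟨f0, hf0U, hf0⟩ := hex
    obtain ⟨M, ρ, hρ, hM⟩ := bad_bounded_near hL hk hf0 h0 J R
    obtain ⟨f, hfU, hfcl, hcov⟩ := badS_dense (ψ := ψ) (e0 := e0) hk hδ hM hρ (hUo.mem_nhds hf0U)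
    obtain ⟨F, h1, h2, h3⟩ := hcov η hη
    have hVo : IsOpen (⋃ p ∈ F, ball p.1 p.2) := isOpen_biUnion fun _ _ => isOpen_ball
    obtain ⟨ε, hε, husc⟩ := badS_usc hM hρ hfcl hVo h2
    refine ⟨f, hfU, {f' | PClose f.1 f'.1 ε}, pot_pclose_mem_nhds hk f hε, F, h1, h3, fun f' hf' hT => husc f' hT hf'⟩
  · push Not at hex
    refine ⟨f1, hf1, U, hUo.mem_nhds hf1, ∅, by simp, by simpa using hη, fun f' hf' hT => absurd hT (hex f' hf')⟩

/-- parameters `u` for which a bad pair with rotation vector `h0 + J u` and given parameters exists -/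
def HBad {m : ℕ} (L : Phase n → ℝ) (h0 : E n) (J : E (m + 2) →ₗᵢ[ℝ] E n) (ψ : Tor n × UnitAddCircle → ℝ) (R δ e0 : ℝ) :
    Set (E (m + 2)) :=
  {u | ∃ (c : E n) (μ1 : ProbabilityMeasure (Phase n)), IsMin (shift L c) μ1 ∧ rot μ1 = h0 + J u ∧
    adj J c + u ∈ Bad L h0 J ψ R δ e0}

lemma hbad_null {m : ℕ} {L : Phase n → ℝ} (hL : IsTonelli L) {h0 : E n} {J : E (m + 2) →ₗᵢ[ℝ] E n}
    {ψ : Tor n × UnitAddCircle → ℝ} {R δ e0 : ℝ}
    (h : ∀ η > 0, SmallCover m η (Bad L h0 J ψ R δ e0)) : μH[(m:ℝ)] (HBad L h0 J ψ R δ e0) = 0 := by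
  have hex : ∀ x : E (m + 2), ∃ c : E n, x ∈ HBad L h0 J ψ R δ e0 →
      ∃ μ1 : ProbabilityMeasure (Phase n), IsMin (shift L c) μ1 ∧ rot μ1 = h0 + J x ∧ adj J c + x ∈ Bad L h0 J ψ R δ e0 := by
    intro x
    by_cases hx : x ∈ HBad L h0 J ψ R δ e0
    · obtain ⟨c, μ1, h1, h2, h3⟩ := hx
      exact ⟨c, fun _ => ⟨μ1, h1, h2, h3⟩⟩
    · exact ⟨0, fun h => absurd h hx⟩
  choose c hc using hex
  apply hausdorff_null_of_relation (Z := Bad L h0 J ψ R δ e0) h (fun x => adj J (c x) + x)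
  · intro x hx
    obtain ⟨μ1, h1, h2, h3⟩ := hc x hx
    exact h3
  · intro x hx y hy
    obtain ⟨μ1, h1, h2, -⟩ := hc x hx
    obtain ⟨μ2, h1', h2', -⟩ := hc y hy
    exact mono_ineq hL h1' h1 h2' h2

lemma exists_hbad {m : ℕ} {L : Phase n → ℝ} (hL : IsTonelli L) {h0 : E n} {J : E (m + 2) →ₗᵢ[ℝ] E n} {ψ : ℕ → Pot n k}
    (hψ : ∀ μ ν : ProbabilityMeasure (Phase n), (∀ j, pint (ψ j).1 μ = pint (ψ j).1 ν) →
      (μ : Measure (Phase n)).map prj = (ν : Measure (Phase n)).map prj)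
    {u : E (m + 2)} (hh : ¬ UniqueMin L (h0 + J u)) :
    ∃ (j N q : ℕ) (l : ℤ), u ∈ HBad L h0 J (ψ j).1 N (1 / ((q:ℝ) + 1)) (l * (1 / ((q:ℝ) + 1) / 4)) := by
  obtain ⟨c, μ, hμ, hr⟩ := exists_rot hL (h0 + J u)
  have hiff := isHomMin_iff hL hμ hr
  have hμH : IsHomMin L (h0 + J u) μ := (hiff μ).mpr ⟨hμ, hr⟩
  have hex : ∃ ν, IsHomMin L (h0 + J u) ν ∧ ν ≠ μ := by
    by_contra hcon
    push Not at hcon
    exact hh ⟨μ, hμH, hcon⟩
  obtain ⟨ν, hνH, hne⟩ := hex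
  obtain ⟨hν, hrν⟩ := (hiff ν).mp hνH
  have hdiff : ∃ j, pint (ψ j).1 μ ≠ pint (ψ j).1 ν := by
    by_contra hcon
    push Not at hcon
    exact hne (hν.unique_of_prj (hL.shift c) hμ (hψ μ ν hcon).symm)
  obtain ⟨j, hj⟩ := hdiff
  -- order the two measures
  have hord : ∃ μ1 μ2 : ProbabilityMeasure (Phase n), IsMin (shift L c) μ1 ∧ IsMin (shift L c) μ2 ∧
      rot μ1 = h0 + J u ∧ rot μ2 = h0 + J u ∧ 0 < pint (ψ j).1 μ2 - pint (ψ j).1 μ1 := by
    rcases lt_or_gt_of_ne hj with h1 | h1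
    · exact ⟨μ, ν, hμ, hν, hr, hrν, by linarith⟩
    · exact ⟨ν, μ, hν, hμ, hrν, hr, by linarith⟩
  obtain ⟨μ1, μ2, m1, m2, r1, r2, hgap⟩ := hord
  obtain ⟨q, hq⟩ := exists_nat_one_div_lt hgap
  obtain ⟨N, hN⟩ := exists_nat_ge ‖c‖
  set δ : ℝ := 1 / ((q:ℝ) + 1) with hδ
  have hδ0 : 0 < δ := by positivity
  set l : ℤ := ⌊pint (ψ j).1 μ1 / (δ / 4)⌋ with hl
  have hl1 : |pint (ψ j).1 μ1 - l * (δ / 4)| ≤ δ / 4 := by
    have a1 := Int.floor_le (pint (ψ j).1 μ1 / (δ / 4))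
    have a2 := Int.lt_floor_add_one (pint (ψ j).1 μ1 / (δ / 4))
    rw [← hl] at a1 a2
    rw [le_div_iff₀ (by positivity)] at a1
    rw [div_lt_iff₀ (by positivity)] at a2
    rw [abs_le]
    constructor <;> linarith
  exact ⟨j, N, q, l, c, μ1, m1, r1, c, μ1, μ2, u, hN, m1, m2, r1, r2, rfl, hl1, hq.le⟩

/-- The parametrised form of the main theorem. -/
theorem generic_param {m : ℕ} (hk : 1 ≤ k) {L : Phase n → ℝ} (hL : IsC2 L) (h0 : E n) (J : E (m + 2) →ₗᵢ[ℝ] E n) :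
    ∀ᶠ f in residual (Pot n k), IsTonelli (addPot L f.1) →
      μH[(m:ℝ)] {u : E (m + 2) | ¬ UniqueMin (addPot L f.1) (h0 + J u)} = 0 := by
  obtain ⟨ψ, hψ⟩ := exists_sep n k
  have hall : ∀ᶠ f in residual (Pot n k), ∀ (j N q : ℕ) (l : ℤ) (i : ℕ),
      f ∈ Good L h0 J (ψ j) N (1 / ((q:ℝ) + 1)) (l * (1 / ((q:ℝ) + 1) / 4)) (1 / ((i:ℝ) + 1)) := by
    rw [eventually_countable_forall]; intro j
    rw [eventually_countable_forall]; intro N
    rw [eventually_countable_forall]; intro q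
    rw [eventually_countable_forall]; intro l
    rw [eventually_countable_forall]; intro i
    exact residual_of_dense_open (isOpen_good _ _ _ _ _ _ _ _) (dense_good hL hk _ _ _ _ _ (by positivity) (by positivity))
  filter_upwards [hall] with f hf hT
  have hnull : ∀ (j N q : ℕ) (l : ℤ), μH[(m:ℝ)] (HBad (addPot L f.1) h0 J (ψ j).1 N (1 / ((q:ℝ) + 1)) (l * (1 / ((q:ℝ) + 1) / 4))) = 0 := by
    intro j N q l
    apply hbad_null hT
    intro η hη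
    obtain ⟨i, hi⟩ := exists_nat_one_div_lt hη
    obtain ⟨W, hW, F, h1, h2, h3⟩ := hf j N q l i
    refine ⟨F, fun p hp => ⟨(h1 p hp).1, (h1 p hp).2.trans hi⟩, h3 f (mem_of_mem_nhds hW) hT, h2.trans hi⟩
  have hsub : {u : E (m + 2) | ¬ UniqueMin (addPot L f.1) (h0 + J u)} ⊆
      ⋃ (j : ℕ) (N : ℕ) (q : ℕ) (l : ℤ), HBad (addPot L f.1) h0 J (ψ j).1 N (1 / ((q:ℝ) + 1)) (l * (1 / ((q:ℝ) + 1) / 4)) := by
    intro h hh
    obtain ⟨j, N, q, l, hmem⟩ := exists_hbad hT hψ hh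
    simp only [mem_iUnion]
    exact ⟨j, N, q, l, hmem⟩
  refine measure_mono_null hsub ?_
  simp only [measure_iUnion_null_iff]
  exact hnull

/-- The main theorem on an affine subspace. -/
theorem generic_affine {m : ℕ} (hk : 1 ≤ k) {L : Phase n → ℝ} (hL : IsC2 L) (A : AffineSubspace ℝ (E n))
    (hA : Module.finrank ℝ A.direction = m + 2) :
    ∀ᶠ f in residual (Pot n k), IsTonelli (addPot L f.1) → μH[(m:ℝ)] (BadSet (addPot L f.1) A) = 0 := by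
  rcases (A : Set (E n)).eq_empty_or_nonempty with he | ⟨h0, hh0⟩
  · refine Eventually.of_forall fun f _ => ?_
    have : BadSet (addPot L f.1) A = ∅ := by
      ext x
      simp only [BadSet, mem_ofPred_eq, mem_empty_iff_false, iff_false, not_and]
      intro hx
      have : x ∈ (A : Set (E n)) := hx
      rw [he] at this
      exact absurd this (notMem_empty x)
    rw [this, measure_empty]
  · let b := (stdOrthonormalBasis ℝ A.direction).reindex (finCongr hA)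
    let J : E (m + 2) →ₗᵢ[ℝ] E n := A.direction.subtypeₗᵢ.comp b.repr.symm.toLinearIsometry
    filter_upwards [generic_param hk hL h0 J] with f hf hT
    have h1 := hf hT
    have hiso : Isometry (fun u : E (m + 2) => h0 + J u) := (isometry_add_left h0).comp J.isometry
    have hsub : BadSet (addPot L f.1) A ⊆ (fun u : E (m + 2) => h0 + J u) '' {u | ¬ UniqueMin (addPot L f.1) (h0 + J u)} := by
      rintro h ⟨hh, hu⟩
      have hd : h - h0 ∈ A.direction := by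
        have := AffineSubspace.vsub_mem_direction hh hh0
        simpa using this
      refine ⟨b.repr ⟨h - h0, hd⟩, ?_, ?_⟩
      · have : h0 + J (b.repr ⟨h - h0, hd⟩) = h := by simp [J]
        simp only [mem_ofPred_eq]
        rw [this]; exact hu
      · simp [J]
    refine measure_mono_null hsub ?_
    rw [hiso.hausdorffMeasure_image (Or.inl (by positivity))]
    exact h1

/-- The main theorem on countably many affine subspaces. -/
theorem generic_affine_family (hk : 1 ≤ k) {L : Phase n → ℝ} (hL : IsC2 L) (S : ℕ → AffineSubspace ℝ (E n)) :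
    ∀ᶠ f in residual (Pot n k), IsTonelli (addPot L f.1) → ∀ i m : ℕ, Module.finrank ℝ (S i).direction = m + 2 →
      μH[(m:ℝ)] (BadSet (addPot L f.1) (S i)) = 0 := by
  have : ∀ᶠ f in residual (Pot n k), ∀ i m : ℕ, IsTonelli (addPot L f.1) → Module.finrank ℝ (S i).direction = m + 2 →
      μH[(m:ℝ)] (BadSet (addPot L f.1) (S i)) = 0 := by
    rw [eventually_countable_forall]; intro i
    rw [eventually_countable_forall]; intro m
    by_cases h : Module.finrank ℝ (S i).direction = m + 2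
    · filter_upwards [generic_affine hk hL (S i) h] with f hf hT _
      exact hf hT
    · exact Eventually.of_forall fun f _ h' => absurd h' h
  filter_upwards [this] with f hf hT i m h
  exact hf i m hT h


end Pool.Agent.Lib.Mane
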