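import Pool.Agent.Lib.Mane.Bounds

open Set Filter Topology MeasureTheory Metric
open scoped ENNReal NNReal

namespace Pool.Agent.Lib.Mane

variable {n : ℕ}

/-- solutions of the Euler-Lagrange equation on a closed interval -/
structure ELOn (L : Phase n → ℝ) (γ w : ℝ → E n) (a b : ℝ) : Prop where
  cont : ContinuousOn w (Icc a b)
  dx : ∀ t ∈ Icc a b, HasDerivWithinAt γ (w t) (Icc a b) t
  dp : ∀ t ∈ Icc a b, HasDerivWithinAt (fun s => Lv L (γ s) (w s) s) (Lx L (γ t) (w t) t) (Icc a b) t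

/-- `L'` differs from `L` by a potential with small gradient -/
structure Close (L L' : Phase n → ℝ) (η : ℝ) : Prop where
  lv : ∀ x v t, Lv L' x v t = Lv L x v t
  lx : ∀ x v t, ‖Lx L' x v t - Lx L x v t‖ ≤ η

lemma Close.refl (L : Phase n → ℝ) {η : ℝ} (hη : 0 ≤ η) : Close L L η :=
  ⟨fun _ _ _ => rfl, fun _ _ _ => by simpa using hη⟩

lemma Close.mono {L L' : Phase n → ℝ} {η η' : ℝ} (h : Close L L' η) (hη : η ≤ η') : Close L L' η' :=
  ⟨h.lv, fun x v t => (h.lx x v t).trans hη⟩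

lemma Close.symm {L L' : Phase n → ℝ} {η : ℝ} (h : Close L L' η) : Close L' L η :=
  ⟨fun x v t => (h.lv x v t).symm, fun x v t => by rw [norm_sub_rev]; exact h.lx x v t⟩

lemma ELOn.mono {L : Phase n → ℝ} {γ w : ℝ → E n} {a b a' b' : ℝ} (h : ELOn L γ w a b)
    (ha : a ≤ a') (hb : b' ≤ b) : ELOn L γ w a' b' := by
  have hs : Icc a' b' ⊆ Icc a b := Icc_subset_Icc ha hb
  exact ⟨h.cont.mono hs, fun t ht => (h.dx t (hs ht)).mono hs, fun t ht => (h.dp t (hs ht)).mono hs⟩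

lemma IsEL.elOn {L : Phase n → ℝ} {γ : ℝ → E n} (h : IsEL L γ) (a b : ℝ) : ELOn L γ (deriv γ) a b := by
  refine ⟨(h.c1.continuous_deriv le_rfl).continuousOn, fun t _ => ?_, fun t _ => (h.el t).hasDerivWithinAt⟩
  exact ((h.c1.differentiable one_ne_zero) t).hasDerivAt.hasDerivWithinAt

section Gronwall

variable {L L' : Phase n → ℝ} {K a C η : ℝ}

lemma hasDerivWithinAt_Ici {F : Type*} [NormedAddCommGroup F] [NormedSpace ℝ F] {f : ℝ → F} {f' : F}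
    {s b t : ℝ} (h : HasDerivWithinAt f f' (Icc s b) t) (ht : t ∈ Ico s b) : HasDerivWithinAt f f' (Ici t) t :=
  h.mono_of_mem_nhdsWithin (Icc_mem_nhdsGE_of_mem ht)

/-- velocity difference in terms of momentum difference -/
lemma vel_le (hB : Bd L K a C) (hcl : Close L L' η) {x y v w : E n} {t : ℝ} (hv : ‖v‖ ≤ K) (hw : ‖w‖ ≤ K) :
    ‖v - w‖ ≤ (1 / a) * (‖Lv L x v t - Lv L' y w t‖ + C * ‖x - y‖) := by
  have ha := hB.a_pos
  have h1 := hB.mono x t v w hv hw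
  have h2 : ‖Lv L x v t - Lv L x w t‖ ≤ ‖Lv L x v t - Lv L' y w t‖ + C * ‖x - y‖ := by
    have e : Lv L x v t - Lv L x w t = (Lv L x v t - Lv L' y w t) + (Lv L y w t - Lv L x w t) := by
      rw [hcl.lv]; abel
    rw [e]
    refine (norm_add_le _ _).trans ?_
    gcongr
    have := hB.lipv y x w w t t hw hw
    simp only [sub_self, norm_zero, abs_zero, add_zero] at this
    rw [norm_sub_rev y x] at this
    exact this
  have h3 : (Lv L x v t - Lv L x w t) (v - w) ≤ ‖Lv L x v t - Lv L x w t‖ * ‖v - w‖ := by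
    have := (Lv L x v t - Lv L x w t).le_opNorm (v - w)
    rw [Real.norm_eq_abs] at this
    exact (le_abs_self _).trans this
  by_cases h0 : ‖v - w‖ = 0
  · rw [h0]
    have := hB.C_nonneg
    positivity
  have hpos : 0 < ‖v - w‖ := lt_of_le_of_ne (norm_nonneg _) (Ne.symm h0)
  have h4 : a * ‖v - w‖ ≤ ‖Lv L x v t - Lv L x w t‖ := by
    have : a * ‖v - w‖ * ‖v - w‖ ≤ ‖Lv L x v t - Lv L x w t‖ * ‖v - w‖ := by nlinarith
    exact le_of_mul_le_mul_right this hpos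
  rw [one_div, ← div_eq_inv_mul, le_div_iff₀ ha]
  linarith

/-- Gronwall estimate for two solutions staying in the region `‖v‖ ≤ K`. -/
lemma gron (hB : Bd L K a C) (hη : 0 ≤ η) (hcl : Close L L' η) {γ1 w1 γ2 w2 : ℝ → E n} {s b ρ : ℝ} (hρ : 0 ≤ ρ)
    (h1 : ELOn L γ1 w1 s b) (h2 : ELOn L' γ2 w2 s b)
    (hK1 : ∀ t ∈ Icc s b, ‖w1 t‖ ≤ K) (hK2 : ∀ t ∈ Icc s b, ‖w2 t‖ ≤ K)
    (hx : ‖γ1 s - γ2 s‖ ≤ ρ) (hv : ‖w1 s - w2 s‖ ≤ ρ) :
    ∀ t ∈ Icc s b, ‖γ1 t - γ2 t‖ ≤ gronwallBound ((1 + 2 * C) * ρ) ((1 + C) * (1 + (1 + C) / a)) η (t - s) ∧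
      ‖w1 t - w2 t‖ ≤ (1 + C) / a * gronwallBound ((1 + 2 * C) * ρ) ((1 + C) * (1 + (1 + C) / a)) η (t - s) := by
  have ha := hB.a_pos
  have hC := hB.C_nonneg
  set κ := (1 + C) * (1 + (1 + C) / a) with hκ
  intro t ht
  have hsb : s ≤ b := ht.1.trans ht.2
  let D : ℝ → E n × (E n →L[ℝ] ℝ) := fun t => (γ1 t - γ2 t, Lv L (γ1 t) (w1 t) t - Lv L' (γ2 t) (w2 t) t)
  let D' : ℝ → E n × (E n →L[ℝ] ℝ) := fun t => (w1 t - w2 t, Lx L (γ1 t) (w1 t) t - Lx L' (γ2 t) (w2 t) t)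
  have hD : ∀ t ∈ Icc s b, HasDerivWithinAt D (D' t) (Icc s b) t := by
    intro t ht
    exact ((h1.dx t ht).sub (h2.dx t ht)).prodMk ((h1.dp t ht).sub (h2.dp t ht))
  have hvel : ∀ t ∈ Icc s b, ‖w1 t - w2 t‖ ≤ (1 + C) / a * ‖D t‖ := by
    intro t ht
    have h3 := vel_le hB hcl (x := γ1 t) (y := γ2 t) (t := t) (hK1 t ht) (hK2 t ht)
    have h4 : ‖γ1 t - γ2 t‖ ≤ ‖D t‖ := norm_fst_le (D t)
    have h5 : ‖Lv L (γ1 t) (w1 t) t - Lv L' (γ2 t) (w2 t) t‖ ≤ ‖D t‖ := norm_snd_le (D t)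
    calc _ ≤ (1 / a) * (‖Lv L (γ1 t) (w1 t) t - Lv L' (γ2 t) (w2 t) t‖ + C * ‖γ1 t - γ2 t‖) := h3
      _ ≤ (1 / a) * (‖D t‖ + C * ‖D t‖) := by gcongr
      _ = (1 + C) / a * ‖D t‖ := by ring
  have hbound : ∀ t ∈ Ico s b, ‖D' t‖ ≤ κ * ‖D t‖ + η := by
    intro t ht
    have ht' : t ∈ Icc s b := Ico_subset_Icc_self ht
    have h3 := hvel t ht'
    have h4 : ‖γ1 t - γ2 t‖ ≤ ‖D t‖ := norm_fst_le (D t)
    have h6 : ‖Lx L (γ1 t) (w1 t) t - Lx L' (γ2 t) (w2 t) t‖ ≤ C * (‖D t‖ + (1 + C) / a * ‖D t‖) + η := by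
      have e : Lx L (γ1 t) (w1 t) t - Lx L' (γ2 t) (w2 t) t =
          (Lx L (γ1 t) (w1 t) t - Lx L (γ2 t) (w2 t) t) + (Lx L (γ2 t) (w2 t) t - Lx L' (γ2 t) (w2 t) t) := by abel
      rw [e]
      refine (norm_add_le _ _).trans ?_
      gcongr
      · refine (hB.lipx _ _ _ _ _ _ (hK1 t ht') (hK2 t ht')).trans ?_
        simp only [sub_self, abs_zero, add_zero]
        gcongr
      · rw [norm_sub_rev]; exact hcl.lx _ _ _
    have hDn := norm_nonneg (D t)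
    rw [Prod.norm_def]
    apply max_le
    · calc ‖w1 t - w2 t‖ ≤ (1 + C) / a * ‖D t‖ := h3
        _ ≤ κ * ‖D t‖ + η := by
          rw [hκ]
          have : (1 + C) / a ≤ (1 + C) * (1 + (1 + C) / a) := by
            have : 0 ≤ (1+C)/a := by positivity
            nlinarith
          nlinarith
    · refine h6.trans ?_
      have : C * (‖D t‖ + (1 + C) / a * ‖D t‖) ≤ κ * ‖D t‖ := by
        rw [hκ]
        have : 0 ≤ (1 + (1 + C) / a) * ‖D t‖ := by positivity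
        nlinarith
      linarith
  have h0 : ‖D s‖ ≤ (1 + 2 * C) * ρ := by
    rw [Prod.norm_def]
    have hs : s ∈ Icc s b := left_mem_Icc.mpr hsb
    apply max_le
    · show ‖γ1 s - γ2 s‖ ≤ _
      nlinarith
    · show ‖Lv L (γ1 s) (w1 s) s - Lv L' (γ2 s) (w2 s) s‖ ≤ _
      rw [hcl.lv]
      refine (hB.lipv _ _ _ _ _ _ (hK1 s hs) (hK2 s hs)).trans ?_
      simp only [sub_self, abs_zero, add_zero]
      nlinarith
  have key := norm_le_gronwallBound_of_norm_deriv_right_le (f := D) (f' := D') (δ := (1 + 2 * C) * ρ) (K := κ) (ε := η)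
    (a := s) (b := b) (fun t ht => (hD t ht).continuousWithinAt)
    (fun t ht => hasDerivWithinAt_Ici (hD t (Ico_subset_Icc_self ht)) ht) h0 hbound t ht
  refine ⟨(norm_fst_le (D t)).trans key, (hvel t ht).trans ?_⟩
  gcongr

/-- bound of the gronwall function -/
lemma gronwallBound_le {δ κ ε x T ρ A : ℝ} (hκ : 1 ≤ κ) (hx0 : 0 ≤ x) (hx : x ≤ T) (hA : 0 ≤ A)
    (hδ : δ ≤ A * ρ) (hε : ε ≤ ρ) (hρ : 0 ≤ ρ) :
    gronwallBound δ κ ε x ≤ (A + 1) * Real.exp (κ * T) * ρ := by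
  have hκ0 : κ ≠ 0 := by linarith
  rw [gronwallBound_of_K_ne_0 hκ0]
  have h1 : Real.exp (κ * x) ≤ Real.exp (κ * T) := by
    apply Real.exp_le_exp.mpr; nlinarith
  have h2 : 1 ≤ Real.exp (κ * x) := Real.one_le_exp (by positivity)
  have h3 : ε / κ * (Real.exp (κ * x) - 1) ≤ ρ * Real.exp (κ * T) := by
    have : ε / κ ≤ ρ := by
      rw [div_le_iff₀ (by linarith)]; nlinarith
    calc ε / κ * (Real.exp (κ * x) - 1) ≤ ρ * (Real.exp (κ * x) - 1) := by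
          apply mul_le_mul_of_nonneg_right this; linarith
      _ ≤ ρ * Real.exp (κ * T) := by nlinarith
  have h4 : δ * Real.exp (κ * x) ≤ A * ρ * Real.exp (κ * T) := by
    calc δ * Real.exp (κ * x) ≤ A * ρ * Real.exp (κ * x) := by
          apply mul_le_mul_of_nonneg_right hδ; positivity
      _ ≤ A * ρ * Real.exp (κ * T) := by gcongr
  show δ * Real.exp (κ * x) + ε / κ * (Real.exp (κ * x) - 1) ≤ _
  nlinarith

/-- forward bootstrap: solutions starting close stay close, uniformly. -/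
lemma bootstrap_fwd (hL : IsC2 L) (K T ε : ℝ) (hε : 0 < ε) :
    ∃ ρ > 0, ∀ L', Close L L' ρ → ∀ γ1 w1 γ2 w2 : ℝ → E n, ∀ s b, b - s ≤ T →
      ELOn L γ1 w1 s b → ELOn L' γ2 w2 s b → (∀ t ∈ Icc s b, ‖w1 t‖ ≤ K) →
      ‖γ1 s - γ2 s‖ ≤ ρ → ‖w1 s - w2 s‖ ≤ ρ →
      ∀ t ∈ Icc s b, ‖γ1 t - γ2 t‖ ≤ ε ∧ ‖w1 t - w2 t‖ ≤ ε := by
  obtain ⟨a, C, hB⟩ := exists_Bd hL (K + 1)
  have ha := hB.a_pos
  have hC := hB.C_nonneg
  set κ := (1 + C) * (1 + (1 + C) / a) with hκ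
  have hκ1 : 1 ≤ κ := by
    have : 0 ≤ (1+C)/a := by positivity
    nlinarith
  set M := (2 + 2 * C) * Real.exp (κ * T) with hM
  have hM0 : 0 < M := by positivity
  set ε' := min ε 1 / 2 with hε'
  have hε'0 : 0 < ε' := by positivity
  set ρ := min (ε' / (M * (1 + (1 + C) / a))) ε' with hρ
  have hρ0 : 0 < ρ := by positivity
  have hlt : ∀ G : ℝ, G ≤ M * ρ → G ≤ ε' ∧ (1 + C) / a * G ≤ ε' := by
    intro G hG
    have h1 : M * ρ ≤ ε' / (1 + (1+C)/a) := by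
      calc M * ρ ≤ M * (ε' / (M * (1 + (1 + C) / a))) := by gcongr; exact min_le_left _ _
        _ = ε' / (1 + (1+C)/a) := by field_simp
    have h0 : 0 ≤ (1+C)/a := by positivity
    have h2 : ε' / (1 + (1+C)/a) ≤ ε' := div_le_self hε'0.le (by linarith)
    refine ⟨by linarith, ?_⟩
    calc (1 + C) / a * G ≤ (1 + C) / a * (ε' / (1 + (1+C)/a)) := by gcongr; linarith
      _ = ((1+C)/a) / (1 + (1+C)/a) * ε' := by ring
      _ ≤ 1 * ε' := by
        gcongr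
        rw [div_le_one (by positivity)]; linarith
      _ = ε' := one_mul _
  refine ⟨ρ, hρ0, fun L' hcl γ1 w1 γ2 w2 s b hbs h1 h2 hK1 hx hv => ?_⟩
  -- estimate on any interval where the velocities are within 1
  have est : ∀ c, c ≤ b → (∀ t ∈ Icc s c, ‖w1 t - w2 t‖ ≤ 1) → ∀ t ∈ Icc s c, ‖γ1 t - γ2 t‖ ≤ ε' ∧ ‖w1 t - w2 t‖ ≤ ε' := by
    intro c hc hclose t ht
    have h2K : ∀ t ∈ Icc s c, ‖w2 t‖ ≤ K + 1 := by
      intro t ht
      have e : w2 t = w1 t - (w1 t - w2 t) := by abel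
      rw [e]
      exact (norm_sub_le _ _).trans (add_le_add (hK1 t ⟨ht.1, ht.2.trans hc⟩) (hclose t ht))
    have h1K : ∀ t ∈ Icc s c, ‖w1 t‖ ≤ K + 1 := fun t ht => (hK1 t ⟨ht.1, ht.2.trans hc⟩).trans (by linarith)
    have hg := gron hB hρ0.le hcl hρ0.le (h1.mono le_rfl hc) (h2.mono le_rfl hc) h1K h2K hx hv t ht
    have hgb : gronwallBound ((1 + 2 * C) * ρ) κ ρ (t - s) ≤ M * ρ := by
      have := gronwallBound_le (δ := (1 + 2 * C) * ρ) (ε := ρ) (T := T) (x := t - s) (A := 1 + 2 * C) (ρ := ρ)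
        hκ1 (by linarith [ht.1]) (by linarith [ht.2]) (by positivity) le_rfl le_rfl hρ0.le
      calc _ ≤ _ := this
        _ = M * ρ := by rw [hM]; ring
    obtain ⟨e1, e2⟩ := hlt _ hgb
    exact ⟨hg.1.trans e1, hg.2.trans e2⟩
  -- velocities never reach distance 1
  have hmain : ∀ t ∈ Icc s b, ‖w1 t - w2 t‖ ≤ 1 := by
    by_contra hcon
    push Not at hcon
    obtain ⟨t0, ht0, ht0'⟩ := hcon
    let S : Set ℝ := Icc s b ∩ {t | 1 ≤ ‖w1 t - w2 t‖}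
    have hcontw : ContinuousOn (fun t => ‖w1 t - w2 t‖) (Icc s b) := (h1.cont.sub h2.cont).norm
    have hSclosed : IsCompact S := by
      have : IsClosed S := hcontw.preimage_isClosed_of_isClosed isClosed_Icc isClosed_Ici
      exact isCompact_Icc.of_isClosed_subset this inter_subset_left
    obtain ⟨c, hcS, hcmin⟩ := hSclosed.exists_isLeast ⟨t0, ht0, ht0'.le⟩
    have hlow : ∀ t ∈ Ico s c, ‖w1 t - w2 t‖ < 1 := by
      intro t ht
      by_contra h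
      push Not at h
      have := hcmin ⟨⟨ht.1, ht.2.le.trans hcS.1.2⟩, h⟩
      linarith [ht.2]
    have hsc : s < c := by
      rcases eq_or_lt_of_le hcS.1.1 with h | h
      · exfalso
        have : ‖w1 c - w2 c‖ ≤ ρ := by rw [← h]; exact hv
        have h2 : ρ ≤ ε' := min_le_right _ _
        have h3 : ε' ≤ 1/2 := by rw [hε']; linarith [min_le_right ε 1]
        have h4 : 1 ≤ ‖w1 c - w2 c‖ := hcS.2
        linarith
      · exact h
    have hc1 : ‖w1 c - w2 c‖ ≤ 1 := by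
      have hcc : ContinuousWithinAt (fun t => ‖w1 t - w2 t‖) (Icc s b) c := hcontw c hcS.1
      have hcc2 : Tendsto (fun t => ‖w1 t - w2 t‖) (𝓝[Ico s c] c) (𝓝 ‖w1 c - w2 c‖) :=
        hcc.mono (fun t ht => ⟨ht.1, ht.2.le.trans hcS.1.2⟩)
      have : (𝓝[Ico s c] c).NeBot := by
        rw [nhdsWithin_Ico_eq_nhdsLT hsc]
        infer_instance
      exact le_of_tendsto hcc2 (by filter_upwards [self_mem_nhdsWithin] with t ht using (hlow t ht).le)
    have hall : ∀ t ∈ Icc s c, ‖w1 t - w2 t‖ ≤ 1 := by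
      intro t ht
      rcases eq_or_lt_of_le ht.2 with h | h
      · rw [h]; exact hc1
      · exact (hlow t ⟨ht.1, h⟩).le
    have := (est c hcS.1.2 hall c ⟨hsc.le, le_rfl⟩).2
    have h3 : ε' ≤ 1/2 := by rw [hε']; linarith [min_le_right ε 1]
    have h4 : 1 ≤ ‖w1 c - w2 c‖ := hcS.2
    linarith
  intro t ht
  have h3 : ε' ≤ ε := by rw [hε']; linarith [min_le_left ε 1]
  obtain ⟨e1, e2⟩ := est b le_rfl hmain t ht
  exact ⟨e1.trans h3, e2.trans h3⟩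

end Gronwall

end Pool.Agent.Lib.Mane
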