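import Pool.Agent.Lib.Mane.Unif

open Set Filter Topology MeasureTheory Metric BoundedContinuousFunction
open scoped ENNReal NNReal Interval RealInnerProductSpace

namespace Pool.Agent.Lib.Mane

variable {n : ℕ}

/-! ### Compactness of minimizing measures -/

lemma compact_min {L : Phase n → ℝ} (hL : IsTonelli L) {Ls : ℕ → Phase n → ℝ} (hLs : ∀ i, IsTonelli (Ls i))
    (hcl : ∀ ρ > 0, ∀ᶠ i in atTop, Close L (Ls i) ρ) (habs : ∀ ρ > 0, ∀ᶠ i in atTop, ∀ z, |Ls i z - L z| ≤ ρ)
    {R : ℝ} {cs : ℕ → E n} (hcs : ∀ i, ‖cs i‖ ≤ R) {μs : ℕ → ProbabilityMeasure (Phase n)}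
    (hmin : ∀ i, IsMin (shift (Ls i) (cs i)) (μs i)) :
    ∃ (K : ℝ) (c : E n) (μ : ProbabilityMeasure (Phase n)) (φ : ℕ → ℕ), StrictMono φ ∧
      Tendsto (fun i => cs (φ i)) atTop (𝓝 c) ∧ Tendsto (fun i => μs (φ i)) atTop (𝓝 μ) ∧ ‖c‖ ≤ R ∧
      IsMin (shift L c) μ ∧ Conc K μ ∧ ∀ i, Conc K (μs (φ i)) := by
  obtain ⟨C0, C2, K, ρ, hρ, hS⟩ := exists_unif_speedData hL R
  obtain ⟨N, hN⟩ := eventually_atTop.mp ((hcl ρ hρ).and (habs ρ hρ))
  have hK : ∀ i, N ≤ i → Conc K (μs i) := fun i hi =>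
    (hmin i).conc ((hLs i).shift _) (hS (Ls i) (hLs i) (hN i hi).1 (hN i hi).2 (cs i) (hcs i))
  have hmem1 : ∀ i, cs (i + N) ∈ closedBall (0 : E n) R := fun i => by simpa using hcs (i + N)
  obtain ⟨c, hcR, φ1, hφ1, hlim1⟩ := (isCompact_closedBall (0 : E n) R).tendsto_subseq hmem1
  have hmem2 : ∀ i, μs (φ1 i + N) ∈ {μ : ProbabilityMeasure (Phase n) | Conc K μ} := fun i => hK _ (by omega)
  obtain ⟨μ, hμK, φ2, hφ2, hlim2⟩ := (isCompact_conc (n := n) K).tendsto_subseq hmem2
  have hφ' : StrictMono (fun i => φ1 (φ2 i) + N) := fun i j hij => by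
    have := hφ1 (hφ2 hij)
    show φ1 (φ2 i) + N < φ1 (φ2 j) + N
    omega
  have hl1 : Tendsto (fun i => cs (φ1 (φ2 i) + N)) atTop (𝓝 c) := hlim1.comp hφ2.tendsto_atTop
  have hl2 : Tendsto (fun i => μs (φ1 (φ2 i) + N)) atTop (𝓝 μ) := hlim2
  refine ⟨K, c, μ, fun i => φ1 (φ2 i) + N, hφ', hl1, hl2, by simpa using hcR, ?_, hμK, fun i => hK _ (Nat.le_add_left _ _)⟩
  exact isMin_limit hL (fun i => hLs (φ1 (φ2 i) + N)) (fun ρ hρ => hφ'.tendsto_atTop.eventually (hcl ρ hρ))
    (fun ρ hρ => hφ'.tendsto_atTop.eventually (habs ρ hρ)) hl1 (fun i => hmin _) (Eventually.of_forall fun i => hK _ (Nat.le_add_left _ _))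
    hμK hl2

lemma compact_min_const {L : Phase n → ℝ} (hL : IsTonelli L) {R : ℝ} {cs : ℕ → E n} (hcs : ∀ i, ‖cs i‖ ≤ R)
    {μs : ℕ → ProbabilityMeasure (Phase n)} (hmin : ∀ i, IsMin (shift L (cs i)) (μs i)) :
    ∃ (K : ℝ) (c : E n) (μ : ProbabilityMeasure (Phase n)) (φ : ℕ → ℕ), StrictMono φ ∧
      Tendsto (fun i => cs (φ i)) atTop (𝓝 c) ∧ Tendsto (fun i => μs (φ i)) atTop (𝓝 μ) ∧ ‖c‖ ≤ R ∧
      IsMin (shift L c) μ ∧ Conc K μ ∧ ∀ i, Conc K (μs (φ i)) :=
  compact_min hL (Ls := fun _ => L) (fun _ => hL) (fun ρ hρ => Eventually.of_forall fun _ => Close.refl L hρ.le)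
    (fun ρ hρ => Eventually.of_forall fun _ z => by simpa using hρ.le) hcs hmin

lemma exists_isMin_shift {L : Phase n → ℝ} (hL : IsTonelli L) (c : E n) : ∃ μ, IsMin (shift L c) μ := by
  obtain ⟨C0, C2, K0, hS⟩ := exists_speedData (hL.shift c)
  obtain ⟨μ, hμ, -⟩ := exists_isMin (hL.shift c) hS
  exact ⟨μ, hμ⟩

/-- comparison with straight lines -/
lemma IsMin.le_straight {L : Phase n → ℝ} (hL : IsTonelli L) {μ : ProbabilityMeasure (Phase n)} (hμ : IsMin L μ)
    (w : E n) {C : ℝ} (hC : ∀ z : Phase n, z.2.1 = w → L z ≤ C) : action L μ ≤ C := by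
  obtain ⟨B, hB⟩ := hμ.lowBd hL
  have key : ∀ T : ℝ, 0 < T → action L μ * T - B ≤ C * T := by
    intro T hT
    have hd : ∀ t ∈ Icc (0:ℝ) T, HasDerivWithinAt (fun t : ℝ => t • w) w (Icc (0:ℝ) T) t := by
      intro t _
      have := (hasDerivAt_id t).smul_const w
      simp only [id, one_smul] at this
      exact this.hasDerivWithinAt
    have r := reach_of_C1 (L := L) (w := fun _ => w) (K := ‖w‖) hT.le continuousOn_const hd (fun _ _ => le_rfl)
    have h1 := hB _ _ _ _ _ _ hT.le r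
    have hcont : Continuous (fun t : ℝ => lift L (t • w, w, t)) := hL.smooth.continuous.comp (by fun_prop)
    have h2 : ∫ t in (0:ℝ)..T, lift L (t • w, w, t) ≤ ∫ _t in (0:ℝ)..T, C :=
      intervalIntegral.integral_mono_on hT.le (hcont.intervalIntegrable _ _) intervalIntegrable_const
        (fun t _ => hC (q (t • w), w, (t : UnitAddCircle)) rfl)
    rw [intervalIntegral.integral_const, smul_eq_mul, sub_zero] at h2
    rw [sub_zero] at h1
    linarith
  by_contra hcon
  push Not at hcon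
  have hpos : 0 < action L μ - C := by linarith
  have h1 := key ((|B| + 1) / (action L μ - C)) (div_pos (by positivity) hpos)
  have h2 : (action L μ - C) * ((|B| + 1) / (action L μ - C)) = |B| + 1 := by field_simp
  have h3 := le_abs_self B
  nlinarith

/-! ### Convex combinations -/

/-- convex combination of probability measures -/
noncomputable def comb (a b : ℝ) (ha : 0 ≤ a) (hb : 0 ≤ b) (hab : a + b = 1) (μ ν : ProbabilityMeasure (Phase n)) :
    ProbabilityMeasure (Phase n) :=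
  ⟨ENNReal.ofReal a • (μ : Measure (Phase n)) + ENNReal.ofReal b • (ν : Measure (Phase n)), ⟨by
    simp only [Measure.add_apply, Measure.smul_apply, measure_univ, smul_eq_mul, mul_one]
    rw [← ENNReal.ofReal_add ha hb, hab, ENNReal.ofReal_one]⟩⟩

lemma comb_coe {a b : ℝ} (ha : 0 ≤ a) (hb : 0 ≤ b) (hab : a + b = 1) (μ ν : ProbabilityMeasure (Phase n)) :
    (comb a b ha hb hab μ ν : Measure (Phase n)) = ENNReal.ofReal a • (μ : Measure (Phase n)) + ENNReal.ofReal b • (ν : Measure (Phase n)) := rfl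

lemma integral_comb {a b : ℝ} (ha : 0 ≤ a) (hb : 0 ≤ b) (hab : a + b = 1) {μ ν : ProbabilityMeasure (Phase n)} {F : Type*}
    [NormedAddCommGroup F] [NormedSpace ℝ F] {g : Phase n → F} (hμ : Integrable g (μ : Measure (Phase n)))
    (hν : Integrable g (ν : Measure (Phase n))) :
    ∫ z, g z ∂(comb a b ha hb hab μ ν : Measure (Phase n)) =
      a • (∫ z, g z ∂(μ : Measure (Phase n))) + b • ∫ z, g z ∂(ν : Measure (Phase n)) := by
  rw [comb_coe, integral_add_measure (hμ.smul_measure ENNReal.ofReal_ne_top) (hν.smul_measure ENNReal.ofReal_ne_top),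
    integral_smul_measure, integral_smul_measure, ENNReal.toReal_ofReal ha, ENNReal.toReal_ofReal hb]

lemma isInv_comb {L : Phase n → ℝ} (hL : IsTonelli L) {a b : ℝ} (ha : 0 ≤ a) (hb : 0 ≤ b) (hab : a + b = 1) {μ ν : ProbabilityMeasure (Phase n)}
    (hμ : IsInv L μ) (hν : IsInv L ν) : IsInv L (comb a b ha hb hab μ ν) := by
  refine ⟨?_, fun r => ?_⟩
  · obtain ⟨S, hS, hS0⟩ := hμ.compact_support
    obtain ⟨S', hS', hS'0⟩ := hν.compact_support
    refine ⟨S ∪ S', hS.union hS', ?_⟩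
    rw [comb_coe]
    simp only [Measure.add_apply, Measure.smul_apply, smul_eq_mul]
    have h1 : (μ : Measure (Phase n)) (S ∪ S')ᶜ = 0 := measure_mono_null (compl_subset_compl.mpr subset_union_left) hS0
    have h2 : (ν : Measure (Phase n)) (S ∪ S')ᶜ = 0 := measure_mono_null (compl_subset_compl.mpr subset_union_right) hS'0
    rw [h1, h2]; simp
  · have hc := (continuous_flow_map hL r).measurable
    rw [comb_coe, Measure.map_add _ _ hc, Measure.map_smul, Measure.map_smul, hμ.invariant r, hν.invariant r]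

lemma convex_rotSet {L : Phase n → ℝ} (hL : IsTonelli L) (c : E n) :
    Convex ℝ {h : E n | ∃ μ, IsMin (shift L c) μ ∧ rot μ = h} := by
  rintro h1 ⟨μ, hμ, rfl⟩ h2 ⟨ν, hν, rfl⟩ a b ha hb hab
  have hLc := continuous_of_tonelli (hL.shift c)
  obtain ⟨K1, hK1⟩ := hμ.1.exists_conc
  obtain ⟨K2, hK2⟩ := hν.1.exists_conc
  refine ⟨comb a b ha hb hab μ ν, ⟨isInv_comb (hL.shift c) ha hb hab hμ.1 hν.1, fun ξ hξ => ?_⟩, ?_⟩
  · have := integral_comb ha hb hab (hK1.integrable hLc) (hK2.integrable hLc)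
    simp only [action] at this ⊢
    rw [this]
    have h1 := hμ.2 ξ hξ
    have h2 := hν.2 ξ hξ
    simp only [action] at h1 h2
    simp only [smul_eq_mul]
    calc _ ≤ a * (∫ z, shift L c z ∂(ξ : Measure (Phase n))) + b * (∫ z, shift L c z ∂(ξ : Measure (Phase n))) := by gcongr
      _ = _ := by rw [← add_mul, hab, one_mul]
  · exact integral_comb ha hb hab (hK1.integrable (by fun_prop)) (hK2.integrable (by fun_prop))

lemma isCompact_rotSet {L : Phase n → ℝ} (hL : IsTonelli L) (c : E n) :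
    IsCompact {h : E n | ∃ μ, IsMin (shift L c) μ ∧ rot μ = h} := by
  apply IsSeqCompact.isCompact
  intro hs hhs
  choose μs hμs hrot using hhs
  obtain ⟨K, c', μ, φ, hφ, h1, h2, -, h4, h5, h6⟩ := compact_min_const hL (R := ‖c‖) (cs := fun _ => c) (fun _ => le_rfl) hμs
  have hcc : c' = c := tendsto_nhds_unique h1 tendsto_const_nhds
  subst hcc
  refine ⟨rot μ, ⟨μ, h4, rfl⟩, φ, hφ, ?_⟩
  have := tendsto_rot (Eventually.of_forall h6) h5 h2
  refine this.congr (fun i => hrot _)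

/-- every homology class is the rotation vector of a minimizing measure for some cohomology class -/
lemma exists_rot {L : Phase n → ℝ} (hL : IsTonelli L) (h : E n) : ∃ c μ, IsMin (shift L c) μ ∧ rot μ = h := by
  have hLc := continuous_of_tonelli hL
  choose m hm using exists_isMin_shift hL
  let F : E n → ℝ := fun c => ⟪c, h⟫ + action (shift L c) (m c)
  have hsub : ∀ c c', action (shift L c') (m c') ≤ action (shift L c) (m c) - ⟪c' - c, rot (m c)⟫ := by
    intro c c'
    obtain ⟨K, hK⟩ := (hm c).1.exists_conc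
    have h1 := (hm c').2 (m c) ((isInv_shift hL c').mpr ((isInv_shift hL c).mp (hm c).1))
    rw [hK.action_shift hLc] at h1
    rw [hK.action_shift hLc, inner_sub_left]
    linarith
  -- F is upper semicontinuous
  have husc : UpperSemicontinuous F := by
    intro c y hy
    have h1 : Tendsto (fun c' => ⟪c', h⟫ + (action (shift L c) (m c) - ⟪c' - c, rot (m c)⟫)) (𝓝 c)
        (𝓝 (⟪c, h⟫ + (action (shift L c) (m c) - ⟪c - c, rot (m c)⟫))) := by
      apply Continuous.tendsto
      fun_prop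
    rw [sub_self, inner_zero_left, sub_zero] at h1
    filter_upwards [h1.eventually (gt_mem_nhds hy)] with c' hc'
    exact (add_le_add_right (hsub c c') _).trans_lt hc'
  -- growth
  set r := ‖h‖ + 1 with hr
  obtain ⟨C, hC0, hC⟩ := exists_abs_bound hL.smooth.continuous r
  have hgrow : ∀ c, F c ≤ C - ‖c‖ := by
    intro c
    have h1 : action (shift L c) (m c) ≤ C - r * ‖c‖ := by
      by_cases hc : c = 0
      · subst hc
        refine (hm 0).le_straight (hL.shift 0) 0 (fun z hz => ?_)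
        simp only [shift, inner_zero_left, sub_zero, norm_zero, mul_zero]
        exact (le_abs_self _).trans (hC z (by rw [hz, norm_zero]; positivity))
      · have hc' : 0 < ‖c‖ := norm_pos_iff.mpr hc
        refine (hm c).le_straight (hL.shift c) ((r / ‖c‖) • c) (fun z hz => ?_)
        simp only [shift, hz, inner_smul_right, real_inner_self_eq_norm_sq]
        have e1 : r / ‖c‖ * ‖c‖ ^ 2 = r * ‖c‖ := by field_simp
        rw [e1]
        have hzn : ‖z.2.1‖ ≤ r := by
          rw [hz, norm_smul, Real.norm_of_nonneg (by positivity)]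
          apply le_of_eq; field_simp
        linarith [(le_abs_self _).trans (hC z hzn)]
    have h2 := real_inner_le_norm c h
    simp only [F]
    rw [hr] at h1
    nlinarith
  set ρ := |C - F 0| + 1 with hρ
  obtain ⟨c, hcball, hcmax⟩ := UpperSemicontinuousOn.exists_isMaxOn (s := closedBall (0 : E n) ρ) ⟨0, by simp; positivity⟩
    (isCompact_closedBall _ _) (husc.upperSemicontinuousOn _)
  have hmax : ∀ c', F c' ≤ F c := by
    intro c'
    by_cases hc' : c' ∈ closedBall (0 : E n) ρ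
    · exact hcmax hc'
    · have h0 : F 0 ≤ F c := hcmax (by simp; positivity)
      simp only [mem_closedBall, dist_zero_right, not_le] at hc'
      have h1 := hgrow c'
      have h2 := le_abs_self (C - F 0)
      linarith
  -- directional inequality
  have hdir : ∀ w : E n, ∃ μ, IsMin (shift L c) μ ∧ ⟪w, h⟫ ≤ ⟪w, rot μ⟫ := by
    intro w
    let cs : ℕ → E n := fun i => c + (1 / ((i:ℝ) + 1)) • w
    have hcs : Tendsto cs atTop (𝓝 c) := by
      have h1 : Tendsto (fun i : ℕ => c + (1 / ((i:ℝ) + 1)) • w) atTop (𝓝 (c + (0:ℝ) • w)) :=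
        tendsto_const_nhds.add (tendsto_one_div_add_atTop_nhds_zero_nat.smul_const w)
      rw [zero_smul, add_zero] at h1
      exact h1
    have hbd : ∀ i, ‖cs i‖ ≤ ‖c‖ + ‖w‖ := by
      intro i
      refine (norm_add_le _ _).trans ?_
      gcongr
      rw [norm_smul, Real.norm_of_nonneg (by positivity)]
      have : 1 / ((i:ℝ) + 1) ≤ 1 := by rw [div_le_one (by positivity)]; linarith [(Nat.cast_nonneg i : (0:ℝ) ≤ i)]
      exact mul_le_of_le_one_left (norm_nonneg _) this
    obtain ⟨K, c', μ, φ, hφ, h1, h2, -, h4, h5, h6⟩ := compact_min_const hL hbd (fun i => hm (cs i))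
    have hcc : c' = c := tendsto_nhds_unique h1 (hcs.comp hφ.tendsto_atTop)
    subst hcc
    refine ⟨μ, h4, ?_⟩
    have hineq : ∀ i, ⟪w, h⟫ ≤ ⟪w, rot (m (cs i))⟫ := by
      intro i
      have a1 := hmax (cs i)
      have a2 := hsub (cs i) c'
      simp only [F] at a1
      have e1 : c' - cs i = -((1 / ((i:ℝ) + 1)) • w) := by simp [cs]
      have e2 : ⟪cs i, h⟫ = ⟪c', h⟫ + (1 / ((i:ℝ) + 1)) * ⟪w, h⟫ := by
        simp only [cs, inner_add_left, real_inner_smul_left]
      rw [e1, inner_neg_left, real_inner_smul_left] at a2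
      rw [e2] at a1
      have hpos : 0 < 1 / ((i:ℝ) + 1) := by positivity
      have a3 : 1 / ((i:ℝ) + 1) * ⟪w, h⟫ ≤ 1 / ((i:ℝ) + 1) * ⟪w, rot (m (cs i))⟫ := by linarith
      exact le_of_mul_le_mul_left a3 hpos
    have hrot := tendsto_rot (Eventually.of_forall h6) h5 h2
    have hlim : Tendsto (fun i => ⟪w, rot (m (cs (φ i)))⟫) atTop (𝓝 ⟪w, rot μ⟫) := tendsto_const_nhds.inner hrot
    exact ge_of_tendsto' hlim (fun i => hineq _)
  -- separation
  by_contra hcon
  have hnot : h ∉ {h : E n | ∃ μ, IsMin (shift L c) μ ∧ rot μ = h} := fun hmem => hcon ⟨c, hmem⟩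
  obtain ⟨f, u, hf1, hf2⟩ := geometric_hahn_banach_closed_point (convex_rotSet hL c) (isCompact_rotSet hL c).isClosed hnot
  set w := (InnerProductSpace.toDual ℝ (E n)).symm f with hw
  have hwf : ∀ x, ⟪w, x⟫ = f x := fun x => InnerProductSpace.toDual_symm_apply
  obtain ⟨μ, hμ, hle⟩ := hdir w
  rw [hwf, hwf] at hle
  have := hf1 (rot μ) ⟨μ, hμ, rfl⟩
  linarith

/-- homologically minimizing measures are exactly the minimizing measures with the right rotation vector -/
lemma isHomMin_iff {L : Phase n → ℝ} (hL : IsTonelli L) {c h : E n} {μ : ProbabilityMeasure (Phase n)}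
    (hμ : IsMin (shift L c) μ) (hr : rot μ = h) (ν : ProbabilityMeasure (Phase n)) :
    IsHomMin L h ν ↔ IsMin (shift L c) ν ∧ rot ν = h := by
  have hLc := continuous_of_tonelli hL
  have hμi : IsInv L μ := (isInv_shift hL c).mp hμ.1
  obtain ⟨K, hK⟩ := hμi.exists_conc
  constructor
  · rintro ⟨h1, h2, h3⟩
    obtain ⟨K', hK'⟩ := h1.exists_conc
    refine ⟨⟨(isInv_shift hL c).mpr h1, fun ξ hξ => ?_⟩, h2⟩
    have a1 := h3 μ hμi hr
    have a2 := hμ.2 ξ hξ
    rw [hK.action_shift hLc, hr] at a2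
    rw [hK'.action_shift hLc, h2]
    linarith
  · rintro ⟨h1, h2⟩
    have hνi : IsInv L ν := (isInv_shift hL c).mp h1.1
    obtain ⟨K', hK'⟩ := hνi.exists_conc
    refine ⟨hνi, h2, fun ξ hξ hξr => ?_⟩
    obtain ⟨K'', hK''⟩ := hξ.exists_conc
    have a1 := h1.2 ξ ((isInv_shift hL c).mpr hξ)
    rw [hK'.action_shift hLc, hK''.action_shift hLc, h2, hξr] at a1
    linarith

end Pool.Agent.Lib.Mane
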