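import Pool.Agent.Lib.Mane.Curve

open Set Filter Topology MeasureTheory Metric
open scoped ENNReal NNReal Interval

namespace Pool.Agent.Lib.Mane

variable {n : ℕ}

lemma dpos_congr {N : ℕ} {x0 : E n} {v v' : ℕ → E n} {i : ℕ} (h : ∀ j < i, v j = v' j) :
    dpos N x0 v i = dpos N x0 v' i := by
  simp only [dpos]
  congr 2
  exact Finset.sum_congr rfl (fun j hj => h j (Finset.mem_range.mp hj))

lemma dact_congr {L : Phase n → ℝ} {N m : ℕ} {x0 : E n} {v v' : ℕ → E n} (h : ∀ j < m, v j = v' j) :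
    dact L N m x0 v = dact L N m x0 v' := by
  simp only [dact]
  apply Finset.sum_congr rfl
  intro i hi
  rw [Finset.mem_range] at hi
  rw [dpos_congr (fun j hj => h j (hj.trans hi)), h i hi]

/-- minimizing chains with good properties -/
structure GoodChain (L : Phase n → ℝ) (N m : ℕ) (R Λ : ℝ) (x0 : E n) (v : ℕ → E n) : Prop where
  x0_mem : x0 ∈ cube n
  bd : ∀ i, ‖v i‖ ≤ R
  min : ∀ (y0 : E n) (u : ℕ → E n), (∀ i, ‖u i‖ ≤ R) → dact L N m x0 v ≤ dact L N m y0 u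
  lip : ∀ i, ‖v (i+1) - v i‖ ≤ Λ / N
  el : ∀ k, k + 1 < m → ‖v k‖ < R → ‖v (k+1)‖ < R →
    Lv L (dpos N x0 v (k+1)) (v (k+1)) (((k+1:ℕ):ℝ) / N) - Lv L (dpos N x0 v k) (v k) ((k:ℝ) / N) =
      (1 / (N:ℝ)) • Lx L (dpos N x0 v (k+1)) (v (k+1)) (((k+1:ℕ):ℝ) / N)

lemma exists_goodChain {L : Phase n → ℝ} (hL : IsC2 L) {N m : ℕ} (hN : 0 < N) {R a C : ℝ}
    (hR : 0 ≤ R) (hB : Bd L R a C) : ∃ x0 v, GoodChain L N m R (C * (R + 2) / a) x0 v := by
  obtain ⟨x0, v, hx0, hv, hmin⟩ := exists_dmin hL N m hR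
  have ha := hB.a_pos
  have hC := hB.C_nonneg
  let v' : ℕ → E n := fun i => if i < m then v i else v (m - 1)
  have hv'1 : ∀ j < m, v' j = v j := fun j hj => by simp [v', hj]
  have hv'2 : ∀ j, m ≤ j → v' j = v (m - 1) := fun j hj => by simp [v', not_lt.mpr hj]
  have hmin' : ∀ (y0 : E n) (u : ℕ → E n), (∀ i, ‖u i‖ ≤ R) → dact L N m x0 v' ≤ dact L N m y0 u := by
    intro y0 u hu
    rw [dact_congr hv'1]; exact hmin y0 u hu
  have hbd : ∀ i, ‖v' i‖ ≤ R := by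
    intro i
    simp only [v']; split_ifs <;> exact hv _
  refine ⟨x0, v', hx0, hbd, hmin', ?_, ?_⟩
  · intro i
    by_cases h : i + 1 < m
    · exact node_vel hL hN hB hbd hmin' h
    · have h1 : v' (i+1) = v (m-1) := hv'2 _ (by omega)
      have h2 : v' i = v (m-1) := by
        by_cases h3 : i < m
        · rw [hv'1 i h3]; congr 1; omega
        · exact hv'2 i (by omega)
      rw [h1, h2, sub_self, norm_zero]
      positivity
  · intro k hk h1 h2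
    exact node_el hL hN hbd hmin' hk h1 h2

lemma GoodChain.lip' {L : Phase n → ℝ} {N m : ℕ} {R Λ : ℝ} {x0 : E n} {v : ℕ → E n}
    (h : GoodChain L N m R Λ x0 v) {i j : ℕ} (hij : i ≤ j) : ‖v j - v i‖ ≤ Λ / N * ((j:ℝ) - i) := by
  induction j, hij using Nat.le_induction with
  | base => simp
  | succ k hk ih =>
    have e : v (k+1) - v i = (v (k+1) - v k) + (v k - v i) := by abel
    rw [e]
    refine (norm_add_le _ _).trans ?_
    have := h.lip k
    push_cast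
    linarith

lemma floor_diff {N : ℕ} {s t : ℝ} (h : s ≤ t) : ((⌊(N:ℝ) * t⌋₊ : ℝ)) - ⌊(N:ℝ) * s⌋₊ ≤ N * (t - s) + 1 := by
  by_cases ht : 0 ≤ (N:ℝ) * t
  · have h1 := Nat.floor_le ht
    have h2 := Nat.lt_floor_add_one ((N:ℝ) * s)
    linarith
  · push Not at ht
    have h1 : ⌊(N:ℝ) * t⌋₊ = 0 := Nat.floor_eq_zero.mpr (by linarith)
    rw [h1]
    have h2 : (0:ℝ) ≤ ⌊(N:ℝ) * s⌋₊ := Nat.cast_nonneg _
    have h3 : 0 ≤ (N:ℝ) * (t - s) := mul_nonneg (Nat.cast_nonneg _) (by linarith)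
    push_cast
    linarith

lemma GoodChain.step_lip {L : Phase n → ℝ} {N m : ℕ} (hN : 0 < N) {R Λ : ℝ} (hΛ : 0 ≤ Λ) {x0 : E n} {v : ℕ → E n}
    (h : GoodChain L N m R Λ x0 v) (s t : ℝ) :
    ‖v ⌊(N:ℝ) * t⌋₊ - v ⌊(N:ℝ) * s⌋₊‖ ≤ Λ * (|t - s| + 1 / N) := by
  have hN' : (0:ℝ) < N := by exact_mod_cast hN
  wlog hst : s ≤ t generalizing s t
  · have := this t s (by linarith)
    rwa [norm_sub_rev, abs_sub_comm] at this
  have hle : ⌊(N:ℝ) * s⌋₊ ≤ ⌊(N:ℝ) * t⌋₊ := Nat.floor_mono (by gcongr)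
  refine (h.lip' hle).trans ?_
  have := floor_diff (N := N) hst
  rw [abs_of_nonneg (by linarith)]
  calc Λ / N * ((⌊(N:ℝ) * t⌋₊ : ℝ) - ⌊(N:ℝ) * s⌋₊) ≤ Λ / N * (N * (t - s) + 1) := by gcongr
    _ = Λ * ((t - s) + 1 / N) := by field_simp

/-- uniform convergence along an ultrafilter from pointwise convergence and equicontinuity -/
lemma unif_of_pointwise {F : Type*} [NormedAddCommGroup F] {f : ℕ → ℝ → F} {g : ℝ → F} {Λ : ℝ} (hΛ : 0 ≤ Λ)
    {U : Ultrafilter ℕ} (hU : (U : Filter ℕ) ≤ atTop)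
    (hf : ∀ᶠ N in (U : Filter ℕ), ∀ s t, ‖f N t - f N s‖ ≤ Λ * (|t - s| + 1 / N))
    (hg : ∀ s t, ‖g t - g s‖ ≤ Λ * |t - s|)
    (hlim : ∀ t, Tendsto (fun N => f N t) U (𝓝 (g t))) (T : ℝ) {ε : ℝ} (hε : 0 < ε) :
    ∀ᶠ N in (U : Filter ℕ), ∀ t ∈ Icc 0 T, ‖f N t - g t‖ ≤ ε := by
  set h := ε / (8 * (Λ + 1)) with hh
  have hh0 : 0 < h := by positivity
  have hΛh : Λ * h ≤ ε / 8 := by
    rw [hh]
    have : Λ * (ε / (8 * (Λ + 1))) = (ε / 8) * (Λ / (Λ + 1)) := by field_simp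
    rw [this]
    have : Λ / (Λ+1) ≤ 1 := by rw [div_le_one (by positivity)]; linarith
    nlinarith
  set J := ⌊T / h⌋₊ with hJ
  have h1 : ∀ᶠ N in (U : Filter ℕ), ∀ j ∈ Finset.range (J + 1), ‖f N (j * h) - g (j * h)‖ < ε / 4 := by
    rw [Finset.eventually_all]
    intro j _
    have := (hlim (j * h)).sub_const (g (j * h))
    rw [sub_self] at this
    have := this.norm
    rw [norm_zero] at this
    exact this.eventually (gt_mem_nhds (by positivity))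
  have h2 : ∀ᶠ N : ℕ in (U : Filter ℕ), Λ * (1 / (N:ℝ)) < ε / 4 := by
    have : Tendsto (fun N : ℕ => Λ * (1 / (N:ℝ))) atTop (𝓝 (Λ * 0)) :=
      tendsto_const_nhds.mul tendsto_one_div_atTop_nhds_zero_nat
    rw [mul_zero] at this
    exact (this.mono_left hU).eventually (gt_mem_nhds (by positivity))
  filter_upwards [h1, h2, hf] with N hN1 hN2 hN3 t ht
  set j := ⌊t / h⌋₊ with hj
  have hjJ : j ∈ Finset.range (J + 1) := by
    rw [Finset.mem_range, Nat.lt_succ_iff]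
    exact Nat.floor_mono (by gcongr; exact ht.2)
  have htj : |t - j * h| ≤ h := by
    have a1 : (j:ℝ) ≤ t / h := Nat.floor_le (div_nonneg ht.1 hh0.le)
    have a2 : t / h < j + 1 := Nat.lt_floor_add_one _
    rw [le_div_iff₀ hh0] at a1
    rw [div_lt_iff₀ hh0] at a2
    rw [abs_le]
    constructor <;> nlinarith
  have e : f N t - g t = (f N t - f N (j * h)) + (f N (j * h) - g (j * h)) - (g t - g (j * h)) := by abel
  rw [e]
  calc _ ≤ ‖(f N t - f N (j * h)) + (f N (j * h) - g (j * h))‖ + ‖g t - g (j * h)‖ := norm_sub_le _ _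
    _ ≤ ‖f N t - f N (j * h)‖ + ‖f N (j * h) - g (j * h)‖ + ‖g t - g (j * h)‖ := by gcongr; exact norm_add_le _ _
    _ ≤ Λ * (|t - j * h| + 1 / N) + ε / 4 + Λ * |t - j * h| := by
      gcongr
      · exact hN3 _ _
      · exact (hN1 j hjJ).le
      · exact hg _ _
    _ ≤ Λ * (h + 1 / N) + ε / 4 + Λ * h := by gcongr
    _ ≤ ε := by
      rw [mul_add]; linarith

end Pool.Agent.Lib.Mane
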