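import Pool.Agent.Lib.Mane.Lim

open Set Filter Topology MeasureTheory Metric
open scoped ENNReal NNReal Interval

namespace Pool.Agent.Lib.Mane

variable {n : ℕ}

lemma ultra_lim {X : Type*} [TopologicalSpace X] {K : Set X} (hK : IsCompact K) (U : Ultrafilter ℕ) {f : ℕ → X}
    (hf : ∀ N, f N ∈ K) : ∃ x ∈ K, Tendsto f U (𝓝 x) := by
  have h : (U.map f : Filter X) ≤ 𝓟 K := by
    rw [Ultrafilter.coe_map, le_principal_iff, mem_map]
    exact univ_mem' hf
  obtain ⟨x, hx, hle⟩ := hK.ultrafilter_le_nhds (U.map f) h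
  exact ⟨x, hx, hle⟩

lemma continuous_of_lip {F : Type*} [NormedAddCommGroup F] {W : ℝ → F} {Λ : ℝ} (hΛ : 0 ≤ Λ)
    (h : ∀ s t, ‖W t - W s‖ ≤ Λ * |t - s|) : Continuous W := by
  have : LipschitzWith (Real.toNNReal Λ) W := by
    apply LipschitzWith.of_dist_le_mul
    intro s t
    rw [dist_eq_norm, Real.coe_toNNReal _ hΛ, Real.dist_eq]
    exact h t s
  exact this.continuous

lemma tendsto_inv_nat (C : ℝ) : Tendsto (fun N : ℕ => C * (1 / (N:ℝ))) atTop (𝓝 0) := by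
  have : Tendsto (fun N : ℕ => C * (1 / (N:ℝ))) atTop (𝓝 (C * 0)) :=
    tendsto_const_nhds.mul tendsto_one_div_atTop_nhds_zero_nat
  rwa [mul_zero] at this

/-- a node is close to the limit path -/
structure Near (N : ℕ) (x0N : E n) (vN : ℕ → E n) (x0 : E n) (W : ℝ → E n) (T : ℕ) (ε : ℝ) : Prop where
  pos : 0 < N
  inv : 1 / (N:ℝ) ≤ ε
  near : ∀ i : ℕ, i ≤ N * T → ∀ s : ℝ, |s - (i:ℝ) / N| ≤ 2 / N →
    ‖dpos N x0N vN i - Mane.pos x0 W s‖ ≤ ε ∧ ‖vN i - W s‖ ≤ ε ∧ |(i:ℝ) / N - s| ≤ ε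

lemma near_eventually {U : Ultrafilter ℕ} (hU : (U : Filter ℕ) ≤ atTop) {R Λ : ℝ} (hR : 0 ≤ R) (hΛ : 0 ≤ Λ)
    {x0N : ℕ → E n} {vN : ℕ → ℕ → E n} {x0 : E n} {W : ℝ → E n} (hW : Adm W R)
    (hlip : ∀ s t, ‖W t - W s‖ ≤ Λ * |t - s|) {T : ℕ}
    (hx : Tendsto x0N U (𝓝 x0))
    (hv : ∀ ε > 0, ∀ᶠ N in (U : Filter ℕ), ∀ t ∈ Icc (0:ℝ) T, ‖vN N ⌊(N:ℝ) * t⌋₊ - W t‖ ≤ ε)
    {ε : ℝ} (hε : 0 < ε) : ∀ᶠ N in (U : Filter ℕ), Near N (x0N N) (vN N) x0 W T ε := by
  set ε1 := ε / (4 * (T + 1)) with hε1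
  have hε10 : 0 < ε1 := by positivity
  have hε1' : ε1 * T + ε1 ≤ ε / 2 := by
    have : ε1 * T + ε1 = ε / 4 := by rw [hε1]; field_simp
    rw [this]; linarith
  have e1 := hv ε1 hε10
  have e2 : ∀ᶠ N in (U : Filter ℕ), ‖x0N N - x0‖ < ε1 := by
    have := (tendsto_iff_norm_sub_tendsto_zero.mp hx)
    exact this.eventually (gt_mem_nhds hε10)
  have e3 : ∀ᶠ N : ℕ in (U : Filter ℕ), (2 * (R + Λ + 1)) * (1 / (N:ℝ)) < ε / 2 :=
    ((tendsto_inv_nat (2 * (R + Λ + 1))).mono_left hU).eventually (gt_mem_nhds (by positivity))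
  have e4 : ∀ᶠ N : ℕ in (U : Filter ℕ), 0 < N := (eventually_gt_atTop 0).filter_mono hU
  filter_upwards [e1, e2, e3, e4] with N h1 h2 h3 h4
  have hN' : (0:ℝ) < N := by exact_mod_cast h4
  have hinv : (0:ℝ) < 1 / N := by positivity
  refine ⟨h4, ?_, ?_⟩
  · nlinarith
  intro i hi s hs
  have hiT : (i:ℝ) / N ≤ T := by
    rw [div_le_iff₀ hN']
    have : (i:ℝ) ≤ N * T := by exact_mod_cast hi
    linarith
  have hi0 : 0 ≤ (i:ℝ) / N := by positivity
  have hvi : ‖vN N i - W ((i:ℝ) / N)‖ ≤ ε1 := by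
    have := h1 ((i:ℝ) / N) ⟨hi0, hiT⟩
    rwa [mul_div_cancel₀ _ hN'.ne', Nat.floor_natCast] at this
  have hs' : |(i:ℝ) / N - s| ≤ 2 / N := by rw [abs_sub_comm]; exact hs
  have hpos : ‖dpos N (x0N N) (vN N) i - pos x0 W ((i:ℝ) / N)‖ ≤ ε1 + ε1 * T := by
    have hst := step_sum (F := W) (g := vN N) h4 (err := ε1) (i0 := 0) (i1 := i) (Nat.zero_le _)
      (fun a b => hW.intervalIntegrable a b) (by
        intro j hj r hr
        rw [Finset.mem_Ico] at hj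
        have hr0 : 0 ≤ r := le_trans (by positivity) hr.1
        have hrT : r ≤ T := by
          have a1 : ((j+1:ℕ):ℝ) / N ≤ (i:ℝ) / N := by
            gcongr; exact hj.2
          linarith [hr.2]
        have := h1 r ⟨hr0, hrT⟩
        have hfl : ⌊(N:ℝ) * r⌋₊ = j := by
          rw [Nat.floor_eq_iff (by positivity)]
          constructor
          · have := hr.1
            rw [div_le_iff₀ hN'] at this
            linarith
          · have := hr.2
            rw [lt_div_iff₀ hN'] at this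
            push_cast at this
            linarith
        rwa [hfl] at this)
    rw [← Finset.range_eq_Ico] at hst
    simp only [Nat.cast_zero, zero_div, sub_zero] at hst
    have e : dpos N (x0N N) (vN N) i - pos x0 W ((i:ℝ) / N) = (x0N N - x0) +
      ((1 / (N:ℝ)) • ∑ j ∈ Finset.range i, vN N j - ∫ s in (0:ℝ)..((i:ℝ) / N), W s) := by
      simp only [dpos, pos]; abel
    rw [e]
    refine (norm_add_le _ _).trans (add_le_add h2.le (hst.trans ?_))
    gcongr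
  refine ⟨?_, ?_, ?_⟩
  · have e : dpos N (x0N N) (vN N) i - pos x0 W s = (dpos N (x0N N) (vN N) i - pos x0 W ((i:ℝ) / N)) +
      (pos x0 W ((i:ℝ) / N) - pos x0 W s) := by abel
    rw [e]
    calc _ ≤ ‖dpos N (x0N N) (vN N) i - pos x0 W ((i:ℝ) / N)‖ + ‖pos x0 W ((i:ℝ) / N) - pos x0 W s‖ := norm_add_le _ _
      _ ≤ (ε1 + ε1 * T) + R * (2 / N) := by
        gcongr
        exact (hW.pos_lip x0 _ _).trans (by gcongr)
      _ ≤ ε := by
        have : R * (2 / (N:ℝ)) ≤ (2 * (R + Λ + 1)) * (1 / (N:ℝ)) := by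
          have e : R * (2 / (N:ℝ)) = (2 * R) * (1 / N) := by ring
          rw [e]; gcongr; linarith
        linarith
  · have e : vN N i - W s = (vN N i - W ((i:ℝ) / N)) + (W ((i:ℝ) / N) - W s) := by abel
    rw [e]
    calc _ ≤ ‖vN N i - W ((i:ℝ) / N)‖ + ‖W ((i:ℝ) / N) - W s‖ := norm_add_le _ _
      _ ≤ ε1 + Λ * (2 / N) := by
        gcongr
        exact (hlip _ _).trans (by gcongr)
      _ ≤ ε := by
        have : Λ * (2 / (N:ℝ)) ≤ (2 * (R + Λ + 1)) * (1 / (N:ℝ)) := by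
          have e : Λ * (2 / (N:ℝ)) = (2 * Λ) * (1 / N) := by ring
          rw [e]; gcongr; linarith
        have : 0 ≤ ε1 * T := by positivity
        linarith
  · refine hs'.trans ?_
    have : (2 / (N:ℝ)) ≤ (2 * (R + Λ + 1)) * (1 / (N:ℝ)) := by
      have e : (2 / (N:ℝ)) = 2 * (1 / N) := by ring
      rw [e]; gcongr; linarith
    linarith

/-- discrete action converges -/
lemma dact_near {L : Phase n → ℝ} (hL : IsC2 L) {R α C : ℝ} (hB : Bd L R α C) {N : ℕ} {x0N : E n} {vN : ℕ → E n}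
    {x0 : E n} {W : ℝ → E n} {T : ℕ} {ε : ℝ} (hW : Adm W R) (hvR : ∀ i, ‖vN i‖ ≤ R)
    (h : Near N x0N vN x0 W T ε) :
    |dact L N (N * T) x0N vN - act L x0 W 0 T| ≤ 3 * C * ε * T := by
  have hN' : (0:ℝ) < N := by exact_mod_cast h.pos
  have hst := step_sum (F := fun s => lift L (pos x0 W s, W s, s))
    (g := fun i : ℕ => lift L (dpos N x0N vN i, vN i, (i:ℝ) / N)) h.pos (err := 3 * C * ε) (i0 := 0) (i1 := N * T)
    (Nat.zero_le _) (fun a b => hW.integrable_act hL x0 a b) (by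
      intro j hj r hr
      rw [Finset.mem_Ico] at hj
      have hlen : ((j+1:ℕ):ℝ) / N = (j:ℝ) / N + 1 / N := by push_cast; ring
      have hinv : (0:ℝ) < 1 / N := by positivity
      have h2 : (2:ℝ) / N = 1 / N + 1 / N := by ring
      have habs : |r - (j:ℝ) / N| ≤ 2 / N := by
        rw [abs_le]; constructor <;> linarith [hr.1, hr.2]
      obtain ⟨a1, a2, a3⟩ := h.near j hj.2.le r habs
      have := hB.lip0 (dpos N x0N vN j) (pos x0 W r) (vN j) (W r) r ((j:ℝ) / N) (hvR _) (hW.bd _)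
      rw [Real.norm_eq_abs]
      have hC := hB.C_nonneg
      calc _ ≤ _ := this
        _ ≤ C * (ε + ε + ε) := by gcongr
        _ = 3 * C * ε := by ring)
  rw [← Finset.range_eq_Ico, Finset.smul_sum] at hst
  simp only [Nat.cast_zero, zero_div, sub_zero, Nat.cast_mul, smul_eq_mul] at hst
  rw [mul_div_cancel_left₀ _ hN'.ne', Real.norm_eq_abs] at hst
  exact hst

/-- integrated Euler-Lagrange equation at a finite stage -/
lemma el_near {L : Phase n → ℝ} (hL : IsC2 L) {R α C Λ : ℝ} (hB : Bd L R α C) {N : ℕ} {x0N : E n} {vN : ℕ → E n}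
    {x0 : E n} {W : ℝ → E n} {T : ℕ} {ε δ : ℝ} (hW : Adm W R)
    (hc : GoodChain L N (N * T) R Λ x0N vN)
    (h : Near N x0N vN x0 W T ε) {a b : ℝ} (ha : 0 ≤ a) (hab : a ≤ b) (hb : b < T)
    (hδ : ε < δ) (hWR : ∀ t ∈ Icc a b, ‖W t‖ ≤ R - δ) :
    ‖Lv L (pos x0 W b) (W b) b - Lv L (pos x0 W a) (W a) a - ∫ s in a..b, Lx L (pos x0 W s) (W s) s‖ ≤
      (6 * C + 3 * C * (b - a + 1) + 2 * C) * ε := by
  have hN' : (0:ℝ) < N := by exact_mod_cast h.pos
  have hinv : (0:ℝ) < 1 / N := by positivity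
  have h2 : (2:ℝ) / N = 1 / N + 1 / N := by ring
  have hC := hB.C_nonneg
  have hε := h.inv
  have hb0 : 0 ≤ b := ha.trans hab
  set i0 := ⌊(N:ℝ) * a⌋₊ with hi0
  set i1 := ⌊(N:ℝ) * b⌋₊ with hi1
  have hi01 : i0 ≤ i1 := Nat.floor_mono (by gcongr)
  have a1 : (i0:ℝ) ≤ N * a := Nat.floor_le (by positivity)
  have a2 : (N:ℝ) * a < i0 + 1 := Nat.lt_floor_add_one _
  have b1 : (i1:ℝ) ≤ N * b := Nat.floor_le (by positivity)
  have b2 : (N:ℝ) * b < i1 + 1 := Nat.lt_floor_add_one _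
  have a1' : (i0:ℝ) / N ≤ a := by rw [div_le_iff₀ hN']; linarith
  have a2' : a < (i0:ℝ) / N + 1 / N := by rw [← add_div, lt_div_iff₀ hN']; linarith
  have b1' : (i1:ℝ) / N ≤ b := by rw [div_le_iff₀ hN']; linarith
  have b2' : b < (i1:ℝ) / N + 1 / N := by rw [← add_div, lt_div_iff₀ hN']; linarith
  have hi1T : i1 < N * T := by
    have : (i1:ℝ) < N * T := lt_of_le_of_lt b1 (by gcongr)
    exact_mod_cast this
  -- speed bound at nodes
  have hsp : ∀ i, i0 ≤ i → i ≤ i1 → ‖vN i‖ < R := by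
    intro i h1 h2'
    have c1 : (i0:ℝ) / N ≤ (i:ℝ) / N := by gcongr
    have c2 : (i:ℝ) / N ≤ (i1:ℝ) / N := by gcongr
    -- choose a time in [a, b]
    have : ∃ s ∈ Icc a b, |s - (i:ℝ) / N| ≤ 2 / N := by
      refine ⟨max a ((i:ℝ) / N), ⟨le_max_left _ _, max_le hab (by linarith)⟩, ?_⟩
      rw [abs_of_nonneg (by linarith [le_max_right a ((i:ℝ)/N)])]
      rcases le_total a ((i:ℝ) / N) with h3 | h3
      · rw [max_eq_right h3]; linarith
      · rw [max_eq_left h3]; linarith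
    obtain ⟨s, hs, hs'⟩ := this
    have e1 := (h.near i (h2'.trans hi1T.le) s hs').2.1
    have e2 := hWR s hs
    have e : vN i = (vN i - W s) + W s := by abel
    rw [e]
    calc _ ≤ ‖vN i - W s‖ + ‖W s‖ := norm_add_le _ _
      _ ≤ ε + (R - δ) := add_le_add e1 e2
      _ < R := by linarith
  -- telescoping
  have htel : ∀ j, i0 ≤ j → j ≤ i1 →
      Lv L (dpos N x0N vN j) (vN j) ((j:ℝ) / N) - Lv L (dpos N x0N vN i0) (vN i0) ((i0:ℝ) / N) =
        (1 / (N:ℝ)) • ∑ k ∈ Finset.Ico i0 j, Lx L (dpos N x0N vN (k+1)) (vN (k+1)) (((k+1:ℕ):ℝ) / N) := by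
    intro j hj
    induction j, hj using Nat.le_induction with
    | base => intro _; simp
    | succ k hk ih =>
      intro hk'
      have hel := hc.el k (by omega) (hsp k hk (by omega)) (hsp (k+1) (by omega) hk')
      rw [Finset.sum_Ico_succ_top hk, smul_add, ← ih (by omega), ← hel]
      abel
  have htel1 := htel i1 hi01 le_rfl
  -- Riemann sum
  have hX : ∀ a b, IntervalIntegrable (fun s => Lx L (pos x0 W s) (W s) s) volume a b := fun a b => hW.integrable_Lx hL x0 a b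
  have hst := step_sum (F := fun s => Lx L (pos x0 W s) (W s) s)
    (g := fun k : ℕ => Lx L (dpos N x0N vN (k+1)) (vN (k+1)) (((k+1:ℕ):ℝ) / N)) h.pos (err := 3 * C * ε) (i0 := i0) (i1 := i1)
    hi01 hX (by
      intro j hj r hr
      rw [Finset.mem_Ico] at hj
      have hlen : ((j+1:ℕ):ℝ) / N = (j:ℝ) / N + 1 / N := by push_cast; ring
      have habs : |r - ((j+1:ℕ):ℝ) / N| ≤ 2 / N := by
        rw [abs_le]; constructor <;> linarith [hr.1, hr.2]
      obtain ⟨c1, c2, c3⟩ := h.near (j+1) (by omega) r habs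
      have := hB.lipx (dpos N x0N vN (j+1)) (pos x0 W r) (vN (j+1)) (W r) r (((j+1:ℕ):ℝ) / N) (hc.bd _) (hW.bd _)
      calc _ ≤ _ := this
        _ ≤ C * (ε + ε + ε) := by gcongr
        _ = 3 * C * ε := by ring)
  -- endpoints
  have hend : ∀ i : ℕ, i ≤ N * T → ∀ s : ℝ, |s - (i:ℝ) / N| ≤ 2 / N →
      ‖Lv L (dpos N x0N vN i) (vN i) ((i:ℝ) / N) - Lv L (pos x0 W s) (W s) s‖ ≤ 3 * C * ε := by
    intro i hi s hs
    obtain ⟨c1, c2, c3⟩ := h.near i hi s hs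
    have := hB.lipv (dpos N x0N vN i) (pos x0 W s) (vN i) (W s) s ((i:ℝ) / N) (hc.bd _) (hW.bd _)
    calc _ ≤ _ := this
      _ ≤ C * (ε + ε + ε) := by gcongr
      _ = 3 * C * ε := by ring
  have hea := hend i0 (hi01.trans hi1T.le) a (by rw [abs_le]; constructor <;> linarith)
  have heb := hend i1 hi1T.le b (by rw [abs_le]; constructor <;> linarith)
  -- integral comparison
  have hint : ∫ s in a..b, Lx L (pos x0 W s) (W s) s =
      (∫ s in ((i0:ℝ) / N)..((i1:ℝ) / N), Lx L (pos x0 W s) (W s) s) - (∫ s in ((i0:ℝ) / N)..a, Lx L (pos x0 W s) (W s) s)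
        + ∫ s in ((i1:ℝ) / N)..b, Lx L (pos x0 W s) (W s) s := by
    have e1 := intervalIntegral.integral_add_adjacent_intervals (hX ((i0:ℝ)/N) a) (hX a b)
    have e2 := intervalIntegral.integral_add_adjacent_intervals (hX ((i0:ℝ)/N) ((i1:ℝ)/N)) (hX ((i1:ℝ)/N) b)
    have e3 := e1.trans e2.symm
    rw [← sub_eq_iff_eq_add'.mpr e3.symm]
    abel_nf
  have hbdX : ∀ s, ‖Lx L (pos x0 W s) (W s) s‖ ≤ C := fun s => hB.bdx _ _ _ (hW.bd s)
  have hJ0 : ‖∫ s in ((i0:ℝ) / N)..a, Lx L (pos x0 W s) (W s) s‖ ≤ C * ε := by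
    refine (intervalIntegral.norm_integral_le_of_norm_le_const (fun s _ => hbdX s)).trans ?_
    rw [abs_of_nonneg (by linarith)]
    gcongr
    linarith
  have hJ1 : ‖∫ s in ((i1:ℝ) / N)..b, Lx L (pos x0 W s) (W s) s‖ ≤ C * ε := by
    refine (intervalIntegral.norm_integral_le_of_norm_le_const (fun s _ => hbdX s)).trans ?_
    rw [abs_of_nonneg (by linarith)]
    gcongr
    linarith
  have hlen : ((i1:ℝ) - i0) / N ≤ b - a + 1 := by
    have h1N : (1:ℝ) / N ≤ 1 := by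
      rw [div_le_one hN']
      exact_mod_cast h.pos
    rw [sub_div]
    linarith
  set A0 := Lv L (dpos N x0N vN i0) (vN i0) ((i0:ℝ) / N)
  set B1 := Lv L (dpos N x0N vN i1) (vN i1) ((i1:ℝ) / N)
  set PA := Lv L (pos x0 W a) (W a) a
  set PB := Lv L (pos x0 W b) (W b) b
  rw [hint]
  have hε0 : 0 < ε := hinv.trans_le hε
  have e : PB - PA - ((∫ s in ((i0:ℝ) / N)..((i1:ℝ) / N), Lx L (pos x0 W s) (W s) s) -
      (∫ s in ((i0:ℝ) / N)..a, Lx L (pos x0 W s) (W s) s) + ∫ s in ((i1:ℝ) / N)..b, Lx L (pos x0 W s) (W s) s) =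
      -(B1 - PB) + (A0 - PA) + ((B1 - A0) - ∫ s in ((i0:ℝ) / N)..((i1:ℝ) / N), Lx L (pos x0 W s) (W s) s) +
      (∫ s in ((i0:ℝ) / N)..a, Lx L (pos x0 W s) (W s) s) - ∫ s in ((i1:ℝ) / N)..b, Lx L (pos x0 W s) (W s) s := by
    abel
  rw [e, htel1]
  refine (norm_sub_le _ _).trans ?_
  refine (add_le_add ((norm_add_le _ _).trans (add_le_add ((norm_add_le _ _).trans (add_le_add
    ((norm_add_le _ _).trans (add_le_add ((norm_neg _).trans_le heb) hea)) hst)) hJ0)) hJ1).trans ?_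
  have : 3 * C * ε * (((i1:ℝ) - i0) / N) ≤ 3 * C * ε * (b - a + 1) := by gcongr
  linarith

end Pool.Agent.Lib.Mane
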