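import Pool.Agent.Lib.Mane.Lim2

open Set Filter Topology MeasureTheory Metric
open scoped ENNReal NNReal Interval

namespace Pool.Agent.Lib.Mane

variable {n : ℕ}

lemma le_of_forall_eps {a b K : ℝ} (hK : 0 ≤ K) {δ : ℝ} (hδ : 0 < δ) (h : ∀ ε, 0 < ε → ε < δ → a ≤ b + K * ε) : a ≤ b := by
  by_contra hab
  push Not at hab
  have h1 : 0 < (a - b) / (2 * (K + 1)) := div_pos (by linarith) (by positivity)
  set ε := min ((a - b) / (2 * (K + 1))) (δ / 2) with hε
  have hε0 : 0 < ε := lt_min h1 (by linarith)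
  have h2 := h ε hε0 ((min_le_right _ _).trans_lt (by linarith))
  have h3 : K * ε ≤ K * ((a - b) / (2 * (K + 1))) := by gcongr; exact min_le_left _ _
  have h4 : K * ((a - b) / (2 * (K + 1))) ≤ (a - b) / 2 := by
    have : K * ((a - b) / (2 * (K + 1))) = (a - b) / 2 * (K / (K + 1)) := by field_simp
    rw [this]
    have : K / (K + 1) ≤ 1 := by rw [div_le_one (by positivity)]; linarith
    nlinarith
  linarith

lemma Adm.continuous_path {W : ℝ → E n} {R : ℝ} (hW : Adm W R) (hWc : Continuous W) (x0 : E n) :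
    Continuous (fun s => ((pos x0 W s, W s, s) : E n × E n × ℝ)) :=
  (hW.continuous_pos x0).prodMk (hWc.prodMk continuous_id)

lemma Adm.hasDerivAt_pos {W : ℝ → E n} {R : ℝ} (hW : Adm W R) (hWc : Continuous W) (x0 : E n) (t : ℝ) :
    HasDerivAt (pos x0 W) (W t) t := by
  have := intervalIntegral.integral_hasDerivAt_right (hW.intervalIntegrable 0 t)
    (hWc.stronglyMeasurableAtFilter _ _) hWc.continuousAt
  exact this.const_add x0

lemma elOn_of_integral {L : Phase n → ℝ} (hL : IsC2 L) {W : ℝ → E n} {R : ℝ} (hW : Adm W R) (hWc : Continuous W)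
    {x0 : E n} {a b : ℝ}
    (h : ∀ s ∈ Icc a b, Lv L (pos x0 W s) (W s) s - Lv L (pos x0 W a) (W a) a = ∫ r in a..s, Lx L (pos x0 W r) (W r) r) :
    ELOn L (pos x0 W) W a b := by
  refine ⟨hWc.continuousOn, fun t _ => (hW.hasDerivAt_pos hWc x0 t).hasDerivWithinAt, fun t ht => ?_⟩
  have hXc : Continuous (fun r => Lx L (pos x0 W r) (W r) r) :=
    (contDiff_LxF hL.smooth).continuous.comp (hW.continuous_path hWc x0)
  have h1 : HasDerivAt (fun s => Lv L (pos x0 W a) (W a) a + ∫ r in a..s, Lx L (pos x0 W r) (W r) r)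
      (Lx L (pos x0 W t) (W t) t) t := by
    have := intervalIntegral.integral_hasDerivAt_right (hW.integrable_Lx hL x0 a t)
      (hXc.stronglyMeasurableAtFilter _ _) hXc.continuousAt
    exact this.const_add _
  refine h1.hasDerivWithinAt.congr (fun s hs => ?_) ?_
  · rw [← h s hs]; abel
  · rw [← h t ht]; abel

/-- minimizers among curves of speed at most `R` -/
lemma lim_exists {L : Phase n → ℝ} (hL : IsC2 L) {R : ℝ} (hR : 0 ≤ R) (T : ℕ) :
    ∃ (x0 : E n) (W : ℝ → E n), Adm W R ∧ Continuous W ∧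
      (∀ y0 u, Adm u R → act L x0 W 0 T ≤ act L y0 u 0 T) ∧
      ∀ a b : ℝ, 0 ≤ a → b ≤ T → (∀ t ∈ Icc a b, ‖W t‖ < R) → ELOn L (pos x0 W) W a b := by
  obtain ⟨α, C, hB⟩ := exists_Bd hL R
  have hα := hB.a_pos
  have hC := hB.C_nonneg
  set Λ := C * (R + 2) / α with hΛ
  have hΛ0 : 0 ≤ Λ := by positivity
  have hex : ∀ N : ℕ, ∃ (x0 : E n) (v : ℕ → E n), x0 ∈ cube n ∧ (∀ i, v i ∈ closedBall (0 : E n) R) ∧
      (0 < N → GoodChain L N (N * T) R Λ x0 v) := by
    intro N
    rcases Nat.eq_zero_or_pos N with h | h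
    · exact ⟨0, fun _ => 0, fun i => by simp, fun i => by simpa using hR, fun h' => by omega⟩
    · obtain ⟨x0, v, hg⟩ := exists_goodChain hL (m := N * T) h hR hB
      exact ⟨x0, v, hg.x0_mem, fun i => by simpa using hg.bd i, fun _ => hg⟩
  choose x0N vN hx0N hvN hgood using hex
  set U : Ultrafilter ℕ := hyperfilter ℕ with hUdef
  have hU : (U : Filter ℕ) ≤ atTop := Nat.hyperfilter_le_atTop
  obtain ⟨x0, hx0, hx0lim⟩ := ultra_lim isCompact_cube U hx0N
  have hWex : ∀ t : ℝ, ∃ w ∈ closedBall (0 : E n) R, Tendsto (fun N => vN N ⌊(N:ℝ) * t⌋₊) U (𝓝 w) := fun t =>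
    ultra_lim (isCompact_closedBall _ _) U (fun N => hvN N _)
  choose W hWR hWlim using hWex
  have hpos : ∀ᶠ N : ℕ in (U : Filter ℕ), 0 < N := (eventually_gt_atTop 0).filter_mono hU
  have hlip : ∀ s t, ‖W t - W s‖ ≤ Λ * |t - s| := by
    intro s t
    have h1 : Tendsto (fun N : ℕ => ‖vN N ⌊(N:ℝ) * t⌋₊ - vN N ⌊(N:ℝ) * s⌋₊‖) U (𝓝 ‖W t - W s‖) :=
      ((hWlim t).sub (hWlim s)).norm
    have h2 : Tendsto (fun N : ℕ => Λ * |t - s| + Λ * (1 / (N:ℝ))) U (𝓝 (Λ * |t - s| + 0)) :=
      tendsto_const_nhds.add ((tendsto_inv_nat Λ).mono_left hU)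
    rw [add_zero] at h2
    refine le_of_tendsto_of_tendsto h1 h2 ?_
    filter_upwards [hpos] with N hN
    have := (hgood N hN).step_lip hN hΛ0 s t
    linarith
  have hWc : Continuous W := continuous_of_lip hΛ0 hlip
  have hW : Adm W R := ⟨hWc.measurable, fun t => by simpa using hWR t⟩
  have hunif : ∀ ε > 0, ∀ᶠ N in (U : Filter ℕ), ∀ t ∈ Icc (0:ℝ) T, ‖vN N ⌊(N:ℝ) * t⌋₊ - W t‖ ≤ ε := by
    intro ε hε
    refine unif_of_pointwise (f := fun (N : ℕ) (t : ℝ) => vN N ⌊(N:ℝ) * t⌋₊) hΛ0 hU ?_ hlip hWlim T hε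
    filter_upwards [hpos] with N hN s t
    exact (hgood N hN).step_lip hN hΛ0 s t
  have hnear : ∀ ε > 0, ∃ N : ℕ, Near N (x0N N) (vN N) x0 W T ε := by
    intro ε hε
    exact (near_eventually hU hR hΛ0 hW hlip hx0lim hunif hε).exists
  refine ⟨x0, W, hW, hWc, ?_, ?_⟩
  · intro y0 u hu
    apply le_of_forall_eps (K := 3 * C * T + T * (C * (R + 1))) (δ := 1) (by positivity) one_pos
    intro ε hε _
    obtain ⟨N, hN⟩ := hnear ε hε
    have h1 := dact_near hL hB hW (hgood N hN.pos).bd hN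
    have h2 := (hgood N hN.pos).min y0 (avg u N) (avg_norm_le hu hN.pos)
    have h3 := dact_avg_le hL hB hu y0 hN.pos T
    rw [abs_le] at h1
    have h4 : T * (C * (R + 1) / (N:ℝ)) ≤ T * (C * (R + 1)) * ε := by
      have : T * (C * (R + 1) / (N:ℝ)) = T * (C * (R + 1)) * (1 / N) := by ring
      rw [this]
      gcongr
      exact hN.inv
    linarith [h1.1]
  · intro a b ha hb hlt
    set P : ℝ → (E n →L[ℝ] ℝ) := fun s => Lv L (pos x0 W s) (W s) s with hP
    set X : ℝ → (E n →L[ℝ] ℝ) := fun s => Lx L (pos x0 W s) (W s) s with hX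
    have hPc : Continuous P := (contDiff_LvF hL.smooth).continuous.comp (hW.continuous_path hWc x0)
    have hXc : Continuous X := (contDiff_LxF hL.smooth).continuous.comp (hW.continuous_path hWc x0)
    -- strict case
    have key : ∀ s : ℝ, a ≤ s → s ≤ b → s < T → P s - P a = ∫ r in a..s, X r := by
      intro s has hsb hsT
      obtain ⟨t0, ht0, hmax⟩ := (isCompact_Icc (a := a) (b := s)).exists_isMaxOn ⟨a, left_mem_Icc.mpr has⟩ hWc.norm.continuousOn
      have hδ : 0 < R - ‖W t0‖ := by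
        have := hlt t0 ⟨ht0.1, ht0.2.trans hsb⟩
        linarith
      set δ := R - ‖W t0‖ with hδdef
      have hbd : ∀ t ∈ Icc a s, ‖W t‖ ≤ R - δ := by
        intro t ht
        have : ‖W t‖ ≤ ‖W t0‖ := hmax ht
        linarith
      have h0 : ‖P s - P a - ∫ r in a..s, X r‖ ≤ 0 := by
        apply le_of_forall_eps (K := 6 * C + 3 * C * (s - a + 1) + 2 * C) (δ := δ)
          (by have : 0 ≤ s - a + 1 := by linarith
              positivity) hδ
        intro ε hε hεδ
        obtain ⟨N, hN⟩ := hnear ε hε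
        have := el_near hL hB hW (hgood N hN.pos) hN ha has hsT hεδ hbd
        rw [zero_add]
        exact this
      have := norm_le_zero_iff.mp h0
      exact sub_eq_zero.mp this
    apply elOn_of_integral hL hW hWc
    intro s hs
    rcases lt_or_ge s T with h | h
    · exact key s hs.1 hs.2 h
    · have hsT : s = T := le_antisymm (hs.2.trans hb) h
      rcases eq_or_lt_of_le hs.1 with h' | h'
      · rw [← h']; simp
      · -- limit from the left
        have hF : Continuous (fun r => P r - P a - ∫ r' in a..r, X r') := by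
          have : Continuous (fun r => ∫ r' in a..r, X r') :=
            intervalIntegral.continuous_primitive (fun c d => hXc.intervalIntegrable c d) a
          exact (hPc.sub continuous_const).sub this
        have h1 : Tendsto (fun r => P r - P a - ∫ r' in a..r, X r') (𝓝[<] s) (𝓝 (P s - P a - ∫ r' in a..s, X r')) :=
          (hF.tendsto s).mono_left nhdsWithin_le_nhds
        have h2 : Tendsto (fun r => P r - P a - ∫ r' in a..r, X r') (𝓝[<] s) (𝓝 0) := by
          apply tendsto_const_nhds.congr'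
          filter_upwards [Ioo_mem_nhdsLT h'] with r hr
          rw [key r hr.1.le (hr.2.le.trans hs.2) (hr.2.trans_le hsT.le), sub_self]
        exact sub_eq_zero.mp (tendsto_nhds_unique h1 h2)

end Pool.Agent.Lib.Mane
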