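import Pool.Agent.Lib.Mane.Orbit

open Set Filter Topology MeasureTheory Metric BoundedContinuousFunction
open scoped ENNReal NNReal Interval

namespace Pool.Agent.Lib.Mane

variable {n : ℕ}

/-- the slab `‖v‖ ≤ K` -/
def slab (n : ℕ) (K : ℝ) : Set (Phase n) := {z | ‖z.2.1‖ ≤ K}

lemma isCompact_slab (K : ℝ) : IsCompact (slab n K) := by
  have : slab n K = (univ : Set (Tor n)) ×ˢ (closedBall (0 : E n) K) ×ˢ (univ : Set UnitAddCircle) := by
    ext z; simp [slab]
  rw [this]
  exact isCompact_univ.prod ((isCompact_closedBall _ _).prod isCompact_univ)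

lemma slab_mono {K K' : ℝ} (h : K ≤ K') : slab n K ⊆ slab n K' := fun _ hz => le_trans hz h

lemma measurableSet_slab (K : ℝ) : MeasurableSet (slab n K) := (isCompact_slab K).isClosed.measurableSet

/-- `μ` is concentrated on `‖v‖ ≤ K` -/
def Conc (K : ℝ) (μ : ProbabilityMeasure (Phase n)) : Prop := (μ : Measure (Phase n)) (slab n K)ᶜ = 0

lemma Conc.mono {K K' : ℝ} {μ : ProbabilityMeasure (Phase n)} (h : Conc K μ) (hK : K ≤ K') : Conc K' μ :=
  measure_mono_null (compl_subset_compl.mpr (slab_mono hK)) h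

lemma Conc.ae {K : ℝ} {μ : ProbabilityMeasure (Phase n)} (h : Conc K μ) : ∀ᵐ z ∂(μ : Measure (Phase n)), z ∈ slab n K := by
  rw [ae_iff]; exact h

lemma isCompact_conc (K : ℝ) : IsCompact {μ : ProbabilityMeasure (Phase n) | Conc K μ} := by
  have h := isCompact_setOfPred_probabilityMeasure_mass_eq_compl_isCompact_le (E := Phase n) (u := fun _ => 0)
    (K := fun _ => slab n K) tendsto_const_nhds (fun _ => isCompact_slab K) (Or.inr monotone_const)
  convert! h using 1
  ext μ
  simp only [Conc, nonpos_iff_eq_zero, forall_const]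
  exact (ProbabilityMeasure.null_iff_toMeasure_null μ _).symm

lemma exists_trunc {g : Phase n → ℝ} (hg : Continuous g) (K : ℝ) : ∃ g' : Phase n →ᵇ ℝ, ∀ z ∈ slab n K, g' z = g z := by
  obtain ⟨M, hM⟩ := (isCompact_slab (n := n) K).exists_bound_of_continuousOn hg.continuousOn
  have hb : ∀ z, ‖max (-|M|) (min |M| (g z))‖ ≤ |M| := by
    intro z
    rw [Real.norm_eq_abs, abs_le]
    exact ⟨le_max_left _ _, max_le (by linarith [abs_nonneg M]) (min_le_left _ _)⟩
  refine ⟨BoundedContinuousFunction.ofNormedAddCommGroup (fun z => max (-|M|) (min |M| (g z))) (by fun_prop) |M| hb, ?_⟩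
  intro z hz
  have := hM z hz
  rw [Real.norm_eq_abs] at this
  have h1 := (abs_le.mp (this.trans (le_abs_self M)))
  show max (-|M|) (min |M| (g z)) = g z
  rw [min_eq_right h1.2, max_eq_right h1.1]

lemma Conc.integral_congr {K : ℝ} {μ : ProbabilityMeasure (Phase n)} (h : Conc K μ) {F : Type*} [NormedAddCommGroup F]
    [NormedSpace ℝ F] {g g' : Phase n → F} (hg : ∀ z ∈ slab n K, g z = g' z) :
    ∫ z, g z ∂(μ : Measure (Phase n)) = ∫ z, g' z ∂(μ : Measure (Phase n)) := by
  apply integral_congr_ae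
  filter_upwards [h.ae] with z hz using hg z hz

lemma Conc.integrable {K : ℝ} {μ : ProbabilityMeasure (Phase n)} (h : Conc K μ) {F : Type*} [NormedAddCommGroup F]
    [NormedSpace ℝ F] [SecondCountableTopology F] {g : Phase n → F} (hg : Continuous g) : Integrable g (μ : Measure (Phase n)) := by
  obtain ⟨M, hM⟩ := (isCompact_slab (n := n) K).exists_bound_of_continuousOn hg.continuousOn
  apply Integrable.of_bound hg.aestronglyMeasurable M
  filter_upwards [h.ae] with z hz using hM z hz

lemma tendsto_integral_conc {ι : Type*} {l : Filter ι} {μs : ι → ProbabilityMeasure (Phase n)} {μ : ProbabilityMeasure (Phase n)}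
    {K : ℝ} (hs : ∀ᶠ i in l, Conc K (μs i)) (hμ : Conc K μ) (h : Tendsto μs l (𝓝 μ)) {g : Phase n → ℝ} (hg : Continuous g) :
    Tendsto (fun i => ∫ z, g z ∂(μs i : Measure (Phase n))) l (𝓝 (∫ z, g z ∂(μ : Measure (Phase n)))) := by
  obtain ⟨g', hg'⟩ := exists_trunc hg K
  have h1 := ProbabilityMeasure.tendsto_iff_forall_integral_tendsto.mp h g'
  rw [← hμ.integral_congr hg']
  apply h1.congr'
  filter_upwards [hs] with i hi using hi.integral_congr hg'

lemma isClosed_conc (K : ℝ) : IsClosed {μ : ProbabilityMeasure (Phase n) | Conc K μ} := (isCompact_conc K).isClosed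

lemma IsInv.exists_conc {L : Phase n → ℝ} {μ : ProbabilityMeasure (Phase n)} (h : IsInv L μ) : ∃ K, Conc K μ := by
  obtain ⟨S, hS, hS0⟩ := h.compact_support
  obtain ⟨K, hK⟩ := hS.exists_bound_of_continuousOn (f := fun z : Phase n => z.2.1) (by fun_prop)
  exact ⟨K, measure_mono_null (compl_subset_compl.mpr (fun z hz => hK z hz)) hS0⟩

lemma continuous_flow_map {L : Phase n → ℝ} (hL : IsTonelli L) (r : ℝ) : Continuous (flow L r) :=
  (continuous_flow hL).comp (continuous_const.prodMk continuous_id)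

/-- invariance from integrals of bounded continuous functions -/
lemma isInv_of_integral {L : Phase n → ℝ} (hL : IsTonelli L) {μ : ProbabilityMeasure (Phase n)} {K : ℝ} (hK : Conc K μ)
    (h : ∀ r : ℝ, ∀ g : Phase n →ᵇ ℝ, ∫ z, g (flow L r z) ∂(μ : Measure (Phase n)) = ∫ z, g z ∂(μ : Measure (Phase n))) :
    IsInv L μ := by
  refine ⟨⟨slab n K, isCompact_slab K, hK⟩, fun r => ?_⟩
  have hc := continuous_flow_map hL r
  have : IsProbabilityMeasure ((μ : Measure (Phase n)).map (flow L r)) := Measure.isProbabilityMeasure_map hc.aemeasurable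
  apply ext_of_forall_integral_eq_of_IsFiniteMeasure
  intro g
  rw [integral_map hc.aemeasurable g.continuous.aestronglyMeasurable]
  exact h r g

lemma IsInv.integral_flow {L : Phase n → ℝ} (hL : IsTonelli L) {μ : ProbabilityMeasure (Phase n)} (h : IsInv L μ) (r : ℝ)
    {F : Type*} [NormedAddCommGroup F] [NormedSpace ℝ F] [SecondCountableTopology F] {g : Phase n → F}
    (hg : StronglyMeasurable g) :
    ∫ z, g (flow L r z) ∂(μ : Measure (Phase n)) = ∫ z, g z ∂(μ : Measure (Phase n)) := by
  have hc := continuous_flow_map hL r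
  have := integral_map (μ := (μ : Measure (Phase n))) hc.aemeasurable (f := g) (hg.aestronglyMeasurable)
  rw [h.invariant r] at this
  exact this.symm

/-! ### Empirical measures -/

/-- the empirical measure of a curve on `[0, T]` -/
noncomputable def emp (γ : ℝ → E n) (T : ℝ) : Measure (Phase n) :=
  (ENNReal.ofReal T)⁻¹ • Measure.map (state γ) (volume.restrict (Ioc 0 T))

lemma isProb_emp {γ : ℝ → E n} (hγ : Continuous (state γ)) {T : ℝ} (hT : 0 < T) : IsProbabilityMeasure (emp γ T) := by
  constructor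
  simp only [emp, Measure.smul_apply, smul_eq_mul]
  rw [Measure.map_apply hγ.measurable MeasurableSet.univ]
  simp only [preimage_univ, Measure.restrict_apply MeasurableSet.univ, univ_inter, Real.volume_Ioc, sub_zero]
  exact ENNReal.inv_mul_cancel (by simpa using hT) ENNReal.ofReal_ne_top

lemma integral_emp {γ : ℝ → E n} (hγ : Continuous (state γ)) {T : ℝ} (hT : 0 < T) {g : Phase n → ℝ} (hg : Continuous g) :
    ∫ z, g z ∂(emp γ T) = (1 / T) * ∫ s in (0:ℝ)..T, g (state γ s) := by
  simp only [emp]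
  rw [integral_smul_measure, integral_map hγ.aemeasurable hg.aestronglyMeasurable, ENNReal.toReal_inv,
    ENNReal.toReal_ofReal hT.le, intervalIntegral.integral_of_le hT.le, smul_eq_mul, one_div]

lemma emp_compl_slab {γ : ℝ → E n} (hγ : Continuous (state γ)) {T K : ℝ}
    (h : ∀ t ∈ Icc 0 T, ‖deriv γ t‖ ≤ K) : emp γ T (slab n K)ᶜ = 0 := by
  simp only [emp, Measure.smul_apply, smul_eq_mul]
  rw [Measure.map_apply hγ.measurable (measurableSet_slab K).compl,
    Measure.restrict_apply (hγ.measurable (measurableSet_slab K).compl)]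
  have : state γ ⁻¹' (slab n K)ᶜ ∩ Ioc 0 T = ∅ := by
    rw [eq_empty_iff_forall_notMem]
    rintro t ⟨ht1, ht2⟩
    exact ht1 (h t ⟨ht2.1.le, ht2.2⟩)
  rw [this]; simp

/-- **Krylov–Bogoliubov.** -/
lemma kb {L : Phase n → ℝ} (hL : IsTonelli L) {K0 A : ℝ} (T : ℕ → ℝ) (hT : ∀ j, 0 < T j) (hTlim : Tendsto T atTop atTop)
    (γ : ℕ → ℝ → E n) (hγ : ∀ j, IsEL L (γ j)) (hsp : ∀ j, ∀ t ∈ Icc 0 (T j), ‖deriv (γ j) t‖ ≤ K0)
    (hact : ∀ j, ∫ s in (0:ℝ)..(T j), lift L (γ j s, deriv (γ j) s, s) ≤ A * T j) :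
    ∃ μ : ProbabilityMeasure (Phase n), IsInv L μ ∧ Conc K0 μ ∧ action L μ ≤ A := by
  have hc : ∀ j, Continuous (state (γ j)) := fun j => continuous_state (hγ j)
  let μs : ℕ → ProbabilityMeasure (Phase n) := fun j => ⟨emp (γ j) (T j), isProb_emp (hc j) (hT j)⟩
  have hμs : ∀ j, Conc K0 (μs j) := fun j => emp_compl_slab (hc j) (hsp j)
  obtain ⟨μ, hμ, φ, hφ, hlim⟩ := (isCompact_conc (n := n) K0).tendsto_subseq hμs
  have hint : ∀ g : Phase n → ℝ, Continuous g → Tendsto (fun i => (1 / T (φ i)) * ∫ s in (0:ℝ)..T (φ i), g (state (γ (φ i)) s))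
      atTop (𝓝 (∫ z, g z ∂(μ : Measure (Phase n)))) := by
    intro g hg
    have := tendsto_integral_conc (Eventually.of_forall (fun i => hμs (φ i))) hμ hlim hg
    refine this.congr (fun i => ?_)
    exact integral_emp (hc _) (hT _) hg
  have hTφ : Tendsto (fun i => T (φ i)) atTop atTop := hTlim.comp hφ.tendsto_atTop
  refine ⟨μ, isInv_of_integral hL hμ ?_, hμ, ?_⟩
  · intro r g
    have hgr : Continuous (fun z => g (flow L r z)) := g.continuous.comp (continuous_flow_map hL r)
    have h1 := hint _ hgr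
    have h2 := hint _ g.continuous
    have h3 : Tendsto (fun i => (1 / T (φ i)) * (∫ s in (0:ℝ)..T (φ i), g (flow L r (state (γ (φ i)) s))) -
        (1 / T (φ i)) * (∫ s in (0:ℝ)..T (φ i), g (state (γ (φ i)) s))) atTop (𝓝 0) := by
      have hbd : ∀ i, ‖(1 / T (φ i)) * (∫ s in (0:ℝ)..T (φ i), g (flow L r (state (γ (φ i)) s))) -
        (1 / T (φ i)) * (∫ s in (0:ℝ)..T (φ i), g (state (γ (φ i)) s))‖ ≤ 2 * ‖g‖ * |r| * (T (φ i))⁻¹ := by
        intro i
        have hci := hc (φ i)
        have hgc : Continuous (fun s => g (state (γ (φ i)) s)) := g.continuous.comp hci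
        have e1 : ∫ s in (0:ℝ)..T (φ i), g (flow L r (state (γ (φ i)) s)) = ∫ s in r..(T (φ i) + r), g (state (γ (φ i)) s) := by
          have := intervalIntegral.integral_comp_add_right (a := 0) (b := T (φ i)) (fun s => g (state (γ (φ i)) s)) r
          rw [zero_add] at this
          rw [← this]
          apply intervalIntegral.integral_congr
          intro s _
          simp only
          rw [flow_state hL.isC2 (hγ _)]
        have e2 : (∫ s in r..(T (φ i) + r), g (state (γ (φ i)) s)) - ∫ s in (0:ℝ)..T (φ i), g (state (γ (φ i)) s) =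
            (∫ s in (T (φ i))..(T (φ i) + r), g (state (γ (φ i)) s)) - ∫ s in (0:ℝ)..r, g (state (γ (φ i)) s) := by
          have a1 := intervalIntegral.integral_add_adjacent_intervals (hgc.intervalIntegrable (μ := volume) 0 r)
            (hgc.intervalIntegrable r (T (φ i) + r))
          have a2 := intervalIntegral.integral_add_adjacent_intervals (hgc.intervalIntegrable (μ := volume) 0 (T (φ i)))
            (hgc.intervalIntegrable (T (φ i)) (T (φ i) + r))
          linarith
        have hgb : ∀ s, ‖g (state (γ (φ i)) s)‖ ≤ ‖g‖ := fun s => g.norm_coe_le_norm _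
        have b1 : ‖∫ s in (T (φ i))..(T (φ i) + r), g (state (γ (φ i)) s)‖ ≤ ‖g‖ * |r| := by
          have := intervalIntegral.norm_integral_le_of_norm_le_const (a := T (φ i)) (b := T (φ i) + r)
            (f := fun s => g (state (γ (φ i)) s)) (C := ‖g‖) (fun s _ => hgb s)
          simpa using this
        have b2 : ‖∫ s in (0:ℝ)..r, g (state (γ (φ i)) s)‖ ≤ ‖g‖ * |r| := by
          have := intervalIntegral.norm_integral_le_of_norm_le_const (a := 0) (b := r)
            (f := fun s => g (state (γ (φ i)) s)) (C := ‖g‖) (fun s _ => hgb s)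
          simpa using this
        rw [← mul_sub, e1, e2, norm_mul, Real.norm_of_nonneg (by have := hT (φ i); positivity)]
        have hTi := hT (φ i)
        calc (1 / T (φ i)) * ‖(∫ s in (T (φ i))..(T (φ i) + r), g (state (γ (φ i)) s)) - ∫ s in (0:ℝ)..r, g (state (γ (φ i)) s)‖
            ≤ (1 / T (φ i)) * (‖g‖ * |r| + ‖g‖ * |r|) := by
              gcongr
              exact (norm_sub_le _ _).trans (add_le_add b1 b2)
          _ = 2 * ‖g‖ * |r| * (T (φ i))⁻¹ := by rw [one_div]; ring
      have hz : Tendsto (fun i => 2 * ‖g‖ * |r| * (T (φ i))⁻¹) atTop (𝓝 0) := by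
        have := (tendsto_inv_atTop_zero.comp hTφ).const_mul (2 * ‖g‖ * |r|)
        rwa [mul_zero] at this
      exact squeeze_zero_norm hbd hz
    have h4 := h1.sub h2
    have h5 := tendsto_nhds_unique h4 h3
    linarith
  · have h1 := hint L (continuous_of_lift hL.smooth.continuous)
    refine le_of_tendsto h1 (Eventually.of_forall (fun i => ?_))
    have := hact (φ i)
    have hTi := hT (φ i)
    rw [one_div, ← div_eq_inv_mul, div_le_iff₀ hTi]
    exact this

end Pool.Agent.Lib.Mane
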