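import Pool.Agent.Lib.Mane.Meas

open Set Filter Topology MeasureTheory Metric BoundedContinuousFunction
open scoped ENNReal NNReal Interval

namespace Pool.Agent.Lib.Mane

variable {n : ℕ}

lemma unif_cont {X : Type*} [PseudoMetricSpace X] {S : Set X} (hS : IsCompact S) {g : X → ℝ} (hg : Continuous g) {ε : ℝ} (hε : 0 < ε) :
    ∃ δ > 0, ∀ x ∈ S, ∀ y, dist x y ≤ δ → |g x - g y| ≤ ε := by
  have h := hS.uniformContinuousAt_of_continuousAt g (fun x _ => hg.continuousAt) (Metric.dist_mem_uniformity hε)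
  obtain ⟨δ, hδ, H⟩ := Metric.mem_uniformity_dist.mp h
  refine ⟨δ / 2, by positivity, fun x hx y hxy => ?_⟩
  have h1 : dist x y < δ := by linarith
  have h2 := H h1 hx
  simp only [mem_ofPred_eq, Real.dist_eq] at h2
  exact h2.le

/-- limits of invariant measures are invariant -/
lemma isInv_limit {ι : Type*} {l : Filter ι} [l.NeBot] {L : Phase n → ℝ} (hL : IsTonelli L) {Ls : ι → Phase n → ℝ}
    (hLs : ∀ᶠ i in l, IsTonelli (Ls i))
    (hcl : ∀ ρ > 0, ∀ᶠ i in l, Close L (Ls i) ρ) {μs : ι → ProbabilityMeasure (Phase n)} {μ : ProbabilityMeasure (Phase n)} {K : ℝ}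
    (hinv : ∀ᶠ i in l, IsInv (Ls i) (μs i)) (hK : ∀ᶠ i in l, Conc K (μs i)) (hμ : Conc K μ) (hlim : Tendsto μs l (𝓝 μ)) :
    IsInv L μ := by
  apply isInv_of_integral hL hμ
  intro r g
  have hfc := continuous_flow_map hL r
  have h1 := tendsto_integral_conc hK hμ hlim (g.continuous.comp hfc)
  have h2 := tendsto_integral_conc hK hμ hlim g.continuous
  simp only [Function.comp_def] at h1
  have h3 : Tendsto (fun i => ∫ z, g (flow L r z) ∂(μs i : Measure (Phase n)) - ∫ z, g z ∂(μs i : Measure (Phase n))) l (𝓝 0) := by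
    rw [Metric.tendsto_nhds]
    intro ε hε
    obtain ⟨δ, hδ, hδ'⟩ := unif_cont ((isCompact_slab (n := n) K).image hfc) g.continuous (half_pos hε)
    obtain ⟨ρ, hρ, hρ'⟩ := flow_close hL K |r| δ hδ
    filter_upwards [hLs, hcl ρ hρ, hinv, hK] with i h1 h2 h3 h4
    have i1 : Integrable (fun z => g (flow L r z)) (μs i : Measure (Phase n)) := h4.integrable (g.continuous.comp hfc)
    have i2 : Integrable (fun z => g (flow (Ls i) r z)) (μs i : Measure (Phase n)) :=
      h4.integrable (g.continuous.comp (continuous_flow_map h1 r))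
    rw [Real.dist_eq, sub_zero, ← h3.integral_flow h1 r g.continuous.stronglyMeasurable, ← integral_sub i1 i2]
    have : ‖∫ z, (g (flow L r z) - g (flow (Ls i) r z)) ∂(μs i : Measure (Phase n))‖ ≤ ε / 2 := by
      have := norm_integral_le_of_norm_le_const (μ := (μs i : Measure (Phase n)))
        (f := fun z => g (flow L r z) - g (flow (Ls i) r z)) (C := ε / 2) (by
          filter_upwards [h4.ae] with z hz
          rw [Real.norm_eq_abs]
          exact hδ' _ ⟨z, hz, rfl⟩ _ (hρ' _ h1 h2 z z hz (by simp [hρ.le]) r le_rfl))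
      simpa using this
    rw [Real.norm_eq_abs] at this
    linarith
  have h4 := h1.sub h2
  have h5 := tendsto_nhds_unique h4 h3
  linarith

/-! ### Averages along the flow -/

lemma continuous_time_integral {L : Phase n → ℝ} (hL : IsTonelli L) {g : Phase n → ℝ} (hg : Continuous g) (T : ℝ) :
    Continuous (fun z => ∫ s in (0:ℝ)..T, g (flow L s z)) := by
  apply intervalIntegral.continuous_parametric_intervalIntegral_of_continuous' (f := fun z s => g (flow L s z))
  exact hg.comp ((continuous_flow hL).comp continuous_swap)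

lemma avg_flow {L : Phase n → ℝ} (hL : IsTonelli L) {ν : ProbabilityMeasure (Phase n)} (hν : IsInv L ν) {g : Phase n → ℝ}
    (hg : Continuous g) {T : ℝ} (hT : 0 ≤ T) :
    ∫ z, (∫ s in (0:ℝ)..T, g (flow L s z)) ∂(ν : Measure (Phase n)) = T * ∫ z, g z ∂(ν : Measure (Phase n)) := by
  obtain ⟨K, hK⟩ := hν.exists_conc
  have hc : Continuous (fun p : Phase n × ℝ => g (flow L p.2 p.1)) := hg.comp ((continuous_flow hL).comp continuous_swap)
  have hint : Integrable (Function.uncurry (fun (z : Phase n) (s : ℝ) => g (flow L s z)))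
      ((ν : Measure (Phase n)).prod (volume.restrict (Ioc 0 T))) := by
    obtain ⟨M, hM⟩ := ((isCompact_slab (n := n) K).prod (isCompact_Icc (a := (0:ℝ)) (b := T))).exists_bound_of_continuousOn
      hc.continuousOn
    apply Integrable.of_bound hc.aestronglyMeasurable M
    have h1 : ∀ᵐ p ∂((ν : Measure (Phase n)).prod (volume.restrict (Ioc 0 T))), p.1 ∈ slab n K :=
      Measure.quasiMeasurePreserving_fst.ae hK.ae
    have h2 : ∀ᵐ p ∂((ν : Measure (Phase n)).prod (volume.restrict (Ioc 0 T))), p.2 ∈ Ioc 0 T :=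
      Measure.quasiMeasurePreserving_snd.ae (ae_restrict_mem measurableSet_Ioc)
    filter_upwards [h1, h2] with p hp1 hp2
    exact hM p ⟨hp1, Ioc_subset_Icc_self hp2⟩
  simp only [intervalIntegral.integral_of_le hT]
  rw [integral_integral_swap hint]
  have : ∀ s : ℝ, ∫ z, g (flow L s z) ∂(ν : Measure (Phase n)) = ∫ z, g z ∂(ν : Measure (Phase n)) := fun s =>
    hν.integral_flow hL s hg.stronglyMeasurable
  simp only [this]
  simp [hT]

/-! ### Lower bounds for the action of curves -/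

lemma reach_stay {L : Phase n → ℝ} (hL : IsC2 L) {a b C0 : ℝ} (x : E n) (hab : a ≤ b)
    (hC : ∀ z : Phase n, ‖z.2.1‖ ≤ n + 1 → L z ≤ C0) : Reach L (n + 1) a b x x (C0 * (b - a)) := by
  rcases eq_or_lt_of_le hab with h | h
  · subst h
    have := reach_refl (L := L) (R := n + 1) (by positivity) a x
    simpa using this
  · exact reach_straight h (by
      simp only [sub_self, norm_zero]
      have : 0 < b - a := by linarith
      positivity) hC hL

lemma reach_periodic {L : Phase n → ℝ} (hL : IsC2 L) {C0 : ℝ} (hC : ∀ z : Phase n, ‖z.2.1‖ ≤ n + 1 → L z ≤ C0)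
    {R A : ℝ} {x y : E n} {T : ℕ} (hR : (n:ℝ) + 1 ≤ R) (h : Reach L R 0 T x y A) (j : ℕ) :
    ∃ k : Fin n → ℤ, Reach L R 0 ((j * (T + 1) : ℕ) : ℝ) x (x + iv k) (j * (A + C0)) := by
  induction j with
  | zero =>
    refine ⟨0, ?_⟩
    have := reach_refl (L := L) (R := R) ((by positivity : (0:ℝ) ≤ n + 1).trans hR) 0 x
    simpa using this
  | succ j ih =>
    obtain ⟨k, hk⟩ := ih
    obtain ⟨k', hk'⟩ := exists_close_translate y x
    have r1 : Reach L R T (T + 1) y (x + iv k') (C0 * ((T:ℝ) + 1 - T)) :=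
      (reach_straight (R := n + 1) (by linarith) (by linarith) hC hL).mono_R hR
    have r2 := h.trans hL (Nat.cast_nonneg _) (by linarith) r1
    have r3 := r2.translate k ((j * (T + 1) : ℕ) : ℤ)
    simp only [Int.cast_natCast, zero_add] at r3
    have r4 := hk.trans hL (Nat.cast_nonneg _) (by
      have : (0:ℝ) ≤ (T:ℝ) + 1 := by positivity
      linarith) r3
    refine ⟨k' + k, ?_⟩
    have e1 : (T:ℝ) + 1 + ((j * (T + 1) : ℕ) : ℝ) = (((j + 1) * (T + 1) : ℕ) : ℝ) := by push_cast; ring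
    have e2 : x + iv k' + iv k = x + iv (k' + k) := by rw [iv_add]; abel
    rw [e1, e2] at r4
    refine r4.mono (le_of_eq ?_)
    push_cast; ring

/-- invariant measures from curves -/
lemma inv_of_reach {L : Phase n → ℝ} (hL : IsTonelli L) {C0 C2 K0 : ℝ} (hS : SpeedData L C0 C2 K0)
    {R A : ℝ} {x y : E n} {T : ℕ} (h : Reach L R 0 T x y A) :
    ∃ μ : ProbabilityMeasure (Phase n), IsInv L μ ∧ Conc K0 μ ∧ action L μ ≤ (A + C0) / (T + 1) := by
  have hR := h.mono_R (le_max_left R (n + 1))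
  have hper := reach_periodic hL.isC2 hS.bd (le_max_right R (n + 1)) hR
  choose k hk using hper
  have horb : ∀ j : ℕ, ∃ γ, IsEL L γ ∧ (∀ t ∈ Icc (0:ℝ) (((j + 1) * (T + 1) : ℕ) : ℝ), ‖deriv γ t‖ ≤ K0) ∧
      ∫ s in (0:ℝ)..(((j + 1) * (T + 1) : ℕ) : ℝ), lift L (γ s, deriv γ s, s) ≤ ((j + 1 : ℕ) : ℝ) * (A + C0) := fun j =>
    exists_orbit hL hS (by positivity) (hk (j + 1))
  choose γ hγ hγs hγa using horb
  apply kb hL (fun j => (((j + 1) * (T + 1) : ℕ) : ℝ)) (fun j => by positivity) ?_ γ hγ hγs ?_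
  · have h1 : Tendsto (fun j : ℕ => (((j + 1) : ℕ) : ℝ)) atTop atTop :=
      (tendsto_natCast_atTop_atTop (R := ℝ)).comp (tendsto_add_atTop_nat 1)
    have h2 : Tendsto (fun j : ℕ => (((j + 1) : ℕ) : ℝ) * ((T:ℝ) + 1)) atTop atTop :=
      h1.atTop_mul_const (by positivity)
    refine h2.congr (fun j => ?_)
    push_cast; ring
  · intro j
    refine (hγa j).trans (le_of_eq ?_)
    have : (T:ℝ) + 1 ≠ 0 := by positivity
    push_cast
    field_simp

/-- lower bound for curves on arbitrary intervals -/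
lemma reach_lower {L : Phase n → ℝ} (hL : IsTonelli L) {C0 C2 K0 : ℝ} (hS : SpeedData L C0 C2 K0) {m : ℝ}
    (hm : ∀ μ : ProbabilityMeasure (Phase n), IsInv L μ → Conc K0 μ → m ≤ action L μ) {R a b A : ℝ} {x y : E n} (hab : a ≤ b)
    (h : Reach L R a b x y A) : m * (b - a) - (3 * |m| + 3 * |C0|) ≤ A := by
  have hL2 := hL.isC2
  set R' := max R (n + 1) with hR'
  have h' := h.mono_R (le_max_left R (n + 1))
  set p : ℤ := ⌊a⌋ with hp
  set r : ℤ := ⌈b⌉ with hr
  have hp1 : (p:ℝ) ≤ a := Int.floor_le a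
  have hp2 : a < p + 1 := Int.lt_floor_add_one a
  have hr1 : b ≤ r := Int.le_ceil b
  have hr2 : (r:ℝ) < b + 1 := Int.ceil_lt_add_one b
  have r1 : Reach L R' p a x x (C0 * (a - p)) := (reach_stay hL2 x hp1 hS.bd).mono_R (le_max_right _ _)
  have r2 : Reach L R' b r y y (C0 * (r - b)) := (reach_stay hL2 y hr1 hS.bd).mono_R (le_max_right _ _)
  have r3 := (r1.trans hL2 hp1 hab h').trans hL2 (hp1.trans hab) hr1 r2
  have r4 := r3.translate 0 (-p)
  obtain ⟨N, hN⟩ : ∃ N : ℕ, (N : ℤ) = r - p := by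
    have : (p:ℝ) ≤ r := by linarith
    have : p ≤ r := by exact_mod_cast this
    exact ⟨(r - p).toNat, by rw [Int.toNat_of_nonneg]; omega⟩
  have hNr : (N:ℝ) = r - p := by exact_mod_cast hN
  have e1 : (p:ℝ) + ((-p : ℤ) : ℝ) = 0 := by push_cast; ring
  have e2 : (r:ℝ) + ((-p : ℤ) : ℝ) = N := by rw [hNr]; push_cast; ring
  rw [e1, e2] at r4
  obtain ⟨μ, hμ1, hμ2, hμ3⟩ := inv_of_reach hL hS r4
  have h5 := hm μ hμ1 hμ2
  have hN1 : (0:ℝ) < N + 1 := by positivity
  have h6 : m * (N + 1) ≤ C0 * (a - p) + A + C0 * (r - b) + C0 := by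
    have := h5.trans hμ3
    rwa [le_div_iff₀ hN1] at this
  have h7 : C0 * (a - p) ≤ |C0| := by
    calc C0 * (a - p) ≤ |C0| * (a - p) := mul_le_mul_of_nonneg_right (le_abs_self _) (by linarith)
      _ ≤ |C0| * 1 := mul_le_mul_of_nonneg_left (by linarith) (abs_nonneg _)
      _ = |C0| := mul_one _
  have h8 : C0 * (r - b) ≤ |C0| := by
    calc C0 * (r - b) ≤ |C0| * (r - b) := mul_le_mul_of_nonneg_right (le_abs_self _) (by linarith)
      _ ≤ |C0| * 1 := mul_le_mul_of_nonneg_left (by linarith) (abs_nonneg _)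
      _ = |C0| := mul_one _
  have h9 : m * (b - a) - 3 * |m| ≤ m * (N + 1) := by
    have e : m * (N + 1) = m * (b - a) + m * (N + 1 - (b - a)) := by ring
    rw [e]
    have : |m * (N + 1 - (b - a))| ≤ |m| * 3 := by
      rw [abs_mul]
      apply mul_le_mul_of_nonneg_left _ (abs_nonneg _)
      rw [abs_le]
      constructor <;> rw [hNr] <;> linarith
    have := (abs_le.mp this).1
    linarith
  linarith [le_abs_self C0]

/-- actions of orbits of one Lagrangian system for another Lagrangian -/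
lemma reach_flow {L L' : Phase n → ℝ} (hL : IsTonelli L) (z : Phase n) {T : ℝ} (hT : 0 ≤ T) :
    ∃ (s0 : ℝ) (x y : E n) (R : ℝ), q x = z.1 ∧ (s0 : UnitAddCircle) = z.2.2 ∧ q y = (flow L T z).1 ∧
      Reach L' R s0 (s0 + T) x y (∫ s in (0:ℝ)..T, L' (flow L s z)) := by
  obtain ⟨γ, s0, hγ, rfl⟩ := exists_state hL z
  obtain ⟨K, hK⟩ := (isCompact_Icc (a := s0) (b := s0 + T)).exists_bound_of_continuousOn
    (hγ.c1.continuous_deriv le_rfl).continuousOn
  have hel := hγ.elOn s0 (s0 + T)
  refine ⟨s0, γ s0, γ (s0 + T), K, rfl, rfl, ?_, ?_⟩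
  · rw [flow_state hL.isC2 hγ]; rfl
  · have h1 := reach_of_C1 (L := L') (by linarith) hel.cont hel.dx hK
    refine h1.mono (le_of_eq ?_)
    have := intervalIntegral.integral_comp_add_left (a := 0) (b := T) (fun s => lift L' (γ s, deriv γ s, s)) s0
    rw [add_zero] at this
    rw [← this]
    apply intervalIntegral.integral_congr
    intro s _
    simp only
    rw [flow_state hL.isC2 hγ]
    rfl

/-- cross comparison -/
lemma cross_lower {L : Phase n → ℝ} (hL : IsTonelli L) {C0 C2 K0 : ℝ} (hS : SpeedData L C0 C2 K0) {m : ℝ}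
    (hm : ∀ μ : ProbabilityMeasure (Phase n), IsInv L μ → Conc K0 μ → m ≤ action L μ) {L' : Phase n → ℝ} (hL' : IsTonelli L')
    {ν : ProbabilityMeasure (Phase n)} (hν : IsInv L' ν) : m ≤ action L ν := by
  have hLc : Continuous L := continuous_of_lift hL.smooth.continuous
  set B := 3 * |m| + 3 * |C0| with hB
  have key : ∀ T : ℝ, 0 < T → m * T - B ≤ T * action L ν := by
    intro T hT
    have h1 := avg_flow hL' hν hLc hT.le
    have h2 : ∀ z, m * T - B ≤ ∫ s in (0:ℝ)..T, L (flow L' s z) := by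
      intro z
      obtain ⟨s0, x, y, R, -, -, -, hr⟩ := reach_flow (L' := L) hL' z hT.le
      have := reach_lower hL hS hm (by linarith) hr
      rwa [add_sub_cancel_left] at this
    obtain ⟨K, hK⟩ := hν.exists_conc
    have h3 : ∫ _z, (m * T - B) ∂(ν : Measure (Phase n)) ≤ ∫ z, (∫ s in (0:ℝ)..T, L (flow L' s z)) ∂(ν : Measure (Phase n)) :=
      integral_mono (integrable_const _) (hK.integrable (continuous_time_integral hL' hLc T)) h2
    rw [h1] at h3
    simp only [integral_const, probReal_univ, smul_eq_mul, one_mul] at h3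
    exact h3
  by_contra hcon
  push Not at hcon
  have hpos : 0 < m - action L ν := by linarith
  have h1 := key ((B + 1) / (m - action L ν)) (div_pos (by positivity) hpos)
  have h2 : (m - action L ν) * ((B + 1) / (m - action L ν)) = B + 1 := by field_simp
  nlinarith

/-! ### Minimizing measures -/

/-- minimizing measures -/
def IsMin (L : Phase n → ℝ) (μ : ProbabilityMeasure (Phase n)) : Prop :=
  IsInv L μ ∧ ∀ ν, IsInv L ν → action L μ ≤ action L ν

lemma exists_isMin {L : Phase n → ℝ} (hL : IsTonelli L) {C0 C2 K0 : ℝ} (hS : SpeedData L C0 C2 K0) :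
    ∃ μ, IsMin L μ ∧ Conc K0 μ := by
  have hLc : Continuous L := continuous_of_lift hL.smooth.continuous
  set S : Set (ProbabilityMeasure (Phase n)) := {μ | IsInv L μ ∧ Conc K0 μ} with hSdef
  have hcomp : IsCompact S := by
    apply (isCompact_conc (n := n) K0).of_isClosed_subset _ (fun μ h => h.2)
    apply isClosed_of_closure_subset
    intro μ hμ
    rw [mem_closure_iff_seq_limit] at hμ
    obtain ⟨μs, hμs, hlim⟩ := hμ
    have hμK : Conc K0 μ := (isClosed_conc K0).mem_of_tendsto hlim (Eventually.of_forall (fun i => (hμs i).2))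
    refine ⟨?_, hμK⟩
    exact isInv_limit (Ls := fun _ => L) hL (Eventually.of_forall fun _ => hL)
      (fun ρ hρ => Eventually.of_forall fun _ => Close.refl L hρ.le)
      (Eventually.of_forall (fun i => (hμs i).1)) (Eventually.of_forall (fun i => (hμs i).2)) hμK hlim
  have hne : S.Nonempty := by
    have r := reach_refl (L := L) (R := 0) le_rfl 0 0
    have r' : Reach L 0 0 ((0:ℕ):ℝ) 0 0 0 := by simpa using r
    obtain ⟨μ, h1, h2, -⟩ := inv_of_reach hL hS r'
    exact ⟨μ, h1, h2⟩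
  have hcont : ContinuousOn (action L) S := by
    intro μ hμ
    exact tendsto_integral_conc (K := K0) (l := 𝓝[S] μ) (μs := id)
      (by filter_upwards [self_mem_nhdsWithin] with ν hν using hν.2) hμ.2 nhdsWithin_le_nhds hLc
  obtain ⟨μ, hμS, hmin⟩ := hcomp.exists_isMinOn hne hcont
  refine ⟨μ, ⟨hμS.1, fun ν hν => ?_⟩, hμS.2⟩
  exact cross_lower hL hS (m := action L μ) (fun μ' h1 h2 => hmin ⟨h1, h2⟩) hL hν

end Pool.Agent.Lib.Mane
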