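import Pool.Agent.Lib.Mane.Reach

open Set Filter Topology MeasureTheory Metric
open scoped ENNReal NNReal Interval

namespace Pool.Agent.Lib.Mane

variable {n : ℕ}

/-! ### Speed constants -/

/-- constants giving speed bounds of minimizers -/
structure SpeedData (L : Phase n → ℝ) (C0 C2 K0 : ℝ) : Prop where
  bd : ∀ z : Phase n, ‖z.2.1‖ ≤ n + 1 → L z ≤ C0
  sup : ∀ z : Phase n, L z ≤ C0 → ‖z.2.1‖ ≤ C2
  le : C2 ≤ K0
  sp : ∀ γ w : ℝ → E n, ∀ a b, ELOn L γ w a b → b - a ≤ 2 →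
      ∀ s ∈ Icc a b, ‖w s‖ ≤ C2 → ∀ t ∈ Icc a b, ‖w t‖ ≤ K0

lemma exists_abs_bound {L : Phase n → ℝ} (hL : Continuous (lift L)) (K : ℝ) : ∃ C, 0 ≤ C ∧ ∀ z : Phase n, ‖z.2.1‖ ≤ K → |L z| ≤ C := by
  obtain ⟨C, hC, h⟩ := (per_lift L).bounded hL K
  refine ⟨C, hC, fun z hz => ?_⟩
  obtain ⟨p, rfl⟩ := pr_surjective z
  have := h p hz
  rwa [lift_eq, Function.comp_apply, Real.norm_eq_abs] at this

lemma exists_speedData {L : Phase n → ℝ} (hL : IsTonelli L) : ∃ C0 C2 K0, SpeedData L C0 C2 K0 := by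
  obtain ⟨C0, hC0, h0⟩ := exists_abs_bound hL.smooth.continuous (n + 1)
  obtain ⟨R1, hR1⟩ := hL.superlinear 1
  obtain ⟨K0, ρ, hρ, hsp⟩ := speed_bound hL (max R1 C0) 2
  refine ⟨C0, max R1 C0, max K0 (max R1 C0), fun z hz => (le_abs_self _).trans (h0 z hz), ?_, le_max_right _ _, ?_⟩
  · intro z hz
    by_contra hcon
    push Not at hcon
    rw [max_lt_iff] at hcon
    have := hR1 z hcon.1.le
    linarith [hcon.2]
  · intro γ w a b hel hab s hs hw t ht
    exact (hsp L (Close.refl L hρ.le) γ w a b hel hab s hs hw t ht).trans (le_max_left _ _)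

lemma SpeedData.nonneg {L : Phase n → ℝ} {C0 C2 K0 : ℝ} (h : SpeedData L C0 C2 K0) : 0 ≤ C2 := by
  have h1 : ‖((0 : Phase n)).2.1‖ ≤ (n:ℝ) + 1 := by simp; positivity
  exact (norm_nonneg _).trans (h.sup 0 (h.bd 0 h1))

lemma no_exit {f : ℝ → ℝ} (hf : Continuous f) {a b K R : ℝ} (hKR : K < R) (ha : f a < R)
    (h : ∀ b' ∈ Icc a b, (∀ t ∈ Icc a b', f t < R) → f b' ≤ K) : ∀ t ∈ Icc a b, f t ≤ K := by
  have key : ∀ t ∈ Icc a b, f t < R := by
    by_contra hcon
    push Not at hcon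
    obtain ⟨t0, ht0, ht0'⟩ := hcon
    have hS : IsCompact (Icc a b ∩ {t | R ≤ f t}) :=
      isCompact_Icc.inter_right (isClosed_le continuous_const hf)
    obtain ⟨c, hcS, hcmin⟩ := hS.exists_isLeast ⟨t0, ht0, ht0'⟩
    have hlow : ∀ t ∈ Ico a c, f t < R := by
      intro t ht
      by_contra h'
      push Not at h'
      have := hcmin ⟨⟨ht.1, ht.2.le.trans hcS.1.2⟩, h'⟩
      linarith [ht.2]
    have hac : a < c := by
      rcases eq_or_lt_of_le hcS.1.1 with h' | h'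
      · have := hcS.2
        rw [← h'] at this
        simp only [mem_setOf_eq] at this
        linarith
      · exact h'
    have hK : ∀ t ∈ Ico a c, f t ≤ K := fun t ht =>
      h t ⟨ht.1, ht.2.le.trans hcS.1.2⟩ (fun s hs => hlow s ⟨hs.1, hs.2.trans_lt ht.2⟩)
    have hcK : f c ≤ K := by
      have h1 : Tendsto f (𝓝[<] c) (𝓝 (f c)) := (hf.tendsto c).mono_left nhdsWithin_le_nhds
      exact le_of_tendsto h1 (by filter_upwards [Ioo_mem_nhdsLT hac] with t ht using hK t ⟨ht.1.le, ht.2⟩)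
    have := hcS.2
    simp only [mem_setOf_eq] at this
    linarith
  intro t ht
  exact h t ht (fun s hs => key s ⟨hs.1, hs.2.trans ht.2⟩)

/-- speed bound on a short interval containing a time of moderate speed -/
lemma SpeedData.propagate {L : Phase n → ℝ} {C0 C2 K0 : ℝ} (h : SpeedData L C0 C2 K0) {R : ℝ} (hR : K0 < R)
    {γ W : ℝ → E n} (hWc : Continuous W) {A B : ℝ} (hAB : B - A ≤ 2)
    (hel : ∀ a b, A ≤ a → b ≤ B → (∀ t ∈ Icc a b, ‖W t‖ < R) → ELOn L γ W a b)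
    {s : ℝ} (hs : s ∈ Icc A B) (hW : ‖W s‖ ≤ C2) : ∀ t ∈ Icc A B, ‖W t‖ ≤ K0 := by
  intro t ht
  have hsR : ‖W s‖ < R := by linarith [h.le]
  rcases le_total s t with hst | hst
  · refine no_exit (f := fun t => ‖W t‖) (a := s) (b := t) hWc.norm hR hsR ?_ t ⟨hst, le_rfl⟩
    intro b' hb' hlt
    exact h.sp γ W s b' (hel s b' hs.1 (hb'.2.trans ht.2) hlt) (by linarith [hs.1, hb'.2, ht.2]) s
      (left_mem_Icc.mpr hb'.1) hW b' (right_mem_Icc.mpr hb'.1)
  · have := no_exit (f := fun t => ‖W (-t)‖) (a := -s) (b := -t) (hWc.comp continuous_neg).norm hR (by simpa using hsR)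
      ?_ (-t) ⟨by linarith, le_rfl⟩
    · simpa using this
    intro b' hb' hlt
    have hlt' : ∀ r ∈ Icc (-b') s, ‖W r‖ < R := by
      intro r hr
      have := hlt (-r) ⟨by linarith [hr.2], by linarith [hr.1]⟩
      simpa using this
    exact h.sp γ W (-b') s (hel (-b') s (by linarith [hb'.2, ht.1]) hs.2 hlt') (by linarith [hs.2, hb'.2, ht.1]) s
      (right_mem_Icc.mpr (by linarith [hb'.1])) hW (-b') (left_mem_Icc.mpr (by linarith [hb'.1]))

lemma exists_le_of_integral_le {f : ℝ → ℝ} (hf : Continuous f) {a b C : ℝ} (hab : a < b)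
    (h : ∫ s in a..b, f s ≤ C * (b - a)) : ∃ t ∈ Icc a b, f t ≤ C := by
  by_contra hcon
  push Not at hcon
  obtain ⟨t0, ht0, hmin⟩ := (isCompact_Icc (a := a) (b := b)).exists_isMinOn ⟨a, left_mem_Icc.mpr hab.le⟩ hf.continuousOn
  have h1 : C < f t0 := hcon t0 ht0
  have h2 : ∫ _s in a..b, f t0 ≤ ∫ s in a..b, f s :=
    intervalIntegral.integral_mono_on hab.le intervalIntegrable_const (hf.intervalIntegrable _ _) (fun s hs => hmin hs)
  rw [intervalIntegral.integral_const, smul_eq_mul] at h2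
  have : C * (b - a) < f t0 * (b - a) := by
    apply mul_lt_mul_of_pos_right h1; linarith
  linarith

lemma exists_close_translate (x y : E n) : ∃ k : Fin n → ℤ, ‖y + iv k - x‖ ≤ (n : ℝ) + 1 := by
  obtain ⟨k, hk⟩ := exists_cube (y - x)
  refine ⟨k, ?_⟩
  have e : y + iv k - x = y - x + iv k := by abel
  rw [e]
  have := norm_le_of_coord (y - x + iv k) (ρ := 1) zero_le_one (fun i => by
    rw [abs_of_nonneg (hk i).1]; exact (hk i).2)
  linarith

/-- **Orbits.** Curves can be replaced by orbits with bounded speed. -/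
lemma exists_orbit {L : Phase n → ℝ} (hL : IsTonelli L) {C0 C2 K0 : ℝ} (hS : SpeedData L C0 C2 K0) {T : ℕ} (hT : 0 < T)
    {R A : ℝ} {x y : E n} (h : Reach L R 0 T x y A) :
    ∃ γ, IsEL L γ ∧ (∀ t ∈ Icc (0:ℝ) T, ‖deriv γ t‖ ≤ K0) ∧
      ∫ s in (0:ℝ)..T, lift L (γ s, deriv γ s, s) ≤ A := by
  have hL2 := hL.isC2
  obtain ⟨u, hu, hue, huA⟩ := h
  set R' := max (max R (n + 1)) (K0 + 1) with hR'
  have hR'1 : R ≤ R' := (le_max_left _ _).trans (le_max_left _ _)
  have hR'2 : (n:ℝ) + 1 ≤ R' := (le_max_right _ _).trans (le_max_left _ _)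
  have hR'3 : K0 < R' := lt_of_lt_of_le (by linarith) (le_max_right _ _)
  have hR'0 : 0 ≤ R' := le_trans (by positivity) hR'2
  obtain ⟨x0, W, hW, hWc, hmin, hel⟩ := lim_exists hL2 hR'0 T
  have hT0 : (0:ℝ) ≤ T := Nat.cast_nonneg _
  have hle : act L x0 W 0 T ≤ A := (hmin x u (hu.mono hR'1)).trans huA
  -- action on unit intervals
  have hunit : ∀ j : ℕ, j < T → cact L j (j+1) (crv 0 x0 W j) W ≤ C0 := by
    intro j hj
    by_contra hcon
    push Not at hcon
    have hjT : (j:ℝ) + 1 ≤ T := by exact_mod_cast hj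
    obtain ⟨k, hk⟩ := exists_close_translate (crv 0 x0 W j) (crv 0 x0 W (j+1))
    have r1 : Reach L R' 0 j x0 (crv 0 x0 W j) (cact L 0 j x0 W) := ⟨W, hW, rfl, le_rfl⟩
    have r2 : Reach L R' j (j+1) (crv 0 x0 W j) (crv 0 x0 W (j+1) + iv k) (C0 * ((j:ℝ)+1 - j)) :=
      (reach_straight (R := n + 1) (by linarith) (by linarith) hS.bd hL2).mono_R hR'2
    have r3 : Reach L R' (j+1) T (crv 0 x0 W (j+1)) (crv 0 x0 W T) (cact L (j+1) T (crv 0 x0 W (j+1)) W) :=
      ⟨W, hW, crv_crv hW _ _ _ _, le_rfl⟩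
    have r3' := r3.translate k 0
    simp only [Int.cast_zero, add_zero] at r3'
    have r := (r1.trans hL2 (Nat.cast_nonneg _) (by linarith) r2).trans hL2 (by positivity) hjT r3'
    obtain ⟨w', hw', -, hA'⟩ := r
    have h1 := hmin x0 w' hw'
    have h2 := cact_split hL2 hW 0 j T x0
    have h3 := cact_split hL2 hW j (j+1) T (crv 0 x0 W j)
    rw [crv_crv hW] at h3
    rw [← cact_eq_act, ← cact_eq_act] at h1
    linarith
  have hpathc : Continuous (fun s => lift L (crv 0 x0 W s, W s, s)) :=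
    hL.smooth.continuous.comp ((hW.continuous_crv 0 x0).prodMk (hWc.prodMk continuous_id))
  have hspeed : ∀ t ∈ Icc (0:ℝ) T, ‖W t‖ ≤ K0 := by
    intro t ht
    -- find the unit interval
    obtain ⟨j, hj, hjt⟩ : ∃ j : ℕ, j < T ∧ t ∈ Icc (j:ℝ) (j+1) := by
      rcases eq_or_lt_of_le ht.2 with h' | h'
      · refine ⟨T - 1, by omega, ?_⟩
        rw [Nat.cast_sub hT]
        constructor
        · push_cast; linarith
        · push_cast; linarith
      · refine ⟨⌊t⌋₊, (Nat.floor_lt ht.1).mpr h', Nat.floor_le ht.1, (Nat.lt_floor_add_one t).le⟩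
    have hjT : (j:ℝ) + 1 ≤ T := by exact_mod_cast hj
    have h1 : ∫ s in (j:ℝ)..(j+1), lift L (crv 0 x0 W s, W s, s) ≤ C0 * ((j:ℝ)+1 - j) := by
      have := hunit j hj
      simp only [cact] at this
      have e : ∫ s in (j:ℝ)..(j+1), lift L (crv 0 x0 W s, W s, s) =
          ∫ s in (j:ℝ)..(j+1), lift L (crv j (crv 0 x0 W j) W s, W s, s) := by
        apply intervalIntegral.integral_congr
        intro s _
        simp only
        rw [crv_crv hW]
      rw [e]; linarith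
    obtain ⟨s, hs, hs'⟩ := exists_le_of_integral_le hpathc (by linarith) h1
    have hWs : ‖W s‖ ≤ C2 := hS.sup (q (crv 0 x0 W s), W s, (s : UnitAddCircle)) hs'
    exact hS.propagate hR'3 hWc (A := j) (B := j+1) (by linarith)
      (fun a b ha hb hlt => hel a b ((Nat.cast_nonneg j).trans ha) (hb.trans hjT) hlt) hs hWs t hjt
  have hEL : ELOn L (pos x0 W) W 0 T := hel 0 T le_rfl le_rfl (fun t ht => (hspeed t ht).trans_lt hR'3)
  obtain ⟨γ, hγ, hγ0, hγ'0⟩ := hL.complete x0 (W 0) 0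
  have huniq := uniq_two hL2 (s := 0) ⟨le_rfl, hT0⟩ hEL (hγ.elOn 0 T) (by simp [hγ0]) hγ'0.symm
  refine ⟨γ, hγ, fun t ht => ?_, ?_⟩
  · rw [← (huniq t ht).2]; exact hspeed t ht
  · refine le_trans (le_of_eq ?_) hle
    simp only [act]
    apply intervalIntegral.integral_congr
    intro s hs
    rw [uIcc_of_le hT0] at hs
    simp only
    rw [(huniq s hs).1, (huniq s hs).2]

end Pool.Agent.Lib.Mane
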