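import Pool.Agent.Lib.Mane.Bad

open Set Filter Topology MeasureTheory Metric BoundedContinuousFunction
open scoped ENNReal NNReal Interval RealInnerProductSpace

namespace Pool.Agent.Lib.Mane

variable {n k : ℕ}

/-! ### Topology of the space of potentials -/

lemma pot_contDiffAt (g : Pot n k) {j : ℕ} (hj : j ≤ k) (p : E n × ℝ) : ContDiffAt ℝ j (liftP g.1) p :=
  (g.2.of_le (by exact_mod_cast hj)).contDiffAt

lemma cder_eq (f g : Pot n k) {j : ℕ} (hj : j ≤ k) (p : E n × ℝ) :
    cder j f.1 g.1 p = dist (iteratedFDeriv ℝ j (liftP f.1) p) (iteratedFDeriv ℝ j (liftP g.1) p) := by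
  rw [cder, iteratedFDeriv_sub_apply (pot_contDiffAt f hj p) (pot_contDiffAt g hj p), dist_eq_norm]

lemma liftP_add_int (f : Tor n × UnitAddCircle → ℝ) (x : E n) (t : ℝ) (l : Fin n → ℤ) (m : ℤ) :
    liftP f ((x, t) + ((iv l, (m:ℝ)) : E n × ℝ)) = liftP f (x, t) := by
  simp only [liftP, Prod.mk_add_mk, q_add_iv, coe_add_int]

lemma iteratedFDeriv_per (f : Tor n × UnitAddCircle → ℝ) (j : ℕ) (p : E n × ℝ) (l : Fin n → ℤ) (m : ℤ) :
    iteratedFDeriv ℝ j (liftP f) (p + ((iv l, (m:ℝ)) : E n × ℝ)) = iteratedFDeriv ℝ j (liftP f) p := by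
  rw [← iteratedFDeriv_comp_add_right]
  congr 1
  ext1 y
  exact liftP_add_int f y.1 y.2 l m

/-- the supremum of the `j`-th derivative of a difference is attained -/
lemma cder_max (f g : Pot n k) {j : ℕ} (hj : j ≤ k) : ∃ p0, ∀ p, cder j f.1 g.1 p ≤ cder j f.1 g.1 p0 := by
  have hc : Continuous (fun p => cder j f.1 g.1 p) := by
    have h1 : Continuous (iteratedFDeriv ℝ j (liftP f.1)) := f.2.continuous_iteratedFDeriv (by exact_mod_cast hj)
    have h2 : Continuous (iteratedFDeriv ℝ j (liftP g.1)) := g.2.continuous_iteratedFDeriv (by exact_mod_cast hj)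
    have : (fun p => cder j f.1 g.1 p) = fun p => dist (iteratedFDeriv ℝ j (liftP f.1) p) (iteratedFDeriv ℝ j (liftP g.1) p) := by
      ext1 p; exact cder_eq f g hj p
    rw [this]
    exact h1.dist h2
  have hne : (cube n ×ˢ Icc (0:ℝ) 1).Nonempty := ⟨(0, 0), fun i => by simp, by simp⟩
  obtain ⟨p0, -, hp0⟩ := ((isCompact_cube (n := n)).prod (isCompact_Icc (a := (0:ℝ)) (b := 1))).exists_isMaxOn hne hc.continuousOn
  refine ⟨p0, fun p => ?_⟩
  obtain ⟨l, hl⟩ := exists_cube p.1
  obtain ⟨m, hm⟩ := exists_Icc p.2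
  have h1 : cder j f.1 g.1 (p + ((iv l, (m:ℝ)) : E n × ℝ)) ≤ cder j f.1 g.1 p0 := hp0 ⟨hl, hm⟩
  rwa [cder_eq f g hj, iteratedFDeriv_per, iteratedFDeriv_per, ← cder_eq f g hj] at h1

lemma cball_mono (f : Pot n k) {ε ε' : ℝ} (h : ε ≤ ε') : cball f ε ⊆ cball f ε' :=
  fun _ hg j hj p => (hg j hj p).trans_le h

lemma cball_sub {f f0 : Pot n k} {ε : ℝ} (h0 : f0 ∈ cball f ε) : ∃ ε' > 0, cball f0 ε' ⊆ cball f ε := by
  have hex : ∀ j : Fin (k + 1), ∃ δ > 0, ∀ p, cder (j:ℕ) f.1 f0.1 p ≤ ε - δ := by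
    intro j
    obtain ⟨p0, hp0⟩ := cder_max f f0 (show (j:ℕ) ≤ k by omega)
    have := h0 j (by omega) p0
    exact ⟨ε - cder (j:ℕ) f.1 f0.1 p0, by linarith, fun p => by linarith [hp0 p]⟩
  choose δ hδ hδle using hex
  obtain ⟨ρ, hρ, hρle⟩ := finset_pos_lb (Finset.univ : Finset (Fin (k + 1))) δ (fun j _ => hδ j)
  refine ⟨ρ, hρ, fun g hg j hj p => ?_⟩
  have h1 := hδle ⟨j, by omega⟩ p
  have h2 := hg j hj p
  have h3 := hρle ⟨j, by omega⟩ (Finset.mem_univ _)
  simp only at h1
  rw [cder_eq f f0 hj] at h1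
  rw [cder_eq f0 g hj] at h2
  rw [cder_eq f g hj]
  have := dist_triangle (iteratedFDeriv ℝ j (liftP f.1) p) (iteratedFDeriv ℝ j (liftP f0.1) p) (iteratedFDeriv ℝ j (liftP g.1) p)
  linarith

lemma mem_cball_self (f : Pot n k) {ε : ℝ} (hε : 0 < ε) : f ∈ cball f ε := by
  intro j hj p
  rw [cder_eq f f hj, dist_self]; exact hε

lemma pot_basic_nhd (f0 : Pot n k) {j : ℕ} (hj : j ≤ k) {ε : ℝ} (hε : 0 < ε) :
    {f : Pot n k | ∀ p, dist (iteratedFDeriv ℝ j (liftP f0.1) p) (iteratedFDeriv ℝ j (liftP f.1) p) < ε} ∈ 𝓝 f0 := by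
  have ho : IsOpen (cball f0 ε) := TopologicalSpace.isOpen_generateFrom_of_mem ⟨f0, ε, hε, rfl⟩
  filter_upwards [ho.mem_nhds (mem_cball_self f0 hε)] with f hf p
  rw [← cder_eq f0 f hj]
  exact hf j hj p

lemma pot_exists_close {f0 : Pot n k} {U : Set (Pot n k)} (hU : U ∈ 𝓝 f0) :
    ∃ ε > 0, ∀ f : Pot n k, (∀ j ≤ k, ∀ p, dist (iteratedFDeriv ℝ j (liftP f0.1) p) (iteratedFDeriv ℝ j (liftP f.1) p) < ε) → f ∈ U := by
  obtain ⟨V, hVU, hVo, hV0⟩ := mem_nhds_iff.mp hU
  have key : ∀ V : Set (Pot n k), IsOpen V → ∀ f0 ∈ V, ∃ ε > 0, cball f0 ε ⊆ V := by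
    intro V hV
    induction hV with
    | basic s hs =>
      obtain ⟨f, ε, hε, rfl⟩ := hs
      intro f0 hf0
      exact cball_sub hf0
    | univ => intro f0 _; exact ⟨1, one_pos, subset_univ _⟩
    | inter s t _ _ ih1 ih2 =>
      intro f0 hf0
      obtain ⟨ε1, h1, h1'⟩ := ih1 f0 hf0.1
      obtain ⟨ε2, h2, h2'⟩ := ih2 f0 hf0.2
      exact ⟨min ε1 ε2, lt_min h1 h2, subset_inter ((cball_mono _ (min_le_left _ _)).trans h1')
        ((cball_mono _ (min_le_right _ _)).trans h2')⟩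
    | sUnion S _ ih =>
      rintro f0 ⟨s, hs, hf0⟩
      obtain ⟨ε, hε, h⟩ := ih s hs f0 hf0
      exact ⟨ε, hε, h.trans (subset_sUnion_of_mem hs)⟩
  obtain ⟨ε, hε, h⟩ := key V hVo f0 hV0
  refine ⟨ε, hε, fun f hf => hVU (h (fun j hj p => ?_))⟩
  rw [cder_eq f0 f hj]
  exact hf j hj p

lemma pot_pclose_mem_nhds (hk : 1 ≤ k) (f0 : Pot n k) {ρ : ℝ} (hρ : 0 < ρ) : {f : Pot n k | PClose f0.1 f.1 ρ} ∈ 𝓝 f0 := by
  filter_upwards [pot_basic_nhd f0 (Nat.zero_le k) hρ, pot_basic_nhd f0 hk hρ] with f h0 h1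
  have hc : ∀ g : Pot n k, ∀ j ≤ k, ∀ p, ContDiffAt ℝ j (liftP g.1) p := fun g j hj p =>
    (g.2.of_le (by exact_mod_cast hj)).contDiffAt
  constructor
  · intro p
    have := h0 p
    rw [dist_eq_norm, ← iteratedFDeriv_sub_apply (hc _ 0 (Nat.zero_le k) p) (hc _ 0 (Nat.zero_le k) p), norm_iteratedFDeriv_zero,
      Pi.sub_apply, Real.norm_eq_abs] at this
    exact this.le
  · intro p
    have := h1 p
    rw [dist_eq_norm, ← iteratedFDeriv_sub_apply (hc _ 1 hk p) (hc _ 1 hk p), norm_iteratedFDeriv_one,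
      fderiv_sub] at this
    · exact this.le
    · exact ((f0.2.of_le (by exact_mod_cast hk) : ContDiff ℝ 1 _).differentiable one_ne_zero) p
    · exact ((f.2.of_le (by exact_mod_cast hk) : ContDiff ℝ 1 _).differentiable one_ne_zero) p

/-! ### Small perturbations -/

/-- `f + s φ` -/
def addS (f φ : Pot n k) (s : ℝ) : Pot n k :=
  ⟨fun p => f.1 p + s * φ.1 p, by
    have : liftP (fun p => f.1 p + s * φ.1 p) = fun p => liftP f.1 p + s * liftP φ.1 p := rfl
    rw [this]
    exact f.2.add (contDiff_const.mul φ.2)⟩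

lemma pot_bounded (φ : Pot n k) {j : ℕ} (hj : j ≤ k) : ∃ M, 0 ≤ M ∧ ∀ p, ‖iteratedFDeriv ℝ j (liftP φ.1) p‖ ≤ M := by
  have hc : Continuous (iteratedFDeriv ℝ j (liftP φ.1)) := φ.2.continuous_iteratedFDeriv (by exact_mod_cast hj)
  obtain ⟨M, hM⟩ := ((isCompact_cube (n := n)).prod (isCompact_Icc (a := (0:ℝ)) (b := 1))).exists_bound_of_continuousOn
    hc.continuousOn
  refine ⟨max M 0, le_max_right _ _, fun p => ?_⟩
  obtain ⟨l, hl⟩ := exists_cube p.1
  obtain ⟨m, hm⟩ := exists_Icc p.2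
  rw [← iteratedFDeriv_per φ.1 j p l m]
  exact (hM _ ⟨hl, hm⟩).trans (le_max_left _ _)

lemma pot_perturb (f φ : Pot n k) {U : Set (Pot n k)} (hU : U ∈ 𝓝 f) : ∃ ε > 0, ∀ s, |s| < ε → addS f φ s ∈ U := by
  obtain ⟨ε, hε, H⟩ := pot_exists_close hU
  have hex : ∀ j : Fin (k + 1), ∃ M, 0 ≤ M ∧ ∀ p, ‖iteratedFDeriv ℝ (j:ℕ) (liftP φ.1) p‖ ≤ M := fun j =>
    pot_bounded φ (by omega)
  choose M hM0 hM using hex
  obtain ⟨B, hB⟩ := finset_ub (Finset.univ : Finset (Fin (k + 1))) M
  have hB0 : 0 ≤ B := (hM0 0).trans (hB 0 (Finset.mem_univ _))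
  refine ⟨ε / (B + 1), by positivity, fun s hs => H _ (fun j hj p => ?_)⟩
  have hc : ∀ g : Pot n k, ContDiffAt ℝ j (liftP g.1) p := fun g => (g.2.of_le (by exact_mod_cast hj)).contDiffAt
  have e1 : liftP (addS f φ s).1 = liftP f.1 + s • liftP φ.1 := by
    ext1 y; simp [liftP, addS]
  have e2 : iteratedFDeriv ℝ j (liftP (addS f φ s).1) p = iteratedFDeriv ℝ j (liftP f.1) p + s • iteratedFDeriv ℝ j (liftP φ.1) p := by
    have hcs : ContDiffAt ℝ j (s • liftP φ.1) p := (hc φ).const_smul s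
    rw [e1, iteratedFDeriv_add_apply (hc f) hcs, iteratedFDeriv_const_smul_apply (hc φ)]
  rw [e2, dist_self_add_right, norm_smul, Real.norm_eq_abs]
  have h1 : ‖iteratedFDeriv ℝ j (liftP φ.1) p‖ ≤ B := (hM ⟨j, by omega⟩ p).trans (hB _ (Finset.mem_univ _))
  calc |s| * ‖iteratedFDeriv ℝ j (liftP φ.1) p‖ ≤ |s| * B := by gcongr
    _ ≤ (ε / (B + 1)) * B := by gcongr
    _ < ε := by
      rw [div_mul_eq_mul_div, div_lt_iff₀ (by positivity)]
      nlinarith

lemma pot_continuous (f : Pot n k) : Continuous f.1 := by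
  have hquot : IsQuotientMap (fun p : E n × ℝ => ((q p.1, (p.2 : UnitAddCircle)) : Tor n × UnitAddCircle)) := by
    apply IsOpenMap.isQuotientMap
    · exact isOpenMap_q.prodMap QuotientAddGroup.isOpenMap_coe
    · exact (continuous_q.comp continuous_fst).prodMk ((AddCircle.continuous_mk' 1).comp continuous_snd)
    · rintro ⟨θ, τ⟩
      obtain ⟨x, rfl⟩ := q_surjective θ
      obtain ⟨t, rfl⟩ := coe_surjective τ
      exact ⟨(x, t), rfl⟩
  exact hquot.continuous_iff.mpr f.2.continuous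

lemma pot_abs_bounded (f : Pot n k) : ∃ M, 0 ≤ M ∧ ∀ p, |f.1 p| ≤ M := by
  obtain ⟨M, hM⟩ := (isCompact_univ (X := Tor n × UnitAddCircle)).exists_bound_of_continuousOn (pot_continuous f).continuousOn
  exact ⟨max M 0, le_max_right _ _, fun p => (hM p (mem_univ _)).trans (le_max_left _ _)⟩

/-! ### Separating measures by potentials -/

/-- `C^k` functions on `T^n × T` as a subalgebra -/
def potAlg (n k : ℕ) : Subalgebra ℝ C(Tor n × UnitAddCircle, ℝ) where
  carrier := {g | ContDiff ℝ k (liftP g)}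
  mul_mem' := fun {a b} ha hb => by
    have : liftP (a * b : C(Tor n × UnitAddCircle, ℝ)) = fun p => liftP a p * liftP b p := rfl
    simp only [mem_ofPred_eq] at ha hb ⊢
    rw [this]; exact ha.mul hb
  add_mem' := fun {a b} ha hb => by
    have : liftP (a + b : C(Tor n × UnitAddCircle, ℝ)) = fun p => liftP a p + liftP b p := rfl
    simp only [mem_ofPred_eq] at ha hb ⊢
    rw [this]; exact ha.add hb
  algebraMap_mem' := fun r => by
    have : liftP (algebraMap ℝ C(Tor n × UnitAddCircle, ℝ) r) = fun _ => r := rfl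
    simp only [mem_ofPred_eq]
    rw [this]; exact contDiff_const

/-- the functions `cos 2π`, `sin 2π` on the circle -/
noncomputable def ccos (τ : UnitAddCircle) : ℝ := (AddCircle.toCircle τ : ℂ).re

noncomputable def csin (τ : UnitAddCircle) : ℝ := (AddCircle.toCircle τ : ℂ).im

lemma continuous_ccos : Continuous ccos := Complex.continuous_re.comp (continuous_subtype_val.comp AddCircle.continuous_toCircle)

lemma continuous_csin : Continuous csin := Complex.continuous_im.comp (continuous_subtype_val.comp AddCircle.continuous_toCircle)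

lemma ccos_coe (t : ℝ) : ccos (t : UnitAddCircle) = Real.cos (2 * Real.pi * t) := by
  simp only [ccos, AddCircle.toCircle_apply_mk, Circle.coe_exp]
  rw [Complex.exp_ofReal_mul_I_re]
  simp

lemma csin_coe (t : ℝ) : csin (t : UnitAddCircle) = Real.sin (2 * Real.pi * t) := by
  simp only [csin, AddCircle.toCircle_apply_mk, Circle.coe_exp]
  rw [Complex.exp_ofReal_mul_I_im]
  simp

lemma circle_sep {σ τ : UnitAddCircle} (h1 : ccos σ = ccos τ) (h2 : csin σ = csin τ) : σ = τ := by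
  apply AddCircle.injective_toCircle one_ne_zero
  apply Subtype.ext
  exact Complex.ext h1 h2

lemma potAlg_separates : (potAlg n k).SeparatesPoints := by
  intro p p' hpp
  by_contra hcon
  push Not at hcon
  apply hpp
  have hfun : ∀ g : C(Tor n × UnitAddCircle, ℝ), g ∈ potAlg n k → g p = g p' := by
    intro g hg
    exact hcon g ⟨g, hg, rfl⟩
  have hcos : ContDiff ℝ k (fun t : ℝ => Real.cos (2 * Real.pi * t)) := Real.contDiff_cos.comp (by fun_prop)
  have hsin : ContDiff ℝ k (fun t : ℝ => Real.sin (2 * Real.pi * t)) := Real.contDiff_sin.comp (by fun_prop)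
  have hcoord : ∀ i : Fin n, ContDiff ℝ k (fun p : E n × ℝ => p.1 i) := fun i =>
    ((EuclideanSpace.proj (𝕜 := ℝ) i : E n →L[ℝ] ℝ).contDiff).comp contDiff_fst
  apply Prod.ext
  · ext i
    apply circle_sep
    · refine hfun ⟨fun p => ccos (p.1 i), continuous_ccos.comp (by fun_prop)⟩ ?_
      show ContDiff ℝ k (fun p : E n × ℝ => ccos ((p.1 i : ℝ) : UnitAddCircle))
      simp only [ccos_coe]
      exact hcos.comp (hcoord i)
    · refine hfun ⟨fun p => csin (p.1 i), continuous_csin.comp (by fun_prop)⟩ ?_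
      show ContDiff ℝ k (fun p : E n × ℝ => csin ((p.1 i : ℝ) : UnitAddCircle))
      simp only [csin_coe]
      exact hsin.comp (hcoord i)
  · apply circle_sep
    · refine hfun ⟨fun p => ccos p.2, continuous_ccos.comp (by fun_prop)⟩ ?_
      show ContDiff ℝ k (fun p : E n × ℝ => ccos ((p.2 : ℝ) : UnitAddCircle))
      simp only [ccos_coe]
      exact hcos.comp contDiff_snd
    · refine hfun ⟨fun p => csin p.2, continuous_csin.comp (by fun_prop)⟩ ?_
      show ContDiff ℝ k (fun p : E n × ℝ => csin ((p.2 : ℝ) : UnitAddCircle))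
      simp only [csin_coe]
      exact hsin.comp contDiff_snd

/-- a countable family of potentials separating measures -/
lemma exists_sep (n k : ℕ) : ∃ ψ : ℕ → Pot n k, ∀ μ ν : ProbabilityMeasure (Phase n),
    (∀ j, pint (ψ j).1 μ = pint (ψ j).1 ν) → (μ : Measure (Phase n)).map prj = (ν : Measure (Phase n)).map prj := by
  have hsep : TopologicalSpace.IsSeparable ((potAlg n k : Set C(Tor n × UnitAddCircle, ℝ))) :=
    TopologicalSpace.IsSeparable.of_separableSpace _
  obtain ⟨D, hDsub, hDc, hDd⟩ := hsep.exists_countable_dense_subset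
  have hDne : D.Nonempty := by
    by_contra hne
    rw [not_nonempty_iff_eq_empty] at hne
    subst hne
    rw [closure_empty] at hDd
    exact hDd (potAlg n k).zero_mem
  obtain ⟨d, hd⟩ := hDc.exists_eq_range hDne
  have hdmem : ∀ j, ContDiff ℝ k (liftP (d j)) := fun j => hDsub (by rw [hd]; exact mem_range_self j)
  refine ⟨fun j => ⟨d j, hdmem j⟩, fun μ ν hμν => ?_⟩
  have hcl : ∀ g : C(Tor n × UnitAddCircle, ℝ), g ∈ closure D := by
    intro g
    have h1 : closure (potAlg n k : Set C(Tor n × UnitAddCircle, ℝ)) ⊆ closure D := closure_minimal hDd isClosed_closure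
    apply h1
    have h2 := ContinuousMap.subalgebra_topologicalClosure_eq_top_of_separatesPoints (potAlg n k) potAlg_separates
    have h3 : g ∈ (potAlg n k).topologicalClosure := by rw [h2]; trivial
    exact h3
  have hp1 : IsProbabilityMeasure ((μ : Measure (Phase n)).map prj) :=
    Measure.isProbabilityMeasure_map continuous_prj.aemeasurable
  have hp2 : IsProbabilityMeasure ((ν : Measure (Phase n)).map prj) :=
    Measure.isProbabilityMeasure_map continuous_prj.aemeasurable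
  apply ext_of_forall_integral_eq_of_IsFiniteMeasure
  intro g
  rw [integral_map continuous_prj.aemeasurable g.continuous.aestronglyMeasurable,
    integral_map continuous_prj.aemeasurable g.continuous.aestronglyMeasurable]
  -- approximate
  have hi : ∀ (f : C(Tor n × UnitAddCircle, ℝ)) (m : ProbabilityMeasure (Phase n)), Integrable (fun z => f (prj z)) (m : Measure (Phase n)) := by
    intro f m
    apply Integrable.of_bound (f.continuous.comp continuous_prj).aestronglyMeasurable ‖f‖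
    exact Eventually.of_forall fun z => f.norm_coe_le_norm _
  have key : ∀ ε, 0 < ε → ε < 1 → |(∫ z, g (prj z) ∂(μ : Measure (Phase n))) - ∫ z, g (prj z) ∂(ν : Measure (Phase n))| ≤ 0 + 2 * ε := by
    intro ε hε _
    obtain ⟨f, hfD, hf⟩ := Metric.mem_closure_iff.mp (hcl g.toContinuousMap) ε hε
    rw [hd] at hfD
    obtain ⟨j, rfl⟩ := hfD
    have hpt : ∀ p, |g p - d j p| ≤ ε := by
      intro p
      have := ContinuousMap.dist_apply_le_dist (f := g.toContinuousMap) (g := d j) p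
      rw [Real.dist_eq] at this
      exact this.trans hf.le
    have hest : ∀ m : ProbabilityMeasure (Phase n), |(∫ z, g (prj z) ∂(m : Measure (Phase n))) - pint (d j) m| ≤ ε := by
      intro m
      have e1 : (∫ z, g (prj z) ∂(m : Measure (Phase n))) - pint (d j) m = pint (fun p => g p - d j p) m := by
        have i1 : Integrable (fun z => g (prj z)) (m : Measure (Phase n)) := hi g.toContinuousMap m
        simp only [pint]
        rw [← integral_sub i1 (hi (d j) m)]
      rw [e1]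
      exact pint_abs_le hpt m
    have h1 := abs_le.mp (hest μ)
    have h2 := abs_le.mp (hest ν)
    have h3 : pint (d j) μ = pint (d j) ν := hμν j
    rw [abs_le]
    constructor <;> linarith
  have := le_of_forall_eps (by norm_num) one_pos key
  exact sub_eq_zero.mp (abs_nonpos_iff.mp this)

end Pool.Agent.Lib.Mane
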