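import Pool.Agent.Lib.Mane.Lim3

open Set Filter Topology MeasureTheory Metric
open scoped ENNReal NNReal Interval

namespace Pool.Agent.Lib.Mane

variable {n : ℕ}

/-! ### Curves and their actions -/

/-- the curve with velocity `w` which is at `x` at time `a` -/
noncomputable def crv (a : ℝ) (x : E n) (w : ℝ → E n) (t : ℝ) : E n := x + ∫ s in a..t, w s

/-- action on `[a, b]` -/
noncomputable def cact (L : Phase n → ℝ) (a b : ℝ) (x : E n) (w : ℝ → E n) : ℝ :=
  ∫ s in a..b, lift L (crv a x w s, w s, s)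

/-- there is an admissible curve (with speed at most `R`) from `x` at time `a` to `y` at time `b` with
action at most `A` -/
def Reach (L : Phase n → ℝ) (R a b : ℝ) (x y : E n) (A : ℝ) : Prop :=
  ∃ w, Adm w R ∧ crv a x w b = y ∧ cact L a b x w ≤ A

lemma crv_eq_pos {w : ℝ → E n} {R : ℝ} (hw : Adm w R) (a : ℝ) (x : E n) (t : ℝ) :
    crv a x w t = pos (x - ∫ s in (0:ℝ)..a, w s) w t := by
  simp only [crv, pos]
  have := intervalIntegral.integral_add_adjacent_intervals (hw.intervalIntegrable 0 a) (hw.intervalIntegrable a t)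
  rw [← this]; abel

lemma crv_self (a : ℝ) (x : E n) (w : ℝ → E n) : crv a x w a = x := by simp [crv]

lemma crv_crv {w : ℝ → E n} {R : ℝ} (hw : Adm w R) (a b : ℝ) (x : E n) (t : ℝ) :
    crv b (crv a x w b) w t = crv a x w t := by
  simp only [crv]
  have := intervalIntegral.integral_add_adjacent_intervals (hw.intervalIntegrable a b) (hw.intervalIntegrable b t)
  rw [← this]; abel

lemma Adm.continuous_crv {w : ℝ → E n} {R : ℝ} (hw : Adm w R) (a : ℝ) (x : E n) : Continuous (crv a x w) := by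
  have : crv a x w = pos (x - ∫ s in (0:ℝ)..a, w s) w := by ext1 t; exact crv_eq_pos hw a x t
  rw [this]; exact hw.continuous_pos _

lemma Adm.crv_lip {w : ℝ → E n} {R : ℝ} (hw : Adm w R) (a : ℝ) (x : E n) (s t : ℝ) :
    ‖crv a x w t - crv a x w s‖ ≤ R * |t - s| := by
  rw [crv_eq_pos hw, crv_eq_pos hw]; exact hw.pos_lip _ _ _

lemma Adm.integrable_cact {L : Phase n → ℝ} (hL : IsC2 L) {w : ℝ → E n} {R : ℝ} (hw : Adm w R) (a : ℝ) (x : E n)
    (c d : ℝ) : IntervalIntegrable (fun s => lift L (crv a x w s, w s, s)) volume c d := by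
  have : (fun s => lift L (crv a x w s, w s, s)) = fun s => lift L (pos (x - ∫ s in (0:ℝ)..a, w s) w s, w s, s) := by
    ext1 s; rw [crv_eq_pos hw]
  rw [this]
  exact hw.integrable_act hL _ _ _

lemma cact_eq_act (L : Phase n → ℝ) (x : E n) (w : ℝ → E n) (T : ℝ) : cact L 0 T x w = act L x w 0 T := rfl

lemma cact_split {L : Phase n → ℝ} (hL : IsC2 L) {w : ℝ → E n} {R : ℝ} (hw : Adm w R) (a b c : ℝ) (x : E n) :
    cact L a c x w = cact L a b x w + cact L b c (crv a x w b) w := by
  simp only [cact]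
  rw [← intervalIntegral.integral_add_adjacent_intervals (hw.integrable_cact hL a x a b) (hw.integrable_cact hL a x b c)]
  congr 1
  apply intervalIntegral.integral_congr
  intro s _
  simp only
  rw [crv_crv hw]

lemma Reach.mono {L : Phase n → ℝ} {R a b : ℝ} {x y : E n} {A A' : ℝ} (h : Reach L R a b x y A) (hA : A ≤ A') :
    Reach L R a b x y A' := by
  obtain ⟨w, h1, h2, h3⟩ := h
  exact ⟨w, h1, h2, h3.trans hA⟩

lemma Reach.mono_R {L : Phase n → ℝ} {R R' a b : ℝ} {x y : E n} {A : ℝ} (h : Reach L R a b x y A) (hR : R ≤ R') :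
    Reach L R' a b x y A := by
  obtain ⟨w, h1, h2, h3⟩ := h
  exact ⟨w, h1.mono hR, h2, h3⟩

lemma reach_refl {L : Phase n → ℝ} {R : ℝ} (hR : 0 ≤ R) (a : ℝ) (x : E n) : Reach L R a a x x 0 :=
  ⟨fun _ => 0, ⟨measurable_const, fun _ => by simp [hR]⟩, by simp [crv], by simp [cact]⟩

lemma crv_congr {a : ℝ} {x : E n} {w w' : ℝ → E n} {t : ℝ} (hat : a ≤ t) (h : ∀ s ∈ Ico a t, w s = w' s) :
    crv a x w t = crv a x w' t := by
  simp only [crv]
  congr 1
  apply intervalIntegral.integral_congr_ae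
  have hne : ∀ᵐ s : ℝ, s ≠ t := by
    have : volume ({t} : Set ℝ) = 0 := by simp
    rw [ae_iff]; simpa using this
  filter_upwards [hne] with s hs hs'
  rw [uIoc_of_le hat] at hs'
  exact h s ⟨hs'.1.le, lt_of_le_of_ne hs'.2 hs⟩

lemma cact_congr {L : Phase n → ℝ} {a b : ℝ} {x : E n} {w w' : ℝ → E n} (hab : a ≤ b) (h : ∀ s ∈ Ico a b, w s = w' s) :
    cact L a b x w = cact L a b x w' := by
  simp only [cact]
  apply intervalIntegral.integral_congr_ae
  have hne : ∀ᵐ s : ℝ, s ≠ b := by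
    have : volume ({b} : Set ℝ) = 0 := by simp
    rw [ae_iff]; simpa using this
  filter_upwards [hne] with s hs hs'
  rw [uIoc_of_le hab] at hs'
  rw [h s ⟨hs'.1.le, lt_of_le_of_ne hs'.2 hs⟩, crv_congr hs'.1.le (fun r hr => h r ⟨hr.1, hr.2.trans_le hs'.2⟩)]

lemma Reach.trans {L : Phase n → ℝ} (hL : IsC2 L) {R a b c : ℝ} {x y z : E n} {A B : ℝ} (hab : a ≤ b) (hbc : b ≤ c)
    (h1 : Reach L R a b x y A) (h2 : Reach L R b c y z B) : Reach L R a c x z (A + B) := by
  obtain ⟨w1, hw1, he1, hA1⟩ := h1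
  obtain ⟨w2, hw2, he2, hA2⟩ := h2
  let w : ℝ → E n := fun t => if t < b then w1 t else w2 t
  have hw : Adm w R := by
    refine ⟨Measurable.ite measurableSet_Iio hw1.meas hw2.meas, fun t => ?_⟩
    simp only [w]; split_ifs
    · exact hw1.bd t
    · exact hw2.bd t
  have e1 : ∀ s ∈ Ico a b, w s = w1 s := fun s hs => by simp [w, hs.2]
  have e2 : ∀ s ∈ Ico b c, w s = w2 s := fun s hs => by simp [w, not_lt.mpr hs.1]
  have hy : crv a x w b = y := by rw [crv_congr hab e1, he1]
  refine ⟨w, hw, ?_, ?_⟩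
  · rw [← crv_crv hw a b, hy, crv_congr hbc e2, he2]
  · rw [cact_split hL hw a b c x, hy, cact_congr hab e1, cact_congr hbc e2]
    exact add_le_add hA1 hA2

lemma Reach.translate {L : Phase n → ℝ} {R a b : ℝ} {x y : E n} {A : ℝ} (h : Reach L R a b x y A)
    (k : Fin n → ℤ) (m : ℤ) : Reach L R (a + m) (b + m) (x + iv k) (y + iv k) A := by
  obtain ⟨w, hw, he, hA⟩ := h
  have hcrv : ∀ t, crv (a + m) (x + iv k) (fun t => w (t - m)) (t + m) = crv a x w t + iv k := by
    intro t
    simp only [crv]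
    rw [intervalIntegral.integral_comp_sub_right (fun r => w r)]
    simp only [add_sub_cancel_right]
    abel
  refine ⟨fun t => w (t - m), ⟨hw.meas.comp (measurable_id.sub_const _), fun t => hw.bd _⟩, ?_, ?_⟩
  · rw [hcrv, he]
  · have : cact L (a + m) (b + m) (x + iv k) (fun t => w (t - m)) = cact L a b x w := by
      simp only [cact]
      have h1 := intervalIntegral.integral_comp_add_right (a := a) (b := b)
        (fun s => lift L (crv (a + (m:ℝ)) (x + iv k) (fun t => w (t - m)) s, w (s - m), s)) (m:ℝ)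
      rw [← h1]
      apply intervalIntegral.integral_congr
      intro s _
      simp only
      rw [hcrv, add_sub_cancel_right]
      have := per_lift L (crv a x w s, w s, s) k m
      simpa only [tv, Prod.mk_add_mk, add_zero] using this
    rw [this]; exact hA

/-- straight path -/
lemma reach_straight {L : Phase n → ℝ} {R a b C0 : ℝ} {x y : E n} (hab : a < b) (hR : ‖y - x‖ ≤ R * (b - a))
    (hC : ∀ z : Phase n, ‖z.2.1‖ ≤ R → L z ≤ C0) (hL : IsC2 L) : Reach L R a b x y (C0 * (b - a)) := by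
  have hba : 0 < b - a := by linarith
  set d : E n := (b - a)⁻¹ • (y - x) with hd
  have hdR : ‖d‖ ≤ R := by
    rw [hd, norm_smul, norm_inv, Real.norm_of_nonneg hba.le, inv_mul_le_iff₀ hba]
    linarith
  have hw : Adm (fun _ => d) R := ⟨measurable_const, fun _ => hdR⟩
  refine ⟨fun _ => d, hw, ?_, ?_⟩
  · simp only [crv, intervalIntegral.integral_const]
    rw [hd, smul_smul, mul_inv_cancel₀ hba.ne', one_smul]; abel
  · simp only [cact]
    have h1 : ∫ s in a..b, lift L (crv a x (fun _ => d) s, d, s) ≤ ∫ _s in a..b, C0 :=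
      intervalIntegral.integral_mono_on hab.le (hw.integrable_cact hL a x a b) intervalIntegrable_const
        (fun s _ => hC (q (crv a x (fun _ => d) s), d, (s : UnitAddCircle)) hdR)
    rw [intervalIntegral.integral_const, smul_eq_mul] at h1
    linarith

/-- a curve of class `C^1` -/
lemma reach_of_C1 {L : Phase n → ℝ} {a b K : ℝ} (hab : a ≤ b) {γ w : ℝ → E n} (hw : ContinuousOn w (Icc a b))
    (hγ : ∀ t ∈ Icc a b, HasDerivWithinAt γ (w t) (Icc a b) t) (hK : ∀ t ∈ Icc a b, ‖w t‖ ≤ K) :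
    Reach L K a b (γ a) (γ b) (∫ s in a..b, lift L (γ s, w s, s)) := by
  let w' : ℝ → E n := fun t => w (max a (min b t))
  have hmem : ∀ t : ℝ, max a (min b t) ∈ Icc a b := fun t => ⟨le_max_left _ _, max_le hab (min_le_left _ _)⟩
  have hw'c : Continuous w' := hw.comp_continuous (by fun_prop) hmem
  have hw' : Adm w' K := ⟨hw'c.measurable, fun t => hK _ (hmem t)⟩
  have hww : ∀ t ∈ Icc a b, w' t = w t := by
    intro t ht
    simp only [w', min_eq_right ht.2, max_eq_right ht.1]
  have hcrv : ∀ t ∈ Icc a b, crv a (γ a) w' t = γ t := by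
    intro t ht
    simp only [crv]
    have h1 : ∫ s in a..t, w' s = ∫ s in a..t, w s := by
      apply intervalIntegral.integral_congr
      intro s hs
      rw [uIcc_of_le ht.1] at hs
      exact hww s ⟨hs.1, hs.2.trans ht.2⟩
    rw [h1]
    have h2 := intervalIntegral.integral_eq_sub_of_hasDeriv_right_of_le (f := γ) (f' := w) ht.1
      (fun s hs => ((hγ s ⟨hs.1, hs.2.trans ht.2⟩).continuousWithinAt).mono (Icc_subset_Icc le_rfl ht.2))
      (fun s hs => by
        have hs' : s ∈ Ico a b := ⟨hs.1.le, hs.2.trans_le ht.2⟩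
        exact (hasDerivWithinAt_Ici (hγ s ⟨hs'.1, hs'.2.le⟩) hs').mono Ioi_subset_Ici_self)
      ((hw.mono (Icc_subset_Icc le_rfl ht.2)).intervalIntegrable_of_Icc ht.1)
    rw [h2]; abel
  refine ⟨w', hw', hcrv b (right_mem_Icc.mpr hab), le_of_eq ?_⟩
  simp only [cact]
  apply intervalIntegral.integral_congr
  intro s hs
  rw [uIcc_of_le hab] at hs
  simp only
  rw [hcrv s hs, hww s hs]

end Pool.Agent.Lib.Mane
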