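import Pool.Agent.Lib.Mane.Gron

open Set Filter Topology MeasureTheory Metric
open scoped ENNReal NNReal

namespace Pool.Agent.Lib.Mane

variable {n : ℕ}

/-! ### Time reversal -/

lemma fderiv_comp_neg' {F : Type*} [NormedAddCommGroup F] [NormedSpace ℝ F] (f : E n → F) (v : E n) :
    fderiv ℝ (fun w => f (-w)) v = - fderiv ℝ f (-v) := by
  have h := (ContinuousLinearEquiv.neg ℝ (M := E n)).comp_right_fderiv (f := f) (x := v)
  have h1 : (f ∘ (ContinuousLinearEquiv.neg ℝ (M := E n))) = fun w => f (-w) := rfl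
  rw [h1] at h
  rw [h]
  ext w
  simp

/-- time reversed Lagrangian -/
def rev (L : Phase n → ℝ) : Phase n → ℝ := fun z => L (z.1, -z.2.1, -z.2.2)

lemma lift_rev (L : Phase n → ℝ) (x v : E n) (t : ℝ) : lift (rev L) (x, v, t) = lift L (x, -v, -t) := by
  simp [lift, rev]

lemma rev_rev (L : Phase n → ℝ) : rev (rev L) = L := by
  ext z; simp [rev]

lemma Lx_rev (L : Phase n → ℝ) (x v : E n) (t : ℝ) : Lx (rev L) x v t = Lx L x (-v) (-t) := by
  simp only [Lx, lift_rev]

lemma Lv_rev (L : Phase n → ℝ) (x v : E n) (t : ℝ) : Lv (rev L) x v t = - Lv L x (-v) (-t) := by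
  simp only [Lv, lift_rev]
  exact fderiv_comp_neg' (fun w => lift L (x, w, -t)) v

lemma Lvv_rev (L : Phase n → ℝ) (x v : E n) (t : ℝ) : Lvv (rev L) x v t = Lvv L x (-v) (-t) := by
  simp only [Lvv, Lv_rev]
  have h1 : (fun w => - Lv L x (-w) (-t)) = - (fun w => Lv L x (-w) (-t)) := rfl
  rw [h1, fderiv_neg, fderiv_comp_neg' (fun w => Lv L x w (-t)) v, neg_neg]

lemma IsC2.rev {L : Phase n → ℝ} (h : IsC2 L) : IsC2 (rev L) := by
  refine ⟨?_, fun x v t w hw => ?_⟩
  · have : lift (Mane.rev L) = lift L ∘ (fun p : E n × E n × ℝ => (p.1, -p.2.1, -p.2.2)) := by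
      ext1 p; exact lift_rev L p.1 p.2.1 p.2.2
    rw [this]
    exact h.smooth.comp (by fun_prop)
  · rw [Lvv_rev]; exact h.convex _ _ _ _ hw

lemma Close.rev {L L' : Phase n → ℝ} {η : ℝ} (h : Close L L' η) : Close (rev L) (rev L') η := by
  refine ⟨fun x v t => ?_, fun x v t => ?_⟩
  · rw [Lv_rev, Lv_rev, h.lv]
  · rw [Lx_rev, Lx_rev]; exact h.lx _ _ _

lemma ELOn.rev {L : Phase n → ℝ} {γ w : ℝ → E n} {a b : ℝ} (h : ELOn L γ w a b) :
    ELOn (rev L) (fun t => γ (-t)) (fun t => - w (-t)) (-b) (-a) := by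
  have hmap : MapsTo (fun t : ℝ => -t) (Icc (-b) (-a)) (Icc a b) := by
    intro t ht; constructor <;> linarith [ht.1, ht.2]
  refine ⟨?_, fun t ht => ?_, fun t ht => ?_⟩
  · exact (h.cont.comp continuousOn_id.neg hmap).neg
  · have h1 := (h.dx (-t) (hmap ht)).scomp t (hasDerivWithinAt_id t (Icc (-b) (-a))).neg hmap
    simpa [Function.comp_def] using h1
  · have h1 := (h.dp (-t) (hmap ht)).scomp t (hasDerivWithinAt_id t (Icc (-b) (-a))).neg hmap
    have h2 := h1.neg
    simp only [Lv_rev, Lx_rev, neg_neg, neg_smul, one_smul] at h2 ⊢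
    exact h2

/-! ### Integer translations -/

lemma ELOn.translate {L : Phase n → ℝ} {γ w : ℝ → E n} {a b : ℝ} (h : ELOn L γ w a b) (k : Fin n → ℤ) (m : ℤ) :
    ELOn L (fun t => γ (t - m) + iv k) (fun t => w (t - m)) (a + m) (b + m) := by
  have hmap : MapsTo (fun t : ℝ => t - m) (Icc (a + m) (b + m)) (Icc a b) := by
    intro t ht; constructor <;> linarith [ht.1, ht.2]
  have hd : ∀ t, HasDerivWithinAt (fun t : ℝ => t - m) 1 (Icc (a+m) (b+m)) t := fun t =>
    (hasDerivWithinAt_id t _).sub_const (m:ℝ)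
  refine ⟨?_, fun t ht => ?_, fun t ht => ?_⟩
  · exact h.cont.comp (by fun_prop) hmap
  · have h1 := (h.dx (t - m) (hmap ht)).scomp t (hd t) hmap
    simpa [Function.comp_def] using h1.add_const (iv k)
  · have h1 := (h.dp (t - m) (hmap ht)).scomp t (hd t) hmap
    have e1 : ∀ s, Lv L (γ (s - m) + iv k) (w (s - m)) s = Lv L (γ (s - m)) (w (s - m)) (s - m) := by
      intro s
      have := per_LvF L (γ (s - m), w (s - m), s - m) k m
      simpa [LvF, tv] using this
    have e2 : Lx L (γ (t - m) + iv k) (w (t - m)) t = Lx L (γ (t - m)) (w (t - m)) (t - m) := by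
      have := per_LxF L (γ (t - m), w (t - m), t - m) k m
      simpa [LxF, tv] using this
    simp only [e1, e2]
    simpa [Function.comp_def] using h1

lemma IsEL.hasDerivAt {L : Phase n → ℝ} {γ : ℝ → E n} (h : IsEL L γ) (t : ℝ) : HasDerivAt γ (deriv γ t) t :=
  ((h.c1.differentiable one_ne_zero) t).hasDerivAt

lemma deriv_translate (γ : ℝ → E n) (k : Fin n → ℤ) (m : ℤ) (t : ℝ) :
    deriv (fun s => γ (s - m) + iv k) t = deriv γ (t - m) := by
  rw [deriv_add_const]
  exact deriv_comp_sub_const (f := γ) (a := (m:ℝ)) (x := t)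

lemma IsEL.translate {L : Phase n → ℝ} {γ : ℝ → E n} (h : IsEL L γ) (k : Fin n → ℤ) (m : ℤ) :
    IsEL L (fun t => γ (t - m) + iv k) := by
  refine ⟨?_, fun t => ?_⟩
  · exact (h.c1.comp (contDiff_id.sub contDiff_const)).add contDiff_const
  · simp only [ELAt, deriv_translate]
    have h0 : HasDerivAt (fun s => Lv L (γ s) (deriv γ s) s) (Lx L (γ (t - m)) (deriv γ (t - m)) (t - m)) (t - m) := h.el (t - m)
    have h1 := h0.scomp t ((hasDerivAt_id t).sub_const (m:ℝ))
    have e1 : ∀ s, Lv L (γ (s - m) + iv k) (deriv γ (s - m)) s = Lv L (γ (s - m)) (deriv γ (s - m)) (s - m) := by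
      intro s
      have := per_LvF L (γ (s - m), deriv γ (s - m), s - m) k m
      simpa [LvF, tv] using this
    have e2 : Lx L (γ (t - m) + iv k) (deriv γ (t - m)) t = Lx L (γ (t - m)) (deriv γ (t - m)) (t - m) := by
      have := per_LxF L (γ (t - m), deriv γ (t - m), t - m) k m
      simpa [LxF, tv] using this
    simp only [e1, e2]
    simpa [Function.comp_def] using h1

end Pool.Agent.Lib.Mane
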