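import Pool.Agent.Lib.Mane.Corner

open Set Filter Topology MeasureTheory Metric BoundedContinuousFunction
open scoped ENNReal NNReal Interval RealInnerProductSpace

namespace Pool.Agent.Lib.Mane

variable {n : ℕ}

/-- the Lagrangian `L - ⟨c, v⟩` -/
noncomputable def shift (L : Phase n → ℝ) (c : E n) : Phase n → ℝ := fun z => L z - ⟪c, z.2.1⟫

lemma lift_shift (L : Phase n → ℝ) (c x v : E n) (t : ℝ) : lift (shift L c) (x, v, t) = lift L (x, v, t) - ⟪c, v⟫ := rfl

lemma Lx_shift (L : Phase n → ℝ) (c x v : E n) (t : ℝ) : Lx (shift L c) x v t = Lx L x v t := by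
  simp only [Lx, lift_shift]
  rw [fderiv_sub_const]

lemma Lv_shift {L : Phase n → ℝ} (hL : IsC2 L) (c x v : E n) (t : ℝ) :
    Lv (shift L c) x v t = Lv L x v t - innerSL ℝ c := by
  simp only [Lv, lift_shift]
  have h1 : HasFDerivAt (fun w => lift L (x, w, t)) (fderiv ℝ (fun w => lift L (x, w, t)) v) v :=
    (hasFDerivAt_slice_v (hL.smooth.differentiable two_ne_zero) x v t).differentiableAt.hasFDerivAt
  have h2 : HasFDerivAt (fun w : E n => ⟪c, w⟫) (innerSL ℝ c) v := (innerSL ℝ c).hasFDerivAt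
  exact (h1.sub h2).fderiv

lemma Lvv_shift {L : Phase n → ℝ} (hL : IsC2 L) (c x v : E n) (t : ℝ) : Lvv (shift L c) x v t = Lvv L x v t := by
  simp only [Lvv, Lv_shift hL]
  rw [fderiv_sub_const]

lemma IsC2.shift {L : Phase n → ℝ} (hL : IsC2 L) (c : E n) : IsC2 (shift L c) := by
  refine ⟨?_, fun x v t w hw => ?_⟩
  · have : lift (Mane.shift L c) = fun p => lift L p - innerSL ℝ c p.2.1 := by
      ext ⟨x, v, t⟩; exact lift_shift L c x v t
    rw [this]
    exact hL.smooth.sub ((innerSL ℝ c).contDiff.comp (contDiff_fst.comp contDiff_snd))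
  · rw [Lvv_shift hL]; exact hL.convex x v t w hw

lemma shift_shift (L : Phase n → ℝ) (c : E n) : shift (shift L c) (-c) = L := by
  ext z; simp [shift]

lemma isEL_shift {L : Phase n → ℝ} (hL : IsC2 L) (c : E n) {γ : ℝ → E n} : IsEL (shift L c) γ ↔ IsEL L γ := by
  have key : ∀ (L : Phase n → ℝ), IsC2 L → ∀ c : E n, IsEL L γ → IsEL (shift L c) γ := by
    intro L hL c h
    refine ⟨h.c1, fun t => ?_⟩
    simp only [ELAt, Lv_shift hL, Lx_shift]
    have h0 : HasDerivAt (fun s => Lv L (γ s) (deriv γ s) s) (Lx L (γ t) (deriv γ t) t) t := h.el t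
    exact h0.sub_const _
  refine ⟨fun h => ?_, key L hL c⟩
  have := key _ (hL.shift c) (-c) h
  rwa [shift_shift] at this

lemma elOn_shift {L : Phase n → ℝ} (hL : IsC2 L) (c : E n) {γ w : ℝ → E n} {a b : ℝ} (h : ELOn (shift L c) γ w a b) :
    ELOn L γ w a b := by
  refine ⟨h.cont, h.dx, fun t ht => ?_⟩
  have := h.dp t ht
  simp only [Lv_shift hL, Lx_shift] at this
  have h2 := this.add_const (innerSL ℝ c)
  simpa using h2

lemma superlinear_shift {L : Phase n → ℝ} (hL : ∀ A : ℝ, ∃ R : ℝ, ∀ z : Phase n, R ≤ ‖z.2.1‖ → A * ‖z.2.1‖ ≤ L z) (c : E n) :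
    ∀ A : ℝ, ∃ R : ℝ, ∀ z : Phase n, R ≤ ‖z.2.1‖ → A * ‖z.2.1‖ ≤ shift L c z := by
  intro A
  obtain ⟨R, hR⟩ := hL (A + ‖c‖)
  refine ⟨R, fun z hz => ?_⟩
  have h1 := hR z hz
  have h2 := real_inner_le_norm c z.2.1
  simp only [shift]
  linarith

lemma IsTonelli.shift {L : Phase n → ℝ} (hL : IsTonelli L) (c : E n) : IsTonelli (shift L c) := by
  refine IsTonelli.mk' (hL.isC2.shift c).smooth (hL.isC2.shift c).convex (superlinear_shift hL.superlinear c) (fun x v t => ?_)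
  obtain ⟨γ, h1, h2, h3⟩ := hL.complete x v t
  exact ⟨γ, (isEL_shift hL.isC2 c).mpr h1, h2, h3⟩

lemma flow_shift {L : Phase n → ℝ} (hL : IsTonelli L) (c : E n) (r : ℝ) (z : Phase n) : flow (shift L c) r z = flow L r z := by
  obtain ⟨γ, s, hγ, rfl⟩ := exists_state hL z
  rw [flow_state hL.isC2 hγ, flow_state (hL.isC2.shift c) ((isEL_shift hL.isC2 c).mpr hγ)]

lemma isInv_shift {L : Phase n → ℝ} (hL : IsTonelli L) (c : E n) {μ : ProbabilityMeasure (Phase n)} :
    IsInv (shift L c) μ ↔ IsInv L μ := by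
  have : ∀ r, flow (shift L c) r = flow L r := fun r => by ext1 z; exact flow_shift hL c r z
  constructor
  · intro h; exact ⟨h.compact_support, fun r => by rw [← this r]; exact h.invariant r⟩
  · intro h; exact ⟨h.compact_support, fun r => by rw [this r]; exact h.invariant r⟩

lemma Conc.action_shift {L : Phase n → ℝ} (hL : Continuous L) {K : ℝ} {μ : ProbabilityMeasure (Phase n)} (hμ : Conc K μ) (c : E n) :
    action (shift L c) μ = action L μ - ⟪c, rot μ⟫ := by
  have i1 : Integrable L (μ : Measure (Phase n)) := hμ.integrable hL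
  have i2 : Integrable (fun z : Phase n => z.2.1) (μ : Measure (Phase n)) := hμ.integrable (by fun_prop)
  simp only [action, shift, rot]
  rw [integral_sub i1 (i2.const_inner c), integral_inner i2 c]

/-! ### Adding potentials -/

lemma shift_addPot (L : Phase n → ℝ) (f : Tor n × UnitAddCircle → ℝ) (c : E n) :
    shift (addPot L f) c = addPot (shift L c) f := by
  ext z; simp only [shift, addPot]; ring

lemma lift_addPot (L : Phase n → ℝ) (f : Tor n × UnitAddCircle → ℝ) (x v : E n) (t : ℝ) :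
    lift (addPot L f) (x, v, t) = lift L (x, v, t) + liftP f (x, t) := rfl

lemma Lv_addPot (L : Phase n → ℝ) (f : Tor n × UnitAddCircle → ℝ) (x v : E n) (t : ℝ) :
    Lv (addPot L f) x v t = Lv L x v t := by
  simp only [Lv, lift_addPot]
  rw [fderiv_add_const]

lemma Lx_addPot {L : Phase n → ℝ} (hL : IsC2 L) {f : Tor n × UnitAddCircle → ℝ} (hf : ContDiff ℝ 1 (liftP f)) (x v : E n) (t : ℝ) :
    Lx (addPot L f) x v t = Lx L x v t + (fderiv ℝ (liftP f) (x, t)).comp (ContinuousLinearMap.inl ℝ (E n) ℝ) := by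
  simp only [Lx, lift_addPot]
  have h1 : HasFDerivAt (fun y => lift L (y, v, t)) (fderiv ℝ (fun y => lift L (y, v, t)) x) x :=
    (hasFDerivAt_slice_x (hL.smooth.differentiable two_ne_zero) x v t).differentiableAt.hasFDerivAt
  have h2 : HasFDerivAt (fun y : E n => liftP f (y, t)) ((fderiv ℝ (liftP f) (x, t)).comp (ContinuousLinearMap.inl ℝ (E n) ℝ)) x := by
    have a1 : HasFDerivAt (fun y : E n => ((y, t) : E n × ℝ)) (ContinuousLinearMap.inl ℝ (E n) ℝ) x :=
      (hasFDerivAt_id (𝕜 := ℝ) x).prodMk (hasFDerivAt_const t x)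
    exact ((hf.differentiable one_ne_zero) (x, t)).hasFDerivAt.comp x a1
  exact (h1.add h2).fderiv

/-- `C^1` closeness of potentials -/
def PClose (f g : Tor n × UnitAddCircle → ℝ) (ρ : ℝ) : Prop :=
  (∀ p, |liftP f p - liftP g p| ≤ ρ) ∧ ∀ p, ‖fderiv ℝ (liftP f) p - fderiv ℝ (liftP g) p‖ ≤ ρ

lemma PClose.abs_le {f g : Tor n × UnitAddCircle → ℝ} {ρ : ℝ} (h : PClose f g ρ) (p : Tor n × UnitAddCircle) : |f p - g p| ≤ ρ := by
  obtain ⟨x, hx⟩ := q_surjective p.1
  obtain ⟨t, ht⟩ := coe_surjective p.2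
  have := h.1 (x, t)
  simp only [liftP, hx, ht] at this
  exact this

lemma PClose.symm {f g : Tor n × UnitAddCircle → ℝ} {ρ : ℝ} (h : PClose f g ρ) : PClose g f ρ :=
  ⟨fun p => by rw [abs_sub_comm]; exact h.1 p, fun p => by rw [norm_sub_rev]; exact h.2 p⟩

lemma PClose.mono {f g : Tor n × UnitAddCircle → ℝ} {ρ ρ' : ℝ} (h : PClose f g ρ) (hρ : ρ ≤ ρ') : PClose f g ρ' :=
  ⟨fun p => (h.1 p).trans hρ, fun p => (h.2 p).trans hρ⟩

lemma PClose.close {L : Phase n → ℝ} (hL : IsC2 L) {f g : Tor n × UnitAddCircle → ℝ} (hf : ContDiff ℝ 1 (liftP f))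
    (hg : ContDiff ℝ 1 (liftP g)) {ρ : ℝ} (h : PClose f g ρ) : Close (addPot L f) (addPot L g) ρ := by
  refine ⟨fun x v t => by rw [Lv_addPot, Lv_addPot], fun x v t => ?_⟩
  rw [Lx_addPot hL hf, Lx_addPot hL hg, add_sub_add_left_eq_sub, ← ContinuousLinearMap.sub_comp]
  refine (ContinuousLinearMap.opNorm_comp_le _ _).trans ?_
  have h1 : ‖ContinuousLinearMap.inl ℝ (E n) ℝ‖ ≤ 1 := ContinuousLinearMap.norm_inl_le_one ℝ (E n) ℝ
  have h2 := h.symm.2 (x, t)
  calc _ ≤ ρ * 1 := mul_le_mul h2 h1 (norm_nonneg _) ((norm_nonneg _).trans h2)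
    _ = ρ := mul_one _

end Pool.Agent.Lib.Mane
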