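import Pool.Agent.Lib.Mane.Shift

open Set Filter Topology MeasureTheory Metric BoundedContinuousFunction
open scoped ENNReal NNReal Interval RealInnerProductSpace

namespace Pool.Agent.Lib.Mane

variable {n : ℕ}

/-- speed constants which are uniform near `L` and for bounded cohomology classes -/
lemma exists_unif_speedData {L : Phase n → ℝ} (hL : IsTonelli L) (R : ℝ) :
    ∃ C0 C2 K0, ∃ ρ > 0, ∀ L' : Phase n → ℝ, IsTonelli L' → Close L L' ρ → (∀ z, |L' z - L z| ≤ ρ) →
      ∀ c : E n, ‖c‖ ≤ R → SpeedData (shift L' c) C0 C2 K0 := by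
  obtain ⟨C1, hC1, h1⟩ := exists_abs_bound hL.smooth.continuous (n + 1)
  obtain ⟨R1, hR1⟩ := hL.superlinear (|R| + 1)
  set C0 := C1 + 1 + |R| * (n + 1) with hC0
  set C2 := max R1 (C0 + 1) with hC2
  obtain ⟨K0, ρ, hρ, hsp⟩ := speed_bound hL C2 2
  refine ⟨C0, C2, max K0 C2, min ρ 1, lt_min hρ one_pos, fun L' hL' hcl hLL c hc => ⟨?_, ?_, le_max_right _ _, ?_⟩⟩
  · intro z hz
    have a1 := h1 z hz
    have a2 := hLL z
    have a3 := abs_real_inner_le_norm c z.2.1
    have a4 : ‖c‖ * ‖z.2.1‖ ≤ |R| * (n + 1) := by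
      have : ‖c‖ ≤ |R| := hc.trans (le_abs_self R)
      gcongr
    have a5 : min ρ 1 ≤ 1 := min_le_right _ _
    simp only [shift]
    rw [abs_le] at a1 a2 a3
    linarith
  · intro z hz
    by_contra hcon
    push Not at hcon
    rw [max_lt_iff] at hcon
    have a1 := hR1 z hcon.1.le
    have a2 := hLL z
    have a3 := abs_real_inner_le_norm c z.2.1
    have a4 : ‖c‖ * ‖z.2.1‖ ≤ |R| * ‖z.2.1‖ := by
      have : ‖c‖ ≤ |R| := hc.trans (le_abs_self R)
      gcongr
    have a5 : min ρ 1 ≤ 1 := min_le_right _ _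
    simp only [shift] at hz
    rw [abs_le] at a2 a3
    linarith [hcon.2]
  · intro γ w a b hel hab s hs hw t ht
    exact (hsp L' (hcl.mono (min_le_left _ _)) γ w a b (elOn_shift hL'.isC2 c hel) hab s hs hw t ht).trans (le_max_left _ _)

lemma IsMin.lowBd {L : Phase n → ℝ} (hL : IsTonelli L) {μ : ProbabilityMeasure (Phase n)} (hμ : IsMin L μ) :
    ∃ B, LowBd L (action L μ) B := by
  obtain ⟨C0, C2, K0, hS⟩ := exists_speedData hL
  exact ⟨_, fun R a b A x y hab h => reach_lower hL hS (m := action L μ) (fun ν hν _ => hμ.2 ν hν) hab h⟩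

lemma IsMin.conc {L : Phase n → ℝ} (hL : IsTonelli L) {μ : ProbabilityMeasure (Phase n)} (hμ : IsMin L μ) {C0 C2 K0 : ℝ}
    (hS : SpeedData L C0 C2 K0) : Conc K0 μ := by
  obtain ⟨B, hB⟩ := hμ.lowBd hL
  have h1 := calG_ae hL hB hμ.1 rfl
  have h2 := calG_speed hL hB hS
  have : ∀ᵐ z ∂(μ : Measure (Phase n)), z ∈ slab n K0 := by
    filter_upwards [h1] with z hz using h2 hz
  rw [ae_iff] at this
  exact this

lemma IsMin.cross {L L' : Phase n → ℝ} (hL : IsTonelli L) {μ : ProbabilityMeasure (Phase n)} (hμ : IsMin L μ)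
    (hL' : IsTonelli L') {ν : ProbabilityMeasure (Phase n)} (hν : IsInv L' ν) : action L μ ≤ action L ν := by
  obtain ⟨C0, C2, K0, hS⟩ := exists_speedData hL
  exact cross_lower hL hS (m := action L μ) (fun ν hν _ => hμ.2 ν hν) hL' hν

lemma IsMin.unique_of_prj {L : Phase n → ℝ} (hL : IsTonelli L) {μ1 μ2 : ProbabilityMeasure (Phase n)} (h1 : IsMin L μ1)
    (h2 : IsMin L μ2) (hp : (μ1 : Measure (Phase n)).map prj = (μ2 : Measure (Phase n)).map prj) : μ1 = μ2 := by
  obtain ⟨B, hB⟩ := h1.lowBd hL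
  exact eq_of_map_prj_eq hL hB h1.1 h2.1 rfl (le_antisymm (h2.2 _ h1.1) (h1.2 _ h2.1)) hp

lemma continuous_of_tonelli {L : Phase n → ℝ} (hL : IsTonelli L) : Continuous L := continuous_of_lift hL.smooth.continuous

lemma tendsto_rot {ι : Type*} {l : Filter ι} {μs : ι → ProbabilityMeasure (Phase n)} {μ : ProbabilityMeasure (Phase n)}
    {K : ℝ} (hs : ∀ᶠ i in l, Conc K (μs i)) (hμ : Conc K μ) (h : Tendsto μs l (𝓝 μ)) :
    Tendsto (fun i => rot (μs i)) l (𝓝 (rot μ)) := by
  have key : ∀ j : Fin n, Tendsto (fun i => (rot (μs i)) j) l (𝓝 ((rot μ) j)) := by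
    intro j
    have hc : Continuous (fun z : Phase n => z.2.1 j) := by fun_prop
    have h1 := tendsto_integral_conc hs hμ h hc
    have e : ∀ ν : ProbabilityMeasure (Phase n), Conc K ν → (rot ν) j = ∫ z : Phase n, z.2.1 j ∂(ν : Measure (Phase n)) := by
      intro ν hν
      have i1 : Integrable (fun z : Phase n => z.2.1) (ν : Measure (Phase n)) := hν.integrable (by fun_prop)
      have := (EuclideanSpace.proj (𝕜 := ℝ) j : E n →L[ℝ] ℝ).integral_comp_comm i1
      exact this.symm
    rw [e μ hμ]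
    apply h1.congr'
    filter_upwards [hs] with i hi using (e _ hi).symm
  have h2 : Tendsto (fun i => (rot (μs i)).ofLp) l (𝓝 (rot μ).ofLp) := tendsto_pi_nhds.mpr key
  exact ((PiLp.continuous_toLp 2 (fun _ : Fin n => ℝ)).tendsto _).comp h2

lemma norm_rot_le {K : ℝ} {μ : ProbabilityMeasure (Phase n)} (h : Conc K μ) : ‖rot μ‖ ≤ K := by
  have := norm_integral_le_of_norm_le_const (μ := (μ : Measure (Phase n))) (f := fun z : Phase n => z.2.1) (C := K)
    (by filter_upwards [h.ae] with z hz using hz)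
  simpa [rot] using this

/-- limits of minimizing measures are minimizing -/
lemma isMin_limit {L : Phase n → ℝ} (hL : IsTonelli L) {Ls : ℕ → Phase n → ℝ} (hLs : ∀ i, IsTonelli (Ls i))
    (hcl : ∀ ρ > 0, ∀ᶠ i in atTop, Close L (Ls i) ρ) (habs : ∀ ρ > 0, ∀ᶠ i in atTop, ∀ z, |Ls i z - L z| ≤ ρ)
    {cs : ℕ → E n} {c : E n} (hcs : Tendsto cs atTop (𝓝 c))
    {μs : ℕ → ProbabilityMeasure (Phase n)} {μ : ProbabilityMeasure (Phase n)} {K : ℝ}
    (hmin : ∀ i, IsMin (shift (Ls i) (cs i)) (μs i)) (hK : ∀ᶠ i in atTop, Conc K (μs i)) (hμ : Conc K μ)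
    (hlim : Tendsto μs atTop (𝓝 μ)) : IsMin (shift L c) μ := by
  have hinv : ∀ i, IsInv (Ls i) (μs i) := fun i => (isInv_shift (hLs i) _).mp (hmin i).1
  have hμi : IsInv L μ := isInv_limit hL (Eventually.of_forall hLs) hcl (Eventually.of_forall hinv) hK hμ hlim
  have hLc := continuous_of_tonelli hL
  refine ⟨(isInv_shift hL c).mpr hμi, fun ν hν => ?_⟩
  obtain ⟨K', hK'⟩ := hν.exists_conc
  -- convergence of actions
  have habs' : ∀ (ms : ℕ → ProbabilityMeasure (Phase n)) (mm : ProbabilityMeasure (Phase n)) (K : ℝ),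
      (∀ᶠ i in atTop, Conc K (ms i)) → Conc K mm → Tendsto ms atTop (𝓝 mm) →
      Tendsto (fun i => action (shift (Ls i) (cs i)) (ms i)) atTop (𝓝 (action (shift L c) mm)) := by
    intro ms mm K hms hmm hmlim
    have h1 : Tendsto (fun i => action L (ms i)) atTop (𝓝 (action L mm)) := tendsto_integral_conc hms hmm hmlim hLc
    have h2 := tendsto_rot hms hmm hmlim
    have h3 : Tendsto (fun i => action L (ms i) - ⟪cs i, rot (ms i)⟫) atTop (𝓝 (action L mm - ⟪c, rot mm⟫)) :=
      h1.sub (hcs.inner h2)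
    rw [← hmm.action_shift hLc c] at h3
    have h4 : Tendsto (fun i => action (Ls i) (ms i) - action L (ms i)) atTop (𝓝 0) := by
      rw [Metric.tendsto_nhds]
      intro ε hε
      filter_upwards [habs (ε / 2) (half_pos hε), hms] with i hi1 hi2
      rw [Real.dist_eq, sub_zero]
      simp only [action]
      rw [← integral_sub (hi2.integrable (continuous_of_tonelli (hLs i))) (hi2.integrable hLc)]
      have := norm_integral_le_of_norm_le_const (μ := (ms i : Measure (Phase n)))
        (f := fun z => Ls i z - L z) (C := ε / 2) (Eventually.of_forall hi1)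
      simp only [probReal_univ, mul_one, Real.norm_eq_abs] at this
      linarith
    have h5 := h4.add h3
    rw [zero_add] at h5
    apply h5.congr'
    filter_upwards [hms] with i hi
    rw [hi.action_shift (continuous_of_tonelli (hLs i))]
    ring
  have l1 := habs' μs μ K hK hμ hlim
  have l2 := habs' (fun _ => ν) ν K' (Eventually.of_forall fun _ => hK') hK' tendsto_const_nhds
  exact le_of_tendsto_of_tendsto' l1 l2 (fun i => (hmin i).cross ((hLs i).shift _) (hL.shift c) hν)

end Pool.Agent.Lib.Mane
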